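import Pool.Agent.ThR.Seven

/-! # `E_6`: Levi subgroup of type `A_2 A_2 A_1`, no fixed vectors (MP_3d54b6_al, part D) -/

namespace Pool.Agent.ThR

open ThE ThK Polynomial

variable {n : ℕ} {K : Type*} [Field K] {L : Type*} [Field L] {l : Vec n → ℤ} {m m' : ℕ} {G : Type*} [Group G]

/-- `F : SL_m(K) → G` is the homomorphism of the family `u` -/
def HomF (x : Root n → K → G) (u : Fin m → Vec n) (F : Matrix.SpecialLinearGroup (Fin m) K →* G) : Prop :=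
  ∀ i j, i ≠ j → ∀ a, F (el K i j a) = X x (u i - u j) (cf K u i j * a)

/-- orthogonal families -/
def Orth (u : Fin m → Vec n) (u' : Fin m' → Vec n) : Prop := ∀ i j a b, i ≠ j → a ≠ b → bf (u i - u j) (u' a - u' b) = 0

-- BEGIN ha
private def ha_rt {u : Fin m → Vec n} (hu : Fam l u) (r0 : Root n) (i j : Fin m) : Root n :=
  if h : i ≠ j then ⟨u i - u j, (hu i j h).1⟩ else r0

private theorem ha_val {u : Fin m → Vec n} (hu : Fam l u) (r0 : Root n) {i j : Fin m} (h : i ≠ j) :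
    (ha_rt hu r0 i j).1 = u i - u j := by
  unfold ha_rt
  rw [dif_pos h]

private theorem ha_X (x : Root n → K → G) {v : Vec n} {r : Root n} (hr : r.1 = v) (a : K) : X x v a = x r a := by
  subst hr
  exact X_of x r.2 a

/-- MODULE ha. `StA_of` with `ρ i j` the root of `u i - u j` (`i = j`: any root, for instance that of `u 0 - u 1`; `m ≤ 1` is trivial: `SL_m(K)` has no `el`) and the signs `cf K u` (`cf_sq`, `cf_swap`, `cf_mul`, `fam_form`); then `pres`. -/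
theorem exists_HomF (hn : n = 6 ∨ n = 7 ∨ n = 8) {x : Root n → K → G} (h : Stb K n x) {u : Fin m → Vec n} (hu : Fam l u) :
    ∃ F : Matrix.SpecialLinearGroup (Fin m) K →* G, HomF x u F := by
  by_cases hne : ∃ i j : Fin m, i ≠ j
  · obtain ⟨i0, j0, h0⟩ := hne
    have hst : StA K m (fun i j a => x (ha_rt hu ⟨u i0 - u j0, (hu i0 j0 h0).1⟩ i j) (cf K u i j * a)) := by
      refine StA_of hn h _ (cf K u) ?_ ?_ ?_ ?_ ?_ ?_
      · intro i j hij
        apply Subtype.ext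
        rw [neg_val, ha_val hu _ hij.symm, ha_val hu _ hij]
        abel
      · intro i j p hij hjp hip
        rw [ha_val hu _ hip, ha_val hu _ hij, ha_val hu _ hjp]
        abel
      · intro i j a b hij hab hja hib
        rw [ha_val hu _ hij, ha_val hu _ hab]
        exact fam_form hu hij hab hja hib
      · intro i j
        exact cf_sq u i j
      · intro i j hij
        exact cf_swap hu hij
      · intro i j p hij hjp hip
        rw [ha_val hu _ hij, ha_val hu _ hjp]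
        exact cf_mul u i j p
    obtain ⟨F, hF⟩ := pres hst
    refine ⟨F, fun i j hij a => ?_⟩
    rw [hF i j hij a, ha_X x (ha_val hu _ hij)]
  · exact ⟨1, fun i j hij => absurd ⟨i, j, hij⟩ hne⟩

/-- the image of `hA (el K) i j t` is `h_(u_i - u_j)(t)`: `hA (fun i j a => X x (u i - u j) (cf i j * a)) i j t = nn (c t) nn (-c)`, `c = cf i j = ± 1`, `Stb.tor` (as in `StA_of`; `nn x r (-1) = (nn x r 1)⁻¹`, `hh x r (-1) * hh x r (-1) = 1`) -/
theorem HomF.hA (hn : n = 6 ∨ n = 7 ∨ n = 8) {x : Root n → K → G} (h : Stb K n x) {u : Fin m → Vec n} (hu : Fam l u) {F : Matrix.SpecialLinearGroup (Fin m) K →* G}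
    (hF : HomF x u F) {i j : Fin m} (hij : i ≠ j) {r : Root n} (hr : r.1 = u i - u j) (t : Kˣ) : F (ThK.hA (el K) i j (t : K)) = hh x r (t : K) := by
  have c1 := cf_sq (K := K) u i j
  have hc0 : cf K u i j ≠ 0 := fun e => by
    rw [e, mul_zero] at c1
    exact zero_ne_one c1
  have hc : (cf K u i j)⁻¹ = cf K u i j := inv_eq_of_mul_eq_one_right c1
  have hr' : (-r).1 = u j - u i := by
    rw [neg_val, hr]
    abel
  have e0 : ∀ b : K, F (nA (el K) i j b) = ThK.nn x r (cf K u i j * b) := by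
    intro b
    unfold nA ThK.nn
    rw [map_mul, map_mul, hF i j hij, hF j i hij.symm, ha_X x hr, ha_X x hr', cf_swap hu hij, neg_mul_neg, mul_inv, hc]
  have ht0 : (t : K) ≠ 0 := t.ne_zero
  have e1 : F (ThK.hA (el K) i j (t : K)) = ThK.nn x r (cf K u i j * t) * ThK.nn x r (cf K u i j * -1) := by
    unfold ThK.hA
    rw [map_mul, e0, e0]
  have e2 : ThK.nn x r (cf K u i j * t) = hh x r (cf K u i j * t) * (ThK.nn x r (-1))⁻¹ := by
    unfold ThK.hh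
    group
  have e3 : ThK.nn x r (cf K u i j * -1) = ThK.nn x r (-1) * (hh x r (cf K u i j))⁻¹ := by
    unfold ThK.hh
    rw [mul_neg_one, ← ThK.nn_inv h]
    group
  have e4 : hh x r (cf K u i j * t) = hh x r (t : K) * hh x r (cf K u i j) := by
    rw [mul_comm, h.tor _ _ _ ht0 hc0]
  rw [e1, e2, e3, e4]
  group
-- END ha

-- BEGIN hb
private theorem hb_ind (F : Matrix.SpecialLinearGroup (Fin m) K →* G) (c : G) (h : ∀ i j, i ≠ j → ∀ a, F (el K i j a) * c = c * F (el K i j a))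
    (M : Matrix.SpecialLinearGroup (Fin m) K) : F M * c = c * F M := by
  have h1 : (⊤ : Subgroup (Matrix.SpecialLinearGroup (Fin m) K)) ≤ (Subgroup.centralizer {c}).comap F := by
    rw [← el_gen K m, Subgroup.closure_le]
    rintro g ⟨i, j, a, hij, rfl⟩
    show F (el K i j a) ∈ Subgroup.centralizer {c}
    rw [Subgroup.mem_centralizer_iff]
    intro y hy
    rw [Set.mem_singleton_iff.1 hy]
    exact (h i j hij a).symm
  have h2 : F M ∈ Subgroup.centralizer {c} := h1 (Subgroup.mem_top M)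
  rw [Subgroup.mem_centralizer_iff] at h2
  exact (h2 c rfl).symm

/-- MODULE hb. `el_gen`, closure induction; `l (u i - u j) = 0`. -/
theorem HomF.mem {x : Root n → K → G} {u : Fin m → Vec n} (hu : Fam l u) {F : Matrix.SpecialLinearGroup (Fin m) K →* G} (hF : HomF x u F)
    (M : Matrix.SpecialLinearGroup (Fin m) K) : F M ∈ Lv x l := by
  have h1 : (⊤ : Subgroup (Matrix.SpecialLinearGroup (Fin m) K)) ≤ (Lv x l).comap F := by
    rw [← el_gen K m, Subgroup.closure_le]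
    rintro g ⟨i, j, a, hij, rfl⟩
    show F (el K i j a) ∈ Lv x l
    have h2 := hu i j hij
    rw [hF i j hij a, X_of x h2.1]
    exact Subgroup.subset_closure ⟨⟨u i - u j, h2.1⟩, _, h2.2, rfl⟩
  exact h1 (Subgroup.mem_top M)

/-- `X_op`, `cf_neg`, `-u i - -u j = -(u i - u j)` -/
theorem HomF.op {x : Root n → K → G} {u : Fin m → Vec n} {F : Matrix.SpecialLinearGroup (Fin m) K →* G} (hF : HomF x u F) : HomF (op x) (fun i => -u i) F := by
  intro i j hij a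
  have h1 : -u i - -u j = -(u i - u j) := by abel
  rw [hF i j hij a, cf_neg]
  show X x (u i - u j) (cf K u i j * a) = X (ThK.op x) (-u i - -u j) (cf K u i j * a)
  rw [h1, X_op]

/-- `el_gen`, closure induction twice; generators: `Stb.commute` -/
theorem HomF.comm {x : Root n → K → G} (h : Stb K n x) {u : Fin m → Vec n} {u' : Fin m' → Vec n} (ho : Orth u u')
    {F : Matrix.SpecialLinearGroup (Fin m) K →* G} (hF : HomF x u F) {F' : Matrix.SpecialLinearGroup (Fin m') K →* G} (hF' : HomF x u' F')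
    (M : Matrix.SpecialLinearGroup (Fin m) K) (M' : Matrix.SpecialLinearGroup (Fin m') K) : F M * F' M' = F' M' * F M := by
  refine hb_ind F (F' M') (fun i j hij a => ?_) M
  refine (hb_ind F' (F (el K i j a)) (fun p q hpq b => ?_) M').symm
  rw [hF i j hij a, hF' p q hpq b]
  unfold X
  split_ifs with h1 h2
  · exact h.commute (r := ⟨u' p - u' q, h1⟩) (s := ⟨u i - u j, h2⟩) (by
      show 0 ≤ bf (u' p - u' q) (u i - u j)
      rw [bf_comm, ho i j p q hij hpq]) _ _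
  · rw [mul_one, one_mul]
  · rw [mul_one, one_mul]
  · rfl

/-- `hh_conj` -/
theorem HomF.hh_comm (hn : n = 6 ∨ n = 7 ∨ n = 8) {x : Root n → K → G} (h : Stb K n x) {u : Fin m → Vec n} {r : Root n} (hr : ∀ i j, i ≠ j → bf r.1 (u i - u j) = 0)
    {F : Matrix.SpecialLinearGroup (Fin m) K →* G} (hF : HomF x u F) (M : Matrix.SpecialLinearGroup (Fin m) K) (s : Kˣ) : F M * hh x r (s : K) = hh x r (s : K) * F M := by
  refine hb_ind F (hh x r (s : K)) (fun i j hij a => ?_) M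
  rw [hF i j hij a]
  unfold X
  split_ifs with h1
  · have h2 := hh_conj hn h r ⟨u i - u j, h1⟩ s.ne_zero (cf K u i j * a)
    have h3 : bf r.1 (⟨u i - u j, h1⟩ : Root n).1 = 0 := hr i j hij
    rw [h3, zpow_zero, one_mul, mul_inv_eq_iff_eq_mul] at h2
    exact h2.symm
  · rw [mul_one, one_mul]
-- END hb

-- BEGIN hc
private theorem hc_closure {H : Type*} [Group H] {R : Matrix.SpecialLinearGroup (Fin m) K →* H} {g : H}
    (h : ∀ i j a, i ≠ j → R (el K i j a) * g = g * R (el K i j a)) (M : Matrix.SpecialLinearGroup (Fin m) K) : R M * g = g * R M := by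
  have h1 : Subgroup.closure {g : Matrix.SpecialLinearGroup (Fin m) K | ∃ i j a, i ≠ j ∧ g = el K i j a} ≤
      (Subgroup.centralizer {g}).comap R := by
    rw [Subgroup.closure_le]
    rintro _ ⟨i, j, a, hij, rfl⟩
    rw [SetLike.mem_coe, Subgroup.mem_comap, Subgroup.mem_centralizer_singleton_iff]
    exact h i j a hij
  rw [el_gen] at h1
  have h2 : M ∈ (Subgroup.centralizer {g}).comap R := h1 (Subgroup.mem_top M)
  rw [Subgroup.mem_comap, Subgroup.mem_centralizer_singleton_iff] at h2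
  exact h2

/-- MODULE hc. The same for the operators: `el_gen`, closure induction, `Ao_cm` (`u i - u j + (u' a - u' b)` is not a root vector because the form is `0` (`isR_add_iff`), and not zero: `bf v v = 2`), `Ho_conj`. -/
theorem IsRep.comm {k : ℤ} (hn : n ≤ 8) (hl : Addl l) (hk : k ≠ 0) {u : Fin m → Vec n} {u' : Fin m' → Vec n} (hu : Fam l u) (hu' : Fam l u') (ho : Orth u u')
    {R : Matrix.SpecialLinearGroup (Fin m) K →* (Module.End K (Rk l k → K))ˣ} (hR : IsRep R u)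
    {R' : Matrix.SpecialLinearGroup (Fin m') K →* (Module.End K (Rk l k → K))ˣ} (hR' : IsRep R' u')
    (M : Matrix.SpecialLinearGroup (Fin m) K) (M' : Matrix.SpecialLinearGroup (Fin m') K) : R M * R' M' = R' M' * R M := by
  refine hc_closure (fun i j a hij => ?_) M
  refine (hc_closure (fun p q b hpq => ?_) M').symm
  rw [hR i j hij, hR' p q hpq]
  have h0 : bf (u' p - u' q) (u i - u j) = 0 := by
    rw [bf_comm]
    exact ho i j p q hij hpq
  refine Ao_cm hn hl hk (hu' p q hpq) (hu i j hij) ?_ ?_ _ _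
  · intro h
    have h1 : u' p - u' q = -(u i - u j) := eq_neg_of_add_eq_zero_left h
    rw [h1, bf_neg_left, isR_bf (hu i j hij).1] at h0
    omega
  · rw [isR_add_iff (hu' p q hpq).1 (hu i j hij).1, h0]
    omega

theorem IsRep.ho_comm {k : ℤ} {u : Fin m → Vec n} (hu : Fam l u) {c : Vec n} (hc : ∀ i j, i ≠ j → bf c (u i - u j) = 0)
    {R : Matrix.SpecialLinearGroup (Fin m) K →* (Module.End K (Rk l k → K))ˣ} (hR : IsRep R u) (M : Matrix.SpecialLinearGroup (Fin m) K) (s : Kˣ) :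
    R M * Ho l k K c s = Ho l k K c s * R M := by
  refine hc_closure (fun i j a hij => ?_) M
  rw [hR i j hij]
  have h1 := Ho_conj (l := l) (k := k) (hu i j hij) c s (cf K u i j * a)
  rw [hc i j hij, zpow_zero, Units.val_one, one_mul] at h1
  exact (mul_inv_eq_iff_eq_mul.1 h1).symm
-- END hc

-- BEGIN hd
/-- MODULE hd. NO FIXED VECTOR, two orthogonal families and a torus element orthogonal to both.  As `no_fix`: `ι f` is fixed by `R1 (map ι M) R1' (map ι M') Ho c (ι s)` (`rep_map` twice, `Ho_apply`), `= Q (R1 (dg D) R1' (dg D') Ho c (ι s)) Q⁻¹` with `Q = R1 g * R1' g'` (`IsRep.comm`, `IsRep.ho_comm`);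
so `(Q⁻¹) (ι f) v * weight = (Q⁻¹) (ι f) v` (`rep_dg`, `Ho_apply`). -/
theorem no_fix2 {k : ℤ} (hn : n ≤ 8) (hl : Addl l) (hk : k ≠ 0) (ι : K →+* L) {u : Fin (m + 1) → Vec n} {u' : Fin (m' + 1) → Vec n} (hu : Fam l u) (hu' : Fam l u') (ho : Orth u u')
    {c : Vec n} (hc : ∀ i j, i ≠ j → bf c (u i - u j) = 0) (hc' : ∀ i j, i ≠ j → bf c (u' i - u' j) = 0)
    {R : Matrix.SpecialLinearGroup (Fin (m + 1)) K →* (Module.End K (Rk l k → K))ˣ} (hR : IsRep R u)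
    {R' : Matrix.SpecialLinearGroup (Fin (m' + 1)) K →* (Module.End K (Rk l k → K))ˣ} (hR' : IsRep R' u')
    {M : Matrix.SpecialLinearGroup (Fin (m + 1)) K} {g : Matrix.SpecialLinearGroup (Fin (m + 1)) L} {D : Fin (m + 1) → Lˣ} (hD : ∏ i, D i = 1)
    (hM : Matrix.SpecialLinearGroup.map ι M = g * dg D hD * g⁻¹)
    {M' : Matrix.SpecialLinearGroup (Fin (m' + 1)) K} {g' : Matrix.SpecialLinearGroup (Fin (m' + 1)) L} {D' : Fin (m' + 1) → Lˣ} (hD' : ∏ i, D' i = 1)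
    (hM' : Matrix.SpecialLinearGroup.map ι M' = g' * dg D' hD' * g'⁻¹) (s : Kˣ)
    (hw : ∀ v : Rk l k, wt u D v.1 * wt u' D' v.1 * Units.map (ι : K →* L) s ^ bf c v.1 ≠ 1) {f : Rk l k → K} (hf : (R M * R' M' * Ho l k K c s).1 f = f) : f = 0 := by
  obtain ⟨R1, hR1⟩ := exists_rep (K := L) (k := k) hn hl hk hu
  obtain ⟨R2, hR2⟩ := exists_rep (K := L) (k := k) hn hl hk hu'
  have hH : (Ho l k L c (Units.map (ι : K →* L) s)).1 (fun w => ι (f w)) = fun w => ι ((Ho l k K c s).1 f w) := by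
    funext w
    rw [Ho_apply, Ho_apply, map_mul, ← map_zpow, Units.coe_map]
    rfl
  have h2 : (R2 (Matrix.SpecialLinearGroup.map ι M')).1 (fun w => ι ((Ho l k K c s).1 f w)) =
      fun w => ι ((R' M').1 ((Ho l k K c s).1 f) w) := by
    funext w
    exact rep_map ι hu' hR' hR2 M' _ w
  have h3 : (R1 (Matrix.SpecialLinearGroup.map ι M)).1 (fun w => ι ((R' M').1 ((Ho l k K c s).1 f) w)) =
      fun w => ι ((R M).1 ((R' M').1 ((Ho l k K c s).1 f)) w) := by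
    funext w
    exact rep_map ι hu hR hR1 M _ w
  have h4 : (R M).1 ((R' M').1 ((Ho l k K c s).1 f)) = f := hf
  have h5 : (R1 (Matrix.SpecialLinearGroup.map ι M) * R2 (Matrix.SpecialLinearGroup.map ι M') *
      Ho l k L c (Units.map (ι : K →* L) s)).1 (fun w => ι (f w)) = fun w => ι (f w) := by
    change (R1 (Matrix.SpecialLinearGroup.map ι M)).1 ((R2 (Matrix.SpecialLinearGroup.map ι M')).1
      ((Ho l k L c (Units.map (ι : K →* L) s)).1 (fun w => ι (f w)))) = _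
    rw [hH, h2, h3, h4]
  have hQ : R1 (Matrix.SpecialLinearGroup.map ι M) * R2 (Matrix.SpecialLinearGroup.map ι M') *
      Ho l k L c (Units.map (ι : K →* L) s) = (R1 g * R2 g') * (R1 (dg D hD) * R2 (dg D' hD') *
      Ho l k L c (Units.map (ι : K →* L) s)) * (R1 g * R2 g')⁻¹ := by
    have c1 : ∀ A B, Commute (R1 A) (R2 B) := fun A B => IsRep.comm hn hl hk hu hu' ho hR1 hR2 A B
    have c2 : ∀ A, Commute (R1 A) (Ho l k L c (Units.map (ι : K →* L) s)) := fun A => IsRep.ho_comm hu hc hR1 A _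
    have c3 : ∀ A, Commute (R2 A) (Ho l k L c (Units.map (ι : K →* L) s)) := fun A => IsRep.ho_comm hu' hc' hR2 A _
    rw [hM, hM', map_mul, map_mul, map_mul, map_mul, map_inv, map_inv]
    have e1 : (R1 g)⁻¹ * R2 g' = R2 g' * (R1 g)⁻¹ := (c1 g g').inv_left.eq
    have e2 : R1 (dg D hD) * R2 g' = R2 g' * R1 (dg D hD) := (c1 _ _).eq
    have e3 : (R1 g)⁻¹ * R2 (dg D' hD') = R2 (dg D' hD') * (R1 g)⁻¹ := (c1 g _).inv_left.eq
    have e4 : (R2 g')⁻¹ * Ho l k L c (Units.map (ι : K →* L) s) = Ho l k L c (Units.map (ι : K →* L) s) * (R2 g')⁻¹ :=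
      (c3 g').inv_left.eq
    have e5 : (R1 g)⁻¹ * Ho l k L c (Units.map (ι : K →* L) s) = Ho l k L c (Units.map (ι : K →* L) s) * (R1 g)⁻¹ :=
      (c2 g).inv_left.eq
    have e6 : (R1 g)⁻¹ * (R2 g')⁻¹ = (R2 g')⁻¹ * (R1 g)⁻¹ := (c1 g g').inv_left.inv_right.eq
    generalize R1 g = a at *
    generalize R2 g' = b at *
    generalize R1 (dg D hD) = d at *
    generalize R2 (dg D' hD') = e at *
    generalize Ho l k L c (Units.map (ι : K →* L) s) = h at *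
    calc a * d * a⁻¹ * (b * e * b⁻¹) * h = a * d * (a⁻¹ * b) * e * (b⁻¹ * h) := by group
      _ = a * (d * b) * (a⁻¹ * e) * h * b⁻¹ := by rw [e1, e4]; group
      _ = a * b * d * e * (a⁻¹ * h) * b⁻¹ := by rw [e2, e3]; group
      _ = a * b * d * e * h * (a⁻¹ * b⁻¹) := by rw [e5]; group
      _ = a * b * (d * e * h) * (a * b)⁻¹ := by rw [e6]; group
  rw [hQ] at h5
  generalize hq : R1 g * R2 g' = q at h5
  have h6 : (R1 (dg D hD) * R2 (dg D' hD') * Ho l k L c (Units.map (ι : K →* L) s)).1 ((q⁻¹).1 (fun w => ι (f w))) =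
      (q⁻¹).1 (fun w => ι (f w)) := by
    have h7 := congrArg (fun x => (q⁻¹).1 x) h5
    have h8 : q⁻¹ * (q * (R1 (dg D hD) * R2 (dg D' hD') * Ho l k L c (Units.map (ι : K →* L) s)) * q⁻¹) =
        (R1 (dg D hD) * R2 (dg D' hD') * Ho l k L c (Units.map (ι : K →* L) s)) * q⁻¹ := by group
    change (q⁻¹ * (q * (R1 (dg D hD) * R2 (dg D' hD') * Ho l k L c (Units.map (ι : K →* L) s)) * q⁻¹)).1 (fun w => ι (f w)) = _ at h7
    rw [h8] at h7
    exact h7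
  have h9 : (q⁻¹).1 (fun w => ι (f w)) = 0 := by
    funext v
    have h10 := congrFun h6 v
    change (R1 (dg D hD)).1 ((R2 (dg D' hD')).1 ((Ho l k L c (Units.map (ι : K →* L) s)).1 ((q⁻¹).1 (fun w => ι (f w))))) v = _ at h10
    rw [rep_dg hn hl hk hu hR1, rep_dg hn hl hk hu' hR2, Ho_apply] at h10
    by_contra hne
    refine hw v (Units.ext ?_)
    rw [Units.val_mul, Units.val_mul, Units.val_one]
    refine mul_right_cancel₀ (b := (q⁻¹).1 (fun w => ι (f w)) v) hne ?_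
    rw [one_mul, mul_assoc, mul_assoc]
    exact h10
  have h11 : (fun w => ι (f w)) = (0 : Rk l k → L) := by
    have h12 : q.1 ((q⁻¹).1 (fun w => ι (f w))) = fun w => ι (f w) := by
      change (q * q⁻¹).1 (fun w => ι (f w)) = _
      rw [mul_inv_cancel]
      rfl
    rw [← h12, h9, map_zero]
  funext w
  have h13 := congrFun h11 w
  exact (map_eq_zero ι).1 h13
-- END hd

-- BEGIN he
/-- MODULE he. RESULT for two families and a torus element: as `sur_of_fam` (`finite_Rk`, `Fintype.ofFinite`, `exists_pi`, `exists_rep` twice, `Act_rep`, `Act_h`, `Act.mul`, `no_fix2`, `sur_of_act`). -/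
theorem sur_of_two {k : ℕ} (hn : n = 6 ∨ n = 7 ∨ n = 8) (hl : Addl l) (hk : 1 ≤ k) {x : Root n → K → G} (h : Stb K n x) (ι : K →+* L)
    {u : Fin (m + 1) → Vec n} {u' : Fin (m' + 1) → Vec n} (hu : Fam l u) (hu' : Fam l u') (ho : Orth u u')
    {r : Root n} (hc : ∀ i j, i ≠ j → bf r.1 (u i - u j) = 0) (hc' : ∀ i j, i ≠ j → bf r.1 (u' i - u' j) = 0)
    {F : Matrix.SpecialLinearGroup (Fin (m + 1)) K →* G} (hF : HomF x u F) {F' : Matrix.SpecialLinearGroup (Fin (m' + 1)) K →* G} (hF' : HomF x u' F')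
    {M : Matrix.SpecialLinearGroup (Fin (m + 1)) K} {g : Matrix.SpecialLinearGroup (Fin (m + 1)) L} {D : Fin (m + 1) → Lˣ} (hD : ∏ i, D i = 1)
    (hM : Matrix.SpecialLinearGroup.map ι M = g * dg D hD * g⁻¹)
    {M' : Matrix.SpecialLinearGroup (Fin (m' + 1)) K} {g' : Matrix.SpecialLinearGroup (Fin (m' + 1)) L} {D' : Fin (m' + 1) → Lˣ} (hD' : ∏ i, D' i = 1)
    (hM' : Matrix.SpecialLinearGroup.map ι M' = g' * dg D' hD' * g'⁻¹) (s : Kˣ)
    (hw : ∀ v : Rk l (k : ℤ), wt u D v.1 * wt u' D' v.1 * Units.map (ι : K →* L) s ^ bf r.1 v.1 ≠ 1) : Sur x l (F M * F' M' * hh x r (s : K)) k := by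
  have hn8 : n ≤ 8 := by omega
  have hk0 : (k : ℤ) ≠ 0 := by omega
  have := finite_Rk hn8 l (k : ℤ)
  let _ : Fintype (Rk l (k : ℤ)) := Fintype.ofFinite _
  obtain ⟨A, _, π, hπ⟩ := exists_pi hl h hk
  obtain ⟨R, hR⟩ := exists_rep (K := K) hn8 hl hk0 hu
  obtain ⟨R', hR'⟩ := exists_rep (K := K) hn8 hl hk0 hu'
  refine sur_of_act h hπ (T := R M * R' M' * Ho l (k : ℤ) K r.1 s)
    (((Act_rep hn8 hl hk h hπ hu hF hR M).mul (Act_rep hn8 hl hk h hπ hu' hF' hR' M')).mul (Act_h hn h hπ r s)) fun f hf => ?_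
  exact no_fix2 hn8 hl hk0 ι hu hu' ho hc hc' hR hR' hD hM hD' hM' s hw hf
-- END he

/-- the level: the coefficient of the simple root `e_3 - e_2` (indices `0, .., 5`) -/
def l6 (v : Vec 6) : ℤ := v.2 3 + v.2 4 + v.2 5

/-- first family: `e_0, e_1, e_2` -/
def uA (i : Fin 3) : Vec 6 := ue ((![0, 1, 2] : Fin 3 → Fin 6) i)

/-- second family: `e_3, e_4, e_5` -/
def uB (i : Fin 3) : Vec 6 := ue ((![3, 4, 5] : Fin 3 → Fin 6) i)

/-- the root `(1; 1,1,1,0,0,0)` -/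
def gm : Root 6 := ⟨(1, ![1, 1, 1, 0, 0, 0]), by decide⟩

/-- the highest root `(2; 1,1,1,1,1,1)` -/
def th6 : Root 6 := ⟨(2, ![1, 1, 1, 1, 1, 1]), by decide⟩

/-- third family: `γ, 0` -/
def uC : Fin 2 → Vec 6 := ![gm.1, 0]

-- BEGIN hf
/-- MODULE hf. -/
theorem addl6 : Addl l6 := by
  intro v w
  show (v.2 3 + w.2 3) + (v.2 4 + w.2 4) + (v.2 5 + w.2 5) = (v.2 3 + v.2 4 + v.2 5) + (w.2 3 + w.2 4 + w.2 5)
  ring

theorem fam_uA : Fam l6 uA := by
  unfold Fam L0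
  decide +kernel

theorem fam_uB : Fam l6 uB := by
  unfold Fam L0
  decide +kernel

theorem fam_uC : Fam l6 uC := by
  unfold Fam L0
  decide +kernel

theorem orth_AB : Orth uA uB := by
  unfold Orth
  decide +kernel

theorem orth_AC : Orth uA uC := by
  unfold Orth
  decide +kernel

theorem orth_BC : Orth uB uC := by
  unfold Orth
  decide +kernel

theorem orth_gA : ∀ i j, i ≠ j → bf gm.1 (uA i - uA j) = 0 := by
  decide +kernel

theorem orth_gB : ∀ i j, i ≠ j → bf gm.1 (uB i - uB j) = 0 := by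
  decide +kernel

/-- `l6 v ≤ 3` for root vectors -/
theorem l6_lt (r : Root 6) : l6 r.1 < (4 : ℕ) := by
  obtain ⟨h1, h2⟩ := r.2
  show r.1.2 3 + r.1.2 4 + r.1.2 5 < (4 : ℕ)
  generalize r.1 = v at h1 h2
  have e1 : ∑ i : Fin 6, v.2 i = v.2 0 + v.2 1 + v.2 2 + v.2 3 + v.2 4 + v.2 5 := by
    simp only [Fin.sum_univ_succ, Fin.sum_univ_zero]
    simp only [add_zero, add_assoc]
    rfl
  have e2 : ∑ i : Fin 6, v.2 i ^ 2 = v.2 0 ^ 2 + v.2 1 ^ 2 + v.2 2 ^ 2 + v.2 3 ^ 2 + v.2 4 ^ 2 + v.2 5 ^ 2 := by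
    simp only [Fin.sum_univ_succ, Fin.sum_univ_zero]
    simp only [add_zero, add_assoc]
    rfl
  rw [e1] at h1
  rw [e2] at h2
  generalize v.2 0 = a0 at h1 h2 ⊢
  generalize v.2 1 = a1 at h1 h2 ⊢
  generalize v.2 2 = a2 at h1 h2 ⊢
  generalize v.2 3 = a3 at h1 h2 ⊢
  generalize v.2 4 = a4 at h1 h2 ⊢
  generalize v.2 5 = a5 at h1 h2 ⊢
  generalize v.1 = d at h1 h2
  have h3 : (a3 + a4 + a5) ^ 2 ≤ 3 * (a3 ^ 2 + a4 ^ 2 + a5 ^ 2) := by nlinarith [sq_nonneg (a3 - a4), sq_nonneg (a4 - a5), sq_nonneg (a3 - a5)]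
  have h4 : (a0 + a1 + a2) ^ 2 ≤ 3 * (a0 ^ 2 + a1 ^ 2 + a2 ^ 2) := by nlinarith [sq_nonneg (a0 - a1), sq_nonneg (a1 - a2), sq_nonneg (a0 - a2)]
  have h5 : a0 + a1 + a2 = 3 * d - (a3 + a4 + a5) := by linarith
  rw [h5] at h4
  have h6 : (a3 + a4 + a5) ^ 2 + (3 * d - (a3 + a4 + a5)) ^ 2 ≤ 3 * d ^ 2 + 6 := by linarith
  have h7 : (a3 + a4 + a5) ^ 2 ≤ 12 := by nlinarith [sq_nonneg (2 * d - (a3 + a4 + a5))]
  show a3 + a4 + a5 < 4
  nlinarith
-- END hf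

-- BEGIN hg
private theorem hg_nn (m : ℤ) : 0 ≤ m * (m - 1) := by
  rcases le_or_gt m 0 with h | h
  · nlinarith
  · nlinarith

private theorem hg_np (m : ℤ) : 0 ≤ m * (m + 1) := by
  rcases le_or_gt m (-1) with h | h
  · nlinarith
  · have : 0 ≤ m := by omega
    nlinarith

private theorem hg_01 {m : ℤ} (h : m * (m - 1) = 0) : m = 0 ∨ m = 1 := by
  rcases mul_eq_zero.1 h with h | h
  · exact Or.inl h
  · exact Or.inr (by omega)

private theorem hg_one {f : Fin 3 → ℤ} (h0 : f 0 = 0 ∨ f 0 = 1) (h1 : f 1 = 0 ∨ f 1 = 1) (h2 : f 2 = 0 ∨ f 2 = 1) (s : f 0 + f 1 + f 2 = 1) :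
    ∃ j : Fin 3, ∀ a, f a = if a = j then 1 else 0 := by
  rcases (by omega : f 0 = 1 ∧ f 1 = 0 ∧ f 2 = 0 ∨ f 0 = 0 ∧ f 1 = 1 ∧ f 2 = 0 ∨ f 0 = 0 ∧ f 1 = 0 ∧ f 2 = 1) with ⟨k0, k1, k2⟩ | ⟨k0, k1, k2⟩ | ⟨k0, k1, k2⟩
  · exact ⟨0, fun a => by fin_cases a <;> simp [k0, k1, k2]⟩
  · exact ⟨1, fun a => by fin_cases a <;> simp [k0, k1, k2]⟩
  · exact ⟨2, fun a => by fin_cases a <;> simp [k0, k1, k2]⟩

private theorem hg_two {f : Fin 3 → ℤ} (h0 : f 0 = 0 ∨ f 0 = 1) (h1 : f 1 = 0 ∨ f 1 = 1) (h2 : f 2 = 0 ∨ f 2 = 1) (s : f 0 + f 1 + f 2 = 2) :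
    ∃ j : Fin 3, ∀ a, f a = if a = j then 0 else 1 := by
  obtain ⟨j, hj⟩ := hg_one (f := fun a => 1 - f a) (by omega) (by omega) (by omega) (by show 1 - f 0 + (1 - f 1) + (1 - f 2) = 1; omega)
  refine ⟨j, fun a => ?_⟩
  have := hj a
  by_cases h : a = j
  · rw [if_pos h] at this ⊢
    omega
  · rw [if_neg h] at this ⊢
    omega

private theorem hg_con {f : Fin 3 → ℤ} {c : ℤ} (h0 : f 0 = c) (h1 : f 1 = c) (h2 : f 2 = c) : ∀ a, f a = c := by
  intro a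
  fin_cases a
  · exact h0
  · exact h1
  · exact h2

/-- MODULE hg. The root vectors of level `≥ 1` (29 of them): level 1: `(0; -e_i, e_j)` and `(1; 1 - e_i, e_j)` (`i, j ∈ {0, 1, 2}`, first and second half of the coordinates); level 2: `(1; e_i, 1 - e_j)`; level 3: `(1; 0, 1)`, `(2; 1, 1)`.  (`|v.1| ≤ 2`; `v.1 = 0`: `∑ m = 0`, `∑ m ^ 2 = 2`; `v.1 = 1`: all
`m_i ∈ {0, 1}`, three ones; `v.1 = 2`: all `m_i = 1`; `v.1 < 0`: all `m_i ≤ 0`, impossible.)  Here `p = v.2 ∘ ![0,1,2]`, `q = v.2 ∘ ![3,4,5]`. -/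
theorem cls6 {v : Vec 6} (hv : IsR v) (h1 : 1 ≤ l6 v) :
    (∃ i j : Fin 3, v.1 = 0 ∧ (∀ a, v.2 (![0, 1, 2] a) = if a = i then -1 else 0) ∧ ∀ a, v.2 (![3, 4, 5] a) = if a = j then 1 else 0) ∨
    (∃ i j : Fin 3, v.1 = 1 ∧ (∀ a, v.2 (![0, 1, 2] a) = if a = i then 0 else 1) ∧ ∀ a, v.2 (![3, 4, 5] a) = if a = j then 1 else 0) ∨
    (∃ i j : Fin 3, v.1 = 1 ∧ (∀ a, v.2 (![0, 1, 2] a) = if a = i then 1 else 0) ∧ ∀ a, v.2 (![3, 4, 5] a) = if a = j then 0 else 1) ∨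
    (v.1 = 1 ∧ (∀ a, v.2 (![0, 1, 2] a) = 0) ∧ ∀ a, v.2 (![3, 4, 5] a) = 1) ∨
    (v.1 = 2 ∧ (∀ a, v.2 (![0, 1, 2] a) = 1) ∧ ∀ a, v.2 (![3, 4, 5] a) = 1) := by
  obtain ⟨h2, h3⟩ := hv
  rw [Fin.sum_univ_six] at h2 h3
  unfold l6 at h1
  have e0 : v.2 (![0, 1, 2] (0 : Fin 3)) = v.2 0 := rfl
  have e1 : v.2 (![0, 1, 2] (1 : Fin 3)) = v.2 1 := rfl
  have e2 : v.2 (![0, 1, 2] (2 : Fin 3)) = v.2 2 := rfl
  have e3 : v.2 (![3, 4, 5] (0 : Fin 3)) = v.2 3 := rfl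
  have e4 : v.2 (![3, 4, 5] (1 : Fin 3)) = v.2 4 := rfl
  have e5 : v.2 (![3, 4, 5] (2 : Fin 3)) = v.2 5 := rfl
  have h4 : v.1 * (v.2 0 + v.2 1 + v.2 2 + v.2 3 + v.2 4 + v.2 5) = v.1 * (3 * v.1) := by rw [h2]
  have hd2 : v.1 * v.1 ≤ 4 := by
    linarith [sq_nonneg (2 * v.2 0 - v.1), sq_nonneg (2 * v.2 1 - v.1), sq_nonneg (2 * v.2 2 - v.1), sq_nonneg (2 * v.2 3 - v.1), sq_nonneg (2 * v.2 4 - v.1), sq_nonneg (2 * v.2 5 - v.1)]
  have hd3 : v.1 ≤ 2 := by nlinarith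
  have hd4 : -2 ≤ v.1 := by nlinarith
  rcases (by omega : v.1 = -2 ∨ v.1 = -1 ∨ v.1 = 0 ∨ v.1 = 1 ∨ v.1 = 2) with h | h | h | h | h <;> rw [h] at h2 h3
  · exfalso
    linarith [sq_nonneg (v.2 3), sq_nonneg (v.2 4), sq_nonneg (v.2 5), sq_nonneg (v.2 0 + 1), sq_nonneg (v.2 1 + 1), sq_nonneg (v.2 2 + 1), sq_nonneg (v.2 3 + 1), sq_nonneg (v.2 4 + 1), sq_nonneg (v.2 5 + 1)]
  · exfalso
    have k := hg_np (v.2 0)
    have k1 := hg_np (v.2 1)
    have k2 := hg_np (v.2 2)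
    have k3 := hg_np (v.2 3)
    have k4 := hg_np (v.2 4)
    have k5 := hg_np (v.2 5)
    have j3 : v.2 3 * (v.2 3 + 1) = 0 := by linarith
    have j4 : v.2 4 * (v.2 4 + 1) = 0 := by linarith
    have j5 : v.2 5 * (v.2 5 + 1) = 0 := by linarith
    rcases mul_eq_zero.1 j3 with j3 | j3 <;> rcases mul_eq_zero.1 j4 with j4 | j4 <;> rcases mul_eq_zero.1 j5 with j5 | j5 <;> omega
  · left
    have k := hg_np (v.2 0)
    have k1 := hg_np (v.2 1)
    have k2 := hg_np (v.2 2)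
    have k3 := hg_nn (v.2 3)
    have k4 := hg_nn (v.2 4)
    have k5 := hg_nn (v.2 5)
    have j0 : -v.2 0 * (-v.2 0 - 1) = 0 := by linarith
    have j1 : -v.2 1 * (-v.2 1 - 1) = 0 := by linarith
    have j2 : -v.2 2 * (-v.2 2 - 1) = 0 := by linarith
    have j3 : v.2 3 * (v.2 3 - 1) = 0 := by linarith
    have j4 : v.2 4 * (v.2 4 - 1) = 0 := by linarith
    have j5 : v.2 5 * (v.2 5 - 1) = 0 := by linarith
    have hs : v.2 3 + v.2 4 + v.2 5 = 1 := by linarith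
    obtain ⟨i, hi⟩ := hg_one (f := fun a => -v.2 (![0, 1, 2] a)) (hg_01 j0) (hg_01 j1) (hg_01 j2) (by show -v.2 0 + -v.2 1 + -v.2 2 = 1; omega)
    obtain ⟨j, hj⟩ := hg_one (f := fun a => v.2 (![3, 4, 5] a)) (hg_01 j3) (hg_01 j4) (hg_01 j5) hs
    refine ⟨i, j, h, fun a => ?_, hj⟩
    have := hi a
    by_cases ha : a = i
    · rw [if_pos ha] at this ⊢
      omega
    · rw [if_neg ha] at this ⊢
      omega
  · right
    have k := hg_nn (v.2 0)
    have k1 := hg_nn (v.2 1)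
    have k2 := hg_nn (v.2 2)
    have k3 := hg_nn (v.2 3)
    have k4 := hg_nn (v.2 4)
    have k5 := hg_nn (v.2 5)
    have j0 : v.2 0 * (v.2 0 - 1) = 0 := by linarith
    have j1 : v.2 1 * (v.2 1 - 1) = 0 := by linarith
    have j2 : v.2 2 * (v.2 2 - 1) = 0 := by linarith
    have j3 : v.2 3 * (v.2 3 - 1) = 0 := by linarith
    have j4 : v.2 4 * (v.2 4 - 1) = 0 := by linarith
    have j5 : v.2 5 * (v.2 5 - 1) = 0 := by linarith
    have j0 := hg_01 j0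
    have j1 := hg_01 j1
    have j2 := hg_01 j2
    have j3 := hg_01 j3
    have j4 := hg_01 j4
    have j5 := hg_01 j5
    rcases (by omega : v.2 3 + v.2 4 + v.2 5 = 1 ∨ v.2 3 + v.2 4 + v.2 5 = 2 ∨ v.2 3 + v.2 4 + v.2 5 = 3) with hs | hs | hs
    · left
      obtain ⟨i, hi⟩ := hg_two (f := fun a => v.2 (![0, 1, 2] a)) j0 j1 j2 (by show v.2 0 + v.2 1 + v.2 2 = 2; omega)
      obtain ⟨j, hj⟩ := hg_one (f := fun a => v.2 (![3, 4, 5] a)) j3 j4 j5 hs
      exact ⟨i, j, h, hi, hj⟩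
    · right
      left
      obtain ⟨i, hi⟩ := hg_one (f := fun a => v.2 (![0, 1, 2] a)) j0 j1 j2 (by show v.2 0 + v.2 1 + v.2 2 = 1; omega)
      obtain ⟨j, hj⟩ := hg_two (f := fun a => v.2 (![3, 4, 5] a)) j3 j4 j5 hs
      exact ⟨i, j, h, hi, hj⟩
    · right
      right
      left
      exact ⟨h, hg_con (f := fun a => v.2 (![0, 1, 2] a)) (by rw [e0]; omega) (by rw [e1]; omega) (by rw [e2]; omega),
        hg_con (f := fun a => v.2 (![3, 4, 5] a)) (by rw [e3]; omega) (by rw [e4]; omega) (by rw [e5]; omega)⟩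
  · right
    right
    right
    right
    have k0 := sq_nonneg (v.2 0 - 1)
    have k1 := sq_nonneg (v.2 1 - 1)
    have k2 := sq_nonneg (v.2 2 - 1)
    have k3 := sq_nonneg (v.2 3 - 1)
    have k4 := sq_nonneg (v.2 4 - 1)
    have k5 := sq_nonneg (v.2 5 - 1)
    have j0 : v.2 0 - 1 = 0 := pow_eq_zero_iff (two_ne_zero) |>.1 (by linarith : (v.2 0 - 1) ^ 2 = 0)
    have j1 : v.2 1 - 1 = 0 := pow_eq_zero_iff (two_ne_zero) |>.1 (by linarith : (v.2 1 - 1) ^ 2 = 0)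
    have j2 : v.2 2 - 1 = 0 := pow_eq_zero_iff (two_ne_zero) |>.1 (by linarith : (v.2 2 - 1) ^ 2 = 0)
    have j3 : v.2 3 - 1 = 0 := pow_eq_zero_iff (two_ne_zero) |>.1 (by linarith : (v.2 3 - 1) ^ 2 = 0)
    have j4 : v.2 4 - 1 = 0 := pow_eq_zero_iff (two_ne_zero) |>.1 (by linarith : (v.2 4 - 1) ^ 2 = 0)
    have j5 : v.2 5 - 1 = 0 := pow_eq_zero_iff (two_ne_zero) |>.1 (by linarith : (v.2 5 - 1) ^ 2 = 0)
    exact ⟨h, hg_con (f := fun a => v.2 (![0, 1, 2] a)) (by rw [e0]; omega) (by rw [e1]; omega) (by rw [e2]; omega),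
      hg_con (f := fun a => v.2 (![3, 4, 5] a)) (by rw [e3]; omega) (by rw [e4]; omega) (by rw [e5]; omega)⟩
-- END hg

-- BEGIN hh
private theorem hh_neg (D : Fin 3 → Lˣ) (i : Fin 3) (f : Fin 3 → ℤ) (hf : ∀ a, f a = if a = i then -1 else 0) : ∏ a, D a ^ f a = (D i)⁻¹ := by
  have h : ∀ a, D a ^ f a = if a = i then (D a)⁻¹ else 1 := by
    intro a
    rw [hf]
    split_ifs
    · rw [zpow_neg, zpow_one]
    · rw [zpow_zero]
  rw [Finset.prod_congr rfl fun a _ => h a]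
  simp

private theorem hh_pos (D : Fin 3 → Lˣ) (i : Fin 3) (f : Fin 3 → ℤ) (hf : ∀ a, f a = if a = i then 1 else 0) : ∏ a, D a ^ f a = D i := by
  have h : ∀ a, D a ^ f a = if a = i then D a else 1 := by
    intro a
    rw [hf]
    split_ifs
    · rw [zpow_one]
    · rw [zpow_zero]
  rw [Finset.prod_congr rfl fun a _ => h a]
  simp

private theorem hh_cop (D : Fin 3 → Lˣ) (hD : ∏ i, D i = 1) (i : Fin 3) (f : Fin 3 → ℤ) (hf : ∀ a, f a = if a = i then 0 else 1) : ∏ a, D a ^ f a = (D i)⁻¹ := by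
  have h : ∀ a, D a ^ f a = D a * if a = i then (D a)⁻¹ else 1 := by
    intro a
    rw [hf]
    split_ifs
    · rw [zpow_zero, mul_inv_cancel]
    · rw [zpow_one, mul_one]
  rw [Finset.prod_congr rfl fun a _ => h a, Finset.prod_mul_distrib, hD, one_mul]
  simp

private theorem hh_inv (D : Fin 3 → Lˣ) (f : Fin 3 → ℤ) : ∏ a, (D a)⁻¹ ^ f a = (∏ a, D a ^ f a)⁻¹ := by
  rw [← Finset.prod_inv_distrib]
  exact Finset.prod_congr rfl fun a _ => inv_zpow _ _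

/-- MODULE hh. With `D_0 D_1 D_2 = 1` the weight is `(D_i D_j)⁻¹ g⁻¹`, `(D_i D_j)⁻¹ g`, `D_i D_j`, `g⁻¹`, `g` in the five cases of `cls6` (`bf_ue`, `wt`, `bf gm v = v_0 + v_1 + v_2 - v.1`). -/
theorem wt6_ne {D : Fin 3 → Lˣ} (hD : ∏ i, D i = 1) {g : Lˣ} (h1 : g ≠ 1) (h2 : ∀ i j, D i * D j ≠ 1) (h3 : ∀ i j, D i * D j ≠ g) (h4 : ∀ i j, D i * D j ≠ g⁻¹)
    {v : Vec 6} (hv : IsR v) (hk : 1 ≤ l6 v) : wt uA D v * wt uB (fun i => (D i)⁻¹) v * g ^ bf gm.1 v ≠ 1 := by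
  have hA : wt uA D v = ∏ a, D a ^ v.2 (![0, 1, 2] a) := by
    unfold wt uA
    exact Finset.prod_congr rfl fun a _ => by rw [bf_ue]
  have hB : wt uB (fun i => (D i)⁻¹) v = (∏ a, D a ^ v.2 (![3, 4, 5] a))⁻¹ := by
    rw [← hh_inv]
    unfold wt uB
    exact Finset.prod_congr rfl fun a _ => by rw [bf_ue]
  have hg : bf gm.1 v = v.2 (![0, 1, 2] 0) + v.2 (![0, 1, 2] 1) + v.2 (![0, 1, 2] 2) - v.1 := by
    simp [bf, gm, Fin.sum_univ_succ]
    ring
  rw [hA, hB]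
  rcases cls6 hv hk with ⟨i, j, e1, e2, e3⟩ | ⟨i, j, e1, e2, e3⟩ | ⟨i, j, e1, e2, e3⟩ | ⟨e1, e2, e3⟩ | ⟨e1, e2, e3⟩
  · have hs : bf gm.1 v = -1 := by
      rw [hg, e2, e2, e2, e1]
      fin_cases i <;> simp
    rw [hh_neg D i _ e2, hh_pos D j _ e3, hs]
    intro h
    apply h4 i j
    rw [zpow_neg, zpow_one] at h
    have h5 : (D i * D j)⁻¹ = g := by
      rw [mul_inv]
      exact eq_of_mul_inv_eq_one h
    rw [← h5, inv_inv]
  · have hs : bf gm.1 v = 1 := by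
      rw [hg, e2, e2, e2, e1]
      fin_cases i <;> simp
    rw [hh_cop D hD i _ e2, hh_pos D j _ e3, hs, zpow_one]
    intro h
    apply h3 i j
    rw [← mul_inv] at h
    exact (inv_mul_eq_one.1 h)
  · have hs : bf gm.1 v = 0 := by
      rw [hg, e2, e2, e2, e1]
      fin_cases i <;> simp
    rw [hh_pos D i _ e2, hh_cop D hD j _ e3, hs, zpow_zero, mul_one, inv_inv]
    exact h2 i j
  · have hs : bf gm.1 v = -1 := by
      rw [hg, e2, e2, e2, e1]
      simp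
    rw [Finset.prod_congr rfl fun a _ => by rw [e2 a, zpow_zero], Finset.prod_const_one, hs, Finset.prod_congr rfl fun a _ => by rw [e3 a, zpow_one], hD]
    intro h
    apply h1
    rw [inv_one, one_mul, one_mul, zpow_neg, zpow_one, inv_eq_one] at h
    exact h
  · have hs : bf gm.1 v = 1 := by
      rw [hg, e2, e2, e2, e1]
      simp
    rw [Finset.prod_congr rfl fun a _ => by rw [e2 a, zpow_one], hD, hs, Finset.prod_congr rfl fun a _ => by rw [e3 a, zpow_one], hD]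
    intro h
    apply h1
    rw [inv_one, one_mul, one_mul, zpow_one] at h
    exact h
-- END hh

-- BEGIN hi
private theorem hi_dg_inv {D : Fin m → Lˣ} (hD : ∏ i, D i = 1) (hD' : ∏ i, (fun i => (D i)⁻¹) i = 1) :
    (dg D hD)⁻¹ = dg (fun i => (D i)⁻¹) hD' := by
  refine inv_eq_of_mul_eq_one_right (Subtype.ext ?_)
  show (Matrix.diagonal fun i => ((D i : Lˣ) : L)) * (Matrix.diagonal fun i => (((D i)⁻¹ : Lˣ) : L)) = 1
  rw [Matrix.diagonal_mul_diagonal, ← Matrix.diagonal_one]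
  refine congrArg Matrix.diagonal (funext fun i => ?_)
  exact Units.mul_inv (D i)

private theorem hi_prod_inv {D : Fin m → Lˣ} (hD : ∏ i, D i = 1) : ∏ i, (fun i => (D i)⁻¹) i = 1 := by
  show ∏ i, (D i)⁻¹ = 1
  rw [Finset.prod_inv_distrib, hD, inv_one]

private theorem hi_map (ι : K →+* L) {B : Matrix.SpecialLinearGroup (Fin m) K} {p : Matrix.SpecialLinearGroup (Fin m) L} {D : Fin m → Lˣ} (hD : ∏ i, D i = 1)
    (hB : Matrix.SpecialLinearGroup.map ι B = p * dg D hD * p⁻¹) :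
    Matrix.SpecialLinearGroup.map ι B⁻¹ = p * dg (fun i => (D i)⁻¹) (hi_prod_inv hD) * p⁻¹ := by
  rw [map_inv, hB, ← hi_dg_inv hD]
  group

private theorem hi_hh (x : Root n → K → G) (r : Root n) (a : K) : ThK.hh (op x) (-r) a = ThK.hh x r a := by
  show ThK.hh x (- -r) a = ThK.hh x r a
  rw [neg_neg']

private theorem hi_sub (a b : Vec n) : -a - -b = -(a - b) := by
  abel

/-- MODULE hi. RESULT (D) for `E_6`: `sur_of_two` for `x` (families `uA`, `uB`, root `gm`) and for `op x` (`HomF.op`, families `-uA`, `-uB`, root `-gm`: `hh (op x) (-gm) g = hh x gm g`, `Stb.op`, `fam_neg`; the weights are the inverses, `wt_neg`).  `map ι B⁻¹ = p (dg D)⁻¹ p⁻¹`, `(dg D)⁻¹ = dg D⁻¹`. -/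
theorem sur6 {x : Root 6 → K → G} (h : Stb K 6 x) {F1 F2 : Matrix.SpecialLinearGroup (Fin 3) K →* G} (h1 : HomF x uA F1) (h2 : HomF x uB F2) (ι : K →+* L)
    {B : Matrix.SpecialLinearGroup (Fin 3) K} {p : Matrix.SpecialLinearGroup (Fin 3) L} {D : Fin 3 → Lˣ} (hD : ∏ i, D i = 1)
    (hB : Matrix.SpecialLinearGroup.map ι B = p * dg D hD * p⁻¹) {g : Kˣ} (hg : g ≠ 1)
    (hw : ∀ i j, D i * D j ≠ 1 ∧ D i * D j ≠ Units.map (ι : K →* L) g ∧ D i * D j ≠ Units.map (ι : K →* L) g⁻¹) {k : ℕ} (hk : 1 ≤ k) :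
    Sur x l6 (F1 B * F2 B⁻¹ * ThK.hh x gm (g : K)) k ∧ Sur (op x) l6 (F1 B * F2 B⁻¹ * ThK.hh x gm (g : K)) k := by
  have hg1 : Units.map (ι : K →* L) g ≠ 1 := by
    intro h0
    apply hg
    have h3 := congrArg (fun z : Lˣ => (z : L)) h0
    have h4 : ι (g : K) = 1 := h3
    rw [← map_one ι] at h4
    exact Units.ext (ι.injective h4)
  have hgi : Units.map (ι : K →* L) g⁻¹ = (Units.map (ι : K →* L) g)⁻¹ := map_inv _ _
  have key : ∀ v : Rk l6 (k : ℤ), wt uA D v.1 * wt uB (fun i => (D i)⁻¹) v.1 * Units.map (ι : K →* L) g ^ bf gm.1 v.1 ≠ 1 := by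
    intro v
    refine wt6_ne hD hg1 (fun i j => (hw i j).1) (fun i j => (hw i j).2.1) (fun i j => ?_) v.2.1 ?_
    · rw [← hgi]
      exact (hw i j).2.2
    · rw [v.2.2]
      exact_mod_cast hk
  constructor
  · exact sur_of_two (Or.inl rfl) addl6 hk h ι fam_uA fam_uB orth_AB orth_gA orth_gB h1 h2 hD hB (hi_prod_inv hD) (hi_map ι hD hB) g key
  · have hs := sur_of_two (Or.inl rfl) addl6 hk h.op ι (fam_neg addl6 fam_uA) (fam_neg addl6 fam_uB)
      (fun i j a b hij hab => by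
        rw [hi_sub, hi_sub, bf_neg_left, bf_neg_right, orth_AB i j a b hij hab, neg_zero, neg_zero])
      (r := -gm)
      (fun i j hij => by
        rw [neg_val, hi_sub, bf_neg_left, bf_neg_right, orth_gA i j hij, neg_zero, neg_zero])
      (fun i j hij => by
        rw [neg_val, hi_sub, bf_neg_left, bf_neg_right, orth_gB i j hij, neg_zero, neg_zero])
      h1.op h2.op hD hB (hi_prod_inv hD) (hi_map ι hD hB) g (fun v => by
        rw [wt_neg, wt_neg, neg_val, bf_neg_left, zpow_neg, ← mul_inv, ← mul_inv]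
        exact fun h0 => key v (inv_eq_one.mp h0))
    rw [hi_hh] at hs
    exact hs
-- END hi

-- BEGIN hj
/-- the three orthogonal roots -/
private def hj_r0 : Root 6 := ⟨(1, ![1, 0, 0, 0, 1, 1]), by decide⟩

private def hj_r1 : Root 6 := ⟨(1, ![0, 1, 0, 1, 0, 1]), by decide⟩

private def hj_r2 : Root 6 := ⟨(1, ![0, 0, 1, 1, 1, 0]), by decide⟩

/-- the reflection on vectors -/
private def hj_rv (r : Root 6) (v : Vec 6) : Vec 6 := v - sv (bf r.1 v) r.1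

/-- the exponent of the sign -/
private def hj_e (v : Vec 6) : ℤ :=
  bl hj_r0.1 (hj_rv hj_r1 (hj_rv hj_r2 v)) * bf hj_r0.1 (hj_rv hj_r1 (hj_rv hj_r2 v)) + bl hj_r1.1 (hj_rv hj_r2 v) * bf hj_r1.1 (hj_rv hj_r2 v) + bl hj_r2.1 v * bf hj_r2.1 v

/-- the element -/
private def hj_n (x : Root 6 → K → G) : G := ThK.nn x hj_r0 1 * ThK.nn x hj_r1 1 * ThK.nn x hj_r2 1

private theorem hj_one {x : Root 6 → K → G} (h : Stb K 6 x) (r s : Root 6) (b : K) :
    ThK.nn x r 1 * x s b * (ThK.nn x r 1)⁻¹ = x (rf r s) ((((-1 : Kˣ) ^ (bl r.1 s.1 * bf r.1 s.1) : Kˣ) : K) * b) := by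
  rw [nn_conj (Or.inl rfl) h r s one_ne_zero, one_zpow, mul_one, zpow_mul, Units.val_zpow_eq_zpow_val]
  rfl

private theorem hj_conj {x : Root 6 → K → G} (h : Stb K 6 x) (s : Root 6) (b : K) :
    hj_n x * x s b * (hj_n x)⁻¹ = x (rf hj_r0 (rf hj_r1 (rf hj_r2 s))) ((((-1 : Kˣ) ^ hj_e s.1 : Kˣ) : K) * b) := by
  have e : hj_n x * x s b * (hj_n x)⁻¹ = ThK.nn x hj_r0 1 * (ThK.nn x hj_r1 1 * (ThK.nn x hj_r2 1 * x s b * (ThK.nn x hj_r2 1)⁻¹) * (ThK.nn x hj_r1 1)⁻¹) * (ThK.nn x hj_r0 1)⁻¹ := by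
    unfold hj_n
    group
  rw [e, hj_one h, hj_one h, hj_one h]
  congr 1
  have e2 : hj_e s.1 = bl hj_r0.1 (rf hj_r1 (rf hj_r2 s)).1 * bf hj_r0.1 (rf hj_r1 (rf hj_r2 s)).1 + bl hj_r1.1 (rf hj_r2 s).1 * bf hj_r1.1 (rf hj_r2 s).1 +
      bl hj_r2.1 s.1 * bf hj_r2.1 s.1 := rfl
  rw [e2, zpow_add, zpow_add, Units.val_mul, Units.val_mul, mul_assoc, mul_assoc]

/-- the diagonal matrix `diag (-1, 1, -1)` -/
private def hj_P (K : Type*) [Field K] : Matrix.SpecialLinearGroup (Fin 3) K :=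
  ⟨Matrix.diagonal fun i => if i = 1 then 1 else -1, by
    rw [Matrix.det_diagonal, Fin.prod_univ_three]
    simp⟩

private theorem hj_PP : hj_P K * hj_P K = 1 := by
  apply Subtype.ext
  show Matrix.diagonal _ * Matrix.diagonal _ = (1 : Matrix (Fin 3) (Fin 3) K)
  rw [Matrix.diagonal_mul_diagonal, ← Matrix.diagonal_one]
  congr 1
  funext i
  split_ifs
  · exact mul_one _
  · ring

private theorem hj_el {i j : Fin 3} (h : i ≠ j) (a : K) : (el K i j a).1 = Matrix.transvection i j a := by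
  have e : el K i j a = ⟨Matrix.transvection i j a, Matrix.det_transvection_of_ne i j h a⟩ := dif_pos h
  exact congrArg Subtype.val e

private theorem hj_Pel {i j : Fin 3} (h : i ≠ j) (a : K) :
    hj_P K * el K i j a * (hj_P K)⁻¹ = el K i j ((if i = 1 ∨ j = 1 then -1 else 1) * a) := by
  rw [mul_inv_eq_iff_eq_mul]
  apply Subtype.ext
  show Matrix.diagonal _ * (el K i j a).1 = (el K i j ((if i = 1 ∨ j = 1 then -1 else 1) * a)).1 * Matrix.diagonal _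
  rw [hj_el h, hj_el h]
  ext p q
  rw [Matrix.diagonal_mul, Matrix.mul_diagonal, Matrix.transvection, Matrix.transvection, Matrix.add_apply, Matrix.add_apply, Matrix.one_apply]
  by_cases hp : i = p ∧ j = q
  · obtain ⟨rfl, rfl⟩ := hp
    rw [Matrix.single_apply_same, Matrix.single_apply_same, if_neg h]
    by_cases h1 : i = 1
    · have h2 : j ≠ 1 := fun e => h (h1.trans e.symm)
      rw [if_pos h1, if_pos (Or.inl h1), if_neg h2]
      ring
    · by_cases h2 : j = 1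
      · rw [if_neg h1, if_pos (Or.inr h2), if_pos h2]
        ring
      · rw [if_neg h1, if_neg (not_or.mpr ⟨h1, h2⟩), if_neg h2]
        ring
  · rw [Matrix.single_apply_of_ne _ _ _ _ _ hp, Matrix.single_apply_of_ne _ _ _ _ _ hp]
    by_cases hpq : p = q
    · subst hpq
      rw [if_pos rfl]
      ring
    · rw [if_neg hpq]
      ring

private theorem hj_sgn {k : ℤ} {i j : Fin 3} (hk : k % 2 = if i = 1 ∨ j = 1 then 1 else 0) : (((-1 : Kˣ) ^ k : Kˣ) : K) = if i = 1 ∨ j = 1 then -1 else 1 := by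
  by_cases h : i = 1 ∨ j = 1
  · rw [if_pos h] at hk ⊢
    rw [Odd.neg_one_zpow (Int.odd_iff.mpr hk), Units.val_neg, Units.val_one]
  · rw [if_neg h] at hk ⊢
    rw [Even.neg_one_zpow (Int.even_iff.mpr hk), Units.val_one]

private theorem hj_map {x : Root 6 → K → G} (h : Stb K 6 x) {u u' : Fin 3 → Vec 6} (hu : Fam l6 u) (hu' : Fam l6 u')
    (e1 : ∀ i j, i ≠ j → hj_rv hj_r0 (hj_rv hj_r1 (hj_rv hj_r2 (u i - u j))) = u' i - u' j)
    (e2 : ∀ i j, i ≠ j → (hj_e (u i - u j) + bl (u i - u j) (u j) + bl (u' i - u' j) (u' j)) % 2 = if i = 1 ∨ j = 1 then 1 else 0)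
    {F F' : Matrix.SpecialLinearGroup (Fin 3) K →* G} (hF : HomF x u F) (hF' : HomF x u' F') (M : Matrix.SpecialLinearGroup (Fin 3) K) :
    hj_n x * F M * (hj_n x)⁻¹ = F' (hj_P K * M * (hj_P K)⁻¹) := by
  have key : (MulAut.conj (hj_n x)).toMonoidHom.comp F = F'.comp (MulAut.conj (hj_P K)).toMonoidHom := by
    refine pres_ext fun i j hij a => ?_
    show hj_n x * F (el K i j a) * (hj_n x)⁻¹ = F' (hj_P K * el K i j a * (hj_P K)⁻¹)
    rw [hF i j hij, hj_Pel hij, hF' i j hij, X_of x (hu i j hij).1, X_of x (hu' i j hij).1, hj_conj h]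
    have e3 : rf hj_r0 (rf hj_r1 (rf hj_r2 ⟨u i - u j, (hu i j hij).1⟩)) = ⟨u' i - u' j, (hu' i j hij).1⟩ := Subtype.ext (e1 i j hij)
    rw [e3]
    congr 1
    have e4 := hj_sgn (K := K) (e2 i j hij)
    rw [zpow_add, zpow_add, Units.val_mul, Units.val_mul] at e4
    rw [← e4]
    show ((((-1 : Kˣ) ^ hj_e (u i - u j) : Kˣ) : K)) * (cf K u i j * a) = cf K u' i j * ((((-1 : Kˣ) ^ hj_e (u i - u j) : Kˣ) : K) * cf K u i j * cf K u' i j * a)
    have e5 := cf_sq (K := K) u' i j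
    linear_combination (-(((-1 : Kˣ) ^ hj_e (u i - u j) : Kˣ) : K) * cf K u i j * a) * e5
  exact DFunLike.congr_fun key M

/-- MODULE hj. Three pairwise orthogonal roots `ρ_0 = (1; 1,0,0,0,1,1)`, `ρ_1 = (1; 0,1,0,1,0,1)`, `ρ_2 = (1; 0,0,1,1,1,0)`; `n0 = nn x ρ_0 1 * nn x ρ_1 1 * nn x ρ_2 1`.  The product of the reflections maps `e_i - e_j` to `e_(i+3) - e_(j+3)` and back, and fixes `γ` (`bf ρ_i γ = 0`).
By `nn_conj` three times `n0 X x (uA i - uA j) a n0⁻¹ = X x (uB i - uB j) (± a)` with explicit signs (`decide` on the exponents `bl`); as the homomorphisms `M ↦ n0 F1 M n0⁻¹` and `M ↦ F2 (D M D⁻¹)`, `D = diag(± 1)` (made of determinant one by a sign) agree on the `el i j a`, they are equal (`pres_ext`);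
total signs (computed): `n0 F1 (el i j a) n0⁻¹ = F2 (el i j (δ_i δ_j a))` and the same with `F1`, `F2` exchanged, `δ = (-1, 1, -1)`, so `P = Q = diag (-1, 1, -1)`. -/
theorem exists_n6 {x : Root 6 → K → G} (h : Stb K 6 x) {F1 F2 : Matrix.SpecialLinearGroup (Fin 3) K →* G} (h1 : HomF x uA F1) (h2 : HomF x uB F2)
    {F3 : Matrix.SpecialLinearGroup (Fin 2) K →* G} (h3 : HomF x uC F3) :
    ∃ (n0 : G) (P Q : Matrix.SpecialLinearGroup (Fin 3) K), (∀ M, n0 * F1 M * n0⁻¹ = F2 (P * M * P⁻¹)) ∧ (∀ M, n0 * F2 M * n0⁻¹ = F1 (Q * M * Q⁻¹)) ∧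
      ∀ M, n0 * F3 M = F3 M * n0 := by
  refine ⟨hj_n x, hj_P K, hj_P K, hj_map h fam_uA fam_uB (by decide +kernel) (by decide +kernel) h1 h2,
    hj_map h fam_uB fam_uA (by decide +kernel) (by decide +kernel) h2 h1, fun M => ?_⟩
  have key : (MulAut.conj (hj_n x)).toMonoidHom.comp F3 = F3 := by
    refine pres_ext fun i j hij a => ?_
    show hj_n x * F3 (el K i j a) * (hj_n x)⁻¹ = F3 (el K i j a)
    rw [h3 i j hij, X_of x (fam_uC i j hij).1, hj_conj h]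
    have e1 : ∀ i j : Fin 2, i ≠ j → hj_rv hj_r0 (hj_rv hj_r1 (hj_rv hj_r2 (uC i - uC j))) = uC i - uC j := by decide +kernel
    have e2 : ∀ i j : Fin 2, i ≠ j → hj_e (uC i - uC j) = 0 := by decide +kernel
    have e3 : rf hj_r0 (rf hj_r1 (rf hj_r2 ⟨uC i - uC j, (fam_uC i j hij).1⟩)) = ⟨uC i - uC j, (fam_uC i j hij).1⟩ := Subtype.ext (e1 i j hij)
    rw [e3, e2 i j hij, zpow_zero, Units.val_one, one_mul]
  have e := DFunLike.congr_fun key M
  have e' : hj_n x * F3 M * (hj_n x)⁻¹ = F3 M := e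
  exact mul_inv_eq_iff_eq_mul.mp e'
-- END hj

-- BEGIN hk
private theorem hk_gm : uC 0 - uC 1 = gm.1 := by
  show gm.1 - 0 = gm.1
  exact sub_zero _

private theorem hk_gm' : uC 1 - uC 0 = (-gm).1 := by
  show 0 - gm.1 = -gm.1
  exact zero_sub _

private theorem hk_pos {x : Root 6 → K → G} {F3 : Matrix.SpecialLinearGroup (Fin 2) K →* G} (h3 : HomF x uC F3) (a : K) : ∃ N, F3 N = x gm a := by
  refine ⟨el K 0 1 (cf K uC 0 1 * a), ?_⟩
  rw [h3 0 1 (by decide), hk_gm, ← mul_assoc, cf_sq, one_mul, X_of x gm.2]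

private theorem hk_neg {x : Root 6 → K → G} {F3 : Matrix.SpecialLinearGroup (Fin 2) K →* G} (h3 : HomF x uC F3) (a : K) : ∃ N, F3 N = x (-gm) a := by
  refine ⟨el K 1 0 (cf K uC 1 0 * a), ?_⟩
  rw [h3 1 0 (by decide), hk_gm', ← mul_assoc, cf_sq, one_mul, X_of x (-gm).2]

private theorem hk_nn {x : Root 6 → K → G} {F3 : Matrix.SpecialLinearGroup (Fin 2) K →* G} (h3 : HomF x uC F3) (a : K) : ∃ N, F3 N = ThK.nn x gm a := by
  obtain ⟨N1, e1⟩ := hk_pos h3 a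
  obtain ⟨N2, e2⟩ := hk_neg h3 a⁻¹
  refine ⟨N1 * N2 * N1, ?_⟩
  rw [map_mul, map_mul, e1, e2]
  rfl

private theorem hk_hh {x : Root 6 → K → G} {F3 : Matrix.SpecialLinearGroup (Fin 2) K →* G} (h3 : HomF x uC F3) (a : K) : ∃ N, F3 N = ThK.hh x gm a := by
  obtain ⟨N1, e1⟩ := hk_nn h3 a
  obtain ⟨N2, e2⟩ := hk_nn h3 (-1)
  refine ⟨N1 * N2, ?_⟩
  rw [map_mul, e1, e2]
  rfl

private theorem hk_alg {A B' q p H : G} (c1 : q * p = p * q) (c2 : q * B' = B' * q) (c3 : A * p = p * A) (hq : H * q = q * H) (hp : H * p = p * H) :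
    (q * p)⁻¹ * (p * B' * p⁻¹ * (q * A * q⁻¹) * H) * (q * p)⁻¹⁻¹ = B' * A * H := by
  rw [inv_inv, mul_assoc, inv_mul_eq_iff_eq_mul]
  calc p * B' * p⁻¹ * (q * A * q⁻¹) * H * (q * p)
      = p * B' * p⁻¹ * q * A * q⁻¹ * (H * q) * p := by simp only [mul_assoc]
    _ = p * B' * p⁻¹ * q * A * (H * p) := by rw [hq]; simp only [mul_assoc, inv_mul_cancel_left]
    _ = p * B' * p⁻¹ * q * (A * p) * H := by rw [hp]; simp only [mul_assoc]
    _ = p * B' * p⁻¹ * (q * p) * A * H := by rw [c3]; simp only [mul_assoc]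
    _ = p * (B' * q) * A * H := by rw [c1]; simp only [mul_assoc, inv_mul_cancel_left]
    _ = (p * q) * B' * A * H := by rw [← c2]; simp only [mul_assoc]
    _ = q * p * (B' * A * H) := by rw [← c1]; simp only [mul_assoc]

/-- MODULE hk. REALITY of `w`.  `c = nn x gm 1 * (F1 Q * F2 P)⁻¹ * n0`: `n0 w n0⁻¹ = F2 (P B P⁻¹) F1 (Q B⁻¹ Q⁻¹) hh g`, then `F2 B * F1 B⁻¹ * hh g`; `nn x gm 1` commutes with `F1`, `F2` (`nn_conj_zero`, generators) and inverts `hh x gm g` (`nn_hh`, `hh_neg`).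
(`hh x gm g = F3 (hA (el K) 0 1 g)` commutes with `n0`; all three images commute.) -/
theorem real6 {x : Root 6 → K → G} (h : Stb K 6 x) {F1 F2 : Matrix.SpecialLinearGroup (Fin 3) K →* G} (h1 : HomF x uA F1) (h2 : HomF x uB F2)
    (B : Matrix.SpecialLinearGroup (Fin 3) K) (g : Kˣ) :
    ∃ c : G, c * (F1 B * F2 B⁻¹ * ThK.hh x gm (g : K)) * c⁻¹ = (F1 B * F2 B⁻¹ * ThK.hh x gm (g : K))⁻¹ := by
  obtain ⟨F3, h3⟩ := exists_HomF (Or.inl rfl) h fam_uC
  obtain ⟨n0, P, Q, e1, e2, e3⟩ := exists_n6 h h1 h2 h3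
  obtain ⟨N, hN⟩ := hk_nn h3 (1 : K)
  obtain ⟨N', hN'⟩ := hk_hh h3 (g : K)
  have c12 : ∀ M M', F1 M * F2 M' = F2 M' * F1 M := HomF.comm h orth_AB h1 h2
  have c13 : ∀ M M', F1 M * F3 M' = F3 M' * F1 M := HomF.comm h orth_AC h1 h3
  have c23 : ∀ M M', F2 M * F3 M' = F3 M' * F2 M := HomF.comm h orth_BC h2 h3
  have hinv : F3 N * F3 N' * (F3 N)⁻¹ = (F3 N')⁻¹ := by
    rw [hN, hN', nn_hh (Or.inl rfl) h gm gm one_ne_zero g.ne_zero, rf_self, ThK.hh_neg (Or.inl rfl) h gm g.ne_zero, ThK.hh_inv h gm g.ne_zero]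
  rw [← hN']
  refine ⟨F3 N * (F1 Q * F2 P)⁻¹ * n0, ?_⟩
  have s1 : n0 * (F1 B * F2 B⁻¹ * F3 N') * n0⁻¹ = F2 P * F2 B * (F2 P)⁻¹ * (F1 Q * F1 B⁻¹ * (F1 Q)⁻¹) * F3 N' := by
    calc n0 * (F1 B * F2 B⁻¹ * F3 N') * n0⁻¹ = (n0 * F1 B * n0⁻¹) * (n0 * F2 B⁻¹ * n0⁻¹) * (n0 * F3 N' * n0⁻¹) := by group
      _ = F2 (P * B * P⁻¹) * F1 (Q * B⁻¹ * Q⁻¹) * F3 N' := by
        rw [e1, e2, e3, mul_inv_cancel_right]
      _ = F2 P * F2 B * (F2 P)⁻¹ * (F1 Q * F1 B⁻¹ * (F1 Q)⁻¹) * F3 N' := by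
        simp only [map_mul, map_inv]
  have s2 := hk_alg (A := F1 B⁻¹) (B' := F2 B) (q := F1 Q) (p := F2 P) (H := F3 N') (c12 Q P) (c12 Q B) (c12 _ _) (c13 Q N').symm (c23 P N').symm
  calc F3 N * (F1 Q * F2 P)⁻¹ * n0 * (F1 B * F2 B⁻¹ * F3 N') * (F3 N * (F1 Q * F2 P)⁻¹ * n0)⁻¹
      = F3 N * ((F1 Q * F2 P)⁻¹ * (n0 * (F1 B * F2 B⁻¹ * F3 N') * n0⁻¹) * (F1 Q * F2 P)⁻¹⁻¹) * (F3 N)⁻¹ := by
        simp only [mul_assoc, mul_inv_rev, inv_inv]
    _ = F3 N * (F2 B * F1 B⁻¹ * F3 N') * (F3 N)⁻¹ := by rw [s1, s2]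
    _ = F2 B * F1 B⁻¹ * (F3 N * F3 N' * (F3 N)⁻¹) := by
        rw [← mul_assoc, ← mul_assoc, ← c23 B N, mul_assoc (F2 B) (F3 N), ← c13 B⁻¹ N]
        simp only [mul_assoc]
    _ = F2 B * F1 B⁻¹ * (F3 N')⁻¹ := by rw [hinv]
    _ = (F1 B * F2 B⁻¹ * F3 N')⁻¹ := by
        have e4 : F2 B * F1 B⁻¹ * F3 N'⁻¹ = F3 N'⁻¹ * (F2 B * F1 B⁻¹) := by
          rw [mul_assoc, c13, ← mul_assoc, c23, mul_assoc]
        rw [map_inv F3] at e4
        rw [e4, mul_inv_rev, mul_inv_rev, map_inv F2, inv_inv, map_inv F1]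
-- END hk

end Pool.Agent.ThR
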