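import Pool.Agent.ThR.Int
import Pool.Agent.ThPL.CaseB

/-! # `E_7`, `E_8`: the class `w` and the arithmetic of the weights (MP_3d54b6_al, part D) -/

namespace Pool.Agent.ThR

open ThE ThK Polynomial

variable {n : ℕ} {K : Type*} [Field K] {L : Type*} [Field L] {l : Vec n → ℤ} {m : ℕ} {G : Type*} [Group G]

/-- the vector `e_i` -/
def ue (i : Fin n) : Vec n := (0, Pi.single i 1)

-- BEGIN ga
/-- MODULE ga. `v.1 = d ∈ {1, 2, 3}` (`ThE.d_bound` for the root `⟨v, hv⟩`), `∑ m_i = 3 d`, `∑ m_i ^ 2 = d ^ 2 + 2`.  `d = 1, 2`: `∑ m_i (m_i - 1) = d ^ 2 + 2 - 3 d = 0` and all terms are `≥ 0`, so `m_i ∈ {0, 1}` (`a = 0`); `d = 3`: `∑ (m_i - 1) (m_i - 2) = 11 - 27 + 2 n ≤ 0`, so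
`n = 8` and `m_i ∈ {1, 2}` (`a = 1`).  If all `m_i` are equal to `c` then `n c = 3 d ∈ {3, 6, 9}`, impossible for `n = 7, 8`. -/
theorem isR_bin (hn : n = 7 ∨ n = 8) {v : Vec n} (hv : IsR v) (h1 : 1 ≤ v.1) :
    ∃ a : ℤ, (∀ i, v.2 i = a ∨ v.2 i = a + 1) ∧ ¬ ∀ i j, v.2 i = v.2 j := by
  have hn8 : n ≤ 8 := by omega
  have hb := d_bound hn8 (⟨v, hv⟩ : Root n)
  have hc := cls_nonneg hn8 (⟨v, hv⟩ : Root n) h1
  have hb' : v.1 ≤ 3 := hb.2
  have hnc : ¬ ∀ i j, v.2 i = v.2 j := by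
    intro h
    have i0 : Fin n := ⟨0, by omega⟩
    have h2 : ∑ i, v.2 i = (n : ℤ) * v.2 i0 := by
      rw [Finset.sum_congr rfl fun i _ => h i i0, Finset.sum_const, Finset.card_univ, Fintype.card_fin, nsmul_eq_mul]
    have h3 := hv.1
    rw [h2] at h3
    rcases hn with rfl | rfl
    · push_cast at h3
      omega
    · push_cast at h3
      omega
  by_cases hd : v.1 ≤ 2
  · refine ⟨0, fun i => ?_, hnc⟩
    have h2 := (hc i).1
    have h3 := (hc i).2.2.1 hd
    simp only at h2 h3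
    omega
  · have hd3 : v.1 = 3 := by omega
    refine ⟨1, fun i => ?_, hnc⟩
    have h2 := (hc i).2.1
    have h3 := (hc i).2.2.2 hd3
    simp only at h2 h3
    omega
-- END ga
-- BEGIN gb
private theorem gb_pos {m : ℕ} {q : ℤ} (hq : 3 ≤ q) (c : Fin m → ℤ) (hc : ∀ i, c i = 0 ∨ c i = 1) (h0 : ∃ i, c i ≠ 0) :
    ¬ (q ^ m - 1 ∣ ∑ i : Fin m, c i * q ^ (i : ℕ)) := by
  intro hd
  have hq0 : 0 < q := by omega
  have hpow : ∀ i : ℕ, 0 < q ^ i := fun i => pow_pos hq0 i
  obtain ⟨j, hj⟩ := h0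
  have hj1 : c j = 1 := (hc j).resolve_left hj
  have hnn : ∀ i ∈ (Finset.univ : Finset (Fin m)), 0 ≤ c i * q ^ (i : ℕ) := by
    intro i _
    rcases hc i with h | h
    · rw [h]; simp
    · rw [h, one_mul]; exact (hpow _).le
  have hE : 0 < ∑ i : Fin m, c i * q ^ (i : ℕ) := by
    refine lt_of_lt_of_le ?_ (Finset.single_le_sum hnn (Finset.mem_univ j))
    rw [hj1, one_mul]
    exact hpow _
  have hle : ∑ i : Fin m, c i * q ^ (i : ℕ) ≤ ∑ i : Fin m, q ^ (i : ℕ) := by
    refine Finset.sum_le_sum fun i _ => ?_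
    rcases hc i with h | h
    · rw [h, zero_mul]; exact (hpow _).le
    · rw [h, one_mul]
  have hgeo : (q - 1) * ∑ i : Fin m, q ^ (i : ℕ) = q ^ m - 1 := by
    rw [Fin.sum_univ_eq_sum_range (fun i => q ^ i) m]
    exact mul_geom_sum q m
  have h1 := Int.le_of_dvd hE hd
  rw [← hgeo] at h1
  nlinarith

/-- MODULE gb. `0 < |E| ≤ N = ∑ q ^ i` and `(q - 1) N = q ^ m - 1` with `q - 1 ≥ 2`, so `|E| < q ^ m - 1`. (`Int.le_of_dvd`, `Int.natAbs`, or `Int.eq_zero_of_abs_lt_dvd`.) -/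
theorem not_dvd {q : ℤ} (hq : 3 ≤ q) (c : Fin m → ℤ) (hc : (∀ i, c i = 0 ∨ c i = 1) ∨ ∀ i, c i = 0 ∨ c i = -1) (h0 : ∃ i, c i ≠ 0) :
    ¬ (q ^ m - 1 ∣ ∑ i : Fin m, c i * q ^ (i : ℕ)) := by
  rcases hc with hc | hc
  · exact gb_pos hq c hc h0
  · intro hd
    refine gb_pos hq (fun i => - c i) (fun i => ?_) ?_ ?_
    · rcases hc i with h | h
      · left; rw [h]; simp
      · right; rw [h]; simp
    · obtain ⟨i, hi⟩ := h0
      exact ⟨i, neg_ne_zero.2 hi⟩
    · have h1 : ∑ i : Fin m, (fun i => - c i) i * q ^ (i : ℕ) = - ∑ i : Fin m, c i * q ^ (i : ℕ) := by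
        rw [← Finset.sum_neg_distrib]
        exact Finset.sum_congr rfl fun i _ => by ring
      rw [h1]
      exact (dvd_neg).2 hd
-- END gb

-- BEGIN gc
private theorem gc_lt {q i : ℕ} (hq : 2 ≤ q) (hm : 2 ≤ m) (hi : i < m) : q ^ i < q ^ m - 1 := by
  have h1 : q ^ i ≤ q ^ (m - 1) := Nat.pow_le_pow_right (by omega) (by omega)
  have h2 : q ^ m = q ^ (m - 1) * q := by rw [← pow_succ]; congr 1; omega
  have h3 : q ^ (m - 1) * 2 ≤ q ^ (m - 1) * q := Nat.mul_le_mul_left _ hq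
  have h4 : 1 < q ^ (m - 1) := Nat.one_lt_pow (by omega) (by omega)
  omega

/-- MODULE gc. `q = |K|`, `L` the extension of degree `m` (`FiniteField.Extension K p m`, `p = ringChar K`; `natCard_extension`), `μ` a generator of `Lˣ`, `f0 = minpoly K μ`: `K⟮μ⟯ = ⊤` (every element of `L` is `0` or a
power of `μ`), so `natDegree f0 = m`; `f0.map ι` is monic of degree `m`, and the `m` elements `μ ^ q ^ i` are roots of it (the automorphisms `Extension.frob ^ i`), distinct because `q ^ i < q ^ m - 1`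
for `i < m`, `m ≥ 2`; so `f0.map ι = ∏ (X - C (μ ^ q ^ i))`. -/
theorem exists_singer (K : Type*) [Field K] [Finite K] (hm : 2 ≤ m) :
    ∃ (L : Type) (_ : Field L) (ι : K →+* L) (μ : Lˣ) (f0 : K[X]), orderOf μ = Nat.card K ^ m - 1 ∧ Irreducible f0 ∧ f0.Monic ∧ f0.natDegree = m ∧
      f0.map ι = ∏ i : Fin m, (Polynomial.X - C ((μ ^ Nat.card K ^ (i : ℕ) : Lˣ) : L)) := by
  classical
  obtain ⟨p, hp⟩ := CharP.exists K
  have : Fact p.Prime := ⟨CharP.char_is_prime K p⟩
  have : NeZero m := ⟨by omega⟩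
  obtain ⟨μ, hμ⟩ := IsCyclic.exists_generator (α := (FiniteField.Extension K p m)ˣ)
  have hord : orderOf μ = Nat.card K ^ m - 1 := by
    rw [orderOf_eq_card_of_forall_mem_zpowers hμ, Nat.card_units, FiniteField.natCard_extension]
  have hint : IsIntegral K (μ : FiniteField.Extension K p m) := Algebra.IsIntegral.isIntegral _
  have htop : IntermediateField.adjoin K {(μ : FiniteField.Extension K p m)} = ⊤ := by
    rw [eq_top_iff]
    intro y _
    by_cases hy : y = 0
    · rw [hy]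
      exact zero_mem _
    · obtain ⟨k, hk⟩ := Subgroup.mem_zpowers_iff.1 (hμ (Units.mk0 y hy))
      have h1 : y = (μ : FiniteField.Extension K p m) ^ k := by
        rw [← Units.val_zpow_eq_zpow_val, hk]
        rfl
      rw [h1]
      exact zpow_mem (IntermediateField.mem_adjoin_simple_self K _) k
  have hdeg : (minpoly K (μ : FiniteField.Extension K p m)).natDegree = m := by
    rw [← IntermediateField.adjoin.finrank hint, htop, IntermediateField.finrank_top', FiniteField.finrank_extension]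
  refine ⟨FiniteField.Extension K p m, inferInstance, algebraMap K (FiniteField.Extension K p m), μ, minpoly K (μ : FiniteField.Extension K p m), hord,
    minpoly.irreducible hint, minpoly.monic hint, hdeg, ?_⟩
  have hq : 2 ≤ Nat.card K := Finite.one_lt_card
  have hinj : Function.Injective (fun i : Fin m => ((μ ^ Nat.card K ^ (i : ℕ) : (FiniteField.Extension K p m)ˣ) : FiniteField.Extension K p m)) := by
    intro i j hij
    have h1 : μ ^ Nat.card K ^ (i : ℕ) = μ ^ Nat.card K ^ (j : ℕ) := Units.ext hij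
    have h2 := pow_injOn_Iio_orderOf (x := μ) (by rw [Set.mem_Iio, hord]; exact gc_lt hq hm i.2) (by rw [Set.mem_Iio, hord]; exact gc_lt hq hm j.2) h1
    exact Fin.ext (Nat.pow_right_injective hq h2)
  have hdvd : ∏ i : Fin m, (Polynomial.X - C ((μ ^ Nat.card K ^ (i : ℕ) : (FiniteField.Extension K p m)ˣ) : FiniteField.Extension K p m)) ∣
      (minpoly K (μ : FiniteField.Extension K p m)).map (algebraMap K (FiniteField.Extension K p m)) := by
    refine Finset.prod_dvd_of_coprime (fun i _ j _ hij => ?_) (fun i _ => ?_)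
    · exact Polynomial.pairwise_coprime_X_sub_C hinj hij
    · rw [dvd_iff_isRoot, IsRoot.def, eval_map_algebraMap, Units.val_pow_eq_pow_val, ← FiniteField.Extension.frob_iterate_apply K p m]
      rw [← AlgEquiv.coe_toAlgHom, Polynomial.aeval_algHom_apply, minpoly.aeval, map_zero]
  have h1 : (∏ i : Fin m, (Polynomial.X - C ((μ ^ Nat.card K ^ (i : ℕ) : (FiniteField.Extension K p m)ˣ) : FiniteField.Extension K p m))).Monic :=
    monic_prod_of_monic _ _ fun i _ => monic_X_sub_C _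
  refine (Polynomial.eq_of_monic_of_dvd_of_natDegree_le h1 ((minpoly.monic hint).map _) hdvd ?_)
  rw [Polynomial.natDegree_map, hdeg, Polynomial.natDegree_prod_of_monic _ _ fun i _ => monic_X_sub_C _,
    Finset.sum_congr rfl fun i _ => natDegree_X_sub_C _]
  simp
-- END gc

-- BEGIN gd
private theorem gd_lt {q i : ℕ} (hq : 2 ≤ q) (hm : 2 ≤ m) (hi : i < m) : q ^ i < q ^ m - 1 := by
  have h1 : q ^ i ≤ q ^ (m - 1) := Nat.pow_le_pow_right (by omega) (by omega)
  have h2 : q ^ m = q ^ (m - 1) * q := by rw [← pow_succ]; congr 1; omega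
  have h3 : q ^ (m - 1) * 2 ≤ q ^ (m - 1) * q := Nat.mul_le_mul_left _ hq
  have h4 : 1 < q ^ (m - 1) := Nat.one_lt_pow (by omega) (by omega)
  omega

/-- MODULE gd. `f0(0)`: the constant coefficient of `f0.map ι` is `(-1) ^ m ∏ s_i ≠ 0`; `lam = (ι ((-1) ^ m f0(0)))⁻¹`. -/
theorem exists_lam {ι : K →+* L} {f0 : K[X]} {s : Fin m → Lˣ} (h : f0.map ι = ∏ i : Fin m, (Polynomial.X - C ((s i : Lˣ) : L))) :
    ∃ (a : Kˣ) (lam : Lˣ), (lam : L) = ι a ∧ lam * ∏ i, s i = 1 ∧ (a : K) * ((-1) ^ m * f0.coeff 0) = 1 := by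
  have h1 := congrArg (Polynomial.eval 0) h
  rw [← Polynomial.coeff_zero_eq_eval_zero, Polynomial.coeff_map, Polynomial.eval_prod] at h1
  simp only [Polynomial.eval_sub, Polynomial.eval_X, Polynomial.eval_C, zero_sub] at h1
  rw [Finset.prod_neg, Finset.card_univ, Fintype.card_fin] at h1
  have h2 : ι ((-1) ^ m * f0.coeff 0) = ((∏ i, s i : Lˣ) : L) := by
    rw [map_mul, map_pow, map_neg, map_one, h1, Units.coe_prod, ← mul_assoc, ← mul_pow]
    norm_num
  have h3 : (-1) ^ m * f0.coeff 0 ≠ 0 := by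
    intro h0
    rw [h0, map_zero] at h2
    exact Units.ne_zero _ h2.symm
  refine ⟨(Units.mk0 _ h3)⁻¹, (∏ i, s i)⁻¹, ?_, inv_mul_cancel _, ?_⟩
  · rw [Units.val_inv_eq_inv_val, Units.val_inv_eq_inv_val, Units.val_mk0, map_inv₀, h2]
  · rw [Units.val_inv_eq_inv_val, Units.val_mk0]
    exact inv_mul_cancel₀ h3

/-- `μ ^ q ^ i = μ ^ q ^ j` (`i, j < m`): the exponents are `< q ^ m - 1 = orderOf μ` (`m ≥ 2`), so they are equal (`pow_inj_mod`, `Nat.pow_right_injective`).  `lam = μ ^ q ^ i`: then `μ ^ (q ^ i (q - 1)) = 1`, `q ^ m - 1 ∣ q ^ i (q - 1)`, `q ^ m - 1` is coprime to `q`, so `q ^ m - 1 ∣ q - 1`, impossible. -/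
theorem cons_inj {q : ℕ} (hq : 2 ≤ q) (hm : 2 ≤ m) {μ lam : Lˣ} (hμ : orderOf μ = q ^ m - 1) (hl : lam ^ (q - 1) = 1) :
    Function.Injective (Fin.cons lam fun i : Fin m => μ ^ q ^ (i : ℕ) : Fin (m + 1) → Lˣ) := by
  rw [Fin.cons_injective_iff]
  constructor
  · rintro ⟨i, hi⟩
    have h1 : μ ^ (q ^ (i : ℕ) * (q - 1)) = 1 := by rw [pow_mul, ← hl]; exact congrArg (· ^ (q - 1)) hi
    have h2 : q ^ m - 1 ∣ q ^ (i : ℕ) * (q - 1) := hμ ▸ orderOf_dvd_of_pow_eq_one h1
    have hpos : 1 ≤ q ^ m := Nat.one_le_pow _ _ (by omega)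
    have h3 : Nat.Coprime (q ^ m - 1) (q ^ m) := (Nat.coprime_self_sub_left hpos).2 (Nat.coprime_one_left _)
    have h4 : Nat.Coprime (q ^ m - 1) (q ^ (i : ℕ)) :=
      Nat.Coprime.coprime_dvd_right (pow_dvd_pow q i.2.le) h3
    have h5 : q ^ m - 1 ∣ q - 1 := h4.dvd_of_dvd_mul_left h2
    have h6 := Nat.le_of_dvd (by omega) h5
    have h7 := gd_lt hq hm (i := 1) (by omega)
    rw [pow_one] at h7
    omega
  · intro i j hij
    have h1 : q ^ (i : ℕ) = q ^ (j : ℕ) :=
      pow_injOn_Iio_orderOf (by rw [hμ]; exact gd_lt hq hm i.2) (by rw [hμ]; exact gd_lt hq hm j.2) hij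
    exact Fin.ext (Nat.pow_right_injective hq h1)
-- END gd

-- BEGIN ge
/-- MODULE ge. `bf (ue i) v = v.2 i` -/
theorem bf_ue (i : Fin n) (v : Vec n) : bf (ue i) v = v.2 i := by
  simp [bf, ue, Pi.single_apply]

/-- weights of the opposite family -/
theorem wt_neg (u : Fin m → Vec n) (D : Fin m → Lˣ) (v : Vec n) : wt (fun i => -u i) D v = (wt u D v)⁻¹ := by
  unfold wt
  rw [← Finset.prod_inv_distrib]
  refine Finset.prod_congr rfl fun i _ => ?_
  rw [bf_neg_left, zpow_neg]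

/-- `wt ue D v = μ ^ E`, `E = ∑ (m_(i+1) - m_0) q ^ i` (`bf_ue`, `Fin.prod_univ_succ`, `Finset.prod_zpow`, `lam = (∏ μ ^ q ^ i)⁻¹`); `orderOf_dvd_iff_zpow_eq_one`, `isR_bin`, `not_dvd` with `c i = m_(i+1) - m_0` (if `m_0 = a` they are `0` or `1`, if `m_0 = a + 1` they are `0` or `-1`; one is not `0`). -/
theorem wt_ne (hm : m + 1 = 7 ∨ m + 1 = 8) {q : ℕ} (hq : 3 ≤ q) {μ lam : Lˣ} (hμ : orderOf μ = q ^ m - 1) (hl : lam * ∏ i : Fin m, μ ^ q ^ (i : ℕ) = 1)
    {v : Vec (m + 1)} (hv : IsR v) (h1 : 1 ≤ v.1) : wt ue (Fin.cons lam fun i : Fin m => μ ^ q ^ (i : ℕ)) v ≠ 1 := by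
  have hE : wt ue (Fin.cons lam fun i : Fin m => μ ^ q ^ (i : ℕ)) v
      = μ ^ (∑ i : Fin m, (v.2 i.succ - v.2 0) * (q : ℤ) ^ (i : ℕ)) := by
    unfold wt
    rw [Fin.prod_univ_succ]
    simp only [Fin.cons_zero, Fin.cons_succ, bf_ue]
    rw [eq_inv_of_mul_eq_one_left hl, inv_zpow', ← Finset.prod_zpow, ← Finset.prod_mul_distrib]
    have : ∀ i : Fin m, (μ ^ q ^ (i : ℕ)) ^ (-v.2 0) * (μ ^ q ^ (i : ℕ)) ^ v.2 i.succ
        = μ ^ ((v.2 i.succ - v.2 0) * (q : ℤ) ^ (i : ℕ)) := by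
      intro i
      rw [← zpow_add, ← zpow_natCast, ← zpow_mul]
      congr 1
      push_cast
      ring
    rw [Finset.prod_congr rfl fun i _ => this i]
    exact (map_sum (zmultiplesHom (Additive Lˣ) (Additive.ofMul μ)) _ _).symm
  rw [hE]
  intro h
  have hd := orderOf_dvd_iff_zpow_eq_one.2 h
  have h1q : 1 ≤ q ^ m := Nat.one_le_pow _ _ (by omega)
  rw [hμ, Nat.cast_sub h1q] at hd
  push_cast at hd
  obtain ⟨a, ha, hne⟩ := isR_bin hm hv h1
  refine not_dvd (by exact_mod_cast hq) (fun i : Fin m => v.2 i.succ - v.2 0) ?_ ?_ hd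
  · rcases ha 0 with h0 | h0
    · left
      intro i
      rcases ha i.succ with hi | hi
      · left; omega
      · right; omega
    · right
      intro i
      rcases ha i.succ with hi | hi
      · right; omega
      · left; omega
  · by_contra hc
    push Not at hc
    apply hne
    have h2 : ∀ i : Fin (m + 1), v.2 i = v.2 0 := by
      intro i
      refine Fin.cases rfl (fun i => ?_) i
      have := hc i
      omega
    intro i j
    rw [h2 i, h2 j]
-- END ge

-- BEGIN gf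
/-- MODULE gf. `ue i - ue j` is the vector of `ThE.eroot` -/
theorem ue_sub {i j : Fin n} (h : i ≠ j) : ue i - ue j = (er h).1 := by
  refine Prod.ext ?_ ?_
  · show (0 : ℤ) - 0 = 0
    rw [sub_zero]
  · funext k
    show (Pi.single i 1 : Fin n → ℤ) k - (Pi.single j 1 : Fin n → ℤ) k = (if k = i then 1 else 0) - (if k = j then 1 else 0)
    rw [Pi.single_apply, Pi.single_apply]

theorem fam_ue : Fam lev (ue : Fin n → Vec n) := by
  intro i j h
  rw [ue_sub h]
  exact ⟨(er h).2, rfl⟩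

private theorem gf_bl {i j : Fin n} (h : i ≠ j) : bl (ue i - ue j) (ue j) = if i < j then 1 else 0 := by
  have h1 : ∀ p : Fin n, (∑ q : Fin n, if p < q then (ue i - ue j : Vec n).2 p * (ue j : Vec n).2 q else 0) =
      if p < j then (ue i - ue j : Vec n).2 p else 0 := by
    intro p
    rw [Finset.sum_eq_single j]
    · have h2 : (ue j : Vec n).2 j = 1 := by
        show (Pi.single j 1 : Fin n → ℤ) j = 1
        rw [Pi.single_eq_same]
      rw [h2, mul_one]
    · intro q _ hq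
      have h2 : (ue j : Vec n).2 q = 0 := by
        show (Pi.single j 1 : Fin n → ℤ) q = 0
        rw [Pi.single_eq_of_ne hq]
      rw [h2, mul_zero, ite_self]
    · intro hj
      exact absurd (Finset.mem_univ j) hj
  unfold bl
  rw [Finset.sum_congr rfl fun p _ => h1 p]
  have h3 : ∀ p : Fin n, (if p < j then (ue i - ue j : Vec n).2 p else 0) = if p = i then (if i < j then 1 else 0) else 0 := by
    intro p
    have h4 : (ue i - ue j : Vec n).2 p = (if p = i then 1 else 0) - (if p = j then 1 else 0) := by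
      show (Pi.single i 1 : Fin n → ℤ) p - (Pi.single j 1 : Fin n → ℤ) p = _
      rw [Pi.single_apply, Pi.single_apply]
    rw [h4]
    by_cases hp : p = i
    · subst hp
      by_cases hj : p < j
      · simp [hj, h]
      · simp [hj]
    · by_cases hj : p < j
      · simp [hj, hp, hj.ne]
      · simp [hj, hp]
  rw [Finset.sum_congr rfl fun p _ => h3 p]
  simp

/-- `bl (e_i - e_j) e_j = ∑_(p < j) (e_i - e_j)_p = [i < j]` -/
theorem cf_ue {i j : Fin n} (h : i ≠ j) : cf K ue i j = if i < j then -1 else 1 := by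
  unfold cf eps ep
  rw [gf_bl h]
  split_ifs <;> simp

theorem fam_neg (hl : Addl l) {u : Fin m → Vec n} (hu : Fam l u) : Fam l fun i => -u i := by
  intro i j h
  have h1 : -u i - -u j = -(u i - u j) := by abel
  show L0 l (-u i - -u j)
  rw [h1]
  exact L0.neg hl (hu i j h)

theorem cf_neg (u : Fin m → Vec n) (i j : Fin m) : cf K (fun i => -u i) i j = cf K u i j := by
  have h1 : -u i - -u j = -(u i - u j) := by abel
  show eps K (-u i - -u j) (-u j) = eps K (u i - u j) (u j)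
  rw [h1, eps_neg_left, eps_neg_right]

/-- the elementary matrices as root elements of the family, and of the opposite family -/
theorem yy_X (x : Root n → K → G) {i j : Fin n} (h : i ≠ j) (a : K) : yy x i j a = X x (ue i - ue j) (cf K ue i j * a) := by
  have h1 : IsR (ue i - ue j) := (fam_ue i j h).1
  rw [X_of x h1, cf_ue h]
  unfold yy
  rw [dif_pos h]
  have h2 : er h = (⟨ue i - ue j, h1⟩ : Root n) := Subtype.ext (ue_sub h).symm
  rw [h2]
  split_ifs <;> simp

theorem X_op (x : Root n → K → G) (v : Vec n) (a : K) : X (op x) (-v) a = X x v a := by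
  by_cases h : IsR v
  · rw [X_of x h, X_of (op x) (isR_neg h)]
    show x (-(⟨-v, isR_neg h⟩ : Root n)) a = x ⟨v, h⟩ a
    congr 1
    exact Subtype.ext (neg_neg v)
  · have h' : ¬ IsR (-v) := fun h1 => h (by simpa using isR_neg h1)
    unfold X
    rw [dif_neg h, dif_neg h']
-- END gf

-- BEGIN gg
/-- MODULE gg. A matrix of determinant `1` with given characteristic polynomial: `ThPL.cpm n f`, `ThPL.cpm_charpoly`, `Matrix.det_eq_sign_charpoly_coeff`. -/
theorem exists_SL {f : K[X]} (hf : f.Monic) (hd : f.natDegree = n) (h0 : (-1) ^ n * f.coeff 0 = 1) :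
    ∃ w : Matrix.SpecialLinearGroup (Fin n) K, w.1.charpoly = f := by
  have h1 : (ThPL.cpm n f).charpoly = f := ThPL.cpm_charpoly hf hd
  refine ⟨⟨ThPL.cpm n f, ?_⟩, h1⟩
  rw [Matrix.det_eq_sign_charpoly_coeff, h1, Fintype.card_fin, h0]
-- END gg

-- BEGIN gh
/-- MODULE gh. For one `w`: `D = Fin.cons lam (μ ^ q ^ i)`; `map ι w` has the characteristic polynomial `∏ (X - D_i)` (`Fin.prod_univ_succ`, `Matrix.charpoly_map`), `exists_diag` (`cons_inj`), `sur_of_fam` with the family `ue` for `x` and with `-ue` for `op x` (`Stb.op`, `fam_neg`, `cf_neg`, `X_op`, `wt_neg`);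
level: a root vector of level `lev v = v.1 = k ≥ 1` (`wt_ne`). `lam ^ (q - 1) = 1`: `lam = ι a`, `FiniteField.pow_card_sub_one_eq_one`. -/
theorem sur_singer [Finite K] (hm : m + 1 = 7 ∨ m + 1 = 8) (hq : 3 ≤ Nat.card K) {ι : K →+* L} {μ lam : Lˣ} {a : K} {f0 : K[X]} (hμ : orderOf μ = Nat.card K ^ m - 1)
    (hf : f0.map ι = ∏ i : Fin m, (Polynomial.X - C ((μ ^ Nat.card K ^ (i : ℕ) : Lˣ) : L))) (hl : lam * ∏ i : Fin m, μ ^ Nat.card K ^ (i : ℕ) = 1) (ha : (lam : L) = ι a)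
    {w : Matrix.SpecialLinearGroup (Fin (m + 1)) K} (hw : w.1.charpoly = (Polynomial.X - C a) * f0) {x : Root (m + 1) → K → G} (h : Stb K (m + 1) x)
    {f : Matrix.SpecialLinearGroup (Fin (m + 1)) K →* G} (hh : ∀ i j, i ≠ j → ∀ a, f (el K i j a) = yy x i j a) {k : ℕ} (hk : 1 ≤ k) :
    Sur x lev (f w) k ∧ Sur (op x) lev (f w) k := by
  have hn : m + 1 ≤ 8 := by omega
  have hm2 : 2 ≤ m := by omega
  have hq2 : 2 ≤ Nat.card K := by omega
  have hlam : lam ^ (Nat.card K - 1) = 1 := by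
    have ha0 : a ≠ 0 := by
      rintro rfl
      rw [map_zero] at ha
      exact Units.ne_zero lam ha
    have h1 : a ^ (Nat.card K - 1) = 1 := by
      have := Fintype.ofFinite K
      rw [Nat.card_eq_fintype_card]
      exact FiniteField.pow_card_sub_one_eq_one a ha0
    refine Units.ext ?_
    rw [Units.val_pow_eq_pow_val, ha, ← map_pow, h1, map_one, Units.val_one]
  have hinj := cons_inj hq2 hm2 hμ hlam
  have hcp : (Matrix.SpecialLinearGroup.map ι w).1.charpoly =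
      ∏ i, (Polynomial.X - C (((Fin.cons lam fun i : Fin m => μ ^ Nat.card K ^ (i : ℕ) : Fin (m + 1) → Lˣ) i : Lˣ) : L)) := by
    have e : (Matrix.SpecialLinearGroup.map ι w).1 = w.1.map ι := rfl
    rw [e, Matrix.charpoly_map, hw, Polynomial.map_mul, Polynomial.map_sub, Polynomial.map_X, Polynomial.map_C, hf, Fin.prod_univ_succ, ← ha]
    rfl
  obtain ⟨hD, g, hg⟩ := exists_diag (Matrix.SpecialLinearGroup.map ι w) _ hinj hcp
  have hl' : Addl (lev : Vec (m + 1) → ℤ) := fun v w => rfl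
  have hlev : ∀ v : Rk (lev : Vec (m + 1) → ℤ) (k : ℤ), 1 ≤ v.1.1 := by
    intro v
    have h1 : v.1.1 = (k : ℤ) := v.2.2
    rw [h1]
    exact_mod_cast hk
  constructor
  · refine sur_of_fam hn hl' hk h fam_ue (fun i j hij b => ?_) ι hD hg fun v => ?_
    · rw [hh i j hij, yy_X x hij]
    · exact wt_ne hm hq hμ hl v.2.1 (hlev v)
  · refine sur_of_fam (u := fun i => -ue i) hn hl' hk h.op (fam_neg hl' fam_ue) (fun i j hij b => ?_) ι hD hg fun v => ?_
    · have e : -ue i - -ue j = -(ue i - ue j) := by abel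
      rw [hh i j hij, yy_X x hij, cf_neg]
      show _ = X (op x) (-ue i - -ue j) _
      rw [e, X_op]
    · rw [wt_neg]
      exact inv_ne_one.mpr (wt_ne hm hq hμ hl v.2.1 (hlev v))
-- END gh

-- BEGIN gi
/-- MODULE gi. RESULT for `E_7`, `E_8`: `exists_singer`, `exists_lam`, `exists_SL` (`f = (X - C a) f0`: `(-1)^(m+1) f(0) = (-1)^m a f0(0) = 1`), `sur_singer`; `|K| ≥ 3` from `hK`. -/
theorem exists_w78 (hn : n = 7 ∨ n = 8) (K : Type*) [Field K] [Finite K] (hK : ∃ d : K, d ≠ 0 ∧ d ≠ 1) :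
    ∃ (w : Matrix.SpecialLinearGroup (Fin n) K) (a : K) (f0 : K[X]), Irreducible f0 ∧ f0.Monic ∧ 2 ≤ f0.natDegree ∧ w.1.charpoly = (Polynomial.X - C a) * f0 ∧
      ∀ (G : Type*) [Group G] (x : Root n → K → G) (f : Matrix.SpecialLinearGroup (Fin n) K →* G), Stb K n x → (∀ i j, i ≠ j → ∀ a, f (el K i j a) = yy x i j a) →
        ∀ k, 1 ≤ k → Sur x lev (f w) k ∧ Sur (op x) lev (f w) k := by
  obtain ⟨m, rfl⟩ : ∃ m, n = m + 1 := ⟨n - 1, by omega⟩
  have hm : 2 ≤ m := by omega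
  have hq : 3 ≤ Nat.card K := by
    obtain ⟨d, hd0, hd1⟩ := hK
    classical
    have := Fintype.ofFinite K
    rw [Nat.card_eq_fintype_card]
    calc 3 = ({0, 1, d} : Finset K).card := by
          rw [Finset.card_insert_of_notMem, Finset.card_insert_of_notMem, Finset.card_singleton]
          · simpa using fun h => hd1 h.symm
          · simp only [Finset.mem_insert, Finset.mem_singleton, not_or]
            exact ⟨zero_ne_one, fun h => hd0 h.symm⟩
      _ ≤ Fintype.card K := Finset.card_le_univ _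
  obtain ⟨L, iL, ι, μ, f0, hμ, hirr, hmon, hdeg, hf⟩ := exists_singer (m := m) K hm
  obtain ⟨a, lam, hla, hl, ha0⟩ := exists_lam (s := fun i : Fin m => μ ^ Nat.card K ^ (i : ℕ)) hf
  have hfm : ((Polynomial.X - C (a : K)) * f0).Monic := (monic_X_sub_C _).mul hmon
  have hfd : ((Polynomial.X - C (a : K)) * f0).natDegree = m + 1 := by
    rw [(monic_X_sub_C _).natDegree_mul hmon, natDegree_X_sub_C, hdeg, add_comm]
  have h0 : (-1) ^ (m + 1) * ((Polynomial.X - C (a : K)) * f0).coeff 0 = 1 := by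
    rw [mul_coeff_zero, coeff_sub, coeff_X_zero, coeff_C_zero]
    linear_combination ha0
  obtain ⟨w, hw⟩ := exists_SL hfm hfd h0
  exact ⟨w, a, f0, hirr, hmon, by omega, hw, fun G _ x f h hh k hk => sur_singer hn hq hμ hf hl hla hw h hh hk⟩
-- END gi

end Pool.Agent.ThR
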