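import Pool.Agent.ThR.Main6

/-! # `E_6` over the field with three elements (MP_3d54b6_al) -/

namespace Pool.Agent.ThR

open ThE ThK

universe v

variable {n : ℕ} {G : Type v} [Group G]

/-- the field with three elements -/
abbrev Z3 : Type := ZMod 3

/-- the unipotent block -/
def J3 : Matrix.SpecialLinearGroup (Fin 3) Z3 := ⟨!![1, 0, 0; 1, 1, 0; 0, 1, 1], by decide⟩

/-- `diag (1, -1) * [[0, 1], [1, 1]]` -/
def A3 : Matrix.SpecialLinearGroup (Fin 2) Z3 := ⟨!![0, 1; -1, -1], by decide⟩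

/-- conjugation with `diag (1, -1)` -/
def cE : Matrix.SpecialLinearGroup (Fin 2) Z3 →* Matrix.SpecialLinearGroup (Fin 2) Z3 where
  toFun M := ⟨!![M.1 0 0, -M.1 0 1; -M.1 1 0, M.1 1 1], by
    have h := M.2
    rw [Matrix.det_fin_two] at h
    rw [Matrix.det_fin_two_of]
    linear_combination h⟩
  map_one' := by
    ext i j
    fin_cases i <;> fin_cases j <;> simp
  map_mul' M N := by
    ext i j
    fin_cases i <;> fin_cases j <;> simp [Matrix.mul_apply, Fin.sum_univ_two] <;> ring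

-- BEGIN za
private def za_mul (A B : Z3 × Z3 × Z3 × Z3) : Z3 × Z3 × Z3 × Z3 :=
  (A.1 * B.1 + A.2.1 * B.2.2.1, A.1 * B.2.1 + A.2.1 * B.2.2.2, A.2.2.1 * B.1 + A.2.2.2 * B.2.2.1, A.2.2.1 * B.2.1 + A.2.2.2 * B.2.2.2)

private def za_inv (A : Z3 × Z3 × Z3 × Z3) : Z3 × Z3 × Z3 × Z3 := (A.2.2.2, -A.2.1, -A.2.2.1, A.1)

private def za_c (A : Z3 × Z3 × Z3 × Z3) : Z3 × Z3 × Z3 × Z3 := (A.1, -A.2.1, -A.2.2.1, A.2.2.2)

private def za_T (M : Matrix.SpecialLinearGroup (Fin 2) Z3) : Z3 × Z3 × Z3 × Z3 := (M.1 0 0, M.1 0 1, M.1 1 0, M.1 1 1)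

private theorem za_T_inj {M N : Matrix.SpecialLinearGroup (Fin 2) Z3} (h : za_T M = za_T N) : M = N := by
  simp only [za_T, Prod.mk.injEq] at h
  obtain ⟨h1, h2, h3, h4⟩ := h
  apply Subtype.ext
  ext i j
  fin_cases i <;> fin_cases j
  · exact h1
  · exact h2
  · exact h3
  · exact h4

private theorem za_T_mul (M N : Matrix.SpecialLinearGroup (Fin 2) Z3) : za_T (M * N) = za_mul (za_T M) (za_T N) := by
  simp only [za_T, za_mul, Matrix.SpecialLinearGroup.coe_mul, Matrix.mul_apply, Fin.sum_univ_two]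

private theorem za_T_inv (M : Matrix.SpecialLinearGroup (Fin 2) Z3) : za_T M⁻¹ = za_inv (za_T M) := by
  simp [za_T, za_inv, Matrix.SpecialLinearGroup.coe_inv, Matrix.adjugate_fin_two]

private theorem za_T_c (M : Matrix.SpecialLinearGroup (Fin 2) Z3) : za_T (cE M) = za_c (za_T M) := rfl

private theorem za_T_A : za_T A3 = (0, 1, -1, -1) := rfl

private theorem za_T_neg : za_T (-1 : Matrix.SpecialLinearGroup (Fin 2) Z3) = (-1, 0, 0, -1) := by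
  simp [za_T]

private theorem za_ex (t : Z3 × Z3 × Z3 × Z3) (h : t.1 * t.2.2.2 - t.2.1 * t.2.2.1 = 1) : ∃ P : Matrix.SpecialLinearGroup (Fin 2) Z3, za_T P = t :=
  ⟨⟨!![t.1, t.2.1; t.2.2.1, t.2.2.2], by rw [Matrix.det_fin_two_of]; exact h⟩, rfl⟩

private def za_tab : List ((Z3 × Z3 × Z3 × Z3) × (Z3 × Z3 × Z3 × Z3) × Bool) :=
  [
   ((0, 1, 2, 1), (1, 0, 1, 1), false), ((0, 1, 2, 0), (0, 1, 2, 1), false), ((0, 1, 2, 0), (1, 0, 2, 1), true), ((0, 1, 2, 1), (0, 1, 2, 1), true),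
   ((0, 1, 2, 0), (0, 1, 2, 2), false), ((0, 1, 2, 0), (1, 0, 1, 1), true), ((0, 1, 2, 0), (0, 1, 2, 0), false), ((0, 1, 2, 0), (0, 1, 2, 1), true),
   ((1, 0, 0, 1), (1, 0, 2, 1), true), ((0, 1, 2, 0), (0, 1, 2, 2), true), ((0, 1, 2, 0), (1, 0, 0, 1), false), ((0, 1, 2, 2), (0, 1, 2, 0), false),
   ((0, 1, 2, 1), (1, 0, 2, 1), true), ((0, 1, 2, 1), (0, 1, 2, 0), false), ((0, 1, 2, 2), (0, 1, 2, 2), true), ((0, 1, 2, 0), (1, 0, 0, 1), true),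
   ((1, 0, 0, 1), (0, 1, 2, 2), false), ((0, 1, 2, 0), (1, 0, 1, 1), false), ((0, 1, 2, 1), (0, 1, 2, 2), false), ((0, 1, 2, 2), (1, 0, 2, 1), false),
   ((0, 1, 2, 1), (1, 0, 0, 1), true), ((0, 1, 2, 0), (1, 0, 2, 1), false), ((0, 1, 2, 2), (1, 0, 0, 1), true), ((0, 1, 2, 0), (0, 1, 2, 0), true)]

private theorem za_key : ∀ a b c d : Z3, a * d - b * c = 1 → ∃ t ∈ za_tab, t.1.1 * t.1.2.2.2 - t.1.2.1 * t.1.2.2.1 = 1 ∧
    t.2.1.1 * t.2.1.2.2.2 - t.2.1.2.1 * t.2.1.2.2.1 = 1 ∧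
    ((a, b, c, d) = za_mul (za_mul (za_mul t.1 (za_c (0, 1, -1, -1))) (za_c (za_inv t.1))) (za_mul (za_mul (za_c t.2.1) (0, 1, -1, -1)) (za_inv t.2.1)) ∨
      (a, b, c, d) = za_mul (za_mul (za_mul t.1 (za_c (0, 1, -1, -1))) (za_c (za_inv t.1))) (za_mul (za_mul (za_c t.2.1) (za_c (za_inv (0, 1, -1, -1)))) (za_inv t.2.1))) := by
  decide

/-- MODULE za. In `SL_2(3)`: every element is `(P a P⁻¹)(Q a Q⁻¹)` or `(P a P⁻¹)(Q a⁻¹ Q⁻¹)` for the matrix `a = [[0, 1], [1, 1]]` of determinant `-1` and order `8` (`a = E A3`, `E = diag (1, -1)`, written in `SL_2(3)`).  Finite check: e.g. `decide` over the entries of `M`, with a table of `P`, `Q` (or reduce the number of cases: `P = 1` up to conjugation of `M`). -/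
theorem prod_A3 (M : Matrix.SpecialLinearGroup (Fin 2) Z3) : ∃ P Q : Matrix.SpecialLinearGroup (Fin 2) Z3,
    M = P * cE A3 * cE P⁻¹ * (cE Q * A3 * Q⁻¹) ∨ M = P * cE A3 * cE P⁻¹ * (cE Q * cE A3⁻¹ * Q⁻¹) := by
  have hM : M.1 0 0 * M.1 1 1 - M.1 0 1 * M.1 1 0 = 1 := by
    have h := M.2
    rw [Matrix.det_fin_two] at h
    exact h
  obtain ⟨t, -, h1, h2, h3⟩ := za_key _ _ _ _ hM
  obtain ⟨P, hP⟩ := za_ex t.1 h1
  obtain ⟨Q, hQ⟩ := za_ex t.2.1 h2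
  refine ⟨P, Q, ?_⟩
  rcases h3 with h3 | h3
  · left
    apply za_T_inj
    simp only [za_T_mul, za_T_c, za_T_inv, za_T_A, hP, hQ]
    exact h3
  · right
    apply za_T_inj
    simp only [za_T_mul, za_T_c, za_T_inv, za_T_A, hP, hQ]
    exact h3

/-- `-a` and `a⁻¹` are conjugate -/
theorem real_A3 : ∃ R : Matrix.SpecialLinearGroup (Fin 2) Z3, cE R * (-1 * A3) * R⁻¹ = cE A3⁻¹ := by
  obtain ⟨R, hR⟩ := za_ex (0, 1, 2, 0) (by decide)
  refine ⟨R, ?_⟩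
  apply za_T_inj
  simp only [za_T_mul, za_T_c, za_T_inv, za_T_A, za_T_neg, hR]
  decide

/-- `a ^ 12 = -1` -/
theorem A3_pow : (cE A3 * A3) ^ 6 = -1 := by
  have h : ∀ X : Matrix.SpecialLinearGroup (Fin 2) Z3, X ^ 6 = X * X * X * (X * X * X) := by
    intro X
    simp only [pow_succ, pow_zero, one_mul, mul_assoc]
  rw [h]
  apply za_T_inj
  simp only [za_T_mul, za_T_c, za_T_A, za_T_neg]
  decide

theorem J3_pow : J3 ^ 3 = 1 := by
  apply Subtype.ext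
  rw [Matrix.SpecialLinearGroup.coe_pow]
  decide

/-- `J⁻¹` is conjugate to `J`: `R = [[2, 0, 0], [2, 1, 0], [1, 0, 2]]` -/
theorem real_J3 : ∃ R : Matrix.SpecialLinearGroup (Fin 3) Z3, J3⁻¹ = R * J3 * R⁻¹ := by
  refine ⟨⟨!![2, 0, 0; 2, 1, 0; 1, 0, 2], by decide⟩, ?_⟩
  rw [eq_mul_inv_iff_mul_eq, inv_mul_eq_iff_eq_mul]
  apply Subtype.ext
  change (!![2, 0, 0; 2, 1, 0; 1, 0, 2] : Matrix (Fin 3) (Fin 3) Z3) = J3.1 * (!![2, 0, 0; 2, 1, 0; 1, 0, 2] * J3.1)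
  decide
-- END za

-- BEGIN zb
private theorem zb_el {i j : Fin 2} (hij : i ≠ j) (a : Z3) : cE (el Z3 i j a) = el Z3 i j (-a) := by
  apply Subtype.ext
  ext p q
  fin_cases i <;> fin_cases j
  · exact absurd rfl hij
  · fin_cases p <;> fin_cases q <;> simp [cE, el, Matrix.transvection, Matrix.single]
  · fin_cases p <;> fin_cases q <;> simp [cE, el, Matrix.transvection, Matrix.single]
  · exact absurd rfl hij

private theorem zb_two {i j : Fin 2} (hij : i ≠ j) : (i = 0 ∧ j = 1) ∨ (i = 1 ∧ j = 0) := by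
  revert i j
  decide

private theorem zb_ind {p : Matrix.SpecialLinearGroup (Fin 2) Z3 → Prop} (h : ∀ i j, i ≠ j → ∀ a, p (el Z3 i j a)) (h1 : p 1)
    (hm : ∀ M N, p M → p N → p (M * N)) (hi : ∀ M, p M → p M⁻¹) (M : Matrix.SpecialLinearGroup (Fin 2) Z3) : p M := by
  have hM : M ∈ Subgroup.closure {g : Matrix.SpecialLinearGroup (Fin 2) Z3 | ∃ i j a, i ≠ j ∧ g = el Z3 i j a} := by
    rw [el_gen]; exact Subgroup.mem_top M
  refine Subgroup.closure_induction (p := fun g _ => p g) ?_ h1 (fun x y _ _ hx hy => hm x y hx hy) (fun x _ hx => hi x hx) hM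
  rintro g ⟨i, j, a, hij, rfl⟩
  exact h i j hij a

/-- MODULE zb. `Ho_conj` for the generators `el 0 1 a`, `el 1 0 a` (`el_gen`): `(-1) ^ bf c (u 0 - u 1) = -1`. -/
theorem ho_rep {l : Vec n → ℤ} {k : ℤ} {u : Fin 2 → Vec n} (hu : Fam l u) {c : Vec n} (hc : bf c (u 0 - u 1) = 1)
    {R : Matrix.SpecialLinearGroup (Fin 2) Z3 →* (Module.End Z3 (Rk l k → Z3))ˣ} (hR : IsRep R u) (M : Matrix.SpecialLinearGroup (Fin 2) Z3) :
    Ho l k Z3 c (-1) * R M = R (cE M) * Ho l k Z3 c (-1) := by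
  refine zb_ind (p := fun M => Ho l k Z3 c (-1) * R M = R (cE M) * Ho l k Z3 c (-1)) ?_ ?_ ?_ ?_ M
  · intro i j hij a
    have hs : (((-1 : Z3ˣ) ^ bf c (u i - u j) : Z3ˣ) : Z3) = -1 := by
      rcases zb_two hij with ⟨rfl, rfl⟩ | ⟨rfl, rfl⟩
      · rw [hc, zpow_one, Units.val_neg, Units.val_one]
      · have e : u 1 - u 0 = -(u 0 - u 1) := by abel
        rw [e, bf_neg_right, hc, zpow_neg, zpow_one, inv_neg, inv_one, Units.val_neg, Units.val_one]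
    have h := Ho_conj (k := k) (K := Z3) (hu i j hij) c (-1) (cf Z3 u i j * a)
    rw [hs, mul_inv_eq_iff_eq_mul] at h
    change Ho l k Z3 c (-1) * R (el Z3 i j a) = R (cE (el Z3 i j a)) * Ho l k Z3 c (-1)
    rw [zb_el hij, hR i j hij, hR i j hij, h, neg_one_mul, mul_neg]
  · change Ho l k Z3 c (-1) * R 1 = R (cE 1) * Ho l k Z3 c (-1)
    rw [map_one, map_one, map_one, mul_one, one_mul]
  · intro M N hM hN
    change Ho l k Z3 c (-1) * R (M * N) = R (cE (M * N)) * Ho l k Z3 c (-1)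
    rw [map_mul, map_mul, map_mul, ← mul_assoc, hM, mul_assoc, hN, mul_assoc]
  · intro M hM
    change Ho l k Z3 c (-1) * R M⁻¹ = R (cE M⁻¹) * Ho l k Z3 c (-1)
    rw [map_inv, map_inv, map_inv, mul_inv_eq_iff_eq_mul, mul_assoc, eq_inv_mul_iff_mul_eq]
    exact hM.symm

/-- if all `v` of level `k` are orthogonal to `u 0 - u 1` then the representation is trivial (`E_a = 0` for `a = ± (u 0 - u 1)`: `v - a` is not a root vector, `isR_sub_iff`; `el_gen`) -/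
theorem rep_trivial {l : Vec n → ℤ} {k : ℤ} {u : Fin 2 → Vec n} (hu : Fam l u) (h0 : ∀ v : Rk l k, bf (u 0 - u 1) v.1 = 0)
    {R : Matrix.SpecialLinearGroup (Fin 2) Z3 →* (Module.End Z3 (Rk l k → Z3))ˣ} (hR : IsRep R u) (M : Matrix.SpecialLinearGroup (Fin 2) Z3) : R M = 1 := by
  refine zb_ind (p := fun M => R M = 1) ?_ (map_one R) ?_ ?_ M
  · intro i j hij a
    change R (el Z3 i j a) = 1
    rw [hR i j hij]
    refine Units.ext (LinearMap.ext fun f => funext fun v => ?_)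
    have hb : bf (u i - u j) v.1 = 0 := by
      rcases zb_two hij with ⟨rfl, rfl⟩ | ⟨rfl, rfl⟩
      · exact h0 v
      · have e : u 1 - u 0 = -(u 0 - u 1) := by abel
        rw [e, bf_neg_left, h0 v, neg_zero]
    have hn : ¬ (IsR (v.1 - (u i - u j)) ∧ l (v.1 - (u i - u j)) = k) := by
      rintro ⟨h1, -⟩
      rw [isR_sub_iff (hu i j hij).1 v.2.1, hb] at h1
      exact zero_ne_one h1
    rw [Ao_apply (hu i j hij), ext_not f hn, mul_zero, mul_zero, add_zero]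
    rfl
  · intro M N hM hN
    change R (M * N) = 1
    rw [map_mul, hM, hN, mul_one]
  · intro M hM
    change R M⁻¹ = 1
    rw [map_inv, hM, inv_one]
-- END zb

-- BEGIN zc
private theorem zc_pow {Γ : Type*} [Group Γ] {H A B C : Γ} (hA : H * A = A * H) (hB : H * B = B * H) (hAB : A * B = B * A) (hAC : A * C = C * A)
    (hBC : B * C = C * B) (m : ℕ) : (H * A * B * C) ^ m = A ^ m * B ^ m * (H * C) ^ m := by
  have e : H * A * B * C = A * B * (H * C) := by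
    rw [hA, mul_assoc A H B, hB, ← mul_assoc A B H, mul_assoc (A * B) H C]
  have cA : Commute A (H * C) := by
    change A * (H * C) = H * C * A
    rw [← mul_assoc, ← hA, mul_assoc, hAC, ← mul_assoc]
  have cB : Commute B (H * C) := by
    change B * (H * C) = H * C * B
    rw [← mul_assoc, ← hB, mul_assoc, hBC, ← mul_assoc]
  have cAB : Commute A B := hAB
  rw [e, (Commute.mul_left cA cB).mul_pow, cAB.mul_pow]

private theorem zc_fix {V : Type*} [AddCommGroup V] [Module Z3 V] {T : (Module.End Z3 V)ˣ} {f : V} (hf : T.1 f = f) (m : ℕ) : (T ^ m).1 f = f := by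
  induction m with
  | zero => rw [pow_zero]; rfl
  | succ m ih =>
    rw [pow_succ]
    change (T ^ m).1 (T.1 f) = f
    rw [hf, ih]

/-- MODULE zc. NO FIXED VECTOR.  `T = H R1(J) R2(J⁻¹) R3(A)`, `H = Ho c (-1)`, `H ^ 2 = 1`; `H`, `R1`, `R2`, `R3` commute except `H R3(M) = R3(cE M) H` (`ho_rep`; `IsRep.comm`, `IsRep.ho_comm`).  First case: `T ^ 12 = (H R3(A)) ^ 12 = R3((cE A * A) ^ 6) = R3(-1)` (`J3_pow`, `A3_pow`), and `R3(-1)` is the multiplication with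
`(-1) ^ (bf (u3 0) v + bf (u3 1) v) = -1` (`rep_dg` with `D = (-1, -1)`, `-1 = dg D`).  Second case: `R3 = 1` (`rep_trivial`), `T ^ 3 = H ^ 3 = H`, multiplication with `(-1) ^ bf c v = -1`.  So `-f = f`, `f = 0` in characteristic three. -/
theorem no_fix3 {l : Vec n → ℤ} {k : ℤ} (hn : n ≤ 8) (hl : Addl l) (hk : k ≠ 0) {u1 u2 : Fin 3 → Vec n} {u3 : Fin 2 → Vec n} (hu1 : Fam l u1) (hu2 : Fam l u2) (hu3 : Fam l u3)
    (o12 : Orth u1 u2) (o13 : Orth u1 u3) (o23 : Orth u2 u3) {c : Vec n} (c1 : ∀ i j, i ≠ j → bf c (u1 i - u1 j) = 0) (c2 : ∀ i j, i ≠ j → bf c (u2 i - u2 j) = 0) (c3 : bf c (u3 0 - u3 1) = 1)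
    {R1 R2 : Matrix.SpecialLinearGroup (Fin 3) Z3 →* (Module.End Z3 (Rk l k → Z3))ˣ} {R3 : Matrix.SpecialLinearGroup (Fin 2) Z3 →* (Module.End Z3 (Rk l k → Z3))ˣ}
    (h1 : IsRep R1 u1) (h2 : IsRep R2 u2) (h3 : IsRep R3 u3)
    (hw : (∀ v : Rk l k, Odd (bf (u3 0 - u3 1) v.1)) ∨ ∀ v : Rk l k, bf (u3 0 - u3 1) v.1 = 0 ∧ Odd (bf c v.1)) {f : Rk l k → Z3}
    (hf : (Ho l k Z3 c (-1) * R1 J3 * R2 J3⁻¹ * R3 A3).1 f = f) : f = 0 := by
  have hH : Ho l k Z3 c (-1) * Ho l k Z3 c (-1) = 1 := by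
    have e1 : Ho l k Z3 c 1 * Ho l k Z3 c 1 = Ho l k Z3 c 1 := by
      rw [← Ho_mul, one_mul]
    have e2 : Ho l k Z3 c (1 : Z3ˣ) = 1 := mul_left_cancel (a := Ho l k Z3 c 1) (by rw [e1, mul_one])
    rw [← Ho_mul, neg_mul_neg, one_mul, e2]
  have kA : Ho l k Z3 c (-1) * R1 J3 = R1 J3 * Ho l k Z3 c (-1) := (IsRep.ho_comm hu1 c1 h1 J3 (-1)).symm
  have kB : Ho l k Z3 c (-1) * R2 J3⁻¹ = R2 J3⁻¹ * Ho l k Z3 c (-1) := (IsRep.ho_comm hu2 c2 h2 J3⁻¹ (-1)).symm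
  have kAB : R1 J3 * R2 J3⁻¹ = R2 J3⁻¹ * R1 J3 := IsRep.comm hn hl hk hu1 hu2 o12 h1 h2 J3 J3⁻¹
  have kAC : R1 J3 * R3 A3 = R3 A3 * R1 J3 := IsRep.comm hn hl hk hu1 hu3 o13 h1 h3 J3 A3
  have kBC : R2 J3⁻¹ * R3 A3 = R3 A3 * R2 J3⁻¹ := IsRep.comm hn hl hk hu2 hu3 o23 h2 h3 J3⁻¹ A3
  have pA : R1 J3 ^ 3 = 1 := by rw [← map_pow, J3_pow, map_one]
  have pB : R2 J3⁻¹ ^ 3 = 1 := by rw [← map_pow, inv_pow, J3_pow, inv_one, map_one]
  have hneg : ∀ g : Rk l k → Z3, (∀ v, -(g v) = g v) → g = 0 := by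
    intro g hg
    funext v
    have key : ∀ a : Z3, -a = a → a = 0 := by decide
    exact key (g v) (hg v)
  rcases hw with hw | hw
  · have e := zc_fix hf 12
    rw [zc_pow kA kB kAB kAC kBC 12] at e
    have pA' : R1 J3 ^ 12 = 1 := by
      rw [show (12 : ℕ) = 3 * 4 from rfl, pow_mul, pA, one_pow]
    have pB' : R2 J3⁻¹ ^ 12 = 1 := by
      rw [show (12 : ℕ) = 3 * 4 from rfl, pow_mul, pB, one_pow]
    have pD : (Ho l k Z3 c (-1) * R3 A3) ^ 12 = R3 (-1) := by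
      have q : (Ho l k Z3 c (-1) * R3 A3) ^ 2 = R3 (cE A3 * A3) := by
        rw [pow_two, ho_rep hu3 c3 h3 A3]
        rw [mul_assoc, ← ho_rep hu3 c3 h3 A3, ← mul_assoc (Ho l k Z3 c (-1)), hH, one_mul, map_mul]
      rw [show (12 : ℕ) = 2 * 6 from rfl, pow_mul, q, ← map_pow, A3_pow]
    rw [pA', pB', pD, one_mul, one_mul] at e
    apply hneg f
    intro v
    have hD : ∏ i : Fin (1 + 1), (fun _ : Fin (1 + 1) => (-1 : Z3ˣ)) i = 1 := by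
      rw [Fin.prod_univ_two, neg_mul_neg, one_mul]
    have hd : dg (fun _ : Fin (1 + 1) => (-1 : Z3ˣ)) hD = (-1 : Matrix.SpecialLinearGroup (Fin 2) Z3) := by
      apply Subtype.ext
      change Matrix.diagonal (fun _ : Fin 2 => ((-1 : Z3ˣ) : Z3)) = (-1 : Matrix.SpecialLinearGroup (Fin 2) Z3).1
      decide
    have r := rep_dg hn hl hk hu3 h3 (fun _ : Fin (1 + 1) => (-1 : Z3ˣ)) hD f v
    rw [hd, e] at r
    have w : wt u3 (fun _ : Fin (1 + 1) => (-1 : Z3ˣ)) v.1 = -1 := by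
      unfold wt
      rw [Fin.prod_univ_two, ← zpow_add]
      apply Odd.neg_one_zpow
      have o := hw v
      have s : bf (u3 0 - u3 1) v.1 = bf (u3 0) v.1 - bf (u3 1) v.1 := by
        rw [bf_sub_left]
      rw [s] at o
      obtain ⟨t, ht⟩ := o
      exact ⟨t + bf (u3 1) v.1, by linarith⟩
    rw [w] at r
    simpa using r.symm
  · have e := zc_fix hf 3
    rw [zc_pow kA kB kAB kAC kBC 3] at e
    have t3 : R3 A3 = 1 := rep_trivial hu3 (fun v => (hw v).1) h3 A3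
    have pH : (Ho l k Z3 c (-1)) ^ 3 = Ho l k Z3 c (-1) := by
      rw [pow_succ, pow_two, hH, one_mul]
    rw [pA, pB, t3, one_mul, one_mul, mul_one, pH] at e
    apply hneg f
    intro v
    have r := congrFun e v
    rw [Ho_apply, Odd.neg_one_zpow (hw v).2] at r
    simpa using r
-- END zc

/-- the element `w` for the field with three elements -/
def w3 (x : Root 6 → Z3 → G) (F1 F2 : Matrix.SpecialLinearGroup (Fin 3) Z3 →* G) (F3 : Matrix.SpecialLinearGroup (Fin 2) Z3 →* G) : G :=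
  ThK.hh x th6 (((-1 : Z3ˣ)) : Z3) * F1 J3 * F2 J3⁻¹ * F3 A3

-- BEGIN zd
/-- the form with `γ` -/
private theorem zd_gm (v : Vec 6) : bf gm.1 v = v.2 (![0, 1, 2] 0) + v.2 (![0, 1, 2] 1) + v.2 (![0, 1, 2] 2) - v.1 := by
  simp [bf, gm, Fin.sum_univ_succ]
  ring

/-- the form with the highest root -/
private theorem zd_th {v : Vec 6} (hv : IsR v) : bf th6.1 v = v.1 := by
  have h1 : bf th6.1 v = (∑ i, v.2 i) - 2 * v.1 := by
    simp [bf, th6, Fin.sum_univ_succ]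
  rw [h1, hv.1]
  ring

/-- MODULE zd. For a root vector of level `l6 v = k`: `bf γ v = 2 v.1 - k` (`∑ m = 3 v.1`), `bf θ v = v.1`.  `k` odd: first alternative.  `k = 2`: `v.1 = 1` (`cls6`), second alternative.  `k ≥ 4`: no root vectors (`l6_lt`). -/
theorem par6 {k : ℕ} (hk : 1 ≤ k) : (∀ v : Rk l6 (k : ℤ), Odd (bf gm.1 v.1)) ∨ ∀ v : Rk l6 (k : ℤ), bf gm.1 v.1 = 0 ∧ Odd (bf th6.1 v.1) := by
  have hlev : ∀ v : Rk l6 (k : ℤ), v.1.2 (![3, 4, 5] 0) + v.1.2 (![3, 4, 5] 1) + v.1.2 (![3, 4, 5] 2) = (k : ℤ) := fun v => v.2.2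
  have h1 : ∀ v : Rk l6 (k : ℤ), 1 ≤ l6 v.1 := fun v => by
    rw [v.2.2]
    exact_mod_cast hk
  have key : ∀ v : Rk l6 (k : ℤ), (Odd (bf gm.1 v.1) ∧ Odd (k : ℤ)) ∨ (Even (k : ℤ) ∧ bf gm.1 v.1 = 0 ∧ Odd (bf th6.1 v.1)) := by
    intro v
    have hv := hlev v
    rw [zd_gm, zd_th v.2.1]
    rcases cls6 v.2.1 (h1 v) with ⟨i, j, e1, e2, e3⟩ | ⟨i, j, e1, e2, e3⟩ | ⟨i, j, e1, e2, e3⟩ | ⟨e1, e2, e3⟩ | ⟨e1, e2, e3⟩
    · left
      rw [e3, e3, e3] at hv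
      rw [e2, e2, e2, e1, ← hv]
      clear e1 e2 e3 hv
      revert i j
      decide
    · left
      rw [e3, e3, e3] at hv
      rw [e2, e2, e2, e1, ← hv]
      clear e1 e2 e3 hv
      revert i j
      decide
    · right
      rw [e3, e3, e3] at hv
      rw [e2, e2, e2, e1, ← hv]
      clear e1 e2 e3 hv
      revert i j
      decide
    · left
      rw [e3, e3, e3] at hv
      rw [e2, e2, e2, e1, ← hv]
      decide
    · left
      rw [e3, e3, e3] at hv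
      rw [e2, e2, e2, e1, ← hv]
      decide
  by_cases hodd : Odd (k : ℤ)
  · left
    intro v
    rcases key v with h | h
    · exact h.1
    · exact absurd h.1 (Int.not_even_iff_odd.mpr hodd)
  · right
    intro v
    rcases key v with h | h
    · exact absurd h.2 hodd
    · exact h.2

/-- the general form for three families -/
private theorem zd_sur {x : Root 6 → Z3 → G} (h : Stb Z3 6 x) {u1 u2 : Fin 3 → Vec 6} {u3 : Fin 2 → Vec 6} (hu1 : Fam l6 u1) (hu2 : Fam l6 u2) (hu3 : Fam l6 u3)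
    (o12 : Orth u1 u2) (o13 : Orth u1 u3) (o23 : Orth u2 u3) {r : Root 6} (c1 : ∀ i j, i ≠ j → bf r.1 (u1 i - u1 j) = 0) (c2 : ∀ i j, i ≠ j → bf r.1 (u2 i - u2 j) = 0)
    (c3 : bf r.1 (u3 0 - u3 1) = 1) {F1 F2 : Matrix.SpecialLinearGroup (Fin 3) Z3 →* G} (h1 : HomF x u1 F1) (h2 : HomF x u2 F2)
    {F3 : Matrix.SpecialLinearGroup (Fin 2) Z3 →* G} (h3 : HomF x u3 F3) {k : ℕ} (hk : 1 ≤ k)
    (hw : (∀ v : Rk l6 (k : ℤ), Odd (bf (u3 0 - u3 1) v.1)) ∨ ∀ v : Rk l6 (k : ℤ), bf (u3 0 - u3 1) v.1 = 0 ∧ Odd (bf r.1 v.1)) :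
    Sur x l6 (ThK.hh x r (((-1 : Z3ˣ)) : Z3) * F1 J3 * F2 J3⁻¹ * F3 A3) k := by
  have hn8 : (6 : ℕ) ≤ 8 := by norm_num
  have hk0 : (k : ℤ) ≠ 0 := by omega
  have := finite_Rk hn8 l6 (k : ℤ)
  let _ : Fintype (Rk l6 (k : ℤ)) := Fintype.ofFinite _
  obtain ⟨A, _, π, hπ⟩ := exists_pi addl6 h hk
  obtain ⟨R1, hR1⟩ := exists_rep (K := Z3) hn8 addl6 hk0 hu1
  obtain ⟨R2, hR2⟩ := exists_rep (K := Z3) hn8 addl6 hk0 hu2
  obtain ⟨R3, hR3⟩ := exists_rep (K := Z3) hn8 addl6 hk0 hu3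
  refine sur_of_act h hπ (T := Ho l6 (k : ℤ) Z3 r.1 (-1) * R1 J3 * R2 J3⁻¹ * R3 A3)
    ((((Act_h (Or.inl rfl) h hπ r (-1)).mul (Act_rep hn8 addl6 hk h hπ hu1 h1 hR1 J3)).mul (Act_rep hn8 addl6 hk h hπ hu2 h2 hR2 J3⁻¹)).mul
      (Act_rep hn8 addl6 hk h hπ hu3 h3 hR3 A3)) fun f hf => ?_
  exact no_fix3 hn8 addl6 hk0 hu1 hu2 hu3 o12 o13 o23 c1 c2 c3 hR1 hR2 hR3 hw hf

private theorem zd_sub (a b : Vec n) : -a - -b = -(a - b) := by
  abel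

private theorem zd_orth {m m' : ℕ} {u : Fin m → Vec n} {u' : Fin m' → Vec n} (h : Orth u u') : Orth (fun i => -u i) fun i => -u' i := fun i j a b hij hab => by
  rw [zd_sub, zd_sub, bf_neg_left, bf_neg_right, h i j a b hij hab, neg_zero, neg_zero]

/-- `finite_Rk`, `exists_pi`, `exists_rep` (three families), `Act_rep`, `Act_h`, `Act.mul`, `no_fix3`, `sur_of_act`; for `op x` the families `-uA`, `-uB`, `-uC` and the root `-θ` (`HomF.op`, `Stb.op`, `fam_neg`, `hh (op x) (-r) s = hh x r s`; `par6` with `bf (-γ) v = - bf γ v`). -/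
theorem sur3 {x : Root 6 → Z3 → G} (h : Stb Z3 6 x) {F1 F2 : Matrix.SpecialLinearGroup (Fin 3) Z3 →* G} (h1 : HomF x uA F1) (h2 : HomF x uB F2)
    {F3 : Matrix.SpecialLinearGroup (Fin 2) Z3 →* G} (h3 : HomF x uC F3) {k : ℕ} (hk : 1 ≤ k) : Sur x l6 (w3 x F1 F2 F3) k ∧ Sur (op x) l6 (w3 x F1 F2 F3) k := by
  have c1 : ∀ i j, i ≠ j → bf th6.1 (uA i - uA j) = 0 := by decide +kernel
  have c2 : ∀ i j, i ≠ j → bf th6.1 (uB i - uB j) = 0 := by decide +kernel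
  have c3 : bf th6.1 (uC 0 - uC 1) = 1 := by decide +kernel
  have hC : uC 0 - uC 1 = gm.1 := sub_zero _
  constructor
  · refine zd_sur h fam_uA fam_uB fam_uC orth_AB orth_AC orth_BC c1 c2 c3 h1 h2 h3 hk ?_
    rw [hC]
    exact par6 hk
  · have hs := zd_sur h.op (fam_neg addl6 fam_uA) (fam_neg addl6 fam_uB) (fam_neg addl6 fam_uC) (zd_orth orth_AB) (zd_orth orth_AC) (zd_orth orth_BC) (r := -th6)
      (fun i j hij => by rw [neg_val, zd_sub, bf_neg_left, bf_neg_right, c1 i j hij, neg_zero, neg_zero])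
      (fun i j hij => by rw [neg_val, zd_sub, bf_neg_left, bf_neg_right, c2 i j hij, neg_zero, neg_zero])
      (by rw [neg_val, zd_sub, bf_neg_left, bf_neg_right, neg_neg, c3]) h1.op h2.op h3.op hk (by
        rw [zd_sub, hC, neg_val]
        simp only [bf_neg_left, neg_eq_zero]
        rcases par6 hk with hp | hp
        · exact Or.inl fun v => (hp v).neg
        · exact Or.inr fun v => ⟨(hp v).1, (hp v).2.neg⟩)
    have e : ThK.hh (op x) (-th6) (((-1 : Z3ˣ)) : Z3) = ThK.hh x th6 (((-1 : Z3ˣ)) : Z3) := by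
      show ThK.hh x (- -th6) (((-1 : Z3ˣ)) : Z3) = _
      rw [neg_neg']
    rw [e] at hs
    exact hs
-- END zd

-- BEGIN ze
private theorem ze_hh_eq (x : Root 6 → Z3 → G) (s : Z3) : ThK.hh (op x) (-th6) s = ThK.hh x th6 s := by
  have e : -(-th6) = th6 := Subtype.ext (by decide +kernel)
  unfold ThK.hh ThK.nn op
  rw [e]

private theorem ze_bfA : ∀ i j : Fin 3, i ≠ j → bf th6.1 (uA i - uA j) = 0 := by decide +kernel

private theorem ze_bfB : ∀ i j : Fin 3, i ≠ j → bf th6.1 (uB i - uB j) = 0 := by decide +kernel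

private theorem ze_bfC : ∀ i j : Fin 2, i ≠ j → bf th6.1 (uC i - uC j) = 1 ∨ bf th6.1 (uC i - uC j) = -1 := by decide +kernel

private theorem ze_el {i j : Fin 2} (h : i ≠ j) (a : Z3) : (el Z3 i j a).1 = Matrix.transvection i j a := by
  have e : el Z3 i j a = ⟨Matrix.transvection i j a, Matrix.det_transvection_of_ne i j h a⟩ := dif_pos h
  exact congrArg Subtype.val e

private theorem ze_cE : ∀ (i j : Fin 2), i ≠ j → ∀ a : Z3, cE (el Z3 i j a) = el Z3 i j (-a) := by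
  intro i j hij a
  apply Subtype.ext
  have e : (cE (el Z3 i j a)).1 = !![(el Z3 i j a).1 0 0, -(el Z3 i j a).1 0 1; -(el Z3 i j a).1 1 0, (el Z3 i j a).1 1 1] := rfl
  rw [e, ze_el hij, ze_el hij]
  ext p q
  fin_cases i <;> fin_cases j <;> first | exact absurd rfl hij | skip
  all_goals fin_cases p <;> fin_cases q <;> simp [Matrix.transvection, Matrix.single]

/-- MODULE ze. `h = hh x θ (-1)`: `h h = 1` (`Stb.tor`, `hh_one`), commutes with `F1 M`, `F2 M` (`HomF.hh_comm`: `bf θ (uA i - uA j) = 0`), and `h F3(M) = F3(cE M) h` (`hh_conj`: `bf θ γ = 1`; generators `el 0 1 a`, `el 1 0 a`: `el_gen`). -/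
theorem hth {x : Root 6 → Z3 → G} (h : Stb Z3 6 x) {F1 F2 : Matrix.SpecialLinearGroup (Fin 3) Z3 →* G} (h1 : HomF x uA F1) (h2 : HomF x uB F2)
    {F3 : Matrix.SpecialLinearGroup (Fin 2) Z3 →* G} (h3 : HomF x uC F3) :
    ThK.hh x th6 (((-1 : Z3ˣ)) : Z3) * ThK.hh x th6 (((-1 : Z3ˣ)) : Z3) = 1 ∧ (∀ M, F1 M * ThK.hh x th6 (((-1 : Z3ˣ)) : Z3) = ThK.hh x th6 (((-1 : Z3ˣ)) : Z3) * F1 M) ∧
      (∀ M, F2 M * ThK.hh x th6 (((-1 : Z3ˣ)) : Z3) = ThK.hh x th6 (((-1 : Z3ˣ)) : Z3) * F2 M) ∧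
      ∀ M, ThK.hh x th6 (((-1 : Z3ˣ)) : Z3) * F3 M = F3 (cE M) * ThK.hh x th6 (((-1 : Z3ˣ)) : Z3) := by
  have h0 : (((-1 : Z3ˣ)) : Z3) ≠ 0 := (-1 : Z3ˣ).ne_zero
  refine ⟨?_, fun M => HomF.hh_comm h6 h ze_bfA h1 M (-1), fun M => HomF.hh_comm h6 h ze_bfB h2 M (-1), fun M => ?_⟩
  · rw [← h.tor th6 _ _ h0 h0, ← Units.val_mul, neg_one_mul, neg_neg, Units.val_one]
    exact hh_one h th6
  · have key : (MulAut.conj (ThK.hh x th6 (((-1 : Z3ˣ)) : Z3))).toMonoidHom.comp F3 = F3.comp cE := by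
      refine pres_ext fun i j hij a => ?_
      show ThK.hh x th6 (((-1 : Z3ˣ)) : Z3) * F3 (el Z3 i j a) * (ThK.hh x th6 (((-1 : Z3ˣ)) : Z3))⁻¹ = F3 (cE (el Z3 i j a))
      rw [ze_cE i j hij a, h3 i j hij, h3 i j hij, X_of x (fam_uC i j hij).1, X_of x (fam_uC i j hij).1, hh_conj h6 h _ _ h0]
      congr 1
      have e1 : (((-1 : Z3ˣ)) : Z3) ^ bf th6.1 (uC i - uC j) = -1 := by
        rcases ze_bfC i j hij with e | e
        · rw [e, zpow_one, Units.val_neg, Units.val_one]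
        · rw [e, zpow_neg_one, Units.val_neg, Units.val_one]
          decide +kernel
      show (((-1 : Z3ˣ)) : Z3) ^ bf th6.1 (uC i - uC j) * (cf Z3 uC i j * a) = cf Z3 uC i j * -a
      rw [e1]
      ring
    have e := DFunLike.congr_fun key M
    have e' : ThK.hh x th6 (((-1 : Z3ˣ)) : Z3) * F3 M * (ThK.hh x th6 (((-1 : Z3ˣ)) : Z3))⁻¹ = F3 (cE M) := e
    exact mul_inv_eq_iff_eq_mul.mp e'

/-- `w3` normalizes the `Uk` of both systems (`NU.of_hh`, `NU.of_Lv`, `HomF.mem`, `NU.mul`; `hh (op x) (-θ) s = hh x θ s`, `Lv_op`) -/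
theorem NU_w3 {x : Root 6 → Z3 → G} (h : Stb Z3 6 x) {F1 F2 : Matrix.SpecialLinearGroup (Fin 3) Z3 →* G} (h1 : HomF x uA F1) (h2 : HomF x uB F2)
    {F3 : Matrix.SpecialLinearGroup (Fin 2) Z3 →* G} (h3 : HomF x uC F3) : NU x l6 (w3 x F1 F2 F3) ∧ NU (op x) l6 (w3 x F1 F2 F3) := by
  have m1 := HomF.mem fam_uA h1 J3
  have m2 := HomF.mem fam_uB h2 J3⁻¹
  have m3 := HomF.mem fam_uC h3 A3
  constructor
  · exact (((NU.of_hh h6 h l6 th6 (-1)).mul (NU.of_Lv h addl6 m1)).mul (NU.of_Lv h addl6 m2)).mul (NU.of_Lv h addl6 m3)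
  · have ho : Stb Z3 6 (op x) := h.op
    rw [← Lv_op x addl6] at m1 m2 m3
    have m0 : NU (op x) l6 (ThK.hh x th6 (((-1 : Z3ˣ)) : Z3)) := by
      rw [← ze_hh_eq]
      exact NU.of_hh h6 ho l6 (-th6) (-1)
    exact ((m0.mul (NU.of_Lv ho addl6 m1)).mul (NU.of_Lv ho addl6 m2)).mul (NU.of_Lv ho addl6 m3)
-- END ze

-- BEGIN zf
section zf_section

variable {K : Type*} [Field K]

/-- the three orthogonal roots -/
private def zf_r0 : Root 6 := ⟨(1, ![1, 0, 0, 0, 1, 1]), by decide⟩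

private def zf_r1 : Root 6 := ⟨(1, ![0, 1, 0, 1, 0, 1]), by decide⟩

private def zf_r2 : Root 6 := ⟨(1, ![0, 0, 1, 1, 1, 0]), by decide⟩

/-- the reflection on vectors -/
private def zf_rv (r : Root 6) (v : Vec 6) : Vec 6 := v - sv (bf r.1 v) r.1

/-- the exponent of the sign -/
private def zf_e (v : Vec 6) : ℤ :=
  bl zf_r0.1 (zf_rv zf_r1 (zf_rv zf_r2 v)) * bf zf_r0.1 (zf_rv zf_r1 (zf_rv zf_r2 v)) + bl zf_r1.1 (zf_rv zf_r2 v) * bf zf_r1.1 (zf_rv zf_r2 v) + bl zf_r2.1 v * bf zf_r2.1 v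

/-- the element -/
private def zf_n (x : Root 6 → K → G) : G := ThK.nn x zf_r0 1 * ThK.nn x zf_r1 1 * ThK.nn x zf_r2 1

private theorem zf_one {x : Root 6 → K → G} (h : Stb K 6 x) (r s : Root 6) (b : K) :
    ThK.nn x r 1 * x s b * (ThK.nn x r 1)⁻¹ = x (rf r s) ((((-1 : Kˣ) ^ (bl r.1 s.1 * bf r.1 s.1) : Kˣ) : K) * b) := by
  rw [nn_conj (Or.inl rfl) h r s one_ne_zero, one_zpow, mul_one, zpow_mul, Units.val_zpow_eq_zpow_val]
  rfl

private theorem zf_conj {x : Root 6 → K → G} (h : Stb K 6 x) (s : Root 6) (b : K) :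
    zf_n x * x s b * (zf_n x)⁻¹ = x (rf zf_r0 (rf zf_r1 (rf zf_r2 s))) ((((-1 : Kˣ) ^ zf_e s.1 : Kˣ) : K) * b) := by
  have e : zf_n x * x s b * (zf_n x)⁻¹ = ThK.nn x zf_r0 1 * (ThK.nn x zf_r1 1 * (ThK.nn x zf_r2 1 * x s b * (ThK.nn x zf_r2 1)⁻¹) * (ThK.nn x zf_r1 1)⁻¹) * (ThK.nn x zf_r0 1)⁻¹ := by
    unfold zf_n
    group
  rw [e, zf_one h, zf_one h, zf_one h]
  congr 1
  have e2 : zf_e s.1 = bl zf_r0.1 (rf zf_r1 (rf zf_r2 s)).1 * bf zf_r0.1 (rf zf_r1 (rf zf_r2 s)).1 + bl zf_r1.1 (rf zf_r2 s).1 * bf zf_r1.1 (rf zf_r2 s).1 +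
      bl zf_r2.1 s.1 * bf zf_r2.1 s.1 := rfl
  rw [e2, zpow_add, zpow_add, Units.val_mul, Units.val_mul, mul_assoc, mul_assoc]

/-- the diagonal matrix `diag (-1, 1, -1)` -/
private def zf_P (K : Type*) [Field K] : Matrix.SpecialLinearGroup (Fin 3) K :=
  ⟨Matrix.diagonal fun i => if i = 1 then 1 else -1, by
    rw [Matrix.det_diagonal, Fin.prod_univ_three]
    simp⟩

private theorem zf_PP : zf_P K * zf_P K = 1 := by
  apply Subtype.ext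
  show Matrix.diagonal _ * Matrix.diagonal _ = (1 : Matrix (Fin 3) (Fin 3) K)
  rw [Matrix.diagonal_mul_diagonal, ← Matrix.diagonal_one]
  congr 1
  funext i
  split_ifs
  · exact mul_one _
  · ring

private theorem zf_el {i j : Fin 3} (h : i ≠ j) (a : K) : (el K i j a).1 = Matrix.transvection i j a := by
  have e : el K i j a = ⟨Matrix.transvection i j a, Matrix.det_transvection_of_ne i j h a⟩ := dif_pos h
  exact congrArg Subtype.val e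

private theorem zf_Pel {i j : Fin 3} (h : i ≠ j) (a : K) :
    zf_P K * el K i j a * (zf_P K)⁻¹ = el K i j ((if i = 1 ∨ j = 1 then -1 else 1) * a) := by
  rw [mul_inv_eq_iff_eq_mul]
  apply Subtype.ext
  show Matrix.diagonal _ * (el K i j a).1 = (el K i j ((if i = 1 ∨ j = 1 then -1 else 1) * a)).1 * Matrix.diagonal _
  rw [zf_el h, zf_el h]
  ext p q
  rw [Matrix.diagonal_mul, Matrix.mul_diagonal, Matrix.transvection, Matrix.transvection, Matrix.add_apply, Matrix.add_apply, Matrix.one_apply]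
  by_cases hp : i = p ∧ j = q
  · obtain ⟨rfl, rfl⟩ := hp
    rw [Matrix.single_apply_same, Matrix.single_apply_same, if_neg h]
    by_cases h1 : i = 1
    · have h2 : j ≠ 1 := fun e => h (h1.trans e.symm)
      rw [if_pos h1, if_pos (Or.inl h1), if_neg h2]
      ring
    · by_cases h2 : j = 1
      · rw [if_neg h1, if_pos (Or.inr h2), if_pos h2]
        ring
      · rw [if_neg h1, if_neg (not_or.mpr ⟨h1, h2⟩), if_neg h2]
        ring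
  · rw [Matrix.single_apply_of_ne _ _ _ _ _ hp, Matrix.single_apply_of_ne _ _ _ _ _ hp]
    by_cases hpq : p = q
    · subst hpq
      rw [if_pos rfl]
      ring
    · rw [if_neg hpq]
      ring

private theorem zf_sgn {k : ℤ} {i j : Fin 3} (hk : k % 2 = if i = 1 ∨ j = 1 then 1 else 0) : (((-1 : Kˣ) ^ k : Kˣ) : K) = if i = 1 ∨ j = 1 then -1 else 1 := by
  by_cases h : i = 1 ∨ j = 1
  · rw [if_pos h] at hk ⊢
    rw [Odd.neg_one_zpow (Int.odd_iff.mpr hk), Units.val_neg, Units.val_one]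
  · rw [if_neg h] at hk ⊢
    rw [Even.neg_one_zpow (Int.even_iff.mpr hk), Units.val_one]

private theorem zf_map {x : Root 6 → K → G} (h : Stb K 6 x) {u u' : Fin 3 → Vec 6} (hu : Fam l6 u) (hu' : Fam l6 u')
    (e1 : ∀ i j, i ≠ j → zf_rv zf_r0 (zf_rv zf_r1 (zf_rv zf_r2 (u i - u j))) = u' i - u' j)
    (e2 : ∀ i j, i ≠ j → (zf_e (u i - u j) + bl (u i - u j) (u j) + bl (u' i - u' j) (u' j)) % 2 = if i = 1 ∨ j = 1 then 1 else 0)
    {F F' : Matrix.SpecialLinearGroup (Fin 3) K →* G} (hF : HomF x u F) (hF' : HomF x u' F') (M : Matrix.SpecialLinearGroup (Fin 3) K) :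
    zf_n x * F M * (zf_n x)⁻¹ = F' (zf_P K * M * (zf_P K)⁻¹) := by
  have key : (MulAut.conj (zf_n x)).toMonoidHom.comp F = F'.comp (MulAut.conj (zf_P K)).toMonoidHom := by
    refine pres_ext fun i j hij a => ?_
    show zf_n x * F (el K i j a) * (zf_n x)⁻¹ = F' (zf_P K * el K i j a * (zf_P K)⁻¹)
    rw [hF i j hij, zf_Pel hij, hF' i j hij, X_of x (hu i j hij).1, X_of x (hu' i j hij).1, zf_conj h]
    have e3 : rf zf_r0 (rf zf_r1 (rf zf_r2 ⟨u i - u j, (hu i j hij).1⟩)) = ⟨u' i - u' j, (hu' i j hij).1⟩ := Subtype.ext (e1 i j hij)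
    rw [e3]
    congr 1
    have e4 := zf_sgn (K := K) (e2 i j hij)
    rw [zpow_add, zpow_add, Units.val_mul, Units.val_mul] at e4
    rw [← e4]
    show ((((-1 : Kˣ) ^ zf_e (u i - u j) : Kˣ) : K)) * (cf K u i j * a) = cf K u' i j * ((((-1 : Kˣ) ^ zf_e (u i - u j) : Kˣ) : K) * cf K u i j * cf K u' i j * a)
    have e5 := cf_sq (K := K) u' i j
    linear_combination (-(((-1 : Kˣ) ^ zf_e (u i - u j) : Kˣ) : K) * cf K u i j * a) * e5
  exact DFunLike.congr_fun key M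

/-- the root `δ` -/
private def zf_d : Root 6 := ⟨(1, ![0, 0, 0, 1, 1, 1]), by decide⟩

end zf_section

/-- MODULE zf. `exists_n6` (row hj, Six.lean) with one more property of the same element `n0 = nn x ρ_0 1 * nn x ρ_1 1 * nn x ρ_2 1`: the product of the reflections maps `θ` to `-δ`, `δ = (1; 0,0,0,1,1,1)`, so `n0 h_θ(s) n0⁻¹ = h_(-δ)(s) = h_δ(s)⁻¹` (`nn_hh` three times, `hh_neg`, `hh_inv`), and `h_θ(s) = h_γ(s) h_δ(s)` (`hh_add`,
`θ = γ + δ`), so it is `h_γ(s) h_θ(s)⁻¹`. -/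
theorem exists_n6' {K : Type*} [Field K] {x : Root 6 → K → G} (h : Stb K 6 x) {F1 F2 : Matrix.SpecialLinearGroup (Fin 3) K →* G} (h1 : HomF x uA F1) (h2 : HomF x uB F2)
    {F3 : Matrix.SpecialLinearGroup (Fin 2) K →* G} (h3 : HomF x uC F3) :
    ∃ (n0 : G) (P Q : Matrix.SpecialLinearGroup (Fin 3) K), (∀ M, n0 * F1 M * n0⁻¹ = F2 (P * M * P⁻¹)) ∧ (∀ M, n0 * F2 M * n0⁻¹ = F1 (Q * M * Q⁻¹)) ∧
      (∀ M, n0 * F3 M = F3 M * n0) ∧ ∀ s : Kˣ, n0 * ThK.hh x th6 (s : K) * n0⁻¹ = ThK.hh x gm (s : K) * (ThK.hh x th6 (s : K))⁻¹ := by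
  refine ⟨zf_n x, zf_P K, zf_P K, zf_map h fam_uA fam_uB (by decide +kernel) (by decide +kernel) h1 h2,
    zf_map h fam_uB fam_uA (by decide +kernel) (by decide +kernel) h2 h1, fun M => ?_, fun s => ?_⟩
  · have key : (MulAut.conj (zf_n x)).toMonoidHom.comp F3 = F3 := by
      refine pres_ext fun i j hij a => ?_
      show zf_n x * F3 (el K i j a) * (zf_n x)⁻¹ = F3 (el K i j a)
      rw [h3 i j hij, X_of x (fam_uC i j hij).1, zf_conj h]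
      have e1 : ∀ i j : Fin 2, i ≠ j → zf_rv zf_r0 (zf_rv zf_r1 (zf_rv zf_r2 (uC i - uC j))) = uC i - uC j := by decide +kernel
      have e2 : ∀ i j : Fin 2, i ≠ j → zf_e (uC i - uC j) = 0 := by decide +kernel
      have e3 : rf zf_r0 (rf zf_r1 (rf zf_r2 ⟨uC i - uC j, (fam_uC i j hij).1⟩)) = ⟨uC i - uC j, (fam_uC i j hij).1⟩ := Subtype.ext (e1 i j hij)
      rw [e3, e2 i j hij, zpow_zero, Units.val_one, one_mul]
    have e := DFunLike.congr_fun key M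
    have e' : zf_n x * F3 M * (zf_n x)⁻¹ = F3 M := e
    exact mul_inv_eq_iff_eq_mul.mp e'
  · have hs : (s : K) ≠ 0 := s.ne_zero
    have e : zf_n x * ThK.hh x th6 (s : K) * (zf_n x)⁻¹ =
        ThK.nn x zf_r0 1 * (ThK.nn x zf_r1 1 * (ThK.nn x zf_r2 1 * ThK.hh x th6 (s : K) * (ThK.nn x zf_r2 1)⁻¹) * (ThK.nn x zf_r1 1)⁻¹) * (ThK.nn x zf_r0 1)⁻¹ := by
      unfold zf_n
      group
    have e1 : rf zf_r0 (rf zf_r1 (rf zf_r2 th6)) = -zf_d := by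
      apply Subtype.ext
      decide +kernel
    have e2 : th6.1 = zf_d.1 + gm.1 := by decide +kernel
    rw [e, nn_hh h6 h _ _ one_ne_zero hs, nn_hh h6 h _ _ one_ne_zero hs, nn_hh h6 h _ _ one_ne_zero hs, e1, hh_neg h6 h _ hs, ← hh_inv h _ hs, hh_add h6 h e2 hs]
    group
-- END zf

-- BEGIN zg
private theorem zg_cc (M : Matrix.SpecialLinearGroup (Fin 2) Z3) : cE (cE M) = M := by
  ext i j
  fin_cases i <;> fin_cases j <;> simp [cE]

/-- the hypotheses of the computations with `w3` -/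
private structure zg_Data (F1 F2 : Matrix.SpecialLinearGroup (Fin 3) Z3 →* G) (F3 : Matrix.SpecialLinearGroup (Fin 2) Z3 →* G) (H : G) : Prop where
  hH : H * H = 1
  k1 : ∀ M, F1 M * H = H * F1 M
  k2 : ∀ M, F2 M * H = H * F2 M
  k3 : ∀ M, H * F3 M = F3 (cE M) * H
  c12 : ∀ M N, F2 N * F1 M = F1 M * F2 N
  c13 : ∀ M N, F3 N * F1 M = F1 M * F3 N
  c23 : ∀ M N, F3 N * F2 M = F2 M * F3 N

private theorem zg_data {x : Root 6 → Z3 → G} (h : Stb Z3 6 x) {F1 F2 : Matrix.SpecialLinearGroup (Fin 3) Z3 →* G} (h1 : HomF x uA F1) (h2 : HomF x uB F2)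
    {F3 : Matrix.SpecialLinearGroup (Fin 2) Z3 →* G} (h3 : HomF x uC F3) : zg_Data F1 F2 F3 (ThK.hh x th6 (((-1 : Z3ˣ)) : Z3)) := by
  obtain ⟨a, b, c, d⟩ := hth h h1 h2 h3
  exact ⟨a, b, c, d, fun M N => (HomF.comm h orth_AB h1 h2 M N).symm, fun M N => (HomF.comm h orth_AC h1 h3 M N).symm,
    fun M N => (HomF.comm h orth_BC h2 h3 M N).symm⟩

private theorem zg_k3' {F1 F2 : Matrix.SpecialLinearGroup (Fin 3) Z3 →* G} {F3 : Matrix.SpecialLinearGroup (Fin 2) Z3 →* G} {H : G} (D : zg_Data F1 F2 F3 H)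
    (M : Matrix.SpecialLinearGroup (Fin 2) Z3) : F3 M * H = H * F3 (cE M) := by
  rw [D.k3, zg_cc]

private theorem zg_W1 {F1 F2 : Matrix.SpecialLinearGroup (Fin 3) Z3 →* G} {F3 : Matrix.SpecialLinearGroup (Fin 2) Z3 →* G} {H : G} (D : zg_Data F1 F2 F3 H)
    (a b a' b' : Matrix.SpecialLinearGroup (Fin 3) Z3) (c c' : Matrix.SpecialLinearGroup (Fin 2) Z3) :
    H * F1 a * F2 b * F3 c * (H * F1 a' * F2 b' * F3 c') = F1 (a * a') * F2 (b * b') * F3 (cE c * c') := by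
  have e1 : ∀ M z, F1 M * (H * z) = H * (F1 M * z) := fun M z => by rw [← mul_assoc, D.k1, mul_assoc]
  have e2 : ∀ M z, F2 M * (H * z) = H * (F2 M * z) := fun M z => by rw [← mul_assoc, D.k2, mul_assoc]
  have e3 : ∀ M z, F3 M * (H * z) = H * (F3 (cE M) * z) := fun M z => by rw [← mul_assoc, zg_k3' D, mul_assoc]
  have e4 : ∀ z, H * (H * z) = z := fun z => by rw [← mul_assoc, D.hH, one_mul]
  have e5 : ∀ M N z, F2 N * (F1 M * z) = F1 M * (F2 N * z) := fun M N z => by rw [← mul_assoc, D.c12, mul_assoc]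
  have e6 : ∀ M N z, F3 N * (F1 M * z) = F1 M * (F3 N * z) := fun M N z => by rw [← mul_assoc, D.c13, mul_assoc]
  have e7 : ∀ M N z, F3 N * (F2 M * z) = F2 M * (F3 N * z) := fun M N z => by rw [← mul_assoc, D.c23, mul_assoc]
  simp only [map_mul F1, map_mul F2, map_mul F3, mul_assoc, e1, e2, e3, e4, e5, e6, e7]

private theorem zg_W2 {F1 F2 : Matrix.SpecialLinearGroup (Fin 3) Z3 →* G} {F3 : Matrix.SpecialLinearGroup (Fin 2) Z3 →* G} {H : G} (D : zg_Data F1 F2 F3 H)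
    (a b u v : Matrix.SpecialLinearGroup (Fin 3) Z3) (c w : Matrix.SpecialLinearGroup (Fin 2) Z3) :
    F1 a * F2 b * F3 c * (H * F1 u * F2 v * F3 w) * (F1 a * F2 b * F3 c)⁻¹ = H * F1 (a * u * a⁻¹) * F2 (b * v * b⁻¹) * F3 (cE c * w * c⁻¹) := by
  have e1 : ∀ M z, F1 M * (H * z) = H * (F1 M * z) := fun M z => by rw [← mul_assoc, D.k1, mul_assoc]
  have e2 : ∀ M z, F2 M * (H * z) = H * (F2 M * z) := fun M z => by rw [← mul_assoc, D.k2, mul_assoc]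
  have e3 : ∀ M z, F3 M * (H * z) = H * (F3 (cE M) * z) := fun M z => by rw [← mul_assoc, zg_k3' D, mul_assoc]
  have e5 : ∀ M N z, F2 N * (F1 M * z) = F1 M * (F2 N * z) := fun M N z => by rw [← mul_assoc, D.c12, mul_assoc]
  have e6 : ∀ M N z, F3 N * (F1 M * z) = F1 M * (F3 N * z) := fun M N z => by rw [← mul_assoc, D.c13, mul_assoc]
  have e7 : ∀ M N z, F3 N * (F2 M * z) = F2 M * (F3 N * z) := fun M N z => by rw [← mul_assoc, D.c23, mul_assoc]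
  rw [mul_inv_rev, mul_inv_rev, ← map_inv F1, ← map_inv F2, ← map_inv F3]
  simp only [map_mul F1, map_mul F2, map_mul F3, mul_assoc, e1, e2, e3, e5, e6, e7, D.c12, D.c23]

private theorem zg_W3 {F1 F2 : Matrix.SpecialLinearGroup (Fin 3) Z3 →* G} {F3 : Matrix.SpecialLinearGroup (Fin 2) Z3 →* G} {H : G} (D : zg_Data F1 F2 F3 H)
    (a b : Matrix.SpecialLinearGroup (Fin 3) Z3) (c : Matrix.SpecialLinearGroup (Fin 2) Z3) :
    (H * F1 a * F2 b * F3 c)⁻¹ = H * F1 a⁻¹ * F2 b⁻¹ * F3 (cE c⁻¹) := by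
  rw [inv_eq_iff_mul_eq_one, zg_W1 D, mul_inv_cancel, mul_inv_cancel, ← map_mul cE, mul_inv_cancel, map_one cE, map_one, map_one, map_one, one_mul, one_mul]

private theorem zg_g {x : Root 6 → Z3 → G} (h : Stb Z3 6 x) {F3 : Matrix.SpecialLinearGroup (Fin 2) Z3 →* G} (h3 : HomF x uC F3) :
    ThK.hh x gm (((-1 : Z3ˣ)) : Z3) = F3 (-1) := by
  rw [← HomF.hA (Or.inl rfl) h fam_uC h3 (i := 0) (j := 1) (by decide) (r := gm) (by simp [uC]) (-1)]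
  congr 1
  refine Subtype.ext ?_
  rw [hA_el (by decide)]
  ext i j
  fin_cases i <;> fin_cases j <;> simp [Matrix.diagonal]

/-- MODULE zg. REALITY of `w3 = h F1(J) F2(J⁻¹) F3(A)`.  `n0 w n0⁻¹ = h_γ(-1) h F2(P J P⁻¹) F1(Q J⁻¹ Q⁻¹) F3(A)`; conjugate with `(F2 P * F1 Q)⁻¹`: `h_γ(-1) h F2(J) F1(J⁻¹) F3(A) = h F3(-A) F1(J⁻¹) F2(J)` (`h_γ(-1) = F3(-1)`: `HomF.hA`, `hA_el`); conjugate with `F3 R` (`real_A3`):
`F3(R) h F3(-A) F3(R)⁻¹ = h F3(cE R (-A) R⁻¹) = h F3(cE A⁻¹) = F3(A⁻¹) h`, so the result is `F3(A⁻¹) h F1(J⁻¹) F2(J) = w⁻¹`. -/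
theorem real3 {x : Root 6 → Z3 → G} (h : Stb Z3 6 x) {F1 F2 : Matrix.SpecialLinearGroup (Fin 3) Z3 →* G} (h1 : HomF x uA F1) (h2 : HomF x uB F2)
    {F3 : Matrix.SpecialLinearGroup (Fin 2) Z3 →* G} (h3 : HomF x uC F3) : ∃ c : G, c * w3 x F1 F2 F3 * c⁻¹ = (w3 x F1 F2 F3)⁻¹ := by
  obtain ⟨n0, P, Q, e1, e2, e3, e4⟩ := exists_n6' h h1 h2 h3
  obtain ⟨R, hR⟩ := real_A3
  have D := zg_data h h1 h2 h3
  unfold w3
  have e4' := e4 (-1)
  rw [zg_g h h3] at e4'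
  set H := ThK.hh x th6 (((-1 : Z3ˣ)) : Z3) with hHd
  have hHi : H⁻¹ = H := inv_eq_of_mul_eq_one_left D.hH
  have e3' : n0 * F3 A3 * n0⁻¹ = F3 A3 := by rw [e3, mul_assoc, mul_inv_cancel, mul_one]
  have hz : cE (-1) = -1 := by decide
  have key : n0 * (H * F1 J3 * F2 J3⁻¹ * F3 A3) * n0⁻¹ = H * F1 (Q * J3⁻¹ * Q⁻¹) * F2 (P * J3 * P⁻¹) * F3 (-1 * A3) := by
    have s1 : n0 * (H * F1 J3 * F2 J3⁻¹ * F3 A3) * n0⁻¹ = (n0 * H * n0⁻¹) * (n0 * F1 J3 * n0⁻¹) * (n0 * F2 J3⁻¹ * n0⁻¹) * (n0 * F3 A3 * n0⁻¹) := by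
      group
    rw [s1, e4', e1, e2, e3', hHi, zg_k3' D, hz, mul_assoc (H * F3 (-1)), D.c12, ← mul_assoc, mul_assoc H, D.c13, ← mul_assoc, mul_assoc (H * F1 _), D.c23, ← mul_assoc,
      mul_assoc (H * F1 _ * F2 _), ← map_mul]
  refine ⟨F1 Q⁻¹ * F2 P⁻¹ * F3 R * n0, ?_⟩
  have s2 : F1 Q⁻¹ * F2 P⁻¹ * F3 R * n0 * (H * F1 J3 * F2 J3⁻¹ * F3 A3) * (F1 Q⁻¹ * F2 P⁻¹ * F3 R * n0)⁻¹
      = F1 Q⁻¹ * F2 P⁻¹ * F3 R * (n0 * (H * F1 J3 * F2 J3⁻¹ * F3 A3) * n0⁻¹) * (F1 Q⁻¹ * F2 P⁻¹ * F3 R)⁻¹ := by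
    group
  rw [s2, key, zg_W2 D, zg_W3 D, hR, inv_inv]
  have s3 : Q⁻¹ * (Q * J3⁻¹ * Q⁻¹) * Q⁻¹⁻¹ = J3⁻¹ := by group
  have s4 : P⁻¹ * (P * J3 * P⁻¹) * P⁻¹⁻¹ = J3 := by group
  rw [inv_inv] at s3 s4
  simp only [inv_inv]
  rw [s3, s4]
-- END zg

-- BEGIN zh
private theorem zh_aux {Γ : Type*} [Group Γ] {J R : Γ} (h : J⁻¹ = R * J * R⁻¹) (Q : Γ) : Q * J * Q⁻¹ = Q * R⁻¹ * J⁻¹ * (Q * R⁻¹)⁻¹ := by
  rw [h]
  group

private theorem zh_inv {Γ : Type*} [Group Γ] {J M P Q : Γ} (h : M⁻¹ = P * J * P⁻¹ * (Q * J * Q⁻¹)) : M = Q * J⁻¹ * Q⁻¹ * (P * J⁻¹ * P⁻¹) := by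
  rw [← inv_inv M, h]
  group

/-- MODULE zh. PRODUCTS.  `hJ` (every element of `SL_3(3)` is a product of two conjugates of `J`), `real_J3`, `prod_A3`.  First alternative of `prod_A3` (for `M3`): `M1 = P1 J P1⁻¹ Q1 J Q1⁻¹`, `M2⁻¹ = Q2 J Q2⁻¹ P2 J P2⁻¹` (so `M2 = P2 J⁻¹ P2⁻¹ Q2 J⁻¹ Q2⁻¹`), `w' = w`.
Second alternative: `M1 = P1 J P1⁻¹ Q1 J⁻¹ Q1⁻¹`, `M2 = P2 J⁻¹ P2⁻¹ Q2 J Q2⁻¹` (`real_J3`), `w' = w⁻¹`.  `p = F1 P1 * F2 P2 * F3 P3`, `q` similarly; `F3(P) h F3(A) F3(P)⁻¹ = h F3(cE P * A * P⁻¹)`, `h F3(X) h F3(Y) = F3(cE X * Y)`, `(h F3(A))⁻¹ = h F3(cE A⁻¹)` (`hth`). -/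
theorem prod3 {x : Root 6 → Z3 → G} (h : Stb Z3 6 x) {F1 F2 : Matrix.SpecialLinearGroup (Fin 3) Z3 →* G} (h1 : HomF x uA F1) (h2 : HomF x uB F2)
    {F3 : Matrix.SpecialLinearGroup (Fin 2) Z3 →* G} (h3 : HomF x uC F3) (hJ : ∀ M : Matrix.SpecialLinearGroup (Fin 3) Z3, Pool.Agent.ThS.Two J3 M)
    (M1 M2 : Matrix.SpecialLinearGroup (Fin 3) Z3) (M3 : Matrix.SpecialLinearGroup (Fin 2) Z3) :
    ∃ p ∈ Lv x l6, ∃ q ∈ Lv x l6, ∃ w' : G, (w' = w3 x F1 F2 F3 ∨ w' = (w3 x F1 F2 F3)⁻¹) ∧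
      F1 M1 * F2 M2 * F3 M3 = p * w3 x F1 F2 F3 * p⁻¹ * (q * w' * q⁻¹) := by
  have D := zg_data h h1 h2 h3
  have hmem : ∀ a b c, F1 a * F2 b * F3 c ∈ Lv x l6 := fun a b c =>
    Subgroup.mul_mem _ (Subgroup.mul_mem _ (HomF.mem fam_uA h1 a) (HomF.mem fam_uB h2 b)) (HomF.mem fam_uC h3 c)
  obtain ⟨P3, Q3, hPQ⟩ := prod_A3 M3
  obtain ⟨P1, Q1, hM1⟩ := hJ M1
  rcases hPQ with hPQ | hPQ
  · obtain ⟨P2, Q2, hM2⟩ := hJ M2⁻¹
    have hM2' := zh_inv hM2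
    refine ⟨_, hmem P1 Q2 P3, _, hmem Q1 P2 Q3, _, Or.inl rfl, ?_⟩
    unfold w3
    rw [zg_W2 D, zg_W2 D, zg_W1 D, hM1, hM2', hPQ]
    simp only [map_mul cE, zg_cc]
  · obtain ⟨P2, Q2, hM2⟩ := hJ M2
    obtain ⟨R, hR⟩ := real_J3
    rw [zh_aux hR Q1] at hM1
    rw [zh_aux hR P2] at hM2
    refine ⟨_, hmem P1 (P2 * R⁻¹) P3, _, hmem (Q1 * R⁻¹) Q2 Q3, _, Or.inr rfl, ?_⟩
    unfold w3
    rw [zg_W3 D, zg_W2 D, zg_W2 D, zg_W1 D, inv_inv, hM1, hM2, hPQ]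
    simp only [map_mul cE, zg_cc]
-- END zh

-- BEGIN zi
/-- MODULE zi. `exists_HomF`, `gauss6'`, `prod3`, `sur3`, `real3`, `NU_w3`, `assemble` (`addl6`, `l6_lt`). -/
theorem main6_three (hJ : ∀ M : Matrix.SpecialLinearGroup (Fin 3) Z3, Pool.Agent.ThS.Two J3 M) {x : Root 6 → Z3 → G} (h : Stb Z3 6 x) :
    ∃ b : G, (∀ z : G, z ∉ Subgroup.center G → ∃ a c : G, z = a * b * a⁻¹ * (c * b * c⁻¹)) ∧ ∃ c : G, c * b * c⁻¹ = b⁻¹ := by
  obtain ⟨F1, h1⟩ := exists_HomF (Or.inl rfl) h fam_uA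
  obtain ⟨F2, h2⟩ := exists_HomF (Or.inl rfl) h fam_uB
  obtain ⟨F3, h3⟩ := exists_HomF (Or.inl rfl) h fam_uC
  have hN := NU_w3 h h1 h2 h3
  refine assemble h addl6 l6_lt hN.1 hN.2 (fun k hk => (sur3 h h1 h2 h3 hk).1) (fun k hk => (sur3 h h1 h2 h3 hk).2) (real3 h h1 h2 h3) ?_
  intro z hz
  obtain ⟨c, v, hv, M1, M2, M3, u, hu, e⟩ := gauss6' ⟨2, by decide, by decide⟩ h h1 h2 h3 hz
  obtain ⟨p, hp, q, hq, w', hw', e'⟩ := prod3 h h1 h2 h3 hJ M1 M2 M3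
  exact ⟨c, v, hv, p, hp, q, hq, w', hw', u, hu, by rw [e, e']⟩
-- END zi

end Pool.Agent.ThR
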