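import Pool.Agent.ThR.Tab
import Pool.Agent.ThR.Three

/-! # `E_6` over all finite fields with at least three elements (MP_3d54b6_al) -/

namespace Pool.Agent.ThS

open Matrix Polynomial

universe u

variable {K : Type u} [Field K]

theorem charpoly_C3 (a b : K) : (C3 a b).charpoly = X ^ 3 - C a * X ^ 2 + C b * X - 1 := by
  rw [Matrix.charpoly, Matrix.det_fin_three]
  simp [C3]
  ring

theorem irr3 {a b : K} (h : ∀ x : K, x ^ 3 - a * x ^ 2 + b * x - 1 ≠ 0) :
    Irreducible (X ^ 3 - C a * X ^ 2 + C b * X - 1) ∧ (X ^ 3 - C a * X ^ 2 + C b * X - 1 : K[X]).Monic ∧ (X ^ 3 - C a * X ^ 2 + C b * X - 1 : K[X]).natDegree = 3 := by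
  have hd : (X ^ 3 - C a * X ^ 2 + C b * X - 1 : K[X]).natDegree = 3 := by compute_degree!
  have hm : (X ^ 3 - C a * X ^ 2 + C b * X - 1 : K[X]).Monic := by monicity!
  refine ⟨?_, hm, hd⟩
  rw [hm.irreducible_iff_roots_eq_zero_of_degree_le_three (by rw [hd]; norm_num) (by rw [hd])]
  rw [Multiset.eq_zero_iff_forall_notMem]
  intro x hx
  rw [Polynomial.mem_roots hm.ne_zero, Polynomial.IsRoot.def] at hx
  simp at hx
  exact h x hx

theorem nr5 : ∀ x : ZMod 5, x ^ 3 - 0 * x ^ 2 + 1 * x - 1 ≠ 0 := by decide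

theorem nr4 : ∀ x : F4, x ^ 3 - 0 * x ^ 2 + 1 * x - 1 ≠ 0 := by decide

theorem dat5 : ∃ (B : SpecialLinearGroup (Fin 3) (ZMod 5)) (g : (ZMod 5)ˣ), Dat B g := by
  obtain ⟨h1, h2, h3⟩ := irr3 nr5
  have hg : ∃ g : (ZMod 5)ˣ, g * g ≠ 1 := ⟨⟨2, 3, by decide, by decide⟩, by decide⟩
  obtain ⟨g, hg⟩ := hg
  exact ⟨B5, g, hg, two5, eig_cubic g h1 h2 h3 (charpoly_C3 0 1)⟩

theorem dat4 : ∃ (B : SpecialLinearGroup (Fin 3) F4) (g : F4ˣ), Dat B g := by
  obtain ⟨h1, h2, h3⟩ := irr3 nr4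
  have hg : ∃ g : F4ˣ, g * g ≠ 1 := ⟨⟨F4.w, F4.v, by decide, by decide⟩, by decide⟩
  obtain ⟨g, hg⟩ := hg
  exact ⟨B4, g, hg, two4, eig_cubic g h1 h2 h3 (charpoly_C3 0 1)⟩

end Pool.Agent.ThS

namespace Pool.Agent.ThR

open ThE ThK

universe u v

variable {K : Type u} [Field K] {G : Type v} [Group G]

theorem J3_eq : J3 = Pool.Agent.ThS.B3 := rfl

/-- the card of a finite field is not six -/
theorem card_ne_six [Finite K] : Nat.card K ≠ 6 := by
  intro h
  have h1 : IsPrimePow (Nat.card K) := by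
    have := Fintype.ofFinite K
    rw [Nat.card_eq_fintype_card]
    exact Fintype.isPrimePow_card_of_field
  rw [h] at h1
  revert h1
  rw [isPrimePow_nat_iff_bounded]
  decide

/-- `E_6` over all finite fields with at least three elements -/
theorem main6 [Finite K] (hK : ∃ d : K, d ≠ 0 ∧ d ≠ 1) {x : Root 6 → K → G} (h : Stb K 6 x) :
    ∃ b : G, (∀ z : G, z ∉ Subgroup.center G → ∃ a c : G, z = a * b * a⁻¹ * (c * b * c⁻¹)) ∧ ∃ c : G, c * b * c⁻¹ = b⁻¹ := by
  have hf := Fintype.ofFinite K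
  have h3 : 3 ≤ Nat.card K := by
    obtain ⟨d, hd0, hd1⟩ := hK
    classical
    rw [Nat.card_eq_fintype_card, ← Finset.card_univ]
    have h1 : ({0, 1, d} : Finset K).card = 3 := by
      rw [Finset.card_eq_three]
      exact ⟨0, 1, d, zero_ne_one, hd0.symm, hd1.symm, rfl⟩
    rw [← h1]
    exact Finset.card_le_card (Finset.subset_univ _)
  by_cases c3 : Nat.card K = 3
  · have e : K ≃+* ZMod 3 := FiniteField.ringEquivOfCardEq (by rw [← Nat.card_eq_fintype_card, c3, ZMod.card])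
    exact main6_three (fun M => J3_eq ▸ Pool.Agent.ThS.two3 M) (stb_iso e h)
  by_cases c4 : Nat.card K = 4
  · have e : K ≃+* Pool.Agent.ThS.F4 := FiniteField.ringEquivOfCardEq (by rw [← Nat.card_eq_fintype_card, c4, Pool.Agent.ThS.F4.card])
    obtain ⟨B, g, D⟩ := Pool.Agent.ThS.dat4
    exact main6_dat (by rw [Nat.card_eq_fintype_card, Pool.Agent.ThS.F4.card]) D (stb_iso e h)
  by_cases c5 : Nat.card K = 5
  · have e : K ≃+* ZMod 5 := FiniteField.ringEquivOfCardEq (by rw [← Nat.card_eq_fintype_card, c5, ZMod.card])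
    obtain ⟨B, g, D⟩ := Pool.Agent.ThS.dat5
    exact main6_dat (by rw [Nat.card_eq_fintype_card, ZMod.card]; norm_num) D (stb_iso e h)
  · have h7 : 7 ≤ Nat.card K := by
      have := card_ne_six (K := K)
      omega
    obtain ⟨B, g, D⟩ := Pool.Agent.ThS.dat7 K h7
    exact main6_dat (by omega) D h

end Pool.Agent.ThR
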