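import Pool.Agent.ThK.LevG
import Pool.Agent.ThR.Six

/-! # The Gauss theorem for the Levi subgroup of type `A_2 A_2 A_1` of `E_6` (MP_3d54b6_al) -/

namespace Pool.Agent.ThR

open ThE ThK

variable {K : Type*} [Field K] {G : Type*} [Group G]

theorem h6 : (6 : ℕ) = 6 ∨ (6 : ℕ) = 7 ∨ (6 : ℕ) = 8 := Or.inl rfl

/-- not scalar -/
def Nsc {m : ℕ} (M : Matrix.SpecialLinearGroup (Fin m) K) : Prop := ∀ c : K, M.1 ≠ c • (1 : Matrix (Fin m) (Fin m) K)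

-- BEGIN va
/-- MODULE va. `|K| ≥ 4`: if all `s ≠ c` have `s ^ 2 = d` then `Kˣ \ {c}` (at least two elements) is `{s, -s}`, `s ≠ -s`, `|Kˣ| = 3`, `|K| = 4`, `2 = 0`, contradiction. -/
theorem avoid [Finite K] (h4 : 4 ≤ Nat.card K) (c d : Kˣ) : ∃ s : Kˣ, s ≠ c ∧ s * s ≠ d := by
  classical
  by_contra hcon
  push Not at hcon
  have hF : Fintype K := Fintype.ofFinite K
  have hcard : 3 ≤ Fintype.card Kˣ := by
    rw [Fintype.card_units]
    rw [Nat.card_eq_fintype_card] at h4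
    omega
  have hlt : 1 < ((Finset.univ : Finset Kˣ).erase c).card := by
    rw [Finset.card_erase_of_mem (Finset.mem_univ c), Finset.card_univ]
    omega
  obtain ⟨s, hs, s', hs', hss⟩ := Finset.one_lt_card.1 hlt
  have hsc : s ≠ c := Finset.ne_of_mem_erase hs
  have hsc' : s' ≠ c := Finset.ne_of_mem_erase hs'
  have h1 := hcon s hsc
  have h2 := hcon s' hsc'
  have key : ∀ u v : Kˣ, u * u = v * v → u = v ∨ u = -v := by
    intro u v huv
    have e1 : (u : K) * u = (v : K) * v := by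
      have := congrArg (Units.val) huv
      simpa using this
    rcases mul_self_eq_mul_self_iff.1 e1 with h | h
    · exact Or.inl (Units.ext h)
    · refine Or.inr (Units.ext ?_)
      rw [h, Units.val_neg]
  have h3 : s = -s' := (key s s' (h1.trans h2.symm)).resolve_left hss
  by_cases hc : -c = c
  · apply hss
    have e1 : (c : K) + c = 0 := by
      have := congrArg Units.val hc
      rw [Units.val_neg] at this
      linear_combination -this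
    have e2 : (2 : K) = 0 := by
      have e3 : (2 : K) * c = 0 := by linear_combination e1
      exact (mul_eq_zero.1 e3).resolve_right c.ne_zero
    rw [h3]
    refine Units.ext ?_
    rw [Units.val_neg]
    linear_combination (-(s' : K)) * e2
  · have h4' := hcon (-c) hc
    rw [neg_mul_neg] at h4'
    rcases key c s (h4'.trans h1.symm) with h | h
    · exact hsc h.symm
    · apply hsc'
      rw [h, h3, neg_neg]

/-- `χ_k` after the change of one coordinate (`Finset.prod_update_of_mem` or `Finset.prod_eq_mul_prod_diff_singleton`, `mul_zpow`) -/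
theorem chi_upd (k i : Fin 6) (z : Fin 6 → Kˣ) (t : Kˣ) :
    chi h6 (sr h6 k) (Function.update z i t) = chi h6 (sr h6 k) z * (t * (z i)⁻¹) ^ bf (sr h6 i).1 (sr h6 k).1 := by
  unfold chi
  rw [← Finset.mul_prod_erase Finset.univ _ (Finset.mem_univ i), ← Finset.mul_prod_erase Finset.univ (fun j => z j ^ bf (sr h6 j).1 (sr h6 k).1) (Finset.mem_univ i)]
  have h1 : ∏ x ∈ Finset.univ.erase i, Function.update z i t x ^ bf (sr h6 x).1 (sr h6 k).1 = ∏ x ∈ Finset.univ.erase i, z x ^ bf (sr h6 x).1 (sr h6 k).1 := by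
    refine Finset.prod_congr rfl fun x hx => ?_
    rw [Function.update_of_ne (Finset.ne_of_mem_erase hx)]
  rw [h1, Function.update_self, mul_zpow, inv_zpow]
  rw [mul_right_comm, mul_comm (t ^ _) ((z i ^ _)⁻¹), ← mul_assoc, mul_inv_cancel, one_mul]
-- END va

-- BEGIN vb
/-- MODULE vb. PEEL. `i`, `j` joined.  At the node `j`; choose `s` with `s ≠ z_j χ_i(z)` (then `χ_i(update z j s) = χ_i(z) z_j s⁻¹ ≠ 1`) and `s ^ 2 ≠ z_j ^ 2 t z_i⁻¹ χ_j(z)⁻¹` (`avoid`), put `z_j := s`, go to `i`, `z_i := t`, then `χ_j = χ_j(z) (s / z_j)^2 z_i / t ≠ 1`, back to `j`. -/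
theorem peel [Finite K] (h4 : 4 ≤ Nat.card K) (S : Fin 6 → (Fin 6 → Kˣ) → Prop) (h1 : ∀ i z t, S i z → S i (Function.update z i t))
    (h2 : ∀ i j z, S i z → chi h6 (sr h6 j) z ≠ 1 → S j z) {i j : Fin 6} (hij : i ≠ j) (hb : bf (sr h6 i).1 (sr h6 j).1 = -1) {z : Fin 6 → Kˣ} (h : S j z) (t : Kˣ) :
    ∃ s : Kˣ, S j (Function.update (Function.update z j s) i t) := by
  have hb' : bf (sr h6 j).1 (sr h6 i).1 = -1 := by
    rw [bf_comm]
    exact hb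
  obtain ⟨s, hs1, hs2⟩ := avoid h4 (z j * chi h6 (sr h6 i) z) (z j * z j * t * (z i)⁻¹ * (chi h6 (sr h6 j) z)⁻¹)
  refine ⟨s, ?_⟩
  have e1 : chi h6 (sr h6 i) (Function.update z j s) ≠ 1 := by
    rw [chi_upd, hb', zpow_neg_one]
    intro e
    apply hs1
    have : chi h6 (sr h6 i) z * (s * (z j)⁻¹)⁻¹ * (s * (z j)⁻¹) * z j = 1 * (s * (z j)⁻¹) * z j := by rw [e]
    rw [inv_mul_cancel_right, one_mul, inv_mul_cancel_right] at this
    rw [← this, mul_comm]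
  have S1 := h2 j i _ (h1 j z s h) e1
  have S2 := h1 i _ t S1
  refine h2 i j _ S2 ?_
  rw [chi_upd, hb, zpow_neg_one, chi_upd, bf_root, Function.update_of_ne hij]
  intro e
  apply hs2
  have h3 : ∀ a b c d e : Kˣ, a * (b * c⁻¹) ^ (2 : ℤ) * (d * e⁻¹)⁻¹ = 1 → b * b = c * c * d * e⁻¹ * a⁻¹ := by
    intro a b c d e h
    have h4 : a * (b * c⁻¹) ^ (2 : ℤ) = d * e⁻¹ := by
      rwa [mul_inv_eq_one] at h
    calc b * b = a * (b * c⁻¹) ^ (2 : ℤ) * (c * c) * a⁻¹ := by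
          rw [zpow_ofNat, pow_two]
          apply Units.ext
          push_cast
          have ha := a.ne_zero
          have hc := c.ne_zero
          field_simp
      _ = _ := by
          rw [h4]
          apply Units.ext
          push_cast
          ring
  exact h3 _ _ _ _ _ e
-- END vb

-- BEGIN vc
/-- MODULE vc. All coordinates can be prescribed: `travel` to the node `2`, `peel` `i = 1`; edges `2 → 3 → 4` (`travel_edge`, changes the coordinates `2`, `3`), `peel` `i = 5`; edge `4 → 3`; at `3`: `peel` `i = 0`, `i = 2`, `i = 4` (each changes only the coordinate `3` and the coordinate `i`); `z_3 := t_3`. (`bf_sr`) -/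
theorem comb6 [Finite K] (h4 : 4 ≤ Nat.card K) (S : Fin 6 → (Fin 6 → Kˣ) → Prop) (h1 : ∀ i z t, S i z → S i (Function.update z i t))
    (h2 : ∀ i j z, S i z → chi h6 (sr h6 j) z ≠ 1 → S j z) {i : Fin 6} {z : Fin 6 → Kˣ} (h : S i z) (t : Fin 6 → Kˣ) : S 3 t := by
  have hK : ∃ d : K, d ≠ 0 ∧ d ≠ 1 := by
    obtain ⟨s, hs, _⟩ := avoid h4 1 1
    exact ⟨s, s.ne_zero, fun h => hs (Units.ext h)⟩
  have b12 : bf (sr h6 1).1 (sr h6 2).1 = -1 := by rw [bf_sr h6]; decide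
  have b23 : bf (sr h6 2).1 (sr h6 3).1 = -1 := by rw [bf_sr h6]; decide
  have b34 : bf (sr h6 3).1 (sr h6 4).1 = -1 := by rw [bf_sr h6]; decide
  have b54 : bf (sr h6 5).1 (sr h6 4).1 = -1 := by rw [bf_sr h6]; decide
  have b43 : bf (sr h6 4).1 (sr h6 3).1 = -1 := by rw [bf_sr h6]; decide
  have b03 : bf (sr h6 0).1 (sr h6 3).1 = -1 := by rw [bf_sr h6]; decide
  obtain ⟨z0, k0⟩ := travel h6 hK S h1 h2 h 2
  obtain ⟨s1, k1⟩ := peel h4 S h1 h2 (i := 1) (j := 2) (by decide) b12 k0 (t 1)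
  obtain ⟨s2, k2⟩ := travel_edge h6 hK S h1 h2 (i := 2) (j := 3) b23 k1
  obtain ⟨s3, k3⟩ := travel_edge h6 hK S h1 h2 (i := 3) (j := 4) b34 k2
  obtain ⟨s4, k4⟩ := peel h4 S h1 h2 (i := 5) (j := 4) (by decide) b54 k3 (t 5)
  obtain ⟨s5, k5⟩ := travel_edge h6 hK S h1 h2 (i := 4) (j := 3) b43 k4
  obtain ⟨s6, k6⟩ := peel h4 S h1 h2 (i := 0) (j := 3) (by decide) b03 k5 (t 0)
  obtain ⟨s7, k7⟩ := peel h4 S h1 h2 (i := 2) (j := 3) (by decide) b23 k6 (t 2)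
  obtain ⟨s8, k8⟩ := peel h4 S h1 h2 (i := 4) (j := 3) (by decide) b43 k7 (t 4)
  have k9 := h1 3 _ (t 3) k8
  refine cast (congrArg (S 3) ?_) k9
  funext k
  fin_cases k <;> simp [Function.update]
-- END vc

-- BEGIN vd
/-- MODULE vd. `NE` gives a product `v h(z) u` (`Ui ≤ Up`, `x (-sr j) c ∈ Up (op x)`). -/
theorem NE_tri {j : Fin 6} {x : Root 6 → K → G} {g : G} {z : Fin 6 → Kˣ} (hg : NE h6 x j g z) : ∃ v ∈ Up (op x), ∃ u ∈ Up x, g = v * hz h6 x z * u := by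
  obtain ⟨v, hv, u, hu, c, b, e, _⟩ := hg
  have h0 : 0 < ht (sr h6 j).1 := by rw [sr_ht]; exact one_pos
  refine ⟨v * x (-sr h6 j) c, ?_, x (sr h6 j) b * u, ?_, ?_⟩
  · refine Subgroup.mul_mem _ (ThK.Sg.mono (op x) (fun r h => h.1) hv) ?_
    exact ThK.Sg.mem (x := op x) (p := fun r => 0 < ht r.1) (r := sr h6 j) h0 c
  · refine Subgroup.mul_mem _ ?_ (ThK.Sg.mono x (fun r h => h.1) hu)
    exact ThK.Sg.mem (x := x) (p := fun r => 0 < ht r.1) (r := sr h6 j) h0 b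
  · rw [e]
    group

private theorem vd_ht (v : Vec 6) : ht v = v.2 0 + 2 * v.2 1 + 3 * v.2 2 + 4 * v.2 3 + 5 * v.2 4 + 6 * v.2 5 - 5 * v.1 := by
  unfold ht
  rw [Fin.sum_univ_six]
  have e0 : (((0 : Fin 6) : ℕ) : ℤ) = 0 := rfl
  have e1 : (((1 : Fin 6) : ℕ) : ℤ) = 1 := rfl
  have e2 : (((2 : Fin 6) : ℕ) : ℤ) = 2 := rfl
  have e3 : (((3 : Fin 6) : ℕ) : ℤ) = 3 := rfl
  have e4 : (((4 : Fin 6) : ℕ) : ℤ) = 4 := rfl
  have e5 : (((5 : Fin 6) : ℕ) : ℤ) = 5 := rfl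
  rw [e0, e1, e2, e3, e4, e5]
  ring

private theorem vd_sum (i : Fin 3) (c d : ℤ) {f0 f1 f2 : ℤ} (h0 : f0 = if (0 : Fin 3) = i then c else d) (h1 : f1 = if (1 : Fin 3) = i then c else d)
    (h2 : f2 = if (2 : Fin 3) = i then c else d) : f0 + 2 * f1 + 3 * f2 = 6 * d + (((i : ℕ) : ℤ) + 1) * (c - d) ∧ f0 + f1 + f2 = 2 * d + c := by
  subst h0 h1 h2
  fin_cases i <;> constructor <;> simp <;> ring

/-- for positive roots `l6 ≥ 0`: otherwise `-r` is in the list `cls6`, and all vectors of this list have positive height (`ThE.ht`: `∑ (i + 1) m_i - 5 d`, written with `Fin.sum_univ_six`; the values are `j - i`, `j - i + 1`, `10 + i - j`, `10`, `11`) -/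
theorem l6_nonneg (r : Root 6) (h : 0 < ht r.1) : 0 ≤ l6 r.1 := by
  by_contra hcon
  have h1 : l6 (-r.1) = -l6 r.1 := addl6.neg _
  have h2 : 1 ≤ l6 (-r.1) := by omega
  have h3 : ht (-r.1) = -ht r.1 := ThE.ht_neg r.1
  have h4 : ht (-r.1) < 0 := by omega
  have h5 : IsR (-r.1) := isR_neg r.2
  generalize -r.1 = v at h2 h4 h5
  rw [vd_ht] at h4
  rcases cls6 h5 h2 with ⟨i, j, hd, hp, hq⟩ | ⟨i, j, hd, hp, hq⟩ | ⟨i, j, hd, hp, hq⟩ | ⟨hd, hp, hq⟩ | ⟨hd, hp, hq⟩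
  · have s1 := vd_sum i _ _ (hp 0) (hp 1) (hp 2)
    have s2 := vd_sum j _ _ (hq 0) (hq 1) (hq 2)
    have s3 : v.2 0 + 2 * v.2 1 + 3 * v.2 2 = 6 * 0 + (((i : ℕ) : ℤ) + 1) * (-1 - 0) := s1.1
    have s4 : v.2 3 + 2 * v.2 4 + 3 * v.2 5 = 6 * 0 + (((j : ℕ) : ℤ) + 1) * (1 - 0) := s2.1
    have s5 : v.2 3 + v.2 4 + v.2 5 = 2 * 0 + 1 := s2.2
    have hi := i.2
    omega
  · have s1 := vd_sum i _ _ (hp 0) (hp 1) (hp 2)
    have s2 := vd_sum j _ _ (hq 0) (hq 1) (hq 2)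
    have s3 : v.2 0 + 2 * v.2 1 + 3 * v.2 2 = 6 * 1 + (((i : ℕ) : ℤ) + 1) * (0 - 1) := s1.1
    have s4 : v.2 3 + 2 * v.2 4 + 3 * v.2 5 = 6 * 0 + (((j : ℕ) : ℤ) + 1) * (1 - 0) := s2.1
    have s5 : v.2 3 + v.2 4 + v.2 5 = 2 * 0 + 1 := s2.2
    have hi := i.2
    omega
  · have s1 := vd_sum i _ _ (hp 0) (hp 1) (hp 2)
    have s2 := vd_sum j _ _ (hq 0) (hq 1) (hq 2)
    have s3 : v.2 0 + 2 * v.2 1 + 3 * v.2 2 = 6 * 0 + (((i : ℕ) : ℤ) + 1) * (1 - 0) := s1.1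
    have s4 : v.2 3 + 2 * v.2 4 + 3 * v.2 5 = 6 * 1 + (((j : ℕ) : ℤ) + 1) * (0 - 1) := s2.1
    have s5 : v.2 3 + v.2 4 + v.2 5 = 2 * 1 + 0 := s2.2
    have hj := j.2
    omega
  · have p0 : v.2 0 = 0 := hp 0
    have p1 : v.2 1 = 0 := hp 1
    have p2 : v.2 2 = 0 := hp 2
    have q0 : v.2 3 = 1 := hq 0
    have q1 : v.2 4 = 1 := hq 1
    have q2 : v.2 5 = 1 := hq 2
    omega
  · have p0 : v.2 0 = 1 := hp 0
    have p1 : v.2 1 = 1 := hp 1
    have p2 : v.2 2 = 1 := hp 2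
    have q0 : v.2 3 = 1 := hq 0
    have q1 : v.2 4 = 1 := hq 1
    have q2 : v.2 5 = 1 := hq 2
    omega
-- END vd

-- BEGIN ve
private theorem ve_pos {r : Root 6} (hd : 1 ≤ r.1.1) (h0 : l6 r.1 = 0) : r = gm := by
  have hb := (d_bound (by norm_num) r).2
  have hs := r.2.1
  rw [Fin.sum_univ_six] at hs
  have h0' : r.1.2 3 + r.1.2 4 + r.1.2 5 = 0 := h0
  obtain h1 | h2 | h3 : r.1.1 = 1 ∨ r.1.1 = 2 ∨ r.1.1 = 3 := by omega
  · have c := fun i => cls_one_two r (Or.inl h1) i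
    have c0 := c 0
    have c1 := c 1
    have c2 := c 2
    have c3 := c 3
    have c4 := c 4
    have c5 := c 5
    rw [h1] at hs
    have e3 : r.1.2 3 = 0 := by omega
    have e4 : r.1.2 4 = 0 := by omega
    have e5 : r.1.2 5 = 0 := by omega
    have e0 : r.1.2 0 = 1 := by omega
    have e1 : r.1.2 1 = 1 := by omega
    have e2 : r.1.2 2 = 1 := by omega
    refine Subtype.ext (Prod.ext h1 (funext fun i => ?_))
    fin_cases i
    · exact e0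
    · exact e1
    · exact e2
    · exact e3
    · exact e4
    · exact e5
  · exfalso
    have c := fun i => cls_one_two r (Or.inr h2) i
    have c0 := c 0
    have c1 := c 1
    have c2 := c 2
    have c3 := c 3
    have c4 := c 4
    have c5 := c 5
    rw [h2] at hs
    omega
  · exact absurd (cls_three (by norm_num) r h3).1 (by norm_num)

private theorem ve_dec : ∀ i j : Fin 6,
    0 < ht (((0 : ℤ), fun k : Fin 6 => (if k = i then (1 : ℤ) else 0) - (if k = j then 1 else 0)) : Vec 6) →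
    l6 (((0 : ℤ), fun k : Fin 6 => (if k = i then (1 : ℤ) else 0) - (if k = j then 1 else 0)) : Vec 6) = 0 →
    (∃ a b : Fin 3, b < a ∧ (((0 : ℤ), fun k : Fin 6 => (if k = i then (1 : ℤ) else 0) - (if k = j then 1 else 0)) : Vec 6) = uA a - uA b) ∨
    (∃ a b : Fin 3, b < a ∧ (((0 : ℤ), fun k : Fin 6 => (if k = i then (1 : ℤ) else 0) - (if k = j then 1 else 0)) : Vec 6) = uB a - uB b) := by
  decide

/-- MODULE ve. The positive roots of level zero are `e_a - e_b`, `a > b` in the same half, and `γ`.  (`l6 r = 0`, `ht r > 0`: `|r.1| ≤ 2`; `r.1 = 0`: `e_a - e_b` (`cls_zero`) with `a`, `b` in the same half, `ht = a - b`; `r.1 = 1`: `m_i ∈ {0, 1}`, three ones in the first half: `γ`;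
`r.1 = 2`: all `m_i = 1`, level `3`, no; `r.1 < 0`: all `m_i ≤ 0`; `-r` is `γ` or of level `3`: `ht < 0`, no.) -/
theorem cls6_zero {r : Root 6} (h : 0 < ht r.1) (h0 : l6 r.1 = 0) : (∃ a b : Fin 3, b < a ∧ r.1 = uA a - uA b) ∨ (∃ a b : Fin 3, b < a ∧ r.1 = uB a - uB b) ∨ r = gm := by
  rcases lt_trichotomy r.1.1 0 with hd | hd | hd
  · exfalso
    have h1 : -r = gm := ve_pos (r := -r) (by
      rw [neg_val, Prod.fst_neg]
      omega) (by
      rw [neg_val]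
      show -r.1.2 3 + -r.1.2 4 + -r.1.2 5 = 0
      have h0' : r.1.2 3 + r.1.2 4 + r.1.2 5 = 0 := h0
      omega)
    have h2 : r = -gm := by rw [← h1, neg_neg']
    rw [h2] at h
    exact absurd h (by decide)
  · obtain ⟨i, j, -, hk⟩ := cls_zero r hd
    have hr : r.1 = ((0 : ℤ), fun k : Fin 6 => (if k = i then (1 : ℤ) else 0) - (if k = j then 1 else 0)) :=
      Prod.ext hd (funext hk)
    rw [hr] at h h0 ⊢
    rcases ve_dec i j h h0 with h1 | h1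
    · exact Or.inl h1
    · exact Or.inr (Or.inl h1)
  · exact Or.inr (Or.inr (ve_pos hd h0))
-- END ve

-- BEGIN vf
private theorem vf_core {x : Root 6 → K → G} (h : Stb K 6 x) {F1 F2 : Matrix.SpecialLinearGroup (Fin 3) K →* G} (h1 : HomF x uA F1) (h2 : HomF x uB F2)
    {F3 : Matrix.SpecialLinearGroup (Fin 2) K →* G} (h3 : HomF x uC F3) (S1 S2 : Subgroup (Matrix.SpecialLinearGroup (Fin 3) K)) (S3 : Subgroup (Matrix.SpecialLinearGroup (Fin 2) K))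
    (y : Root 6 → K → G) (p : Root 6 → Prop)
    (hg : ∀ r t, p r → (∃ N ∈ S1, y r t = F1 N) ∨ (∃ N ∈ S2, y r t = F2 N) ∨ ∃ N ∈ S3, y r t = F3 N) {u : G} (hu : u ∈ ThK.Sg y p) :
    ∃ N1 ∈ S1, ∃ N2 ∈ S2, ∃ N3 ∈ S3, u = F1 N1 * F2 N2 * F3 N3 := by
  have c12 : ∀ M M', F1 M * F2 M' = F2 M' * F1 M := HomF.comm h orth_AB h1 h2
  have c13 : ∀ M M', F1 M * F3 M' = F3 M' * F1 M := HomF.comm h orth_AC h1 h3
  have c23 : ∀ M M', F2 M * F3 M' = F3 M' * F2 M := HomF.comm h orth_BC h2 h3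
  let Φ := MonoidHom.noncommCoprod (MonoidHom.noncommCoprod F1 F2 c12) F3 (by
    rintro ⟨M, M'⟩ M''
    show (F1 M * F2 M') * F3 M'' = F3 M'' * (F1 M * F2 M')
    rw [mul_assoc, c23, ← mul_assoc, c13, mul_assoc])
  have key : ThK.Sg y p ≤ ((S1.prod S2).prod S3).map Φ := by
    unfold ThK.Sg
    rw [Subgroup.closure_le]
    rintro _ ⟨r, t, hr, rfl⟩
    rcases hg r t hr with ⟨N, hN, hy⟩ | ⟨N, hN, hy⟩ | ⟨N, hN, hy⟩
    · refine ⟨((N, 1), 1), ⟨⟨hN, S2.one_mem⟩, S3.one_mem⟩, ?_⟩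
      rw [hy]
      show (F1 N * F2 1) * F3 1 = F1 N
      rw [map_one, map_one, mul_one, mul_one]
    · refine ⟨((1, N), 1), ⟨⟨S1.one_mem, hN⟩, S3.one_mem⟩, ?_⟩
      rw [hy]
      show (F1 1 * F2 N) * F3 1 = F2 N
      rw [map_one, map_one, one_mul, mul_one]
    · refine ⟨((1, 1), N), ⟨⟨S1.one_mem, S2.one_mem⟩, hN⟩, ?_⟩
      rw [hy]
      show (F1 1 * F2 1) * F3 N = F3 N
      rw [map_one, map_one, one_mul, one_mul]
  obtain ⟨⟨⟨N1, N2⟩, N3⟩, ⟨⟨hN1, hN2⟩, hN3⟩, he⟩ := key hu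
  exact ⟨N1, hN1, N2, hN2, N3, hN3, he.symm⟩

private theorem vf_gen {m : ℕ} {x : Root 6 → K → G} {u : Fin m → Vec 6} {F : Matrix.SpecialLinearGroup (Fin m) K →* G} (h : HomF x u F) {r : Root 6} {a b : Fin m} (hab : a ≠ b)
    (hr : r.1 = u a - u b) (t : K) : x r t = F (el K a b (cf K u a b * t)) := by
  rw [h a b hab, ← mul_assoc, cf_sq, one_mul]
  have hv : IsR (u a - u b) := hr ▸ r.2
  rw [X_of x hv]
  congr 1
  exact Subtype.ext hr

private theorem vf_mem {m : ℕ} {s : Fin m → Fin m → Prop} {a b : Fin m} (hab : a ≠ b) (hs : s a b) (t : K) : el K a b t ∈ LT K s :=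
  Subgroup.subset_closure ⟨a, b, t, hab, hs, rfl⟩

/-- MODULE vf. The set of the `F1 N1 * F2 N2 * F3 N3` is a subgroup (the three images commute: `HomF.comm`, `orth_AB`, `orth_AC`, `orth_BC`) and contains the generators (`cls6_zero`; `X x (uA a - uA b) t = F1 (el K a b (cf a b * t))`, `cf ^ 2 = 1`; `x gm t = F3 (el K 0 1 (cf * t))`). -/
theorem lev6_pos {x : Root 6 → K → G} (h : Stb K 6 x) {F1 F2 : Matrix.SpecialLinearGroup (Fin 3) K →* G} (h1 : HomF x uA F1) (h2 : HomF x uB F2)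
    {F3 : Matrix.SpecialLinearGroup (Fin 2) K →* G} (h3 : HomF x uC F3) {u : G} (hu : u ∈ ThK.Sg x fun r => 0 < ht r.1 ∧ l6 r.1 = 0) :
    ∃ N1 ∈ LT K (fun a b : Fin 3 => b < a), ∃ N2 ∈ LT K (fun a b : Fin 3 => b < a), ∃ N3 ∈ LT K (fun a b : Fin 2 => a < b), u = F1 N1 * F2 N2 * F3 N3 := by
  refine vf_core h h1 h2 h3 _ _ _ x _ ?_ hu
  rintro r t ⟨hr, hr0⟩
  rcases cls6_zero hr hr0 with ⟨a, b, hab, he⟩ | ⟨a, b, hab, he⟩ | he
  · exact Or.inl ⟨_, vf_mem hab.ne' hab _, vf_gen h1 hab.ne' he t⟩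
  · exact Or.inr (Or.inl ⟨_, vf_mem hab.ne' hab _, vf_gen h2 hab.ne' he t⟩)
  · have h01 : (0 : Fin 2) ≠ 1 := by decide
    exact Or.inr (Or.inr ⟨_, vf_mem h01 (by decide) _, vf_gen h3 h01 (by rw [he]; show gm.1 = gm.1 - 0; rw [sub_zero]) t⟩)

/-- the same for `op x`: `op x r t = x (-r) t`, `-(uA a - uA b) = uA b - uA a` -/
theorem lev6_neg {x : Root 6 → K → G} (h : Stb K 6 x) {F1 F2 : Matrix.SpecialLinearGroup (Fin 3) K →* G} (h1 : HomF x uA F1) (h2 : HomF x uB F2)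
    {F3 : Matrix.SpecialLinearGroup (Fin 2) K →* G} (h3 : HomF x uC F3) {v : G} (hv : v ∈ ThK.Sg (op x) fun r => 0 < ht r.1 ∧ l6 r.1 = 0) :
    ∃ N1 ∈ LT K (fun a b : Fin 3 => a < b), ∃ N2 ∈ LT K (fun a b : Fin 3 => a < b), ∃ N3 ∈ LT K (fun a b : Fin 2 => b < a), v = F1 N1 * F2 N2 * F3 N3 := by
  refine vf_core h h1 h2 h3 _ _ _ (op x) _ ?_ hv
  rintro r t ⟨hr, hr0⟩
  rcases cls6_zero hr hr0 with ⟨a, b, hab, he⟩ | ⟨a, b, hab, he⟩ | he
  · exact Or.inl ⟨_, vf_mem hab.ne hab _, vf_gen h1 hab.ne (r := -r) (by rw [neg_val, he, neg_sub]) t⟩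
  · exact Or.inr (Or.inl ⟨_, vf_mem hab.ne hab _, vf_gen h2 hab.ne (r := -r) (by rw [neg_val, he, neg_sub]) t⟩)
  · have h01 : (1 : Fin 2) ≠ 0 := by decide
    exact Or.inr (Or.inr ⟨_, vf_mem h01 (by decide) _, vf_gen h3 h01 (r := -r) (by rw [neg_val, he]; show -gm.1 = 0 - gm.1; rw [zero_sub]) t⟩)
-- END vf

-- BEGIN vg
private theorem vg_diag {m : ℕ} {M N : Matrix.SpecialLinearGroup (Fin m) K} {a b : Fin m → K} (hM : M.1 = Matrix.diagonal a) (hN : N.1 = Matrix.diagonal b) :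
    (M * N).1 = Matrix.diagonal fun i => a i * b i := by
  have h1 : (M * N).1 = M.1 * N.1 := rfl
  rw [h1, hM, hN, Matrix.diagonal_mul_diagonal]

private theorem vg_A1 : (sr h6 1).1 = uA 1 - uA 0 := by
  decide

private theorem vg_A2 : (sr h6 2).1 = uA 2 - uA 1 := by
  decide

private theorem vg_B1 : (sr h6 4).1 = uB 1 - uB 0 := by
  decide

private theorem vg_B2 : (sr h6 5).1 = uB 2 - uB 1 := by
  decide

private theorem vg_C : (sr h6 0).1 = uC 0 - uC 1 := by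
  decide

private theorem vg_hz (x : Root 6 → K → G) (z : Fin 6 → Kˣ) : hz h6 x z =
    ThK.hh x (sr h6 0) (z 0 : K) * (ThK.hh x (sr h6 1) (z 1 : K) * (ThK.hh x (sr h6 2) (z 2 : K) * (ThK.hh x (sr h6 3) (z 3 : K) *
      (ThK.hh x (sr h6 4) (z 4 : K) * ThK.hh x (sr h6 5) (z 5 : K))))) := by
  unfold hz
  simp only [List.ofFn_succ, List.ofFn_zero, List.prod_cons, List.prod_nil, mul_one]
  rfl

/-- MODULE vg. `hz h6 x z = ∏ hh x (sr h6 i) (z i)`, factor `3` is `1`; `hh x (sr h6 1) t = F1 (hA (el K) 1 0 t)`, `hh x (sr h6 2) t = F1 (hA (el K) 2 1 t)`, `hh x (sr h6 4) t = F2 (hA (el K) 1 0 t)`, `hh x (sr h6 5) t = F2 (hA (el K) 2 1 t)`, `hh x (sr h6 0) t = F3 (hA (el K) 0 1 t)` (`HomF.hA`; `sr h6 0 = gm`);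
diagonal matrices by `hA_el`. -/
theorem diag6 {x : Root 6 → K → G} (h : Stb K 6 x) {F1 F2 : Matrix.SpecialLinearGroup (Fin 3) K →* G} (h1 : HomF x uA F1) (h2 : HomF x uB F2)
    {F3 : Matrix.SpecialLinearGroup (Fin 2) K →* G} (h3 : HomF x uC F3) {z : Fin 6 → Kˣ} (hz3 : z 3 = 1) :
    ∃ (D1 D2 : Matrix.SpecialLinearGroup (Fin 3) K) (D3 : Matrix.SpecialLinearGroup (Fin 2) K), D1.1 = Matrix.diagonal ![(((z 1)⁻¹ : Kˣ) : K), ((z 1 * (z 2)⁻¹ : Kˣ) : K), (z 2 : K)] ∧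
      D2.1 = Matrix.diagonal ![(((z 4)⁻¹ : Kˣ) : K), ((z 4 * (z 5)⁻¹ : Kˣ) : K), (z 5 : K)] ∧ D3.1 = Matrix.diagonal ![(z 0 : K), (((z 0)⁻¹ : Kˣ) : K)] ∧
      hz h6 x z = F1 D1 * F2 D2 * F3 D3 := by
  have h10 : (1 : Fin 3) ≠ 0 := by decide
  have h21 : (2 : Fin 3) ≠ 1 := by decide
  have h01 : (0 : Fin 2) ≠ 1 := by decide
  refine ⟨ThK.hA (el K) 1 0 (z 1 : K) * ThK.hA (el K) 2 1 (z 2 : K), ThK.hA (el K) 1 0 (z 4 : K) * ThK.hA (el K) 2 1 (z 5 : K),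
    ThK.hA (el K) 0 1 (z 0 : K), ?_, ?_, ?_, ?_⟩
  · rw [vg_diag (hA_el h10 (z 1)) (hA_el h21 (z 2))]
    congr 1
    funext i
    fin_cases i <;> simp
  · rw [vg_diag (hA_el h10 (z 4)) (hA_el h21 (z 5))]
    congr 1
    funext i
    fin_cases i <;> simp
  · rw [hA_el h01 (z 0)]
    congr 1
    funext i
    fin_cases i <;> simp
  · rw [vg_hz, map_mul, map_mul, h1.hA h6 h fam_uA h10 vg_A1, h1.hA h6 h fam_uA h21 vg_A2, h2.hA h6 h fam_uB h10 vg_B1,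
      h2.hA h6 h fam_uB h21 vg_B2, hz3, Units.val_one, ThK.hh_one h, one_mul]
    have e1 := h1.comm h orth_AC h3 (ThK.hA (el K) 1 0 (z 1 : K) * ThK.hA (el K) 2 1 (z 2 : K)) (ThK.hA (el K) 0 1 (z 0 : K))
    have e2 := h2.comm h orth_BC h3 (ThK.hA (el K) 1 0 (z 4 : K) * ThK.hA (el K) 2 1 (z 5 : K)) (ThK.hA (el K) 0 1 (z 0 : K))
    rw [map_mul, h1.hA h6 h fam_uA h10 vg_A1, h1.hA h6 h fam_uA h21 vg_A2, h3.hA h6 h fam_uC h01 vg_C] at e1
    rw [map_mul, h2.hA h6 h fam_uB h10 vg_B1, h2.hA h6 h fam_uB h21 vg_B2, h3.hA h6 h fam_uC h01 vg_C] at e2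
    rw [h3.hA h6 h fam_uC h01 vg_C, mul_assoc (ThK.hh x (sr h6 1) (z 1 : K) * _), e2]
    rw [← mul_assoc (ThK.hh x (sr h6 1) (z 1 : K) * _), e1]
    simp only [mul_assoc]
-- END vg

-- BEGIN vh
private theorem vh_left {m : ℕ} {a b : Fin m} (hab : a ≠ b) (t : K) (y : Matrix.SpecialLinearGroup (Fin m) K) (p q : Fin m) :
    (el K a b t * y).1 p q = y.1 p q + (if p = a then t * y.1 b q else 0) := by
  have h1 : (el K a b t * y).1 = Matrix.transvection a b t * y.1 := by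
    rw [Matrix.SpecialLinearGroup.coe_mul]
    congr 1
    unfold el
    rw [dif_pos hab]
  rw [h1]
  by_cases hp : p = a
  · subst hp
    rw [if_pos rfl, Matrix.transvection_mul_apply_same]
  · rw [if_neg hp, Matrix.transvection_mul_apply_of_ne _ _ _ _ hp, add_zero]

private theorem vh_inv {m : ℕ} {a b : Fin m} (hab : a ≠ b) (t : K) : (el K a b t)⁻¹ = el K a b (-t) := by
  rw [inv_eq_iff_mul_eq_one]
  apply Subtype.ext
  rw [Matrix.SpecialLinearGroup.coe_mul, Matrix.SpecialLinearGroup.coe_one]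
  unfold el
  rw [dif_pos hab, dif_pos hab]
  show Matrix.transvection a b t * Matrix.transvection a b (-t) = 1
  rw [Matrix.transvection_mul_transvection_same _ _ hab, add_neg_cancel, Matrix.transvection_zero]

/-- MODULE vh. Unitriangular matrices: closure induction (left multiplication by `el K a b t`); the inverse is in the group too. -/
theorem LT_lo {m : ℕ} {g : Matrix.SpecialLinearGroup (Fin m) K} (hg : g ∈ LT K fun a b => b < a) : (∀ p q, p < q → g.1 p q = 0) ∧ ∀ p, g.1 p p = 1 := by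
  have key : ∀ (a b : Fin m) (t : K), b < a → ∀ y : Matrix.SpecialLinearGroup (Fin m) K, ((∀ p q, p < q → y.1 p q = 0) ∧ ∀ p, y.1 p p = 1) →
      ((∀ p q, p < q → (el K a b t * y).1 p q = 0) ∧ ∀ p, (el K a b t * y).1 p p = 1) := by
    intro a b t hab y hy
    refine ⟨fun p q hpq => ?_, fun p => ?_⟩
    · rw [vh_left (ne_of_gt hab), hy.1 p q hpq]
      by_cases hp : p = a
      · rw [if_pos hp, hy.1 b q (lt_trans hab (hp ▸ hpq)), mul_zero, add_zero]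
      · rw [if_neg hp, add_zero]
    · rw [vh_left (ne_of_gt hab), hy.2 p]
      by_cases hp : p = a
      · rw [if_pos hp, hy.1 b p (hp ▸ hab), mul_zero, add_zero]
      · rw [if_neg hp, add_zero]
  unfold ThK.LT at hg
  induction hg using Subgroup.closure_induction_left with
  | one =>
    refine ⟨fun p q hpq => ?_, fun p => ?_⟩
    · rw [Matrix.SpecialLinearGroup.coe_one, Matrix.one_apply_ne (ne_of_lt hpq)]
    · rw [Matrix.SpecialLinearGroup.coe_one, Matrix.one_apply_eq]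
  | mul_left x hx y hy ih =>
    obtain ⟨a, b, t, hne, hs, rfl⟩ := hx
    exact key a b t hs y ih
  | inv_mul_cancel x hx y hy ih =>
    obtain ⟨a, b, t, hne, hs, rfl⟩ := hx
    rw [vh_inv hne]
    exact key a b (-t) hs y ih

theorem LT_up {m : ℕ} {g : Matrix.SpecialLinearGroup (Fin m) K} (hg : g ∈ LT K fun a b => a < b) : (∀ p q, q < p → g.1 p q = 0) ∧ ∀ p, g.1 p p = 1 := by
  have key : ∀ (a b : Fin m) (t : K), a < b → ∀ y : Matrix.SpecialLinearGroup (Fin m) K, ((∀ p q, q < p → y.1 p q = 0) ∧ ∀ p, y.1 p p = 1) →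
      ((∀ p q, q < p → (el K a b t * y).1 p q = 0) ∧ ∀ p, (el K a b t * y).1 p p = 1) := by
    intro a b t hab y hy
    refine ⟨fun p q hpq => ?_, fun p => ?_⟩
    · rw [vh_left (ne_of_lt hab), hy.1 p q hpq]
      by_cases hp : p = a
      · rw [if_pos hp, hy.1 b q (lt_trans (hp ▸ hpq) hab), mul_zero, add_zero]
      · rw [if_neg hp, add_zero]
    · rw [vh_left (ne_of_lt hab), hy.2 p]
      by_cases hp : p = a
      · rw [if_pos hp, hy.1 b p (hp ▸ hab), mul_zero, add_zero]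
      · rw [if_neg hp, add_zero]
  unfold ThK.LT at hg
  induction hg using Subgroup.closure_induction_left with
  | one =>
    refine ⟨fun p q hpq => ?_, fun p => ?_⟩
    · rw [Matrix.SpecialLinearGroup.coe_one, Matrix.one_apply_ne (ne_of_gt hpq)]
    · rw [Matrix.SpecialLinearGroup.coe_one, Matrix.one_apply_eq]
  | mul_left x hx y hy ih =>
    obtain ⟨a, b, t, hne, hs, rfl⟩ := hx
    exact key a b t hs y ih
  | inv_mul_cancel x hx y hy ih =>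
    obtain ⟨a, b, t, hne, hs, rfl⟩ := hx
    rw [vh_inv hne]
    exact key a b (-t) hs y ih

/-- `udl_scalar` (`B' = N'⁻¹`) -/
theorem nsc_udl {m : ℕ} {N N' D : Matrix.SpecialLinearGroup (Fin m) K} (hN : N ∈ LT K fun a b => a < b) (hN' : N' ∈ LT K fun a b => b < a) {δ : Fin m → K} (hD : D.1 = Matrix.diagonal δ)
    (hδ : ∀ k, δ k ≠ 0) {p q : Fin m} (hpq : δ p ≠ δ q) : Nsc (N * D * N') := by
  intro c hc
  have h1 := LT_up hN
  have h2 := LT_lo hN'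
  have h3 := LT_lo (Subgroup.inv_mem _ hN')
  have h4 : N'.1 * (N'⁻¹).1 = 1 := by
    rw [← Matrix.SpecialLinearGroup.coe_mul, mul_inv_cancel, Matrix.SpecialLinearGroup.coe_one]
  have h5 : N.1 * Matrix.diagonal δ * N'.1 = c • (1 : Matrix (Fin m) (Fin m) K) := by
    rw [← hD, ← Matrix.SpecialLinearGroup.coe_mul, ← Matrix.SpecialLinearGroup.coe_mul]
    exact hc
  have h6 := udl_scalar hδ h1.1 h1.2 h2.1 h2.2 h3.1 h3.2 h4 h5
  exact hpq ((h6.2.2 p).trans (h6.2.2 q).symm)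

/-- `2 × 2`, lower * diagonal * upper: `[[a, a b],[c a, c a b + a⁻¹]]` -/
theorem nsc_ldu {N N' D : Matrix.SpecialLinearGroup (Fin 2) K} (hN : N ∈ LT K fun a b => b < a) (hN' : N' ∈ LT K fun a b => a < b) {d : Kˣ} (hD : D.1 = Matrix.diagonal ![(d : K), ((d⁻¹ : Kˣ) : K)])
    (hd : d * d ≠ 1) : Nsc (N * D * N') := by
  intro c hc
  have h1 := LT_lo hN
  have h2 := LT_up hN'
  have h5 : N.1 * Matrix.diagonal ![(d : K), ((d⁻¹ : Kˣ) : K)] * N'.1 = c • (1 : Matrix (Fin 2) (Fin 2) K) := by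
    rw [← hD, ← Matrix.SpecialLinearGroup.coe_mul, ← Matrix.SpecialLinearGroup.coe_mul]
    exact hc
  have e00 := congrFun (congrFun h5 0) 0
  have e01 := congrFun (congrFun h5 0) 1
  have e11 := congrFun (congrFun h5 1) 1
  have n01 : N.1 0 1 = 0 := h1.1 0 1 (by decide)
  have n10 : N'.1 1 0 = 0 := h2.1 1 0 (by decide)
  simp only [Matrix.mul_apply, Fin.sum_univ_two, Matrix.diagonal_apply, Matrix.smul_apply, Matrix.one_apply, smul_eq_mul, n01, n10, h1.2, h2.2, Matrix.cons_val_zero, Matrix.cons_val_one] at e00 e01 e11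
  simp at e00 e01 e11
  have hm : N'.1 0 1 = 0 := by simpa using e01
  rw [hm] at e11
  simp at e11
  apply hd
  apply Units.ext
  have hdd : (d : K) = ((d : K))⁻¹ := e00.trans e11.symm
  have hd0 : (d : K) ≠ 0 := d.ne_zero
  rw [Units.val_mul, Units.val_one]
  nth_rewrite 2 [hdd]
  exact mul_inv_cancel₀ hd0
-- END vh

-- BEGIN vi
private theorem vi_mul3 {x : Root 6 → K → G} (h : Stb K 6 x) {F1 F2 : Matrix.SpecialLinearGroup (Fin 3) K →* G} (h1 : HomF x uA F1) (h2 : HomF x uB F2)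
    {F3 : Matrix.SpecialLinearGroup (Fin 2) K →* G} (h3 : HomF x uC F3) (A1 B1 A2 B2 : Matrix.SpecialLinearGroup (Fin 3) K) (A3 B3 : Matrix.SpecialLinearGroup (Fin 2) K) :
    (F1 A1 * F2 A2 * F3 A3) * (F1 B1 * F2 B2 * F3 B3) = F1 (A1 * B1) * F2 (A2 * B2) * F3 (A3 * B3) := by
  have e12 : F2 A2 * F1 B1 = F1 B1 * F2 A2 := (HomF.comm h orth_AB h1 h2 B1 A2).symm
  have e13 : F3 A3 * F1 B1 = F1 B1 * F3 A3 := (HomF.comm h orth_AC h1 h3 B1 A3).symm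
  have e23 : F3 A3 * F2 B2 = F2 B2 * F3 A3 := (HomF.comm h orth_BC h2 h3 B2 A3).symm
  calc (F1 A1 * F2 A2 * F3 A3) * (F1 B1 * F2 B2 * F3 B3) = F1 A1 * F2 A2 * (F3 A3 * F1 B1) * F2 B2 * F3 B3 := by group
    _ = F1 A1 * (F2 A2 * F1 B1) * (F3 A3 * F2 B2) * F3 B3 := by rw [e13]; group
    _ = (F1 A1 * F1 B1) * (F2 A2 * F2 B2) * (F3 A3 * F3 B3) := by rw [e12, e23]; group
    _ = _ := by rw [map_mul, map_mul, map_mul]

/-- MODULE vi. From a product `v h(z) u`, `z 3 = 1`: `Sg_split` for `u`, `Sg_split'` for `v` (system `op x`, `Stb.op`), `l = l6` (`addl6`, `l6_nonneg`), `lev6_pos`, `lev6_neg`, `diag6`; the three images commute, so the middle part is `F1 (N1 D1 N1') * F2 (N2 D2 N2') * F3 (N3 D3 N3')`. -/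
theorem tri6 {x : Root 6 → K → G} (h : Stb K 6 x) {F1 F2 : Matrix.SpecialLinearGroup (Fin 3) K →* G} (h1 : HomF x uA F1) (h2 : HomF x uB F2)
    {F3 : Matrix.SpecialLinearGroup (Fin 2) K →* G} (h3 : HomF x uC F3) {z : Fin 6 → Kˣ} (hz3 : z 3 = 1) {v u : G} (hv : v ∈ Up (op x)) (hu : u ∈ Up x) :
    ∃ v' ∈ Uk (op x) l6 1, ∃ u' ∈ Uk x l6 1, ∃ N1 ∈ LT K (fun a b : Fin 3 => a < b), ∃ N1' ∈ LT K (fun a b : Fin 3 => b < a),
      ∃ N2 ∈ LT K (fun a b : Fin 3 => a < b), ∃ N2' ∈ LT K (fun a b : Fin 3 => b < a), ∃ N3 ∈ LT K (fun a b : Fin 2 => b < a), ∃ N3' ∈ LT K (fun a b : Fin 2 => a < b),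
      ∃ (D1 D2 : Matrix.SpecialLinearGroup (Fin 3) K) (D3 : Matrix.SpecialLinearGroup (Fin 2) K), D1.1 = Matrix.diagonal ![(((z 1)⁻¹ : Kˣ) : K), ((z 1 * (z 2)⁻¹ : Kˣ) : K), (z 2 : K)] ∧
      D2.1 = Matrix.diagonal ![(((z 4)⁻¹ : Kˣ) : K), ((z 4 * (z 5)⁻¹ : Kˣ) : K), (z 5 : K)] ∧ D3.1 = Matrix.diagonal ![(z 0 : K), (((z 0)⁻¹ : Kˣ) : K)] ∧
      v * hz h6 x z * u = v' * (F1 (N1 * D1 * N1') * F2 (N2 * D2 * N2') * F3 (N3 * D3 * N3')) * u' := by
  obtain ⟨v', hv', v₁, hv₁, hve⟩ := Sg_split' (Stb.op h) (l := l6) addl6 (fun r hr => l6_nonneg r hr) hv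
  obtain ⟨u₁, hu₁, u', hu', hue⟩ := Sg_split h (l := l6) addl6 (fun r hr => l6_nonneg r hr) hu
  obtain ⟨N1', hN1', N2', hN2', N3', hN3', hu1⟩ := lev6_pos h h1 h2 h3 hu₁
  obtain ⟨N1, hN1, N2, hN2, N3, hN3, hv1⟩ := lev6_neg h h1 h2 h3 hv₁
  obtain ⟨D1, D2, D3, e1, e2, e3, hzz⟩ := diag6 h h1 h2 h3 hz3
  refine ⟨v', hv', u', hu', N1, hN1, N1', hN1', N2, hN2, N2', hN2', N3, hN3, N3', hN3', D1, D2, D3, e1, e2, e3, ?_⟩
  rw [hve, hue, hzz, hv1, hu1, ← vi_mul3 h h1 h2 h3, ← vi_mul3 h h1 h2 h3]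
  group
-- END vi

-- BEGIN vj
/-- MODULE vj. GAUSS THEOREM for `E_6`, `|K| ≥ 4`.  `d : Kˣ` with `d * d ≠ 1` (`avoid`); `reachE` with the target `z = (d, 1, d, 1, d, 1)` (`comb6`); `NE_tri`, `tri6`, `nsc_udl` (`(1, d⁻¹, d)` and `(d⁻¹, d, 1)` are not constant), `nsc_ldu`. -/
theorem gauss6 [Finite K] (h4 : 4 ≤ Nat.card K) {x : Root 6 → K → G} (h : Stb K 6 x) {F1 F2 : Matrix.SpecialLinearGroup (Fin 3) K →* G} (h1 : HomF x uA F1) (h2 : HomF x uB F2)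
    {F3 : Matrix.SpecialLinearGroup (Fin 2) K →* G} (h3 : HomF x uC F3) {g : G} (hg : g ∉ Subgroup.center G) :
    ∃ c : G, ∃ v ∈ Uk (op x) l6 1, ∃ (M1 M2 : Matrix.SpecialLinearGroup (Fin 3) K) (M3 : Matrix.SpecialLinearGroup (Fin 2) K), Nsc M1 ∧ Nsc M2 ∧ Nsc M3 ∧
      ∃ u ∈ Uk x l6 1, c * g * c⁻¹ = v * (F1 M1 * F2 M2 * F3 M3) * u := by
  obtain ⟨d, -, hd⟩ := avoid h4 1 1
  obtain ⟨c, j, z, hz, hNE⟩ := reachE h6 h hg (P := fun _ z => z = ![d, 1, d, 1, d, 1])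
    (fun S s1 s2 i z hS => ⟨3, _, comb6 h4 S s1 s2 hS ![d, 1, d, 1, d, 1], rfl⟩)
  obtain ⟨v, hv, u, hu, e⟩ := NE_tri hNE
  subst hz
  obtain ⟨v', hv', u', hu', N1, hN1, N1', hN1', N2, hN2, N2', hN2', N3, hN3, N3', hN3', D1, D2, D3, e1, e2, e3, e4⟩ :=
    tri6 h h1 h2 h3 (z := ![d, 1, d, 1, d, 1]) rfl hv hu
  have hd1 : (d : K) ≠ 1 := by
    intro h0
    apply hd
    have : d = 1 := Units.ext h0
    rw [this, one_mul]
  refine ⟨c, v', hv', _, _, _, ?_, ?_, ?_, u', hu', e.trans e4⟩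
  · refine nsc_udl hN1 hN1' e1 (fun k => ?_) (p := 0) (q := 2) ?_
    · fin_cases k <;> simp
    · simpa using hd1.symm
  · refine nsc_udl hN2 hN2' e2 (fun k => ?_) (p := 1) (q := 2) ?_
    · fin_cases k <;> simp
    · simpa using hd1
  · exact nsc_ldu hN3 hN3' e3 hd

/-- `|K| ≥ 3`, without the condition on the `M_i`: `reachE` with the target `z 3 = 1` (`travel` to the node `3`, update), `NE_tri`, `tri6` -/
theorem gauss6' (hK : ∃ d : K, d ≠ 0 ∧ d ≠ 1) {x : Root 6 → K → G} (h : Stb K 6 x) {F1 F2 : Matrix.SpecialLinearGroup (Fin 3) K →* G} (h1 : HomF x uA F1) (h2 : HomF x uB F2)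
    {F3 : Matrix.SpecialLinearGroup (Fin 2) K →* G} (h3 : HomF x uC F3) {g : G} (hg : g ∉ Subgroup.center G) :
    ∃ c : G, ∃ v ∈ Uk (op x) l6 1, ∃ (M1 M2 : Matrix.SpecialLinearGroup (Fin 3) K) (M3 : Matrix.SpecialLinearGroup (Fin 2) K),
      ∃ u ∈ Uk x l6 1, c * g * c⁻¹ = v * (F1 M1 * F2 M2 * F3 M3) * u := by
  obtain ⟨c, j, z, hz, hNE⟩ := reachE h6 h hg (P := fun _ z => z 3 = 1)
    (fun S s1 s2 i z hS => by
      obtain ⟨z', hz'⟩ := travel h6 hK S s1 s2 hS 3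
      exact ⟨3, _, s1 3 z' 1 hz', by simp⟩)
  obtain ⟨v, hv, u, hu, e⟩ := NE_tri hNE
  obtain ⟨v', hv', u', hu', N1, hN1, N1', hN1', N2, hN2, N2', hN2', N3, hN3, N3', hN3', D1, D2, D3, e1, e2, e3, e4⟩ :=
    tri6 h h1 h2 h3 hz hv hu
  exact ⟨c, v', hv', _, _, _, u', hu', e.trans e4⟩
-- END vj

end Pool.Agent.ThR
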