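import Pool.Agent.ThR.Rep
import Pool.Agent.ThK.Lev

/-! # The action of `G` on the sections (MP_3d54b6_al, part D) -/

namespace Pool.Agent.ThR

open ThE ThK

variable {n : ℕ} {K : Type*} [Field K] {l : Vec n → ℤ} {k : ℕ} {m : ℕ} {G : Type*} [Group G]

/-- the root elements as a function of a vector (`1` if it is not a root vector) -/
def X (x : Root n → K → G) (v : Vec n) (a : K) : G := if h : IsR v then x ⟨v, h⟩ a else 1

theorem X_of (x : Root n → K → G) {v : Vec n} (h : IsR v) (a : K) : X x v a = x ⟨v, h⟩ a := dif_pos h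

-- BEGIN fa
/-- MODULE fa. There are finitely many root vectors (`n ≤ 8`): `ThE.d_bound` bounds the first coordinate by `3`, the squares of the others sum to `d ^ 2 + 2 ≤ 11`, so all coordinates are in `[-3, 3]` (or `[-4, 4]`); inject into functions to `Finset.Icc`. -/
theorem finite_Rk (hn : n ≤ 8) (l : Vec n → ℤ) (k : ℤ) : Finite (Rk l k) := by
  have h1 : (Set.Icc (-4 : ℤ) 4 ×ˢ Set.Icc (fun _ : Fin n => (-4 : ℤ)) (fun _ => (4 : ℤ))).Finite :=
    (Set.finite_Icc _ _).prod (Set.finite_Icc _ _)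
  have h2 : ({v : Vec n | IsR v ∧ l v = k}).Finite := by
    refine h1.subset fun v hv => ?_
    have h3 := d_bound hn (⟨v, hv.1⟩ : Root n)
    have h3a : -3 ≤ v.1 := h3.1
    have h3b : v.1 ≤ 3 := h3.2
    have h4 : ∀ i, v.2 i ^ 2 ≤ 11 := by
      intro i
      have h5 : v.2 i ^ 2 ≤ ∑ j, v.2 j ^ 2 := Finset.single_le_sum (f := fun j => v.2 j ^ 2) (fun j _ => sq_nonneg _) (Finset.mem_univ i)
      have h6 : ∑ j, v.2 j ^ 2 = v.1 ^ 2 + 2 := hv.1.2
      nlinarith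
    have h7 : ∀ i, -4 ≤ v.2 i ∧ v.2 i ≤ 4 := by
      intro i
      have h8 := h4 i
      constructor <;> nlinarith
    exact ⟨⟨by linarith, by linarith⟩, ⟨fun i => (h7 i).1, fun i => (h7 i).2⟩⟩
  exact h2.to_subtype
-- END fa

theorem Uk_conj_root (hl : Addl l) {x : Root n → K → G} (h : Stb K n x) (hk : 1 ≤ k) {s : Root n} (hs : 0 ≤ l s.1) (b : K) {g : G} (hg : g ∈ Uk x l k) :
    x s b * g * (x s b)⁻¹ ∈ Uk x l k := Uk.conj_root h hl hk hs b hg

/-- the section as a commutative group -/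
theorem exists_pi.{u, w} {n : ℕ} {l : Vec n → ℤ} {k : ℕ} {K : Type w} [Field K] {G : Type u} [Group G] (hl : Addl l) {x : Root n → K → G} (h : Stb K n x) (hk : 1 ≤ k) :
    ∃ (A : Type u) (_ : CommGroup A) (π : Uk x l k →* A), ∀ v, π v = 1 ↔ (v : G) ∈ Uk x l (k + 1) := by
  obtain ⟨A, _, π, -, hπ⟩ := Uk.quo h hl hk
  exact ⟨Multiplicative A, inferInstance, π, hπ⟩


variable {A : Type*} [CommGroup A]

/-- the element of `Uk x l k` of a root vector of level `k` -/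
def xk (x : Root n → K → G) (l : Vec n → ℤ) (k : ℕ) (v : Rk l (k : ℤ)) (a : K) : Uk x l k :=
  ⟨x ⟨v.1, v.2.1⟩ a, Subgroup.subset_closure ⟨⟨v.1, v.2.1⟩, a, by show (k : ℤ) ≤ l v.1; rw [v.2.2], rfl⟩⟩

open Classical in
/-- `F(f) = ∏_v π (x_v (f v))` -/
noncomputable def Fq [Fintype (Rk l (k : ℤ))] (x : Root n → K → G) (π : Uk x l k →* A) (f : Rk l (k : ℤ) → K) : A :=
  ∏ v, π (xk x l k v (f v))

-- BEGIN fd
private theorem fd_add {x : Root n → K → G} (h : Stb K n x) (v : Rk l (k : ℤ)) (a b : K) : xk x l k v (a + b) = xk x l k v a * xk x l k v b :=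
  Subtype.ext (h.add _ a b)

private theorem fd_zero {x : Root n → K → G} (h : Stb K n x) (v : Rk l (k : ℤ)) : xk x l k v 0 = 1 := Subtype.ext (h.zero _)

/-- MODULE fd. `Finset.prod_mul_distrib`, `h.add`; `Fq_single`: `Finset.prod_eq_single`, `Stb.zero`; `Fq_surj`: closure induction on the generators (`l r > k`: `π = 1`; `l r = k`: `Fq_single`); `Fq_lift`: `Fq f = π (∏ ..)`, e.g. by induction over the finset: the range of `π` is a subgroup. -/
theorem Fq_add [Fintype (Rk l (k : ℤ))] {x : Root n → K → G} (h : Stb K n x) (π : Uk x l k →* A) (f g : Rk l (k : ℤ) → K) :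
    Fq x π (f + g) = Fq x π f * Fq x π g := by
  unfold Fq
  rw [← Finset.prod_mul_distrib]
  refine Finset.prod_congr rfl fun v _ => ?_
  rw [Pi.add_apply, fd_add h, map_mul]

theorem Fq_zero [Fintype (Rk l (k : ℤ))] {x : Root n → K → G} (h : Stb K n x) (π : Uk x l k →* A) : Fq x π (0 : Rk l (k : ℤ) → K) = 1 := by
  unfold Fq
  refine Finset.prod_eq_one fun v _ => ?_
  rw [Pi.zero_apply, fd_zero h, map_one]

open Classical in
theorem Fq_single [Fintype (Rk l (k : ℤ))] {x : Root n → K → G} (h : Stb K n x) (π : Uk x l k →* A) (v : Rk l (k : ℤ)) (a : K) :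
    Fq x π (Pi.single v a) = π (xk x l k v a) := by
  unfold Fq
  rw [Finset.prod_eq_single v]
  · rw [Pi.single_eq_same]
  · intro w _ hw
    rw [Pi.single_eq_of_ne hw, fd_zero h, map_one]
  · intro hv
    exact absurd (Finset.mem_univ v) hv

theorem Fq_surj [Fintype (Rk l (k : ℤ))] {x : Root n → K → G} (h : Stb K n x) {π : Uk x l k →* A} (hπ : ∀ v, π v = 1 ↔ (v : G) ∈ Uk x l (k + 1)) (w : Uk x l k) :
    ∃ f, π w = Fq x π f := by
  classical
  obtain ⟨g, hg⟩ := w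
  have key : ∀ g (hg : g ∈ Uk x l k), ∃ f, π ⟨g, hg⟩ = Fq x π f := by
    intro g hg
    refine Subgroup.closure_induction (p := fun g hg => ∃ f, π ⟨g, hg⟩ = Fq x π f) ?_ ?_ ?_ ?_ hg
    · rintro g ⟨r, a, hr, rfl⟩
      rcases eq_or_lt_of_le hr with he | hlt
      · exact ⟨Pi.single ⟨r.1, r.2, he.symm⟩ a, (Fq_single h π ⟨r.1, r.2, he.symm⟩ a).symm⟩
      · refine ⟨0, ?_⟩
        rw [Fq_zero h, hπ]
        refine Subgroup.subset_closure ⟨r, a, ?_, rfl⟩
        push_cast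
        omega
    · exact ⟨0, by rw [Fq_zero h]; exact map_one π⟩
    · rintro g g' hg hg' ⟨f, hf⟩ ⟨f', hf'⟩
      refine ⟨f + f', ?_⟩
      rw [Fq_add h, ← hf, ← hf', ← map_mul]
      rfl
    · rintro g hg ⟨f, hf⟩
      refine ⟨-f, ?_⟩
      have e1 : Fq x π (-f) * Fq x π f = 1 := by rw [← Fq_add h, neg_add_cancel, Fq_zero h]
      rw [eq_inv_of_mul_eq_one_left e1, ← hf, ← map_inv]
      rfl
  exact key g hg

theorem Fq_lift [Fintype (Rk l (k : ℤ))] (x : Root n → K → G) (π : Uk x l k →* A) (f : Rk l (k : ℤ) → K) : ∃ w, π w = Fq x π f := by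
  have h : Fq x π f ∈ π.range := Subgroup.prod_mem _ fun v _ => ⟨xk x l k v (f v), rfl⟩
  exact h
-- END fd

/-- `g` normalizes the groups `Uk x l k` and acts on the section `k` as the operator `T` -/
structure Act [Fintype (Rk l (k : ℤ))] (x : Root n → K → G) (π : Uk x l k →* A) (g : G) (T : (Module.End K (Rk l (k : ℤ) → K))ˣ) : Prop where
  nk : ∀ v ∈ Uk x l k, g * v * g⁻¹ ∈ Uk x l k
  nk' : ∀ v ∈ Uk x l k, g⁻¹ * v * g ∈ Uk x l k
  nk1 : ∀ v ∈ Uk x l (k + 1), g * v * g⁻¹ ∈ Uk x l (k + 1)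
  nk1' : ∀ v ∈ Uk x l (k + 1), g⁻¹ * v * g ∈ Uk x l (k + 1)
  act : ∀ (w w' : Uk x l k) (f : Rk l (k : ℤ) → K), (w' : G) = g * w * g⁻¹ → π w = Fq x π f → π w' = Fq x π (T.1 f)

-- BEGIN fe
/-- MODULE fe. `mul`: compose.  `inv`: for `π w = Fq f` take `w₁` with `π w₁ = Fq (T⁻¹ f)` (`Fq_lift`), then `π (g w₁ g⁻¹) = Fq f = π w`, so `w⁻¹ g w₁ g⁻¹ ∈ Uk (k + 1)`, conjugate with `g⁻¹` (`nk1'`): `π (g⁻¹ w g) = π w₁`. -/
theorem Act.one [Fintype (Rk l (k : ℤ))] (x : Root n → K → G) (π : Uk x l k →* A) : Act x π 1 1 := by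
  refine ⟨fun v hv => ?_, fun v hv => ?_, fun v hv => ?_, fun v hv => ?_, fun w w' f hw' hw => ?_⟩
  · rwa [one_mul, inv_one, mul_one]
  · rwa [inv_one, one_mul, mul_one]
  · rwa [one_mul, inv_one, mul_one]
  · rwa [inv_one, one_mul, mul_one]
  · rw [one_mul, inv_one, mul_one] at hw'
    rw [Subtype.ext hw', hw]
    rfl

theorem Act.mul [Fintype (Rk l (k : ℤ))] {x : Root n → K → G} {π : Uk x l k →* A} {g g' : G} {T T' : (Module.End K (Rk l (k : ℤ) → K))ˣ} (h : Act x π g T) (h' : Act x π g' T') :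
    Act x π (g * g') (T * T') := by
  have e1 : ∀ v : G, g * g' * v * (g * g')⁻¹ = g * (g' * v * g'⁻¹) * g⁻¹ := fun v => by group
  have e2 : ∀ v : G, (g * g')⁻¹ * v * (g * g') = g'⁻¹ * (g⁻¹ * v * g) * g' := fun v => by group
  refine ⟨fun v hv => ?_, fun v hv => ?_, fun v hv => ?_, fun v hv => ?_, fun w w' f hw' hw => ?_⟩
  · rw [e1]; exact h.nk _ (h'.nk _ hv)
  · rw [e2]; exact h'.nk' _ (h.nk' _ hv)
  · rw [e1]; exact h.nk1 _ (h'.nk1 _ hv)
  · rw [e2]; exact h'.nk1' _ (h.nk1' _ hv)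
  · have h1 := h'.act w ⟨g' * w * g'⁻¹, h'.nk _ w.2⟩ f rfl hw
    have h2 := h.act ⟨g' * w * g'⁻¹, h'.nk _ w.2⟩ w' (T'.1 f) (by rw [hw', e1]) h1
    exact h2

theorem Act.inv [Fintype (Rk l (k : ℤ))] {x : Root n → K → G} {π : Uk x l k →* A} (hπ : ∀ v, π v = 1 ↔ (v : G) ∈ Uk x l (k + 1)) {g : G} {T : (Module.End K (Rk l (k : ℤ) → K))ˣ}
    (h : Act x π g T) : Act x π g⁻¹ T⁻¹ := by
  refine ⟨fun v hv => ?_, fun v hv => ?_, fun v hv => ?_, fun v hv => ?_, fun w w' f hw' hw => ?_⟩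
  · rw [inv_inv]; exact h.nk' _ hv
  · rw [inv_inv]; exact h.nk _ hv
  · rw [inv_inv]; exact h.nk1' _ hv
  · rw [inv_inv]; exact h.nk1 _ hv
  · rw [inv_inv] at hw'
    obtain ⟨w₁, hw₁⟩ := Fq_lift x π ((T⁻¹).1 f)
    have h1 := h.act w₁ ⟨g * w₁ * g⁻¹, h.nk _ w₁.2⟩ ((T⁻¹).1 f) rfl hw₁
    have h2 : T.1 ((T⁻¹).1 f) = f := by
      have h3 : (T * T⁻¹).1 f = f := by rw [mul_inv_cancel]; rfl
      exact h3
    rw [h2, ← hw] at h1
    have h4 : π (w⁻¹ * ⟨g * w₁ * g⁻¹, h.nk _ w₁.2⟩) = 1 := by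
      rw [map_mul, map_inv, h1, inv_mul_cancel]
    have h5 := h.nk1' _ ((hπ _).1 h4)
    have h6 : ((w'⁻¹ * w₁ : Uk x l k) : G) ∈ Uk x l (k + 1) := by
      have h7 : ((w'⁻¹ * w₁ : Uk x l k) : G) =
          g⁻¹ * ((w⁻¹ * (⟨g * w₁ * g⁻¹, h.nk _ w₁.2⟩ : Uk x l k) : Uk x l k) : G) * g := by
        show (w' : G)⁻¹ * (w₁ : G) = g⁻¹ * ((w : G)⁻¹ * (g * w₁ * g⁻¹)) * g
        rw [hw']
        group
      rw [h7]
      exact h5
    have h8 := (hπ _).2 h6
    rw [map_mul, map_inv, inv_mul_eq_one] at h8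
    rw [h8, hw₁]
-- END fe

-- BEGIN ff
/-- MODULE ff. A sufficient condition: the action on the generators.  Every `f` is the sum of the `Pi.single v (f v)`, `Fq_add`, `Fq_single`; for `w` with `π w = Fq f` and `w₀ = ∏ x_v(f v)` (some element with `π w₀ = Fq f`, obtained by induction on the finset together with `π (g w₀ g⁻¹) = Fq (T f)`)
`w⁻¹ w₀ ∈ Uk (k + 1)`, so `π (g w g⁻¹) = π (g w₀ g⁻¹)` (`nk1`). -/
theorem Act.of_gen [Fintype (Rk l (k : ℤ))] {x : Root n → K → G} (h : Stb K n x) {π : Uk x l k →* A} (hπ : ∀ v, π v = 1 ↔ (v : G) ∈ Uk x l (k + 1)) {g : G}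
    {T : (Module.End K (Rk l (k : ℤ) → K))ˣ} (nk : ∀ v ∈ Uk x l k, g * v * g⁻¹ ∈ Uk x l k) (nk' : ∀ v ∈ Uk x l k, g⁻¹ * v * g ∈ Uk x l k)
    (nk1 : ∀ v ∈ Uk x l (k + 1), g * v * g⁻¹ ∈ Uk x l (k + 1)) (nk1' : ∀ v ∈ Uk x l (k + 1), g⁻¹ * v * g ∈ Uk x l (k + 1))
    (hg : ∀ (v : Rk l (k : ℤ)) (a : K) (w' : Uk x l k), (w' : G) = g * (xk x l k v a : G) * g⁻¹ → π w' = Fq x π (T.1 (open Classical in Pi.single v a))) : Act x π g T := by
  classical
  have key : ∀ f : Rk l (k : ℤ) → K, ∃ w₀ : Uk x l k, π w₀ = Fq x π f ∧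
      ∀ w₁ : Uk x l k, (w₁ : G) = g * (w₀ : G) * g⁻¹ → π w₁ = Fq x π (T.1 f) := by
    intro f
    have hf := Finset.univ_sum_single f
    rw [← hf]
    refine Finset.sum_induction _ (fun f : Rk l (k : ℤ) → K => ∃ w₀ : Uk x l k, π w₀ = Fq x π f ∧
      ∀ w₁ : Uk x l k, (w₁ : G) = g * (w₀ : G) * g⁻¹ → π w₁ = Fq x π (T.1 f)) ?_ ?_ ?_
    · rintro f₁ f₂ ⟨u, hu1, hu2⟩ ⟨v, hv1, hv2⟩
      refine ⟨u * v, ?_, fun w₁ hw₁ => ?_⟩
      · rw [map_mul, hu1, hv1, Fq_add h]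
      · have e1 : w₁ = (⟨g * u * g⁻¹, nk _ u.2⟩ : Uk x l k) * ⟨g * v * g⁻¹, nk _ v.2⟩ := by
          apply Subtype.ext
          rw [hw₁]
          show g * ((u : G) * (v : G)) * g⁻¹ = g * (u : G) * g⁻¹ * (g * (v : G) * g⁻¹)
          group
        rw [e1, map_mul, hu2 _ rfl, hv2 _ rfl, map_add, Fq_add h]
    · refine ⟨1, ?_, fun w₁ hw₁ => ?_⟩
      · rw [map_one, Fq_zero h]
      · have e1 : w₁ = 1 := by
          apply Subtype.ext
          rw [hw₁]
          show g * 1 * g⁻¹ = 1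
          group
        rw [e1, map_one, map_zero, Fq_zero h]
    · intro v _
      exact ⟨xk x l k v (f v), (Fq_single h π v (f v)).symm, fun w₁ hw₁ => hg v (f v) w₁ hw₁⟩
  refine ⟨nk, nk', nk1, nk1', fun w w' f hw' hw => ?_⟩
  obtain ⟨w₀, h1, h2⟩ := key f
  have h3 : π (w⁻¹ * w₀) = 1 := by rw [map_mul, map_inv, hw, h1, inv_mul_cancel]
  have h4 := nk1 _ ((hπ _).1 h3)
  have h5 : ((w'⁻¹ * (⟨g * w₀ * g⁻¹, nk _ w₀.2⟩ : Uk x l k) : Uk x l k) : G) ∈ Uk x l (k + 1) := by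
    have h6 : ((w'⁻¹ * (⟨g * w₀ * g⁻¹, nk _ w₀.2⟩ : Uk x l k) : Uk x l k) : G) =
        g * ((w⁻¹ * w₀ : Uk x l k) : G) * g⁻¹ := by
      show (w' : G)⁻¹ * (g * w₀ * g⁻¹) = g * ((w : G)⁻¹ * (w₀ : G)) * g⁻¹
      rw [hw']
      group
    rw [h6]
    exact h4
  have h7 := (hπ _).2 h5
  rw [map_mul, map_inv, inv_mul_eq_one] at h7
  rw [h7]
  exact h2 _ rfl
-- END ff

-- BEGIN fg
private theorem fg_inv {x : Root n → K → G} (h : Stb K n x) (r : Root n) (s : K) (g : G) :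
    (x r s)⁻¹ * g * x r s = x r (-s) * g * (x r (-s))⁻¹ := by
  rw [← h.inv r s, inv_inv]

private theorem fg_ext {a : Vec n} {v : Rk l (k : ℤ)} {t : K} {w : Vec n} (hw : w - a ≠ v.1) :
    ext (open Classical in Pi.single v t : Rk l (k : ℤ) → K) (w - a) = 0 := by
  classical
  unfold ext
  split_ifs with h1
  · rw [Pi.single_eq_of_ne]
    intro h2
    exact hw (congrArg Subtype.val h2)
  · rfl

/-- MODULE fg. `Act.of_gen`, `Uk_conj_root` (`l a = 0`; for the levels `k` and `k + 1`).  On a generator `v`, `t`: if `bf a v = -1`: `x_a(s) x_v(t) x_a(s)⁻¹ = x_(a+v)(ep(a,v) s t) x_v(t)` (`Stb.conj_add`) and `(1 + s E_a) single v t = single v t + single (a + v) (ep(a, v) s t)`; otherwise (`bf a v ∈ {0, 1}`, `L0.cases`) it commutes and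
`E_a (single v t) = 0` (the value at `w` is not zero only for `w = v + a`, not a root vector). -/
theorem Act_x [Fintype (Rk l (k : ℤ))] (hn : n ≤ 8) (hl : Addl l) (hk : 1 ≤ k) {x : Root n → K → G} (h : Stb K n x) {π : Uk x l k →* A}
    (hπ : ∀ v, π v = 1 ↔ (v : G) ∈ Uk x l (k + 1)) {a : Vec n} (ha : L0 l a) (s : K) : Act x π (X x a s) (Ao l (k : ℤ) K a s) := by
  have hk0 : (k : ℤ) ≠ 0 := by
    have : (1 : ℤ) ≤ (k : ℤ) := by exact_mod_cast hk
    omega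
  have h0 : 0 ≤ l (⟨a, ha.1⟩ : Root n).1 := ha.2.ge
  have h1 : 1 ≤ k + 1 := Nat.le_add_left 1 k
  rw [X_of x ha.1]
  refine Act.of_gen h hπ (fun v hv => Uk_conj_root hl h hk h0 s hv) (fun v hv => ?_) (fun v hv => Uk_conj_root hl h h1 h0 s hv) (fun v hv => ?_) ?_
  · rw [fg_inv h]
    exact Uk_conj_root hl h hk h0 (-s) hv
  · rw [fg_inv h]
    exact Uk_conj_root hl h h1 h0 (-s) hv
  · intro v t w' hw'
    classical
    by_cases hb : bf a v.1 = -1
    · have hr : IsR (a + v.1) := (isR_add_iff ha.1 v.2.1).2 hb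
      have hlv : l (a + v.1) = (k : ℤ) := by
        rw [hl, ha.2, v.2.2, zero_add]
      have h2 := h.conj_add (r := ⟨a, ha.1⟩) (s := ⟨v.1, v.2.1⟩) (t := ⟨a + v.1, hr⟩) rfl s t
      have h3 : w' = xk x l k ⟨a + v.1, hr, hlv⟩ ((ep K a v.1 : K) * s * t) * xk x l k v t := by
        apply Subtype.ext
        rw [hw']
        exact h2
      have h4 : (Ao l (k : ℤ) K a s).1 (Pi.single v t) = Pi.single (⟨a + v.1, hr, hlv⟩ : Rk l (k : ℤ)) ((ep K a v.1 : K) * s * t) + Pi.single v t := by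
        funext w
        rw [Ao_apply ha, Pi.add_apply]
        by_cases hw : w.1 - a = v.1
        · have h5 : w = (⟨a + v.1, hr, hlv⟩ : Rk l (k : ℤ)) := by
            apply Subtype.ext
            show w.1 = a + v.1
            rw [← hw]
            abel
          have h6 : w.1 - a = (v : Vec n) := hw
          rw [h6, ext_val, Pi.single_eq_same, ← h5, Pi.single_eq_same]
          show _ + s * (((ep K a v.1 : Kˣ) : K) * t) = _
          ring
        · have h5 : w ≠ (⟨a + v.1, hr, hlv⟩ : Rk l (k : ℤ)) := by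
            intro h5
            apply hw
            rw [h5]
            show a + v.1 - a = v.1
            abel
          rw [fg_ext hw, mul_zero, mul_zero, add_zero, Pi.single_eq_of_ne h5, zero_add]
      have h7 : π w' = Fq x π (Pi.single (⟨a + v.1, hr, hlv⟩ : Rk l (k : ℤ)) ((ep K a v.1 : K) * s * t) + Pi.single v t) := by
        rw [h3, map_mul, Fq_add h]
        have h8 := Fq_single h π (⟨a + v.1, hr, hlv⟩ : Rk l (k : ℤ)) ((ep K a v.1 : K) * s * t)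
        have h9 := Fq_single h π v t
        rw [← h8, ← h9]
      rw [h7, ← h4]
    · have hb' : 0 ≤ bf a v.1 := by
        rcases L0.cases hn hl hk0 ha v.2.1 v.2.2 with h2 | h2 | h2
        · exact absurd h2 hb
        · exact h2.ge
        · rw [h2]
          exact zero_le_one
      have h2 := h.commute (r := ⟨a, ha.1⟩) (s := ⟨v.1, v.2.1⟩) hb' s t
      have h3 : w' = xk x l k v t := by
        apply Subtype.ext
        rw [hw']
        show x ⟨a, ha.1⟩ s * x ⟨v.1, v.2.1⟩ t * (x ⟨a, ha.1⟩ s)⁻¹ = x ⟨v.1, v.2.1⟩ t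
        rw [h2, mul_inv_cancel_right]
      have h4 : (Ao l (k : ℤ) K a s).1 (Pi.single v t) = Pi.single v t := by
        funext w
        rw [Ao_apply ha]
        have hw : w.1 - a ≠ v.1 := by
          intro h5
          apply hb
          rw [← isR_add_iff ha.1 v.2.1, ← h5]
          have h6 : a + (w.1 - a) = w.1 := by abel
          rw [h6]
          exact w.2.1
        rw [fg_ext hw, mul_zero, mul_zero, add_zero]
      have h9 := Fq_single h π v t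
      rw [h3, ← h9]
      conv_lhs => rw [← h4]
-- END fg

-- BEGIN fh
private theorem fh_sg (hn : n = 6 ∨ n = 7 ∨ n = 8) {x : Root n → K → G} (h : Stb K n x) (γ : Root n) {a : K} (ha : a ≠ 0) (j : ℕ) :
    ∀ v ∈ Uk x l j, hh x γ a * v * (hh x γ a)⁻¹ ∈ Uk x l j := by
  intro v hv
  refine Subgroup.closure_induction (p := fun v _ => hh x γ a * v * (hh x γ a)⁻¹ ∈ Uk x l j) ?_ ?_ ?_ ?_ hv
  · rintro _ ⟨r, b, hr, rfl⟩
    rw [hh_conj hn h γ r ha b]
    exact Subgroup.subset_closure ⟨r, _, hr, rfl⟩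
  · simp only [mul_one, mul_inv_cancel]
    exact (Uk x l j).one_mem
  · intro u w _ _ hu hw
    have e : hh x γ a * (u * w) * (hh x γ a)⁻¹ = (hh x γ a * u * (hh x γ a)⁻¹) * (hh x γ a * w * (hh x γ a)⁻¹) := by group
    rw [e]
    exact (Uk x l j).mul_mem hu hw
  · intro u _ hu
    have e : hh x γ a * u⁻¹ * (hh x γ a)⁻¹ = (hh x γ a * u * (hh x γ a)⁻¹)⁻¹ := by group
    rw [e]
    exact (Uk x l j).inv_mem hu

/-- MODULE fh. The torus: `hh_conj` (`h_γ(s) x_v(t) h_γ(s)⁻¹ = x_v(s ^ (γ, v) t)`): it normalizes every `Uk`, and `Ho γ s (single v t) = single v (s ^ (γ, v) t)`. -/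
theorem Act_h [Fintype (Rk l (k : ℤ))] (hn : n = 6 ∨ n = 7 ∨ n = 8) {x : Root n → K → G} (h : Stb K n x) {π : Uk x l k →* A}
    (hπ : ∀ v, π v = 1 ↔ (v : G) ∈ Uk x l (k + 1)) (γ : Root n) (s : Kˣ) : Act x π (hh x γ (s : K)) (Ho l (k : ℤ) K γ.1 s) := by
  have hs : (s : K) ≠ 0 := s.ne_zero
  have hi : (hh x γ (s : K))⁻¹ = hh x γ ((s : K)⁻¹) := hh_inv h γ hs
  have hb : ∀ j : ℕ, ∀ v ∈ Uk x l j, (hh x γ (s : K))⁻¹ * v * hh x γ (s : K) ∈ Uk x l j := by
    intro j v hv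
    have e := fh_sg hn h γ (inv_ne_zero hs) j v hv
    rwa [← hi, inv_inv] at e
  refine Act.of_gen h hπ (fh_sg hn h γ hs k) (hb k) (fh_sg hn h γ hs (k + 1)) (hb (k + 1)) ?_
  intro v a w' hw
  have h1 : w' = xk x l k v ((s : K) ^ bf γ.1 v.1 * a) := by
    apply Subtype.ext
    rw [hw]
    exact hh_conj hn h γ ⟨v.1, v.2.1⟩ hs a
  have h2 : (Ho l (k : ℤ) K γ.1 s).1 (open Classical in Pi.single v a) = (open Classical in Pi.single v ((s : K) ^ bf γ.1 v.1 * a)) := by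
    funext w
    rw [Ho_apply]
    by_cases hwv : w = v
    · subst hwv
      rw [Pi.single_eq_same, Pi.single_eq_same, Units.val_zpow_eq_zpow_val]
    · rw [Pi.single_eq_of_ne hwv, Pi.single_eq_of_ne hwv, mul_zero]
  rw [h1, h2, Fq_single h π v]
-- END fh

-- BEGIN fi
/-- MODULE fi. `f : SL_m(K) → G` with `f (el i j a) = X x (u i - u j) (cf i j * a)` and the representation `R` of the same family: `Act x π (f M) (R M)` for every `M`: `el_gen`, closure induction, `Act.one`, `Act.mul`, `Act.inv`, `Act_x`. -/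
theorem Act_rep [Fintype (Rk l (k : ℤ))] (hn : n ≤ 8) (hl : Addl l) (hk : 1 ≤ k) {x : Root n → K → G} (h : Stb K n x) {π : Uk x l k →* A}
    (hπ : ∀ v, π v = 1 ↔ (v : G) ∈ Uk x l (k + 1)) {u : Fin m → Vec n} (hu : Fam l u) {F : Matrix.SpecialLinearGroup (Fin m) K →* G}
    (hF : ∀ i j, i ≠ j → ∀ a, F (el K i j a) = X x (u i - u j) (cf K u i j * a)) {R : Matrix.SpecialLinearGroup (Fin m) K →* (Module.End K (Rk l (k : ℤ) → K))ˣ} (hR : IsRep R u)
    (M : Matrix.SpecialLinearGroup (Fin m) K) : Act x π (F M) (R M) := by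
  have hM : M ∈ Subgroup.closure {g : Matrix.SpecialLinearGroup (Fin m) K | ∃ i j a, i ≠ j ∧ g = el K i j a} := by
    rw [el_gen]; exact Subgroup.mem_top M
  induction hM using Subgroup.closure_induction with
  | mem g hg =>
    obtain ⟨i, j, a, hij, rfl⟩ := hg
    rw [hF i j hij a, hR i j hij a]
    exact Act_x hn hl hk h hπ (hu i j hij) _
  | one =>
    rw [map_one, map_one]
    exact Act.one x π
  | mul g g' _ _ h1 h2 =>
    rw [map_mul, map_mul]
    exact Act.mul h1 h2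
  | inv g _ h1 =>
    rw [map_inv, map_inv]
    exact Act.inv hπ h1
-- END fi

-- BEGIN fj
/-- MODULE fj. `1 - T` is injective on the finite dimensional space of functions on `Rk`, so it is surjective.  `v ∈ Uk k`: `π v = Fq f` (`Fq_surj`), `f = g - T g`, `π y = Fq g` (`Fq_lift`), `π (y⁻¹ v (b y b⁻¹)) = Fq (-g + f + T g) = 1` (`Fq_add`, `Fq_zero`). -/
theorem sur_of_act [Fintype (Rk l (k : ℤ))] {x : Root n → K → G} (h : Stb K n x) {π : Uk x l k →* A} (hπ : ∀ v, π v = 1 ↔ (v : G) ∈ Uk x l (k + 1)) {b : G}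
    {T : (Module.End K (Rk l (k : ℤ) → K))ˣ} (hb : Act x π b T) (hT : ∀ f, T.1 f = f → f = 0) : Sur x l b k := by
  have hsurj : Function.Surjective ((1 : Module.End K (Rk l (k : ℤ) → K)) - T.1) := by
    rw [← LinearMap.injective_iff_surjective, injective_iff_map_eq_zero]
    intro f hf
    apply hT
    rw [LinearMap.sub_apply, Module.End.one_apply, sub_eq_zero] at hf
    exact hf.symm
  intro v hv
  obtain ⟨f, hf⟩ := Fq_surj h hπ ⟨v, hv⟩
  obtain ⟨g, hg⟩ := hsurj f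
  rw [LinearMap.sub_apply, Module.End.one_apply] at hg
  obtain ⟨y, hy⟩ := Fq_lift x π g
  have hb1 : b * (y : G) * b⁻¹ ∈ Uk x l k := hb.nk _ y.2
  refine ⟨y, y.2, ?_⟩
  have h1 := hb.act y ⟨_, hb1⟩ g rfl hy
  have h2 : π (y⁻¹ * ⟨v, hv⟩ * ⟨_, hb1⟩) = 1 := by
    rw [map_mul, map_mul, map_inv, hy, hf, h1, mul_assoc, ← Fq_add h, ← hg, sub_add_cancel, inv_mul_cancel]
  exact (hπ _).1 h2
-- END fj

-- BEGIN fk
/-- MODULE fk. RESULT for one family: `finite_Rk`, `Fintype.ofFinite`, `exists_pi`, `exists_rep`, `Act_rep`, `no_fix`, `sur_of_act`. -/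
theorem sur_of_fam {L : Type*} [Field L] (hn : n ≤ 8) (hl : Addl l) (hk : 1 ≤ k) {x : Root n → K → G} (h : Stb K n x) {u : Fin (m + 1) → Vec n} (hu : Fam l u)
    {F : Matrix.SpecialLinearGroup (Fin (m + 1)) K →* G} (hF : ∀ i j, i ≠ j → ∀ a, F (el K i j a) = X x (u i - u j) (cf K u i j * a)) (ι : K →+* L)
    {M : Matrix.SpecialLinearGroup (Fin (m + 1)) K} {g : Matrix.SpecialLinearGroup (Fin (m + 1)) L} {D : Fin (m + 1) → Lˣ} (hD : ∏ i, D i = 1)
    (hM : Matrix.SpecialLinearGroup.map ι M = g * dg D hD * g⁻¹) (hw : ∀ v : Rk l (k : ℤ), wt u D v.1 ≠ 1) : Sur x l (F M) k := by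
  have hk0 : (k : ℤ) ≠ 0 := by omega
  haveI := finite_Rk hn l (k : ℤ)
  letI := Fintype.ofFinite (Rk l (k : ℤ))
  obtain ⟨A, _, π, hπ⟩ := exists_pi hl h hk
  obtain ⟨R, hR⟩ := exists_rep (K := K) hn hl hk0 hu
  exact sur_of_act h hπ (Act_rep hn hl hk h hπ hu hF hR M) fun f hf => no_fix hn hl hk0 ι hu hR hD hM hw hf
-- END fk

end Pool.Agent.ThR
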