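import Pool.Agent.ThR.Op

/-! # Representations of `SL_m` on the graded pieces, weights, no fixed vectors (MP_3d54b6_al, part D) -/

namespace Pool.Agent.ThR

open ThE ThK

variable {n : ℕ} {K : Type*} [Field K] {L : Type*} [Field L] {l : Vec n → ℤ} {k : ℤ} {m : ℕ}

/-- a family of vectors whose differences are root vectors of level zero (`E_7`, `E_8`: the `e_i`; `E_6`: `e_0, e_1, e_2`; `e_3, e_4, e_5`; `θ, 0`) -/
def Fam (l : Vec n → ℤ) (u : Fin m → Vec n) : Prop := ∀ i j, i ≠ j → L0 l (u i - u j)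

/-- the signs of the family -/
def cf (K : Type*) [Field K] (u : Fin m → Vec n) (i j : Fin m) : K := eps K (u i - u j) (u j)

-- BEGIN ea
/-- MODULE ea. `eps_mul_self`. -/
theorem cf_sq (u : Fin m → Vec n) (i j : Fin m) : cf K u i j * cf K u i j = 1 := by
  exact eps_mul_self _ _

/-- `ep(u_j - u_i, u_i) = ep(u_i - u_j, u_i) = ep(u_i - u_j, u_i - u_j) ep(u_i - u_j, u_j)` (`eps_neg_left`, `eps_add_right`, `eps_self`). -/
theorem cf_swap {u : Fin m → Vec n} (hu : Fam l u) {i j : Fin m} (h : i ≠ j) : cf K u j i = -cf K u i j := by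
  have h1 : u j - u i = -(u i - u j) := (neg_sub _ _).symm
  have h2 : eps K (u i - u j) (u i) = eps K (u i - u j) ((u i - u j) + u j) := by
    rw [sub_add_cancel]
  unfold cf
  rw [h1, eps_neg_left, h2, eps_add_right, eps_self (hu i j h).1]
  ring

/-- `ep(u_i - u_j, u_j - u_p) ep(u_i - u_j, u_j) ep(u_j - u_p, u_p) = ep(u_i - u_j, u_p) ep(u_j - u_p, u_p) = ep(u_i - u_p, u_p)`. -/
theorem cf_mul (u : Fin m → Vec n) (i j p : Fin m) : eps K (u i - u j) (u j - u p) * cf K u i j * cf K u j p = cf K u i p := by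
  have h1 : eps K (u i - u p) (u p) = eps K ((u i - u j) + (u j - u p)) (u p) := by
    rw [sub_add_sub_cancel]
  have h2 : eps K (u i - u j) (u j) = eps K (u i - u j) ((u j - u p) + u p) := by
    rw [sub_add_cancel]
  unfold cf
  rw [h1, h2, eps_add_left, eps_add_right]
  have h3 := eps_mul_self (K := K) (u i - u j) (u j - u p)
  calc eps K (u i - u j) (u j - u p) * (eps K (u i - u j) (u j - u p) * eps K (u i - u j) (u p)) * eps K (u j - u p) (u p)
      = (eps K (u i - u j) (u j - u p) * eps K (u i - u j) (u j - u p)) * (eps K (u i - u j) (u p) * eps K (u j - u p) (u p)) := by ring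
    _ = eps K (u i - u j) (u p) * eps K (u j - u p) (u p) := by rw [h3, one_mul]

private theorem ea_neg {u : Fin m → Vec n} (hu : Fam l u) {i j p : Fin m} (h1 : i ≠ j) (h2 : j ≠ p) (h3 : i ≠ p) :
    bf (u i - u j) (u j - u p) = -1 := by
  refine (isR_add_iff (hu i j h1).1 (hu j p h2).1).1 ?_
  rw [sub_add_sub_cancel]
  exact (hu i p h3).1

private theorem ea_one {u : Fin m → Vec n} (hu : Fam l u) {i j p : Fin m} (h1 : i ≠ j) (h2 : j ≠ p) (h3 : i ≠ p) :
    bf (u i - u j) (u i - u p) = 1 := by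
  have h4 : u i - u p = (u i - u j) + (u j - u p) := (sub_add_sub_cancel _ _ _).symm
  rw [h4, bf_add_right, isR_bf (hu i j h1).1, ea_neg hu h1 h2 h3]
  norm_num

/-- `i, j, p` distinct: `(u_i - u_j) + (u_j - u_p)` is a root vector, so `bf (u_i - u_j) (u_j - u_p) = -1` (`isR_add_iff`).  Other pairs `(i, j)`, `(a, b)`, `j ≠ a`, `i ≠ b`: the form of `u_i - u_j` and `u_a - u_b` is `2` if `(i, j) = (a, b)`,
`1` if one of `i = a`, `j = b` (`u_i - u_j = (u_i - u_b) + (u_b - u_j)` for `i = a`), `0` if all four are distinct (`u_i - u_j = (u_i - u_a) + (u_a - u_j)`: `-1 + 1`).  So the sum is not `0` and not a root vector. -/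
theorem fam_form {u : Fin m → Vec n} (hu : Fam l u) {i j a b : Fin m} (h1 : i ≠ j) (h2 : a ≠ b) (h3 : j ≠ a) (h4 : i ≠ b) :
    0 ≤ bf (u i - u j) (u a - u b) := by
  by_cases hia : i = a
  · subst hia
    by_cases hjb : j = b
    · subst hjb
      rw [isR_bf (hu i j h1).1]
      norm_num
    · rw [ea_one hu h1 hjb h4]
      norm_num
  · have h5 : u i - u j = (u i - u a) + (u a - u j) := (sub_add_sub_cancel _ _ _).symm
    by_cases hjb : j = b
    · subst hjb
      rw [h5, bf_add_left, isR_bf (hu a j h2).1, ea_neg hu hia h2 h1]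
      norm_num
    · rw [h5, bf_add_left, ea_neg hu hia h2 h4, ea_one hu (Ne.symm h3) hjb h2]
      norm_num
-- END ea

-- BEGIN eb
private theorem eb_inv (u : Fin m → Vec n) (i j : Fin m) (a : K) : (cf K u i j * a)⁻¹ = cf K u i j * a⁻¹ := by
  rw [mul_inv, inv_eq_of_mul_eq_one_right (cf_sq u i j)]

private theorem eb_ne (u : Fin m → Vec n) (i j : Fin m) : cf K u i j ≠ 0 := fun h => by
  have h1 := cf_sq (K := K) u i j
  rw [h, mul_zero] at h1
  exact zero_ne_one h1

private theorem eb_neg (u : Fin m → Vec n) (i j : Fin m) : u j - u i = -(u i - u j) := (neg_sub _ _).symm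

/-- MODULE eb. The operators of a family satisfy the relations of the elementary matrices.  `add`: `Ao_add`.  `mul`: `Ao_com` and `cf_mul` (`(u i - u j) + (u j - u p) = u i - u p`).  `cm`: `Ao_cm` (`fam_form`, `isR_add_iff`, `bf a a = 2`, so the sum is not zero either:
`bf a (-a) = -2`).  For `nA z i j a`: `z j i (-a⁻¹) = Ao (u j - u i) (cf j i * -a⁻¹) = Ao (-(u i - u j)) (cf i j * a)⁻¹` (`cf_swap`, `cf_sq`), so `nA z i j a = No (u i - u j) (cf i j * a)`.  `wz`: `Ao_con`, and `cf j i = - cf i j`.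
`tor`: `hA z i j a = No (c a) * No (-c)` with `c = cf i j = ± 1` (`hA_op` below), `Ho_mul`. -/
theorem nA_op {u : Fin m → Vec n} (hu : Fam l u) {i j : Fin m} (h : i ≠ j) {a : K} (ha : a ≠ 0) :
    nA (fun i j a => Ao l k K (u i - u j) (cf K u i j * a)) i j a = No l k K (u i - u j) (cf K u i j * a) := by
  show Ao l k K (u i - u j) (cf K u i j * a) * Ao l k K (u j - u i) (cf K u j i * -a⁻¹) *
    Ao l k K (u i - u j) (cf K u i j * a) = No l k K (u i - u j) (cf K u i j * a)
  have h1 : cf K u j i * -a⁻¹ = (cf K u i j * a)⁻¹ := by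
    rw [eb_inv, cf_swap hu h, neg_mul_neg]
  rw [h1, eb_neg u i j]
  rfl

/-- `No(c a) No(-c)`: `c = 1`: `No_hh`; `c = -1`: `No (-a) No 1 = (No (-a) No (-1)) (No (-1))⁻¹ No 1 = Ho (-a) (Ho (-1))⁻¹` because `No (-1) No (-1) = Ho (-1)` and `(No (-1))⁻¹ = No 1`. -/
theorem hA_op (hn : n ≤ 8) (hl : Addl l) (hk : k ≠ 0) {u : Fin m → Vec n} (hu : Fam l u) {i j : Fin m} (h : i ≠ j) (a : Kˣ) :
    hA (fun i j a => Ao l k K (u i - u j) (cf K u i j * a)) i j (a : K) = Ho l k K (u i - u j) a := by
  have hr : L0 l (u i - u j) := hu i j h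
  unfold hA
  rw [nA_op hu h (Units.ne_zero a), nA_op hu h (neg_ne_zero.2 one_ne_zero)]
  rcases mul_self_eq_one_iff.1 (cf_sq (K := K) u i j) with hc | hc
  · rw [hc, one_mul, one_mul]
    exact No_hh hn hl hk hr a
  · rw [hc]
    have h1 := No_hh (K := K) hn hl hk hr (-a)
    have h2 := No_hh (K := K) hn hl hk hr (-1)
    have h3 := No_hh (K := K) hn hl hk hr 1
    have h4 : Ho l k K (u i - u j) 1 = 1 := by
      have h5 := Ho_mul (l := l) (k := k) (u i - u j) (1 : Kˣ) 1
      rw [mul_one] at h5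
      exact left_eq_mul.1 h5
    have h6 : Ho l k K (u i - u j) (-a) = Ho l k K (u i - u j) a * Ho l k K (u i - u j) (-1) := by
      rw [← Ho_mul, mul_neg, mul_one]
    rw [Units.val_neg] at h1
    rw [Units.val_neg, Units.val_one] at h2
    rw [Units.val_one, h4] at h3
    have h7 : (-1 : K) * -1 = 1 := by rw [neg_mul_neg, mul_one]
    rw [neg_mul, one_mul, h7]
    have h8 : No l k K (u i - u j) (1 : K) = (No l k K (u i - u j) (-1 : K))⁻¹ := eq_inv_of_mul_eq_one_left h3
    have h9 : No l k K (u i - u j) (-(a : K)) = Ho l k K (u i - u j) (-a) * (No l k K (u i - u j) (-1 : K))⁻¹ :=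
      eq_mul_inv_of_mul_eq h1
    rw [h9, h8, h6, ← h2]
    group

theorem StA_op (hn : n ≤ 8) (hl : Addl l) (hk : k ≠ 0) {u : Fin m → Vec n} (hu : Fam l u) :
    StA K m (fun i j a => Ao l k K (u i - u j) (cf K u i j * a)) where
  add i j h a b := by
    show Ao l k K (u i - u j) (cf K u i j * (a + b)) = _
    rw [mul_add, Ao_add (hu i j h)]
  mul i j p h1 h2 h3 a b := by
    have hs : (u i - u j) + (u j - u p) = u i - u p := by abel
    have hr : IsR ((u i - u j) + (u j - u p)) := by
      rw [hs]; exact (hu i p h3).1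
    have h4 := Ao_com (k := k) hn hl hk (hu i j h1) (hu j p h2) hr (cf K u i j * a) (cf K u j p * b)
    rw [hs] at h4
    refine h4.trans (congrArg _ ?_)
    rw [← cf_mul u i j p]
    ring
  cm i j p q h1 h2 h3 h4 a b := by
    have hf := fam_form hu h1 h2 h3 h4
    refine Ao_cm hn hl hk (hu i j h1) (hu p q h2) ?_ ?_ _ _
    · intro h0
      have h5 : u p - u q = -(u i - u j) := eq_neg_of_add_eq_zero_right h0
      rw [h5, bf_neg_right, isR_bf (hu i j h1).1] at hf
      omega
    · intro h0
      have h5 := (isR_add_iff (hu i j h1).1 (hu p q h2).1).1 h0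
      omega
  wz i j h a b ha := by
    have h1 := Ao_con (K := K) (k := k) hn hl hk (hu i j h) (t := cf K u i j * a) (mul_ne_zero (eb_ne u i j) ha)
      (cf K u i j * b)
    rw [nA_op hu h ha]
    refine h1.trans ?_
    show _ = Ao l k K (u j - u i) (cf K u j i * -(a⁻¹ * a⁻¹ * b))
    rw [eb_neg u i j, cf_swap hu h, neg_mul_neg, eb_inv]
    congr 1
    calc cf K u i j * a⁻¹ * (cf K u i j * a⁻¹) * (cf K u i j * b)
        = (cf K u i j * cf K u i j) * (cf K u i j * (a⁻¹ * a⁻¹ * b)) := by ring
      _ = cf K u i j * (a⁻¹ * a⁻¹ * b) := by rw [cf_sq, one_mul]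
  tor i j h a b ha hb := by
    have h1 := hA_op (K := K) (k := k) hn hl hk hu h (Units.mk0 a ha * Units.mk0 b hb)
    have h2 := hA_op (K := K) (k := k) hn hl hk hu h (Units.mk0 a ha)
    have h3 := hA_op (K := K) (k := k) hn hl hk hu h (Units.mk0 b hb)
    rw [Units.val_mul, Units.val_mk0, Units.val_mk0] at h1
    rw [Units.val_mk0] at h2 h3
    rw [h1, h2, h3, Ho_mul]
-- END eb

/-- `R` is the representation of `SL_m(K)` on `V_k` given by the family `u` -/
def IsRep (R : Matrix.SpecialLinearGroup (Fin m) K →* (Module.End K (Rk l k → K))ˣ) (u : Fin m → Vec n) : Prop :=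
  ∀ i j, i ≠ j → ∀ a, R (el K i j a) = Ao l k K (u i - u j) (cf K u i j * a)

theorem exists_rep (hn : n ≤ 8) (hl : Addl l) (hk : k ≠ 0) {u : Fin m → Vec n} (hu : Fam l u) :
    ∃ R : Matrix.SpecialLinearGroup (Fin m) K →* (Module.End K (Rk l k → K))ˣ, IsRep R u :=
  pres (StA_op hn hl hk hu)

/-- the diagonal matrix -/
def dg (D : Fin m → Kˣ) (h : ∏ i, D i = 1) : Matrix.SpecialLinearGroup (Fin m) K :=
  ⟨Matrix.diagonal fun i => (D i : K), by
    rw [Matrix.det_diagonal, ← Units.coe_prod, h, Units.val_one]⟩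

/-- the weight of `v` -/
def wt (u : Fin m → Vec n) (D : Fin m → Kˣ) (v : Vec n) : Kˣ := ∏ i, D i ^ bf (u i) v

-- BEGIN ec
private theorem ec_row {i j : Fin m} (h : i ≠ j) {a : K} (ha : a ≠ 0) (M : Matrix (Fin m) (Fin m) K) (b c : Fin m) :
    (Matrix.transvection i j a * (Matrix.transvection j i (-a⁻¹) * (Matrix.transvection i j a * M))) b c =
      if b = i then a * M j c else if b = j then -a⁻¹ * M i c else M b c := by
  have r1 : (Matrix.transvection i j a * M) i c = M i c + a * M j c := Matrix.transvection_mul_apply_same i j c a M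
  have r2 : ∀ b, b ≠ i → (Matrix.transvection i j a * M) b c = M b c := fun b hb => Matrix.transvection_mul_apply_of_ne i j b c hb a M
  obtain ⟨P, hP⟩ : ∃ P, P = Matrix.transvection i j a * M := ⟨_, rfl⟩
  rw [← hP] at r1 r2 ⊢
  have s1 : (Matrix.transvection j i (-a⁻¹) * P) j c = P j c + -a⁻¹ * P i c := Matrix.transvection_mul_apply_same j i c (-a⁻¹) P
  have s2 : ∀ b, b ≠ j → (Matrix.transvection j i (-a⁻¹) * P) b c = P b c := fun b hb => Matrix.transvection_mul_apply_of_ne j i b c hb (-a⁻¹) P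
  obtain ⟨Q, hQ⟩ : ∃ Q, Q = Matrix.transvection j i (-a⁻¹) * P := ⟨_, rfl⟩
  rw [← hQ] at s1 s2 ⊢
  have t1 : (Matrix.transvection i j a * Q) i c = Q i c + a * Q j c := Matrix.transvection_mul_apply_same i j c a Q
  have t2 : ∀ b, b ≠ i → (Matrix.transvection i j a * Q) b c = Q b c := fun b hb => Matrix.transvection_mul_apply_of_ne i j b c hb a Q
  by_cases hi : b = i
  · rw [if_pos hi, hi, t1, s1, s2 i h, r1, r2 j h.symm]
    field_simp
    ring
  · rw [if_neg hi, t2 b hi]
    by_cases hj : b = j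
    · rw [if_pos hj, hj, s1, r1, r2 j h.symm]
      field_simp
      ring
    · rw [if_neg hj, s2 b hj, r2 b hi]

private theorem ec_el {i j : Fin m} (h : i ≠ j) (a : K) : (el K i j a).1 = Matrix.transvection i j a := by
  unfold el
  exact congrArg Subtype.val (dif_pos h)

private theorem ec_nA {i j : Fin m} (h : i ≠ j) {a : K} (ha : a ≠ 0) (M : Matrix (Fin m) (Fin m) K) (b c : Fin m) :
    ((nA (el K : Fin m → Fin m → K → Matrix.SpecialLinearGroup (Fin m) K) i j a).1 * M) b c =
      if b = i then a * M j c else if b = j then -a⁻¹ * M i c else M b c := by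
  have h1 : (nA (el K : Fin m → Fin m → K → Matrix.SpecialLinearGroup (Fin m) K) i j a).1 * M =
      Matrix.transvection i j a * (Matrix.transvection j i (-a⁻¹) * (Matrix.transvection i j a * M)) := by
    unfold nA
    rw [Matrix.SpecialLinearGroup.coe_mul, Matrix.SpecialLinearGroup.coe_mul, ec_el h, ec_el h.symm, Matrix.mul_assoc, Matrix.mul_assoc]
  rw [h1]
  exact ec_row h ha M b c

/-- MODULE ec. `hA (el K) i j t` is the diagonal matrix with `t` at `i`, `t⁻¹` at `j` and `1` elsewhere (multiply the matrices, or evaluate on the basis vectors: `nA (el K) i j t` maps `e_i ↦ -t⁻¹ e_j`, `e_j ↦ t e_i`). -/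
theorem hA_el {i j : Fin m} (h : i ≠ j) (t : Kˣ) :
    (hA (el K : Fin m → Fin m → K → Matrix.SpecialLinearGroup (Fin m) K) i j (t : K)).1 =
      Matrix.diagonal fun p => if p = i then (t : K) else if p = j then ((t⁻¹ : Kˣ) : K) else 1 := by
  have h1 : (hA (el K : Fin m → Fin m → K → Matrix.SpecialLinearGroup (Fin m) K) i j (t : K)).1 =
      (nA (el K : Fin m → Fin m → K → Matrix.SpecialLinearGroup (Fin m) K) i j (t : K)).1 *
        ((nA (el K : Fin m → Fin m → K → Matrix.SpecialLinearGroup (Fin m) K) i j (-1)).1 * 1) := by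
    rw [Matrix.mul_one]
    rfl
  rw [h1]
  ext b c
  rw [ec_nA h t.ne_zero, ec_nA h (neg_ne_zero.2 one_ne_zero), ec_nA h (neg_ne_zero.2 one_ne_zero), ec_nA h (neg_ne_zero.2 one_ne_zero),
    Matrix.diagonal_apply]
  by_cases hi : b = i
  · subst hi
    rw [if_pos rfl, if_neg h.symm, if_pos rfl, if_pos rfl, Matrix.one_apply]
    by_cases hc : b = c
    · rw [if_pos hc, if_pos hc, neg_inv, neg_neg, inv_one, mul_one, mul_one]
    · rw [if_neg hc, if_neg hc, mul_zero, mul_zero]
  · by_cases hj : b = j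
    · subst hj
      rw [if_neg hi, if_pos rfl, if_pos rfl, if_neg hi, if_pos rfl, Matrix.one_apply]
      by_cases hc : b = c
      · rw [if_pos hc, if_pos hc, Units.val_inv_eq_inv_val]
        ring
      · rw [if_neg hc, if_neg hc, mul_zero, mul_zero]
    · rw [if_neg hi, if_neg hj, if_neg hi, if_neg hj, if_neg hi, if_neg hj, Matrix.one_apply]

/-- `dg D = ∏_(i ≠ 0) hA (el K) i 0 (D i)` (the product over `Fin m` of the indices `i.succ`, a commuting product; or: by induction on the number of the `i ≠ 0` with `D i ≠ 1`, multiplying `dg D` by `hA (el K) i 0 (D i)⁻¹`). It is enough to give this: a property of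
elements of `SL_(m+1)` which holds for `1`, is closed under products and holds for the `hA (el K) i 0 t`, `i ≠ 0`, holds for every `dg D`. -/
theorem dg_induction {p : Matrix.SpecialLinearGroup (Fin (m + 1)) K → (Fin (m + 1) → Kˣ) → Prop}
    (h1 : p 1 1) (h2 : ∀ A B D E, p A D → p B E → p (A * B) (D * E))
    (h3 : ∀ (i : Fin (m + 1)) (_ : i ≠ 0) (t : Kˣ), p (hA (el K) i 0 (t : K)) (fun j => if j = i then t else if j = 0 then t⁻¹ else 1))
    (D : Fin (m + 1) → Kˣ) (hD : ∏ i, D i = 1) : p (dg D hD) D := by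
  have key : ∀ (s : Finset (Fin (m + 1))) (E : Fin (m + 1) → Kˣ) (hE : ∏ i, E i = 1),
      (∀ j, j ≠ 0 → j ∉ s → E j = 1) → p (dg E hE) E := by
    intro s
    induction s using Finset.induction_on with
    | empty =>
      intro E hE hj
      have hE1 : E = 1 := by
        funext j
        by_cases h0 : j = 0
        · subst h0
          rw [Finset.prod_eq_single 0 (fun j _ h => hj j h (Finset.notMem_empty j)) (fun h => absurd (Finset.mem_univ _) h)] at hE
          exact hE
        · exact hj j h0 (Finset.notMem_empty j)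
      subst hE1
      have h4 : dg (1 : Fin (m + 1) → Kˣ) hE = 1 := by
        apply Subtype.ext
        exact Matrix.diagonal_one
      rw [h4]
      exact h1
    | insert i s _ ih =>
      intro E hE hj
      by_cases h0 : i = 0
      · refine ih E hE fun j h5 h6 => hj j h5 fun h7 => ?_
        rcases Finset.mem_insert.1 h7 with h8 | h8
        · exact h5 (h8.trans h0)
        · exact h6 h8
      · obtain ⟨F, hF⟩ : ∃ F : Fin (m + 1) → Kˣ, F = fun j => if j = i then E i else if j = 0 then (E i)⁻¹ else 1 := ⟨_, rfl⟩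
        have hA1 := hA_el (K := K) h0 (E i)
        have hA2 : (hA (el K : Fin (m + 1) → Fin (m + 1) → K → Matrix.SpecialLinearGroup (Fin (m + 1)) K) i 0 (E i : K)).1 =
            Matrix.diagonal fun j => (F j : K) := by
          rw [hA1, hF]
          congr 1
          funext j
          show (if j = i then (E i : K) else if j = 0 then (((E i)⁻¹ : Kˣ) : K) else 1) =
            ((if j = i then E i else if j = 0 then (E i)⁻¹ else 1 : Kˣ) : K)
          split_ifs <;> rfl
        have hFp : ∏ j, F j = 1 := by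
          have h5 := (hA (el K : Fin (m + 1) → Fin (m + 1) → K → Matrix.SpecialLinearGroup (Fin (m + 1)) K) i 0 (E i : K)).2
          rw [hA2, Matrix.det_diagonal, ← Units.coe_prod] at h5
          exact Units.ext h5
        have hEp : ∏ j, (E * F⁻¹) j = 1 := by
          have h6 : ∏ j, (E * F⁻¹) j = (∏ j, E j) * (∏ j, F j)⁻¹ := by
            rw [← Finset.prod_inv_distrib, ← Finset.prod_mul_distrib]
            rfl
          rw [h6, hE, hFp, inv_one, mul_one]
        have h7 : p (dg (E * F⁻¹) hEp) (E * F⁻¹) := by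
          refine ih _ _ fun j h8 h9 => ?_
          show E j * (F j)⁻¹ = 1
          by_cases h10 : j = i
          · rw [hF, h10]
            simp
          · rw [hj j h8 fun h11 => (Finset.mem_insert.1 h11).elim h10 h9, hF]
            simp [h10, h8]
        have h12 := h3 i h0 (E i)
        rw [← hF] at h12
        have h13 := h2 _ _ _ _ h7 h12
        have h14 : E * F⁻¹ * F = E := inv_mul_cancel_right E F
        have h15 : dg (E * F⁻¹) hEp * hA (el K) i 0 (E i : K) = dg E hE := by
          apply Subtype.ext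
          rw [Matrix.SpecialLinearGroup.coe_mul, hA2]
          show Matrix.diagonal _ * Matrix.diagonal _ = Matrix.diagonal _
          rw [Matrix.diagonal_mul_diagonal]
          congr 1
          funext j
          have h16 := congrFun h14 j
          rw [← h16]
          rfl
        rw [h14, h15] at h13
        exact h13
  exact key Finset.univ D hD fun j _ h => absurd (Finset.mem_univ j) h
-- END ec

-- BEGIN ed
private theorem ed_wt_mul (u : Fin (m + 1) → Vec n) (D E : Fin (m + 1) → Kˣ) (v : Vec n) :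
    wt u (D * E) v = wt u D v * wt u E v := by
  unfold wt
  rw [← Finset.prod_mul_distrib]
  refine Finset.prod_congr rfl fun i _ => ?_
  rw [Pi.mul_apply, mul_zpow]

private theorem ed_wt_one (u : Fin (m + 1) → Vec n) (v : Vec n) :
    wt u (1 : Fin (m + 1) → Kˣ) v = 1 := by
  unfold wt
  refine Finset.prod_eq_one fun i _ => ?_
  rw [Pi.one_apply, one_zpow]

private theorem ed_wt_single (u : Fin (m + 1) → Vec n) {i : Fin (m + 1)} (hi : i ≠ 0) (t : Kˣ) (v : Vec n) :
    wt u (fun j => if j = i then t else if j = 0 then t⁻¹ else 1) v = t ^ bf (u i - u 0) v := by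
  unfold wt
  beta_reduce
  rw [Finset.prod_eq_mul i 0 hi]
  · rw [if_pos rfl, if_neg (Ne.symm hi), if_pos rfl, bf_sub_left, inv_zpow', ← zpow_add, sub_eq_add_neg]
  · rintro c _ ⟨h1, h2⟩
    rw [if_neg h1, if_neg h2, one_zpow]
  · intro h
    exact absurd (Finset.mem_univ i) h
  · intro h
    exact absurd (Finset.mem_univ 0) h

/-- MODULE ed. `dg_induction` with the property `p A D := ∀ f v, (R A).1 f v = wt u D v * f v` (`wt u (D * E) v = wt u D v * wt u E v`; for `hA (el K) i 0 t`: `R` maps it to `hA` of the operators (`map_mul`), `hA_op`, `Ho_apply`, `bf (u i - u 0) v = bf (u i) v - bf (u 0) v`). -/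
theorem rep_dg (hn : n ≤ 8) (hl : Addl l) (hk : k ≠ 0) {u : Fin (m + 1) → Vec n} (hu : Fam l u)
    {R : Matrix.SpecialLinearGroup (Fin (m + 1)) K →* (Module.End K (Rk l k → K))ˣ} (hR : IsRep R u) (D : Fin (m + 1) → Kˣ) (hD : ∏ i, D i = 1)
    (f : Rk l k → K) (v : Rk l k) : (R (dg D hD)).1 f v = (wt u D v.1 : K) * f v := by
  have key := dg_induction (K := K) (m := m)
    (p := fun A D => ∀ (f : Rk l k → K) (v : Rk l k), (R A).1 f v = (wt u D v.1 : K) * f v) ?_ ?_ ?_ D hD
  · exact key f v
  · intro f v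
    rw [map_one, ed_wt_one, Units.val_one, Units.val_one, one_mul]
    rfl
  · intro A B D E hA' hB' f v
    rw [map_mul, Units.val_mul, ed_wt_mul, Units.val_mul, mul_assoc, ← hB' f v, ← hA' _ v]
    rfl
  · intro i hi t f v
    have h1 : R (hA (el K) i 0 (t : K)) = Ho l k K (u i - u 0) t := by
      rw [← hA_op hn hl hk hu hi t]
      unfold hA nA
      rw [map_mul, map_mul, map_mul, map_mul, map_mul, hR i 0 hi, hR 0 i (Ne.symm hi), hR i 0 hi, hR 0 i (Ne.symm hi)]
    rw [h1, Ho_apply, ed_wt_single u hi t]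
-- END ed

-- BEGIN ee
private theorem ee_el (ι : K →+* L) {i j : Fin m} (h : i ≠ j) (a : K) :
    Matrix.SpecialLinearGroup.map ι (el K i j a) = el L i j (ι a) := by
  refine Subtype.ext ?_
  have h1 : (el K i j a).1 = Matrix.transvection i j a := congrArg Subtype.val
    (dif_pos h : el K i j a = ⟨Matrix.transvection i j a, Matrix.det_transvection_of_ne i j h a⟩)
  have h2 : (el L i j (ι a)).1 = Matrix.transvection i j (ι a) := congrArg Subtype.val
    (dif_pos h : el L i j (ι a) = ⟨Matrix.transvection i j (ι a), Matrix.det_transvection_of_ne i j h (ι a)⟩)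
  rw [Matrix.SpecialLinearGroup.map_apply_coe, h1, h2]
  ext p q
  simp only [Matrix.transvection, RingHom.mapMatrix_apply, Matrix.map_apply, Matrix.add_apply, Matrix.one_apply,
    Matrix.single_apply]
  split_ifs <;> simp

private theorem ee_ext (ι : K →+* L) (f : Rk l k → K) (w : Vec n) : ext (fun v => ι (f v)) w = ι (ext f w) := by
  by_cases h : IsR w ∧ l w = k
  · simp only [ext, dif_pos h]
  · rw [ext_not _ h, ext_not _ h, map_zero]

/-- MODULE ee. Extension of the field: both sides are multiplicative in `M`, `SL_m(K)` is generated by the `el K i j a` (`el_gen`, `Subgroup.closure_induction`); for `el`: `Ao_apply`, `eps_map`, `SpecialLinearGroup.map ι (el K i j a) = el L i j (ι a)`. For inverses apply the operators of `M` to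
`(R M⁻¹) f`. -/
theorem rep_map (ι : K →+* L) {u : Fin m → Vec n} (hu : Fam l u) {R : Matrix.SpecialLinearGroup (Fin m) K →* (Module.End K (Rk l k → K))ˣ} (hR : IsRep R u)
    {R' : Matrix.SpecialLinearGroup (Fin m) L →* (Module.End L (Rk l k → L))ˣ} (hR' : IsRep R' u) (M : Matrix.SpecialLinearGroup (Fin m) K) (f : Rk l k → K) (v : Rk l k) :
    (R' (Matrix.SpecialLinearGroup.map ι M)).1 (fun w => ι (f w)) v = ι ((R M).1 f v) := by
  have key : ∀ M ∈ Subgroup.closure {g : Matrix.SpecialLinearGroup (Fin m) K | ∃ i j a, i ≠ j ∧ g = el K i j a},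
      ∀ f : Rk l k → K, (R' (Matrix.SpecialLinearGroup.map ι M)).1 (fun w => ι (f w)) = fun w => ι ((R M).1 f w) := by
    intro M hM
    induction hM using Subgroup.closure_induction with
    | mem M hM =>
      obtain ⟨i, j, a, hij, rfl⟩ := hM
      intro f
      funext v
      rw [ee_el ι hij, hR i j hij, hR' i j hij, Ao_apply (hu i j hij), Ao_apply (hu i j hij), ee_ext]
      simp only [cf, map_add, map_mul, eps_map]
    | one =>
      intro f
      rw [map_one, map_one, map_one]
      rfl
    | mul M N _ _ ihM ihN =>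
      intro f
      have h1 : (R' (Matrix.SpecialLinearGroup.map ι (M * N))).1 (fun w => ι (f w)) =
          (R' (Matrix.SpecialLinearGroup.map ι M)).1 ((R' (Matrix.SpecialLinearGroup.map ι N)).1 (fun w => ι (f w))) := by
        rw [map_mul, map_mul]
        rfl
      have h2 : (R (M * N)).1 f = (R M).1 ((R N).1 f) := by
        rw [map_mul]
        rfl
      rw [h1, h2, ihN f, ihM]
    | inv M _ ihM =>
      intro f
      have h2 : (R M).1 ((R M⁻¹).1 f) = f := by
        change ((R M) * (R M⁻¹)).1 f = f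
        rw [← map_mul, mul_inv_cancel, map_one]
        rfl
      have h3 := ihM ((R M⁻¹).1 f)
      rw [h2] at h3
      rw [← h3]
      change ((R' (Matrix.SpecialLinearGroup.map ι M⁻¹)) * (R' (Matrix.SpecialLinearGroup.map ι M))).1 _ = _
      rw [← map_mul, ← map_mul, inv_mul_cancel, map_one, map_one]
      rfl
  have hM : M ∈ Subgroup.closure {g : Matrix.SpecialLinearGroup (Fin m) K | ∃ i j a, i ≠ j ∧ g = el K i j a} := by
    rw [el_gen]
    exact Subgroup.mem_top M
  rw [key M hM f]
-- END ee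

-- BEGIN ef
/-- MODULE ef. NO FIXED VECTOR, one family (`E_7`, `E_8`).  If `(R M) f = f` then `ι f` is fixed by `R' (map ι M) = R' g R' (dg D) (R' g)⁻¹` (`exists_rep` over `L`, `rep_map`), so `f' = (R' g)⁻¹ (ι f)` is fixed by `R' (dg D)`, `wt u D v * f' v = f' v` (`rep_dg`), `f' = 0`, `ι f = 0`, `f = 0`. -/
theorem no_fix (hn : n ≤ 8) (hl : Addl l) (hk : k ≠ 0) (ι : K →+* L) {u : Fin (m + 1) → Vec n} (hu : Fam l u)
    {R : Matrix.SpecialLinearGroup (Fin (m + 1)) K →* (Module.End K (Rk l k → K))ˣ} (hR : IsRep R u) {M : Matrix.SpecialLinearGroup (Fin (m + 1)) K}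
    {g : Matrix.SpecialLinearGroup (Fin (m + 1)) L} {D : Fin (m + 1) → Lˣ} (hD : ∏ i, D i = 1) (hM : Matrix.SpecialLinearGroup.map ι M = g * dg D hD * g⁻¹)
    (hw : ∀ v : Rk l k, wt u D v.1 ≠ 1) {f : Rk l k → K} (hf : (R M).1 f = f) : f = 0 := by
  obtain ⟨R', hR'⟩ := exists_rep (K := L) (k := k) hn hl hk hu
  have hmul : ∀ (A B : Matrix.SpecialLinearGroup (Fin (m + 1)) L) (F : Rk l k → L),
      (R' (A * B)).1 F = (R' A).1 ((R' B).1 F) := by
    intro A B F
    rw [map_mul, Units.val_mul, Module.End.mul_apply]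
  have h1 : (R' (Matrix.SpecialLinearGroup.map ι M)).1 (fun w => ι (f w)) = fun w => ι (f w) := by
    funext v
    rw [rep_map ι hu hR hR' M f v, hf]
  rw [hM] at h1
  have h2 : (R' (dg D hD)).1 ((R' g⁻¹).1 fun w => ι (f w)) = (R' g⁻¹).1 fun w => ι (f w) := by
    have e : dg D hD * g⁻¹ = g⁻¹ * (g * dg D hD * g⁻¹) := by group
    rw [← hmul, e, hmul, h1]
  have h3 : (R' g⁻¹).1 (fun w => ι (f w)) = 0 := by
    funext v
    have h4 := rep_dg hn hl hk hu hR' D hD ((R' g⁻¹).1 fun w => ι (f w)) v
    rw [h2] at h4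
    by_contra h5
    apply hw v
    have h6 : (wt u D v.1 : L) = 1 := mul_right_cancel₀ h5 (by rw [one_mul]; exact h4.symm)
    exact Units.ext (by rw [h6, Units.val_one])
  have h7 : (fun w => ι (f w)) = (0 : Rk l k → L) := by
    have h8 := hmul g g⁻¹ fun w => ι (f w)
    rw [mul_inv_cancel, map_one, Units.val_one, Module.End.one_apply, h3, map_zero] at h8
    exact h8
  funext v
  have h9 := congrFun h7 v
  exact ι.injective (by simpa using h9)
-- END ef

-- BEGIN eg
/-- MODULE eg. Diagonalisation in `SL_m(L)`: `M ∈ SL_m(L)` with characteristic polynomial `∏ (X - D_i)`, `D` injective.  Eigenvectors `x_i` (`Matrix.exists_mulVec_eq_zero_iff` for `D_i - M`, or `Module.End.hasEigenvalue_of_isRoot`), linearly independent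
(`Module.End.eigenvectors_linearIndependent'`), matrix `P` with columns `x_i`, invertible, `M P = P diag(D)`; scale one column by `(det P)⁻¹`. `∏ D_i = det M = 1`. -/
theorem exists_diag (M : Matrix.SpecialLinearGroup (Fin (m + 1)) L) (D : Fin (m + 1) → Lˣ) (hinj : Function.Injective D)
    (hM : M.1.charpoly = ∏ i, (Polynomial.X - Polynomial.C (D i : L))) :
    ∃ (hD : ∏ i, D i = 1) (g : Matrix.SpecialLinearGroup (Fin (m + 1)) L), M = g * dg D hD * g⁻¹ := by
  have hx : ∀ i, ∃ v : Fin (m + 1) → L, v ≠ 0 ∧ M.1.mulVec v = (D i : L) • v := by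
    intro i
    have h1 : (Matrix.scalar (Fin (m + 1)) (D i : L) - M.1).det = 0 := by
      rw [← Matrix.eval_charpoly, hM, Polynomial.eval_prod]
      exact Finset.prod_eq_zero (Finset.mem_univ i) (by simp)
    obtain ⟨v, hv, h2⟩ := Matrix.exists_mulVec_eq_zero_iff.mpr h1
    refine ⟨v, hv, ?_⟩
    rw [Matrix.sub_mulVec, sub_eq_zero] at h2
    rw [← h2, Matrix.scalar_apply]
    funext j
    rw [Matrix.mulVec_diagonal, Pi.smul_apply, smul_eq_mul]
  choose x hx0 hx using hx
  have hli : LinearIndependent L x := by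
    refine Module.End.eigenvectors_linearIndependent' (Matrix.toLin' M.1) (fun i => (D i : L))
      (fun i j h => hinj (Units.ext h)) x fun i => ?_
    rw [Module.End.hasEigenvector_iff]
    refine ⟨?_, hx0 i⟩
    rw [Module.End.mem_eigenspace_iff, Matrix.toLin'_apply]
    exact hx i
  let P : Matrix (Fin (m + 1)) (Fin (m + 1)) L := Matrix.of fun a i => x i a
  have hP : IsUnit P := by
    rw [← Matrix.linearIndependent_cols_iff_isUnit]
    exact hli
  have hPd : P.det ≠ 0 := ((Matrix.isUnit_iff_isUnit_det P).mp hP).ne_zero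
  have hMP : M.1 * P = P * Matrix.diagonal fun i => (D i : L) := by
    ext a i
    rw [Matrix.mul_diagonal, Matrix.mul_apply]
    have h3 := congrFun (hx i) a
    rw [Matrix.mulVec, Pi.smul_apply, smul_eq_mul] at h3
    change (∑ j, M.1 a j * x i j) = x i a * (D i : L)
    rw [mul_comm (x i a)]
    exact h3
  have hD0 : ∏ i, (D i : L) = 1 := by
    have h4 := congrArg Matrix.det hMP
    rw [Matrix.det_mul, Matrix.det_mul, Matrix.det_diagonal, M.2, one_mul] at h4
    exact mul_left_cancel₀ hPd (by rw [mul_one]; exact h4.symm)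
  have hD : ∏ i, D i = 1 := Units.ext (by rw [Units.coe_prod, hD0, Units.val_one])
  let E : Matrix (Fin (m + 1)) (Fin (m + 1)) L := Matrix.diagonal fun i => if i = 0 then (P.det)⁻¹ else 1
  have hdet : (P * E).det = 1 := by
    rw [Matrix.det_mul, Matrix.det_diagonal, Finset.prod_ite_eq' Finset.univ (0 : Fin (m + 1)) fun _ => (P.det)⁻¹]
    rw [if_pos (Finset.mem_univ _), mul_inv_cancel₀ hPd]
  let g : Matrix.SpecialLinearGroup (Fin (m + 1)) L := ⟨P * E, hdet⟩
  refine ⟨hD, g, ?_⟩
  refine eq_mul_inv_of_mul_eq (Subtype.ext ?_)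
  change M.1 * (P * E) = P * E * Matrix.diagonal fun i => (D i : L)
  rw [← Matrix.mul_assoc, hMP, Matrix.mul_assoc, Matrix.mul_assoc, Matrix.diagonal_mul_diagonal, Matrix.diagonal_mul_diagonal]
  congr 2
  funext i
  rw [mul_comm]
-- END eg

end Pool.Agent.ThR
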