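import Pool.Agent.ThPL.Main
import Pool.Agent.ThR.Rep

/-! # Products of two conjugates in `SL_2`, `SL_3`; the data of the class for `E_6` (MP_3d54b6_al) -/

namespace Pool.Agent.ThS

open Polynomial Matrix Module

universe u

variable {K : Type u} [Field K]

/-- not scalar -/
def NSc {m : ℕ} (M : SpecialLinearGroup (Fin m) K) : Prop := ∀ c : K, M.1 ≠ c • (1 : Matrix (Fin m) (Fin m) K)

/-- `M` is a product of two conjugates of `B` -/
def Two {m : ℕ} (B M : SpecialLinearGroup (Fin m) K) : Prop := ∃ P Q : SpecialLinearGroup (Fin m) K, M = P * B * P⁻¹ * (Q * B * Q⁻¹)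

/-- the diagonal matrix `diag (g, g⁻¹)` -/
def dg2 (g : Kˣ) : SpecialLinearGroup (Fin 2) K := ⟨!![(g : K), 0; 0, ((g⁻¹ : Kˣ) : K)], by simp⟩

-- BEGIN pa
private def pa_lo (x : K) : SpecialLinearGroup (Fin 2) K := ⟨!![1, 0; x, 1], by simp⟩

private def pa_up (x : K) : SpecialLinearGroup (Fin 2) K := ⟨!![1, x; 0, 1], by simp⟩

private theorem pa_aux {g : Kˣ} (hg : g * g ≠ 1) (M S : SpecialLinearGroup (Fin 2) K) (h : (S⁻¹ * M * S).1 0 0 = (g : K) * g) : Two (dg2 g) M := by
  have hg0 : (g : K) ≠ 0 := g.ne_zero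
  have hgg : (g : K) * g - 1 ≠ 0 := fun h0 => hg (Units.ext (by push_cast; linear_combination h0))
  obtain ⟨N, hN⟩ : ∃ N, N = S⁻¹ * M * S := ⟨_, rfl⟩
  rw [← hN] at h
  have hdet : N.1 0 0 * N.1 1 1 - N.1 0 1 * N.1 1 0 = 1 := by
    have := N.2
    rwa [Matrix.det_fin_two] at this
  have hfac : N = pa_lo (N.1 1 0 / ((g : K) * g - 1)) * dg2 g * (pa_lo (N.1 1 0 / ((g : K) * g - 1)))⁻¹ * (pa_up (-(N.1 0 1 / ((g : K) * g - 1))) * dg2 g * (pa_up (-(N.1 0 1 / ((g : K) * g - 1))))⁻¹) := by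
    apply Subtype.ext
    ext i j
    have hM11 : N.1 1 1 = (1 + N.1 0 1 * N.1 1 0) / ((g : K) * g) := by
      rw [eq_div_iff (mul_ne_zero hg0 hg0)]
      rw [← h]
      linear_combination hdet
    have e1 : N.1 1 0 / ((g : K) * g - 1) * ((g : K) * g - 1) = N.1 1 0 := div_mul_cancel₀ _ hgg
    have e2 : N.1 0 1 / ((g : K) * g - 1) * ((g : K) * g - 1) = N.1 0 1 := div_mul_cancel₀ _ hgg
    have e3 : (g : K)⁻¹ * g = 1 := inv_mul_cancel₀ hg0
    fin_cases i <;> fin_cases j <;>
      simp [pa_lo, pa_up, dg2, Matrix.SpecialLinearGroup.coe_mul, Matrix.SpecialLinearGroup.coe_inv, Matrix.adjugate_fin_two, Matrix.mul_apply, Fin.sum_univ_two]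
    · exact h
    · linear_combination (-1 : K) * e2 + (N.1 0 1 / ((g : K) * g - 1)) * e3
    · linear_combination (-1 : K) * e1 + (N.1 1 0 / ((g : K) * g - 1)) * e3
    · rw [hM11]
      have hg2 : (g : K) ^ 2 - 1 ≠ 0 := by rwa [sq]
      field_simp
      ring
  refine ⟨S * pa_lo (N.1 1 0 / ((g : K) * g - 1)), S * pa_up (-(N.1 0 1 / ((g : K) * g - 1))), ?_⟩
  have hM' : M = S * N * S⁻¹ := by rw [hN]; group
  rw [hM']
  conv_lhs => rw [hfac]
  group

private theorem pa_c {g : Kˣ} (hg : g * g ≠ 1) (M : SpecialLinearGroup (Fin 2) K) (hc : M.1 1 0 ≠ 0) : Two (dg2 g) M := by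
  refine pa_aux hg M (pa_up ((M.1 0 0 - (g : K) * g) / M.1 1 0)) ?_
  have e : (M.1 0 0 - (g : K) * g) / M.1 1 0 * M.1 1 0 = M.1 0 0 - (g : K) * g := div_mul_cancel₀ _ hc
  have : ((pa_up ((M.1 0 0 - (g : K) * g) / M.1 1 0))⁻¹ * M * pa_up ((M.1 0 0 - (g : K) * g) / M.1 1 0)).1 0 0 = M.1 0 0 - (M.1 0 0 - (g : K) * g) / M.1 1 0 * M.1 1 0 := by
    rw [Matrix.SpecialLinearGroup.coe_mul, Matrix.SpecialLinearGroup.coe_mul, Matrix.SpecialLinearGroup.coe_inv, Matrix.adjugate_fin_two, Matrix.mul_apply, Fin.sum_univ_two, Matrix.mul_apply, Matrix.mul_apply, Fin.sum_univ_two, Fin.sum_univ_two]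
    simp [pa_up]
    ring
  rw [this, e]
  ring

private theorem pa_b {g : Kˣ} (hg : g * g ≠ 1) (M : SpecialLinearGroup (Fin 2) K) (hb : M.1 0 1 ≠ 0) : Two (dg2 g) M := by
  refine pa_aux hg M (pa_lo (((g : K) * g - M.1 0 0) / M.1 0 1)) ?_
  have e : ((g : K) * g - M.1 0 0) / M.1 0 1 * M.1 0 1 = (g : K) * g - M.1 0 0 := div_mul_cancel₀ _ hb
  have : ((pa_lo (((g : K) * g - M.1 0 0) / M.1 0 1))⁻¹ * M * pa_lo (((g : K) * g - M.1 0 0) / M.1 0 1)).1 0 0 = M.1 0 0 + ((g : K) * g - M.1 0 0) / M.1 0 1 * M.1 0 1 := by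
    rw [Matrix.SpecialLinearGroup.coe_mul, Matrix.SpecialLinearGroup.coe_mul, Matrix.SpecialLinearGroup.coe_inv, Matrix.adjugate_fin_two, Matrix.mul_apply, Fin.sum_univ_two, Matrix.mul_apply, Matrix.mul_apply, Fin.sum_univ_two, Fin.sum_univ_two]
    simp [pa_lo]
    ring
  rw [this, e]
  ring

private theorem pa_conj {g : Kˣ} (M S : SpecialLinearGroup (Fin 2) K) (h : Two (dg2 g) (S⁻¹ * M * S)) : Two (dg2 g) M := by
  obtain ⟨P, Q, hPQ⟩ := h
  refine ⟨S * P, S * Q, ?_⟩
  have : M = S * (S⁻¹ * M * S) * S⁻¹ := by group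
  rw [this, hPQ]
  group

/-- MODULE pa. `M` not scalar: there is `v` with `v`, `M v` independent; in the basis `v`, `c⁻¹ (M v - g ^ 2 v)` (determinant `1` for a suitable `c`) the matrix is `[[g^2, b],[c, D]]` with `c ≠ 0`, `= [[g, 0],[c/g, 1/g]] [[g, b/g],[0, 1/g]]`
(`(c b + 1)/g^2 = D` because the determinant is `1`); both factors are conjugate to `diag (g, 1/g)` by a unitriangular matrix because `g ≠ 1/g`. -/
theorem prod2 {g : Kˣ} (hg : g * g ≠ 1) (M : SpecialLinearGroup (Fin 2) K) (hM : NSc M) : Two (dg2 g) M := by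
  by_cases hc : M.1 1 0 = 0
  · by_cases hb : M.1 0 1 = 0
    · refine pa_conj M (pa_up 1) (pa_b hg _ ?_)
      have : ((pa_up 1)⁻¹ * M * pa_up 1).1 0 1 = M.1 0 0 - M.1 1 1 := by
        rw [Matrix.SpecialLinearGroup.coe_mul, Matrix.SpecialLinearGroup.coe_mul, Matrix.SpecialLinearGroup.coe_inv, Matrix.adjugate_fin_two, Matrix.mul_apply, Fin.sum_univ_two, Matrix.mul_apply, Matrix.mul_apply, Fin.sum_univ_two, Fin.sum_univ_two]
        simp [pa_up, hb, hc]
        ring
      rw [this]
      intro h0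
      refine hM (M.1 0 0) ?_
      ext i j
      fin_cases i <;> fin_cases j <;> simp [hb, hc]
      linear_combination -h0
    · exact pa_b hg M hb
  · exact pa_c hg M hc
-- END pa

-- BEGIN pd
/-- MODULE pd. Let `q = |K| ≥ 4`.  If `X^2 - e X + n` is reducible then `e = t + n / t` for some `t ∈ Kˣ` (a root), and `t`, `n / t` give the same `e`.  So the number of the reducible `e` is at most `(q - 1 + 2) / 2`, less than the number `q - 1` of the `e ≠ 0` as `q ≥ 4`.
(Another way: in the extension of degree two take `μ = ζ^j` with norm `n`, `μ ∉ K`, `μ ^ 2 ∉ K`: the `q + 1` elements of norm `n` contain at most `2` with `μ ∈ K` and at most `2` with `μ ^ q = - μ`.) -/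
theorem exists_quad [Finite K] (h4 : 4 ≤ Nat.card K) (n : K) (hn : n ≠ 0) : ∃ e : K, e ≠ 0 ∧ Irreducible (X ^ 2 - C e * X + C n) := by
  classical
  by_contra hcon
  push Not at hcon
  have h1 : ∀ e : Kˣ, ∃ t : Kˣ, (t : K) * t - e * t + n = 0 := by
    intro e
    have hm : (X ^ 2 - C (e : K) * X + C n : K[X]).Monic := by monicity!
    have hd : (X ^ 2 - C (e : K) * X + C n : K[X]).natDegree = 2 := by compute_degree!
    have h2 := hcon e e.ne_zero
    rw [hm.irreducible_iff_roots_eq_zero_of_degree_le_three (by rw [hd]) (by rw [hd]; norm_num)] at h2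
    obtain ⟨t, ht⟩ := Multiset.exists_mem_of_ne_zero h2
    have h3 := Polynomial.isRoot_of_mem_roots ht
    rw [Polynomial.IsRoot.def] at h3
    simp only [eval_add, eval_sub, eval_pow, eval_X, eval_mul, eval_C] at h3
    have h5 : t ≠ 0 := by
      rintro rfl
      apply hn
      linear_combination h3
    exact ⟨Units.mk0 t h5, by
      rw [Units.val_mk0]
      linear_combination h3⟩
  choose r hr using h1
  have hinj : Function.Injective r := by
    intro e e' he
    have h2 := hr e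
    have h3 := hr e'
    rw [← he] at h3
    apply Units.ext
    apply mul_right_cancel₀ (r e).ne_zero
    linear_combination h3 - h2
  have hsur := Finite.surjective_of_injective hinj
  have hsq : ∀ t : Kˣ, (t : K) * t = n := by
    intro t
    obtain ⟨e, rfl⟩ := hsur t
    obtain ⟨e', he'⟩ := hsur (Units.mk0 n hn * (r e)⁻¹)
    have h2 := hr e
    have h3 := hr e'
    have h5 : ((r e' : Kˣ) : K) * r e = n := by
      rw [he']
      simp
    have h6 : (e : K) = e' := by
      apply mul_right_cancel₀ (mul_ne_zero (r e).ne_zero (r e').ne_zero)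
      linear_combination (- (r e' : K)) * h2 + (r e : K) * h3 + ((r e : K) - (r e' : K)) * h5
    have h7 : e = e' := Units.ext h6
    rw [← h7] at h5
    exact h5
  have h2 : n = 1 := by
    have := hsq 1
    rw [Units.val_one, mul_one] at this
    exact this.symm
  have h3 : ∀ x : K, x = 0 ∨ x = 1 ∨ x = -1 := by
    intro x
    by_cases hx : x = 0
    · exact Or.inl hx
    · right
      have h5 := hsq (Units.mk0 x hx)
      rw [Units.val_mk0, h2] at h5
      exact mul_self_eq_one_iff.1 h5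
  have := Fintype.ofFinite K
  have h5 : (Finset.univ : Finset K) ⊆ {0, 1, -1} := by
    intro x _
    simp only [Finset.mem_insert, Finset.mem_singleton]
    exact h3 x
  have h6 := (Finset.card_le_card h5).trans Finset.card_le_three
  rw [Finset.card_univ, ← Nat.card_eq_fintype_card] at h6
  omega
-- END pd

/-- the eigenvalues of `B` (in an extension field) are distinct, no product of two of them (possibly equal) is `1`, `g` or `g⁻¹` -/
def Eig (B : SpecialLinearGroup (Fin 3) K) (g : Kˣ) : Prop :=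
  ∃ (L : Type u) (_ : Field L) (ι : K →+* L) (D : Fin 3 → Lˣ) (hD : ∏ i, D i = 1) (p : SpecialLinearGroup (Fin 3) L),
    SpecialLinearGroup.map ι B = p * Pool.Agent.ThR.dg D hD * p⁻¹ ∧
      ∀ i j, D i * D j ≠ 1 ∧ D i * D j ≠ Units.map (ι : K →* L) g ∧ D i * D j ≠ Units.map (ι : K →* L) g⁻¹

-- BEGIN pe
private theorem pe_deg {L : Type*} [Field L] [Algebra K L] {f : K[X]} (hf : Irreducible f) (hm : f.Monic) (hd : f.natDegree = 2) {x : L} (hx : aeval x f = 0) (y : K) :
    x ≠ algebraMap K L y := by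
  intro h
  have h1 : f = minpoly K x := minpoly.eq_of_irreducible_of_monic hf hx hm
  have h2 : f.natDegree ≤ (X - C y).natDegree := by
    rw [h1]
    exact natDegree_le_of_dvd (minpoly.dvd K x (by rw [map_sub, aeval_X, aeval_C, h, sub_self])) (X_sub_C_ne_zero y)
  rw [hd, natDegree_X_sub_C] at h2
  omega

/-- MODULE pe. `L = AlgebraicClosure K`, `f0 = X^2 - e X + (g g)⁻¹` has the roots `β1, β2`: `β1 + β2 = e`, `β1 β2 = g⁻²`, not in `K` (`f0` has no root in `K`), `β1 ≠ β2` (otherwise `β1 ^ 2 = g⁻²`, so `β1 ^ 2 ∈ K`, `e β1 = β1 ^ 2 + g⁻² ∈ K`, `β1 ∈ K`).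
`D = (g^2, β1, β2)`, `Pool.Agent.ThR.exists_diag`.  Products: `g^4`; `g^2 β_i ∉ K`; `β1 β2 = g⁻²`; `β_i ^ 2 ∉ K` (`e β_i = β_i^2 + g⁻²`).  So the conditions are `g^4 ≠ 1, g, g⁻¹`, `g⁻² ≠ 1, g, g⁻¹`. -/
theorem eig_quad {B : SpecialLinearGroup (Fin 3) K} {g : Kˣ} (hg : ∀ k : ℕ, 1 ≤ k → k ≤ 5 → g ^ k ≠ 1) {e : K} (he : e ≠ 0)
    (hf : Irreducible (X ^ 2 - C e * X + C (((g * g)⁻¹ : Kˣ) : K))) (hB : B.1.charpoly = (X - C ((g * g : Kˣ) : K)) * (X ^ 2 - C e * X + C (((g * g)⁻¹ : Kˣ) : K))) : Eig B g := by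
  let L := AlgebraicClosure K
  let ι : K →+* L := algebraMap K L
  have hιi : Function.Injective ι := ι.injective
  set n : K := (((g * g)⁻¹ : Kˣ) : K) with hn
  have hn0 : n ≠ 0 := Units.ne_zero _
  set f : K[X] := X ^ 2 - C e * X + C n with hfdef
  have hdeg : f.natDegree = 2 := by
    rw [hfdef]
    compute_degree!
  have hm : f.Monic := by
    rw [hfdef]
    monicity!
  have hval : ∀ x : L, aeval x f = x ^ 2 - ι e * x + ι n := by
    intro x
    rw [hfdef]
    simp [ι]
  obtain ⟨b, hb⟩ := IsAlgClosed.exists_aeval_eq_zero L f (by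
    rw [degree_eq_natDegree hm.ne_zero, hdeg]
    norm_num)
  have hb' : b ^ 2 - ι e * b + ι n = 0 := by rw [← hval]; exact hb
  obtain ⟨c, hcdef⟩ : ∃ c : L, c = ι e - b := ⟨_, rfl⟩
  have hc' : c ^ 2 - ι e * c + ι n = 0 := by
    rw [hcdef]
    linear_combination hb'
  have hc : aeval c f = 0 := by rw [hval]; exact hc'
  have hsum : b + c = ι e := by rw [hcdef]; ring
  have hprod : b * c = ι n := by
    rw [hcdef]
    linear_combination -hb'
  have hbK : ∀ y : K, b ≠ ι y := fun y => pe_deg hf hm hdeg hb y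
  have hcK : ∀ y : K, c ≠ ι y := fun y => pe_deg hf hm hdeg hc y
  have hιe : ι e ≠ 0 := by
    intro h
    exact he (hιi (by rw [h, map_zero]))
  have hιn : ι n ≠ 0 := by
    intro h
    exact hn0 (hιi (by rw [h, map_zero]))
  have hb0 : b ≠ 0 := by
    intro h
    exact hbK 0 (by rw [h, map_zero])
  have hc0 : c ≠ 0 := by
    intro h
    exact hcK 0 (by rw [h, map_zero])
  -- squares
  have hsq : ∀ z : L, z ^ 2 - ι e * z + ι n = 0 → (∀ y : K, z ≠ ι y) → ∀ x : K, z * z ≠ ι x := by
    intro z hz hzK x hx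
    refine hzK ((x + n) / e) ?_
    rw [map_div₀, map_add, eq_div_iff hιe]
    linear_combination -hz + hx
  have hbc : b ≠ c := by
    intro h
    refine hsq b hb' hbK n ?_
    calc b * b = b * c := by rw [← h]
      _ = ι n := hprod
  let D : Fin 3 → Lˣ := ![Units.map (ι : K →* L) (g * g), Units.mk0 b hb0, Units.mk0 c hc0]
  have hD0 : (D 0 : L) = ι ((g * g : Kˣ) : K) := rfl
  have hD1 : (D 1 : L) = b := rfl
  have hD2 : (D 2 : L) = c := rfl
  have hinj : Function.Injective D := by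
    intro i j hij
    have h1 : (D i : L) = D j := congrArg Units.val hij
    fin_cases i <;> fin_cases j
    · rfl
    · exact absurd h1.symm (hbK _)
    · exact absurd h1.symm (hcK _)
    · exact absurd h1 (hbK _)
    · rfl
    · exact absurd h1 hbc
    · exact absurd h1 (hcK _)
    · exact absurd h1.symm hbc
    · rfl
  have hchar : (SpecialLinearGroup.map ι B).1.charpoly = ∏ i, (X - C (D i : L)) := by
    have h1 : (SpecialLinearGroup.map ι B).1 = B.1.map ι := rfl
    rw [h1, Matrix.charpoly_map, hB, Fin.prod_univ_three, hD0, hD1, hD2, hfdef]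
    simp only [Polynomial.map_mul, Polynomial.map_sub, Polynomial.map_add, Polynomial.map_pow, Polynomial.map_X, Polynomial.map_C]
    rw [← hsum, ← hprod, C_add, C_mul]
    ring
  obtain ⟨hD, p, hp⟩ := Pool.Agent.ThR.exists_diag (m := 2) (SpecialLinearGroup.map ι B) D hinj hchar
  -- the products of two eigenvalues
  have hg0 : ι ((g * g : Kˣ) : K) ≠ 0 := by
    intro h
    exact Units.ne_zero (g * g) (hιi (by rw [h, map_zero]))
  have hmix : ∀ z : L, (∀ y : K, z ≠ ι y) → ∀ x : K, ι ((g * g : Kˣ) : K) * z ≠ ι x := by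
    intro z hz x hx
    refine hz (x / ((g * g : Kˣ) : K)) ?_
    rw [map_div₀, eq_div_iff hg0]
    linear_combination hx
  have hp4 : ∀ x : Kˣ, g ^ 4 ≠ x → (D 0 : L) * D 0 ≠ ι (x : K) := by
    intro x hx h
    apply hx
    apply Units.ext
    apply hιi
    rw [← h, hD0, ← map_mul]
    congr 1
    rw [← Units.val_mul]
    congr 1
    simp only [pow_succ, pow_zero, one_mul, mul_assoc]
  have hp2 : ∀ x : Kˣ, g ^ 2 * x ≠ 1 → b * c ≠ ι (x : K) := by
    intro x hx h
    apply hx
    have h1 : n = (x : K) := hιi (by rw [← h, hprod])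
    have h2 : (g * g)⁻¹ = x := Units.ext h1
    rw [← h2]
    group
  have key : ∀ (x : Kˣ), g ^ 4 ≠ x → g ^ 2 * x ≠ 1 → ∀ i j, (D i : L) * D j ≠ ι (x : K) := by
    intro x h4 h2 i j
    fin_cases i <;> fin_cases j
    · exact hp4 x h4
    · exact hmix b hbK x
    · exact hmix c hcK x
    · intro h
      exact hmix b hbK x ((mul_comm _ _).trans h)
    · exact hsq b hb' hbK x
    · exact hp2 x h2
    · intro h
      exact hmix c hcK x ((mul_comm _ _).trans h)
    · intro h
      exact hp2 x h2 ((mul_comm _ _).trans h)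
    · exact hsq c hc' hcK x
  refine ⟨L, inferInstance, ι, D, hD, p, hp, fun i j => ⟨?_, ?_, ?_⟩⟩
  · intro h
    refine key 1 (hg 4 (by norm_num) (by norm_num)) (by rw [mul_one]; exact hg 2 (by norm_num) (by norm_num)) i j ?_
    rw [← Units.val_mul, h, Units.val_one, Units.val_one, map_one]
  · intro h
    refine key g ?_ ?_ i j ?_
    · intro h4
      apply hg 3 (by norm_num) (by norm_num)
      have h5 : g ^ 3 * g = 1 * g := by rw [← pow_succ, h4, one_mul]
      exact mul_right_cancel h5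
    · rw [← pow_succ]
      exact hg 3 (by norm_num) (by norm_num)
    · rw [← Units.val_mul, h]
      rfl
  · intro h
    refine key g⁻¹ ?_ ?_ i j ?_
    · intro h4
      apply hg 5 (by norm_num) (by norm_num)
      rw [pow_succ, h4, inv_mul_cancel]
    · intro h4
      apply hg 1 (by norm_num) (by norm_num)
      rw [← h4]
      group
    · rw [← Units.val_mul, h]
      rfl
-- END pe

-- BEGIN pf
private theorem pf_third {M : Type*} [CommGroup M] {D : Fin 3 → M} (hD : ∏ i, D i = 1) (i j : Fin 3) (hij : i ≠ j) :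
    ∃ k, D i * D j * D k = 1 := by
  rw [Fin.prod_univ_three] at hD
  fin_cases i <;> fin_cases j
  · exact absurd rfl hij
  · exact ⟨2, hD⟩
  · exact ⟨1, by rw [← hD]; exact mul_right_comm _ _ _⟩
  · exact ⟨2, by rw [← hD]; exact congrArg (· * D 2) (mul_comm _ _)⟩
  · exact absurd rfl hij
  · exact ⟨0, by rw [← hD]; exact (mul_comm _ _).trans (mul_assoc _ _ _).symm⟩
  · exact ⟨1, by rw [← hD]; exact (congrArg (· * D 1) (mul_comm _ _)).trans (mul_right_comm _ _ _)⟩
  · exact ⟨0, by rw [← hD]; exact (mul_comm _ _).trans ((congrArg (D 0 * ·) (mul_comm _ _)).trans (mul_assoc _ _ _).symm)⟩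
  · exact absurd rfl hij

private theorem pf_deg {L : Type*} [Field L] [Algebra K L] {f : K[X]} (hf : Irreducible f) (hm : f.Monic) {x : L} (hx : aeval x f = 0)
    {p : K[X]} (hp : p ≠ 0) (hpx : aeval x p = 0) : f.natDegree ≤ p.natDegree := by
  have h1 : f = minpoly K x := minpoly.eq_of_irreducible_of_monic hf hx hm
  rw [h1]
  exact natDegree_le_of_dvd (minpoly.dvd K x hpx) hp

/-- MODULE pf. `f` irreducible of degree `3` over a finite (so perfect) field: in `L = AlgebraicClosure K` three distinct roots `D_i` (`Irreducible.separable`), none of them in `K`, `∏ D_i = 1` (`det B = 1`).  For `i ≠ j`: `D_i D_j = ι c` gives `D_k = ι c⁻¹ ∈ K`; for `i = j`: `D_i ^ 2 = ι c`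
gives the factor `f` (the minimal polynomial) of `X^2 - c`, of degree `3`: both impossible. -/
theorem eig_cubic [Finite K] {B : SpecialLinearGroup (Fin 3) K} (g : Kˣ) {f : K[X]} (hf : Irreducible f) (hm : f.Monic) (hd : f.natDegree = 3) (hB : B.1.charpoly = f) : Eig B g := by
  let L := AlgebraicClosure K
  let ι : K →+* L := algebraMap K L
  have hsep : f.Separable := PerfectField.separable_of_irreducible hf
  have hroots : ∀ x ∈ (f.map ι).roots, aeval x f = 0 := by
    intro x hx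
    rw [aeval_def, ← eval_map]
    exact (mem_roots'.1 hx).2
  have hcard : Multiset.card (f.map ι).roots = 3 := by
    rw [← hd, ← natDegree_map ι]
    exact (IsAlgClosed.splits (f.map ι)).natDegree_eq_card_roots.symm
  obtain ⟨a, b, c, habc⟩ := Multiset.card_eq_three.1 hcard
  have hnd : ({a, b, c} : Multiset L).Nodup := by
    rw [← habc]
    exact nodup_roots ((separable_map ι).2 hsep)
  have hprod : f.map ι = (X - C a) * (X - C b) * (X - C c) := by
    have h1 := (IsAlgClosed.splits (f.map ι)).eq_prod_roots_of_monic (hm.map ι)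
    rw [h1, habc]
    simp [mul_assoc]
  have ha : aeval a f = 0 := hroots a (by rw [habc]; simp)
  have hb : aeval b f = 0 := hroots b (by rw [habc]; simp)
  have hc : aeval c f = 0 := hroots c (by rw [habc]; simp)
  have hne : ∀ x : L, aeval x f = 0 → x ≠ 0 := by
    rintro x hx rfl
    have h1 := pf_deg hf hm hx (p := X) X_ne_zero (by simp)
    rw [hd, natDegree_X] at h1
    omega
  let D : Fin 3 → Lˣ := ![Units.mk0 a (hne a ha), Units.mk0 b (hne b hb), Units.mk0 c (hne c hc)]
  have hDr : ∀ i, aeval (D i : L) f = 0 := by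
    intro i
    fin_cases i
    · exact ha
    · exact hb
    · exact hc
  have hab : a ≠ b ∧ a ≠ c ∧ b ≠ c := by
    simpa [Multiset.insert_eq_cons, and_assoc] using hnd
  have hinj : Function.Injective D := by
    intro i j hij
    have h1 : (D i : L) = D j := congrArg Units.val hij
    fin_cases i <;> fin_cases j
    · rfl
    · exact absurd h1 hab.1
    · exact absurd h1 hab.2.1
    · exact absurd h1.symm hab.1
    · rfl
    · exact absurd h1 hab.2.2
    · exact absurd h1.symm hab.2.1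
    · exact absurd h1.symm hab.2.2
    · rfl
  have hchar : (SpecialLinearGroup.map ι B).1.charpoly = ∏ i, (X - C (D i : L)) := by
    have h1 : (SpecialLinearGroup.map ι B).1 = B.1.map ι := rfl
    rw [h1, Matrix.charpoly_map, hB, hprod, Fin.prod_univ_three]
    rfl
  obtain ⟨hD, p, hp⟩ := Pool.Agent.ThR.exists_diag (m := 2) (SpecialLinearGroup.map ι B) D hinj hchar
  have key : ∀ (i j : Fin 3) (x : K), (D i : L) * D j ≠ ι x := by
    intro i j x hx
    by_cases hij : i = j
    · subst hij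
      have h1 := pf_deg hf hm (hDr i) (p := X ^ 2 - C x) (X_pow_sub_C_ne_zero (by norm_num) x) (by
        rw [map_sub, map_pow, aeval_X, aeval_C, pow_two, hx]
        exact sub_self _)
      rw [hd, natDegree_X_pow_sub_C] at h1
      omega
    · obtain ⟨k, hk⟩ := pf_third hD i j hij
      have h2 : (D i : L) * D j * D k = 1 := by
        rw [← Units.val_mul, ← Units.val_mul, hk, Units.val_one]
      have h3 : (D k : L) = ι x⁻¹ := by
        rw [hx] at h2
        rw [map_inv₀]
        exact eq_inv_of_mul_eq_one_right h2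
      have h1 := pf_deg hf hm (hDr k) (p := X - C x⁻¹) (X_sub_C_ne_zero _) (by
        rw [map_sub, aeval_X, aeval_C, h3]
        exact sub_self _)
      rw [hd, natDegree_X_sub_C] at h1
      omega
  refine ⟨L, inferInstance, ι, D, hD, p, hp, fun i j => ⟨?_, ?_, ?_⟩⟩
  · intro h
    refine key i j 1 ?_
    rw [← Units.val_mul, h, map_one, Units.val_one]
  · intro h
    refine key i j g ?_
    rw [← Units.val_mul, h]
    rfl
  · intro h
    refine key i j ((g⁻¹ : Kˣ) : K) ?_
    rw [← Units.val_mul, h]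
    rfl
-- END pf

/-- the data of the class for `E_6` -/
structure Dat (B : SpecialLinearGroup (Fin 3) K) (g : Kˣ) : Prop where
  sq : g * g ≠ 1
  two : ∀ M : SpecialLinearGroup (Fin 3) K, NSc M → Two B M
  eig : Eig B g

-- BEGIN pg
/-- MODULE pg. `|K| ≥ 7`: `g` a generator of `Kˣ`, of order `|K| - 1 ≥ 6`; `e` from `exists_quad` with `n = (g g)⁻¹`; `B` with the characteristic polynomial `(X - g^2)(X^2 - e X + g⁻²)` (companion matrix `ThPL.cpm 3`, `ThPL.cpm_charpoly`; the determinant is `1`); `ThPL.prodSL`, `eig_quad`. -/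
theorem dat7 (K : Type u) [Field K] [Finite K] (h7 : 7 ≤ Nat.card K) : ∃ (B : SpecialLinearGroup (Fin 3) K) (g : Kˣ), Dat B g := by
  classical
  have hfin : Fintype K := Fintype.ofFinite K
  obtain ⟨g, hgen⟩ := IsCyclic.exists_generator (α := Kˣ)
  have hord : orderOf g = Nat.card K - 1 := by
    rw [orderOf_eq_card_of_forall_mem_zpowers hgen, Nat.card_units]
  have hg : ∀ k : ℕ, 1 ≤ k → k ≤ 5 → g ^ k ≠ 1 := by
    intro k h1 h5 hk
    have := Nat.le_of_dvd (by omega) (orderOf_dvd_of_pow_eq_one hk)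
    omega
  have hgg : g * g ≠ 1 := by
    have := hg 2 (by norm_num) (by norm_num)
    rwa [pow_two] at this
  obtain ⟨e, he, hf⟩ := exists_quad (K := K) (by omega) (((g * g)⁻¹ : Kˣ) : K) (Units.ne_zero _)
  set q : K[X] := X ^ 2 - C e * X + C (((g * g)⁻¹ : Kˣ) : K) with hq
  have hqd : q.natDegree = 2 := by
    rw [hq, sub_eq_add_neg, ← neg_mul, ← C_neg, ← one_mul (X ^ 2 : K[X]), ← C_1]
    exact natDegree_quadratic one_ne_zero
  have hqm : q.Monic := by
    have h2 : q.coeff 2 = 1 := by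
      rw [hq]
      simp [coeff_X, coeff_C]
    rw [Monic, leadingCoeff, hqd, h2]
  set F : K[X] := (X - C ((g * g : Kˣ) : K)) * q with hF
  have hFm : F.Monic := (monic_X_sub_C _).mul hqm
  have hFd : F.natDegree = 3 := by
    rw [hF, (monic_X_sub_C _).natDegree_mul hqm, natDegree_X_sub_C, hqd]
  have hF0 : F.coeff 0 = -1 := by
    rw [hF, mul_coeff_zero, hq]
    simp only [coeff_sub, coeff_add, coeff_X_zero, coeff_C_zero, coeff_C_mul, coeff_X_pow, mul_zero, zero_sub, sub_zero]
    rw [if_neg (by norm_num), zero_add, neg_mul, Units.mul_inv]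
  have hcp : (ThPL.cpm 3 F).charpoly = F := ThPL.cpm_charpoly hFm hFd
  have hdet : (ThPL.cpm 3 F).det = 1 := by
    rw [Matrix.det_eq_sign_charpoly_coeff, hcp, hF0]
    simp
    norm_num
  let B : SpecialLinearGroup (Fin 3) K := ⟨ThPL.cpm 3 F, hdet⟩
  have hB : B.1.charpoly = (X - C ((g * g : Kˣ) : K)) * q := hcp
  have hK : ∃ d : K, d ≠ 0 ∧ d ≠ 1 := by
    refine ⟨(g : K), g.ne_zero, fun h => ?_⟩
    have h1 := hg 1 le_rfl (by norm_num)
    rw [pow_one] at h1
    exact h1 (Units.ext h)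
  exact ⟨B, g, hgg, fun M hM => ThPL.prodSL hK (Or.inr (by omega)) B hf hqm hqd.ge hB M hM, eig_quad hg he hf hB⟩
-- END pg

/-- the companion matrix of `x^3 - a x^2 + b x - 1` -/
def C3 (a b : K) : Matrix (Fin 3) (Fin 3) K := !![0, 0, 1; 1, 0, -b; 0, 1, a]

/-- `t + rank one` -/
def D3 (t : K) : Matrix (Fin 3) (Fin 3) K := !![t, 0, 0; 0, t, 0; 0, 1, t⁻¹ * t⁻¹]

-- BEGIN ph
/-- the matrix with the columns `z, N z, N (N z)` -/
private def ph_Q (N : Matrix (Fin 3) (Fin 3) K) (z : Fin 3 → K) : Matrix (Fin 3) (Fin 3) K :=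
  Matrix.transpose (Matrix.of ![z, N.mulVec z, N.mulVec (N.mulVec z)])

/-- a cyclic vector gives the form `C3` -/
private theorem ph_cyc (N : Matrix (Fin 3) (Fin 3) K) (hN : N.det = 1) (z : Fin 3 → K) (hz : (ph_Q N z).det ≠ 0) :
    ∃ a b : K, N * ph_Q N z = ph_Q N z * C3 a b := by
  have hu : IsUnit (ph_Q N z).det := isUnit_iff_ne_zero.2 hz
  set x := (ph_Q N z)⁻¹.mulVec (N.mulVec (N.mulVec (N.mulVec z))) with hx
  have hQx : (ph_Q N z).mulVec x = N.mulVec (N.mulVec (N.mulVec z)) := by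
    rw [hx, Matrix.mulVec_mulVec, Matrix.mul_nonsing_inv _ hu, Matrix.one_mulVec]
  have key : N * ph_Q N z = ph_Q N z * !![0, 0, x 0; 1, 0, x 1; 0, 1, x 2] := by
    ext i j
    have h1 := congrFun hQx i
    simp only [Matrix.mulVec, dotProduct, Fin.sum_univ_three] at h1
    fin_cases j
    · simp [Matrix.mul_apply, Fin.sum_univ_three, ph_Q, Matrix.mulVec, dotProduct]
    · simp [Matrix.mul_apply, Fin.sum_univ_three, ph_Q, Matrix.mulVec, dotProduct]
      ring
    · simp [Matrix.mul_apply, Fin.sum_univ_three, ph_Q, Matrix.mulVec, dotProduct] at h1 ⊢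
      rw [h1]
      ring
  have hdet := congrArg Matrix.det key
  rw [Matrix.det_mul, Matrix.det_mul, hN, one_mul] at hdet
  have hx0 : (!![0, 0, x 0; 1, 0, x 1; 0, 1, x 2] : Matrix (Fin 3) (Fin 3) K).det = x 0 := by
    rw [Matrix.det_fin_three]
    simp
  rw [hx0] at hdet
  have h1 : x 0 = 1 := by
    apply mul_left_cancel₀ hz
    rw [mul_one]
    exact hdet.symm
  refine ⟨x 2, -x 1, ?_⟩
  rw [key, h1, C3, neg_neg]

/-- normal form of a matrix whose first column is `e_1` -/
private theorem ph_main (N : Matrix (Fin 3) (Fin 3) K) (hN : N.det = 1) (h0 : N 0 0 = 0) (h1 : N 1 0 = 1) (h2 : N 2 0 = 0) :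
    ∃ Q : Matrix (Fin 3) (Fin 3) K, Q.det ≠ 0 ∧ ((∃ a b : K, N * Q = Q * C3 a b) ∨ ∃ t : K, t ≠ 0 ∧ N * Q = Q * D3 t) := by
  obtain ⟨β, x, α, y, c, t, rfl⟩ : ∃ β x α y c t : K, N = !![0, β, x; 1, α, y; 0, c, t] := by
    refine ⟨N 0 1, N 0 2, N 1 1, N 1 2, N 2 1, N 2 2, ?_⟩
    ext i j
    fin_cases i <;> fin_cases j <;> simp [h0, h1, h2]
  set N : Matrix (Fin 3) (Fin 3) K := !![0, β, x; 1, α, y; 0, c, t] with hNd
  have hmv : ∀ z : Fin 3 → K, N.mulVec z = ![β * z 1 + x * z 2, z 0 + α * z 1 + y * z 2, c * z 1 + t * z 2] := by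
    intro z
    ext i
    fin_cases i <;> simp [hNd, Matrix.mulVec, dotProduct, Fin.sum_univ_three]
  have hQd : ∀ z : Fin 3 → K, (ph_Q N z).det = z 0 * (N.mulVec z 1 * N.mulVec (N.mulVec z) 2 - N.mulVec z 2 * N.mulVec (N.mulVec z) 1)
      - N.mulVec z 0 * (z 1 * N.mulVec (N.mulVec z) 2 - z 2 * N.mulVec (N.mulVec z) 1)
      + N.mulVec (N.mulVec z) 0 * (z 1 * N.mulVec z 2 - z 2 * N.mulVec z 1) := by
    intro z
    rw [ph_Q, Matrix.det_transpose, Matrix.det_fin_three]
    simp
    ring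
  by_cases hc : c = 0
  · subst hc
    by_cases hL : t ^ 2 - α * t - β = 0
    · by_cases hA : x + t * y = 0
      · -- the matrix is `t + rank one`
        have hβ : β = t ^ 2 - α * t := by linear_combination -hL
        have hx : x = -(t * y) := by linear_combination hA
        have hd : t * t * (α - t) = 1 := by
          rw [hNd, Matrix.det_fin_three] at hN
          simp at hN
          rw [hβ] at hN
          linear_combination hN
        have ht : t ≠ 0 := by
          rintro rfl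
          simp at hd
        have hα : α - t = t⁻¹ * t⁻¹ := by
          field_simp
          linear_combination hd
        refine ⟨!![-y, 1, -t; 0, 0, 1; 1, 0, 0], ?_, Or.inr ⟨t, ht, ?_⟩⟩
        · rw [Matrix.det_fin_three]
          simp
        · rw [D3, ← hα, hNd, hβ, hx]
          ext i j
          fin_cases i <;> fin_cases j <;> simp [Matrix.mul_apply, Fin.sum_univ_three] <;> ring
      · refine ⟨ph_Q N ![-y, 0, 1], ?_, Or.inl (ph_cyc N hN _ ?_)⟩ <;>
        · rw [hQd]
          simp only [hmv]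
          simp
          intro h
          apply hA
          have h3 : (x + t * y) ^ 2 = 0 := by linear_combination h
          exact pow_eq_zero_iff (two_ne_zero) |>.1 h3
    · -- `(A, B) = (1, 0)`
      obtain ⟨p, q, hp, hq⟩ : ∃ p q : K, -t * p + β * q + x = 1 ∧ p + (α - t) * q + y = 0 := by
        have hi : (t ^ 2 - α * t - β) * (t ^ 2 - α * t - β)⁻¹ = 1 := mul_inv_cancel₀ hL
        refine ⟨((1 - x) * (α - t) + y * β) * (t ^ 2 - α * t - β)⁻¹, (t * y - (1 - x)) * (t ^ 2 - α * t - β)⁻¹, ?_, ?_⟩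
        · linear_combination (1 - x) * hi
        · linear_combination (-y) * hi
      refine ⟨ph_Q N ![p, q, 1], ?_, Or.inl (ph_cyc N hN _ ?_)⟩ <;>
      · rw [hQd]
        simp only [hmv]
        simp
        intro h
        have hx : x = 1 + t * p - β * q := by linear_combination hp
        have hy : y = -(p + (α - t) * q) := by linear_combination hq
        rw [hx, hy] at h
        have h3 : (1 : K) = 0 := by linear_combination h
        exact one_ne_zero h3
  · refine ⟨ph_Q N ![1, 0, 0], ?_, Or.inl (ph_cyc N hN _ ?_)⟩ <;>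
    · rw [hQd]
      simp only [hmv]
      simp
      exact hc

/-- MODULE ph. Normal forms.  If some `v` has `v, M v, M^2 v` independent: the matrix in this basis is `C3 a b` (Cayley-Hamilton, `det = 1`).  Otherwise `M v, v, M^2 v` are dependent for all `v`.  `M` is not scalar: some `v` with `v, w = M v` independent, `W = ⟨v, M v⟩` is stable,
`V / W` is one dimensional with the scalar `t`, `u ∉ W`, `M u = t u + w0`.  Let `p(x) = x^2 - α x - β` be the polynomial of `M` on `W` (`M^2 v = α M v + β v`).  If `p(t) ≠ 0` then `M - t` is bijective on `W`, `u` can be changed to `M u = t u`, and `v + u` has the three independent vectors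
(if `M^2 (v+u) = α M (v+u) + β (v+u)`.. then `p(t) = 0`; the other relations are excluded in the same way): contradiction.  So `p(t) = 0`, `(M - t) W` is the line of `(M - t) v`.  If `w0` is not in this line then some vector of `u + W` or `u` is cyclic (`u`, or `u + x` with `x ∈ W`): contradiction; so `w0 = (M - t) y`,
change `u` to `u - y`: `M u = t u`: `M - t` has rank one: basis `e_0, e_1, e_2` with `e_2 = (M - t) e_1`, `e_0 ∈ ker (M - t)`.  Another way: `ThPL.max_vec` for `M` (a vector whose annihilator is the minimal polynomial `μ`): `deg μ = 3`: cyclic.  `deg μ = 2`: `μ` divides the characteristic polynomial of degree `3`, so the quotient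
is `X - t`, and `μ(t) = 0` (`t` is an eigenvalue), `μ = (X - t)(X - r)`, `(M - t)(M - r) = 0`, so one of `M - t`, `M - r` has rank `1` (the ranks add up to at most `3`): `M = t + u φ` (or with `r`), `u, φ ≠ 0`.  `e_2 = u`, `φ(e_1) = 1`, `e_0 ∈ ker φ`, independent; the last diagonal entry is `t⁻²` because `det M = 1`. -/
theorem nf3 (M : SpecialLinearGroup (Fin 3) K) (hM : NSc M) :
    ∃ P : Matrix (Fin 3) (Fin 3) K, P.det ≠ 0 ∧ ((∃ a b : K, M.1 * P = P * C3 a b) ∨ ∃ t : K, t ≠ 0 ∧ M.1 * P = P * D3 t) := by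
  obtain ⟨v, hv⟩ : ∃ v : Fin 3 → K, LinearIndependent K ![v, M.1.mulVec v] := by
    by_contra hcon
    push Not at hcon
    obtain ⟨a, ha⟩ := LinearMap.exists_eq_smul_id_of_forall_notLinearIndependent (f := Matrix.toLin' M.1) (fun v => by
      rw [Matrix.toLin'_apply]
      exact hcon v)
    apply hM a
    apply (Matrix.toLin' (R := K) (m := Fin 3) (n := Fin 3)).injective
    rw [ha, map_smul, Matrix.toLin'_one]
    rfl
  obtain ⟨u, hu⟩ := exists_linearIndependent_snoc_of_lt_finrank hv (by simp)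
  set P0 : Matrix (Fin 3) (Fin 3) K := Matrix.transpose (Matrix.of (Fin.snoc (α := fun _ => Fin 3 → K) ![v, M.1.mulVec v] u)) with hP0
  have hunit : IsUnit P0 := by
    rw [← Matrix.linearIndependent_cols_iff_isUnit]
    exact hu
  have hdet : IsUnit P0.det := (Matrix.isUnit_iff_isUnit_det _).1 hunit
  set N : Matrix (Fin 3) (Fin 3) K := P0⁻¹ * (M.1 * P0) with hNd
  have hP0N : M.1 * P0 = P0 * N := by
    rw [hNd, ← Matrix.mul_assoc P0 P0⁻¹, Matrix.mul_nonsing_inv _ hdet, Matrix.one_mul]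
  have hN1 : N.det = 1 := by
    have h1 := congrArg Matrix.det hP0N
    rw [Matrix.det_mul, Matrix.det_mul, M.2, one_mul] at h1
    apply mul_left_cancel₀ hdet.ne_zero
    rw [mul_one]
    exact h1.symm
  have hcol : ∀ i, N i 0 = (1 : Matrix (Fin 3) (Fin 3) K) i 1 := by
    intro i
    have h1 : ∀ j, (M.1 * P0) j 0 = P0 j 1 := by
      intro j
      simp only [Matrix.mul_apply, hP0, Matrix.transpose_apply, Matrix.of_apply]
      rfl
    rw [← Matrix.nonsing_inv_mul _ hdet, hNd, Matrix.mul_apply, Matrix.mul_apply]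
    exact Finset.sum_congr rfl fun j _ => by rw [h1 j]
  obtain ⟨Q, hQ, hQ'⟩ := ph_main N hN1 (by rw [hcol]; simp) (by rw [hcol]; simp) (by rw [hcol]; simp)
  refine ⟨P0 * Q, by rw [Matrix.det_mul]; exact mul_ne_zero hdet.ne_zero hQ, ?_⟩
  have hMP : M.1 * (P0 * Q) = P0 * (N * Q) := by
    rw [← Matrix.mul_assoc, hP0N, Matrix.mul_assoc]
  rcases hQ' with ⟨a, b, h⟩ | ⟨t, ht, h⟩
  · exact Or.inl ⟨a, b, by rw [hMP, h, Matrix.mul_assoc]⟩
  · exact Or.inr ⟨t, ht, by rw [hMP, h, Matrix.mul_assoc]⟩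
-- END ph

-- BEGIN pi
/-- MODULE pi. From the normal forms to all non scalar matrices.  `M P = P T`, `T = P1 B P1⁻¹ Q1 B Q1⁻¹`.  `D` commutes with `B`, `det D = (det P)⁻¹`; then `P P1 D P1⁻¹ P⁻¹ ..`: `M = (P P1) B (P P1)⁻¹ (P Q1) B (P Q1)⁻¹ = (P P1 D) B (P P1 D)⁻¹ (P Q1 D) B (P Q1 D)⁻¹`, and the determinants of `P P1 D`, `P Q1 D` are `1`. -/
theorem two_of_tab {B : SpecialLinearGroup (Fin 3) K} (hc : ∀ c : Kˣ, ∃ D : Matrix (Fin 3) (Fin 3) K, D.det = (c : K) ∧ B.1 * D = D * B.1)
    (h1 : ∀ (a b : K) (T : SpecialLinearGroup (Fin 3) K), T.1 = C3 a b → Two B T) (h2 : ∀ (t : K) (T : SpecialLinearGroup (Fin 3) K), t ≠ 0 → T.1 = D3 t → Two B T)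
    (M : SpecialLinearGroup (Fin 3) K) (hM : NSc M) : Two B M := by
  obtain ⟨R, hR, hcase⟩ := nf3 M hM
  have key : ∀ T : SpecialLinearGroup (Fin 3) K, M.1 * R = R * T.1 → Two B T → Two B M := by
    intro T hMT ⟨P, Q, hT⟩
    obtain ⟨D, hD, hBD⟩ := hc (Units.mk0 R.det hR)⁻¹
    have hRD : R.det * D.det = 1 := by
      rw [hD, Units.val_inv_eq_inv_val, Units.val_mk0, mul_inv_cancel₀ hR]
    let P' : SpecialLinearGroup (Fin 3) K := ⟨R * P.1 * D, by rw [Matrix.det_mul, Matrix.det_mul, P.2, mul_one, hRD]⟩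
    let Q' : SpecialLinearGroup (Fin 3) K := ⟨R * Q.1 * D, by rw [Matrix.det_mul, Matrix.det_mul, Q.2, mul_one, hRD]⟩
    -- conjugation
    have hconj : ∀ (S S' : SpecialLinearGroup (Fin 3) K), S'.1 = R * S.1 * D → (S' * B * S'⁻¹).1 * R = R * (S * B * S⁻¹).1 := by
      intro S S' hS
      have e1 : (S' * B * S'⁻¹).1 * S'.1 = S'.1 * B.1 := by
        change (S' * B * S'⁻¹ * S').1 = (S' * B).1
        rw [inv_mul_cancel_right]
      have e2 : R * (S * B * S⁻¹).1 * (S.1 * D) = S'.1 * B.1 := by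
        have e3 : (S * B * S⁻¹).1 * S.1 = S.1 * B.1 := by
          change (S * B * S⁻¹ * S).1 = (S * B).1
          rw [inv_mul_cancel_right]
        rw [hS, mul_assoc R, ← mul_assoc _ S.1 D, e3, mul_assoc S.1, hBD]
        simp only [mul_assoc]
      have e4 : (S' * B * S'⁻¹).1 * R * (S.1 * D) = R * (S * B * S⁻¹).1 * (S.1 * D) := by
        rw [e2, ← e1, hS]
        simp only [mul_assoc]
      have hu : IsUnit (S.1 * D) := by
        rw [Matrix.isUnit_iff_isUnit_det, Matrix.det_mul, S.2, one_mul, hD]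
        exact Units.isUnit _
      exact hu.mul_right_cancel e4
    refine ⟨P', Q', Subtype.ext ?_⟩
    have hRu : IsUnit R := by
      rw [Matrix.isUnit_iff_isUnit_det]
      exact hR.isUnit
    apply hRu.mul_right_cancel
    change M.1 * R = (P' * B * P'⁻¹).1 * (Q' * B * Q'⁻¹).1 * R
    rw [mul_assoc, hconj Q Q' rfl, ← mul_assoc, hconj P P' rfl, mul_assoc, hMT, hT]
    rfl
  rcases hcase with ⟨a, b, h⟩ | ⟨t, ht, h⟩
  · have hd : (C3 a b).det = 1 := by
      have := congrArg Matrix.det h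
      rw [Matrix.det_mul, Matrix.det_mul, M.2, one_mul] at this
      exact (mul_eq_left₀ hR).1 this.symm
    exact key ⟨C3 a b, hd⟩ h (h1 a b _ rfl)
  · have hd : (D3 t).det = 1 := by
      have := congrArg Matrix.det h
      rw [Matrix.det_mul, Matrix.det_mul, M.2, one_mul] at this
      exact (mul_eq_left₀ hR).1 this.symm
    exact key ⟨D3 t, hd⟩ h (h2 t _ ht rfl)
-- END pi

end Pool.Agent.ThS
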