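import Pool.Agent.ThR.Gau6
import Pool.Agent.ThR.Prod

/-! # Assembly for `E_6`, `|K| ≥ 4` (MP_3d54b6_al) -/

namespace Pool.Agent.ThR

open ThE ThK

universe u v

variable {n : ℕ} {K : Type u} [Field K] {G : Type v} [Group G] {l : Vec n → ℤ}

/-- `b` normalizes the groups `Uk x l k` -/
def NU (x : Root n → K → G) (l : Vec n → ℤ) (b : G) : Prop := ∀ k : ℕ, 1 ≤ k → ∀ g ∈ Uk x l k, b * g * b⁻¹ ∈ Uk x l k ∧ b⁻¹ * g * b ∈ Uk x l k

-- BEGIN ya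
private theorem ya_hh (hn : n = 6 ∨ n = 7 ∨ n = 8) {x : Root n → K → G} (h : Stb K n x) (l : Vec n → ℤ) (r : Root n) (s : Kˣ) {k : ℕ} {g : G} (hg : g ∈ Uk x l k) :
    ThK.hh x r (s : K) * g * (ThK.hh x r (s : K))⁻¹ ∈ Uk x l k := by
  unfold Uk ThK.Sg at hg ⊢
  induction hg using Subgroup.closure_induction with
  | mem g hg =>
    obtain ⟨t, a, ht, rfl⟩ := hg
    rw [hh_conj hn h r t s.ne_zero a]
    exact Subgroup.subset_closure ⟨t, _, ht, rfl⟩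
  | one =>
    rw [mul_one, mul_inv_cancel]
    exact Subgroup.one_mem _
  | mul a b _ _ h1 h2 =>
    have e : ThK.hh x r (s : K) * (a * b) * (ThK.hh x r (s : K))⁻¹ = (ThK.hh x r (s : K) * a * (ThK.hh x r (s : K))⁻¹) * (ThK.hh x r (s : K) * b * (ThK.hh x r (s : K))⁻¹) := by group
    rw [e]
    exact Subgroup.mul_mem _ h1 h2
  | inv a _ h1 =>
    have e : ThK.hh x r (s : K) * a⁻¹ * (ThK.hh x r (s : K))⁻¹ = (ThK.hh x r (s : K) * a * (ThK.hh x r (s : K))⁻¹)⁻¹ := by group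
    rw [e]
    exact Subgroup.inv_mem _ h1

/-- MODULE ya. `Uk.conj_Lv` for `b` and `b⁻¹`; `hh_conj`: `hh x r s * x t a * (hh x r s)⁻¹ = x t (..)`, `hh_inv`. -/
theorem NU.of_Lv {x : Root n → K → G} (h : Stb K n x) (hl : Addl l) {b : G} (hb : b ∈ Lv x l) : NU x l b := by
  intro k hk g hg
  refine ⟨Uk.conj_Lv h hl hk hb hg, ?_⟩
  have h1 := Uk.conj_Lv h hl hk (Subgroup.inv_mem _ hb) hg
  rwa [inv_inv] at h1

theorem NU.of_hh (hn : n = 6 ∨ n = 7 ∨ n = 8) {x : Root n → K → G} (h : Stb K n x) (l : Vec n → ℤ) (r : Root n) (s : Kˣ) : NU x l (ThK.hh x r (s : K)) := by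
  intro k hk g hg
  refine ⟨ya_hh hn h l r s hg, ?_⟩
  have h1 := ya_hh hn h l r s⁻¹ hg
  rw [Units.val_inv_eq_inv_val, ← hh_inv h r s.ne_zero, inv_inv] at h1
  exact h1

theorem NU.mul {x : Root n → K → G} {b c : G} (hb : NU x l b) (hc : NU x l c) : NU x l (b * c) := by
  intro k hk g hg
  have e1 : b * c * g * (b * c)⁻¹ = b * (c * g * c⁻¹) * b⁻¹ := by group
  have e2 : (b * c)⁻¹ * g * (b * c) = c⁻¹ * (b⁻¹ * g * b) * c := by group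
  rw [e1, e2]
  exact ⟨(hb k hk _ (hc k hk g hg).1).1, (hc k hk _ (hb k hk g hg).2).2⟩

theorem NU.inv {x : Root n → K → G} {b : G} (hb : NU x l b) : NU x l b⁻¹ := by
  intro k hk g hg
  rw [inv_inv]
  exact ⟨(hb k hk g hg).2, (hb k hk g hg).1⟩
-- END ya

-- BEGIN yb
/-- MODULE yb. As `Sur.inv` (row lc of ThK/Lev.lean) with `NU` instead of `Lv`: in the section `v = (1 - b) y` gives `v = (1 - b⁻¹)(- b y)`: for `v ∈ Uk k` take `y` for `v` and put `y' = b y⁻¹ b⁻¹` or so; the section is commutative (`Uk.comm`). -/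
theorem Sur.inv' {x : Root n → K → G} (h : Stb K n x) (hl : Addl l) {k : ℕ} (hk : 1 ≤ k) {b : G} (hb : NU x l b) (hs : Sur x l b k) : Sur x l b⁻¹ k := by
  intro v hv
  obtain ⟨z, hz, hw⟩ := hs v hv
  have hg : b * z * b⁻¹ ∈ Uk x l k := (hb k hk z hz).1
  have h1 : Uk x l k ≤ Uk x l 1 := Uk.anti x l hk
  refine ⟨(b * z * b⁻¹)⁻¹, Subgroup.inv_mem _ hg, ?_⟩
  have h2 := Uk.comm h hl hk (h1 hg) hv
  have h3 := Uk.conj_U h hl (by omega : 1 ≤ k + 1) (h1 hz) hw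
  have e : (b * z * b⁻¹)⁻¹⁻¹ * v * (b⁻¹ * (b * z * b⁻¹)⁻¹ * b⁻¹⁻¹) =
      (b * z * b⁻¹ * v * (b * z * b⁻¹)⁻¹ * v⁻¹) * (z * (z⁻¹ * v * (b * z * b⁻¹)) * z⁻¹) := by
    group
  rw [e]
  exact Subgroup.mul_mem _ h2 h3

/-- as `absorb` (row ug of ThK/Fin.lean) with `NU` instead of `Lv`: `p b p⁻¹` has `Sur` (`Sur.conj`, also for `op x`: `Lv_op`, `Stb.op`), `conj_left` for `op x`; for the right side `p b p⁻¹ u = (p b p⁻¹ u (p b p⁻¹)⁻¹) (p b p⁻¹)` and `conj_left` for `x`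
(the first factor is in `Uk x l 1`, `NU`, `NU.of_Lv`). -/
theorem absorb' {x : Root n → K → G} (h : Stb K n x) (hl : Addl l) {m : ℕ} (hm : ∀ r : Root n, l r.1 < m) {b p : G} (hb : NU x l b) (hp : p ∈ Lv x l)
    (hs : ∀ k, 1 ≤ k → Sur x l b k) (hs' : ∀ k, 1 ≤ k → Sur (op x) l b k) :
    (∀ v ∈ Uk (op x) l 1, ∃ c : G, v * (p * b * p⁻¹) = c * b * c⁻¹) ∧ ∀ u ∈ Uk x l 1, ∃ c : G, (p * b * p⁻¹) * u = c * b * c⁻¹ := by
  have hp' : p ∈ Lv (op x) l := by rw [Lv_op x hl]; exact hp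
  have hNp : NU x l p := NU.of_Lv h hl hp
  have hN : NU x l (p * b * p⁻¹) := NU.mul (NU.mul hNp hb) (NU.inv hNp)
  refine ⟨fun v hv => ?_, fun u hu => ?_⟩
  · obtain ⟨y, -, hy⟩ := conj_left (x := op x) (l := l) hm
      (fun k hk => Sur.conj (Stb.op h) hl hk hp' (hs' k hk)) hv
    refine ⟨y * p, ?_⟩
    have h1 : v * (p * b * p⁻¹) = y * (y⁻¹ * (v * (p * b * p⁻¹)) * y) * y⁻¹ := by group
    rw [h1, hy]
    group
  · have hu' : (p * b * p⁻¹) * u * (p * b * p⁻¹)⁻¹ ∈ Uk x l 1 := (hN 1 le_rfl u hu).1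
    obtain ⟨y, -, hy⟩ := conj_left (x := x) (l := l) hm (fun k hk => Sur.conj h hl hk hp (hs k hk)) hu'
    refine ⟨y * p, ?_⟩
    have h1 : (p * b * p⁻¹) * u = y * (y⁻¹ * ((p * b * p⁻¹) * u * (p * b * p⁻¹)⁻¹ * (p * b * p⁻¹)) * y) * y⁻¹ := by group
    rw [h1, hy]
    group
-- END yb

-- BEGIN yc
/-- MODULE yc. ABSTRACT ASSEMBLY.  `w` real, `NU`, `Sur` for both systems; if every `z` outside the centre is conjugate to `v (p w p⁻¹) (q w' q⁻¹) u` with `w' = w` or `w' = w⁻¹` then it is a product of two conjugates of `w`: `absorb'` for `w` (left factor) and for `w` or `w⁻¹` (right factor; `Sur.inv'`, `NU.inv`), `w⁻¹ = c w c⁻¹`. -/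
theorem assemble {x : Root n → K → G} (h : Stb K n x) (hl : Addl l) {m : ℕ} (hm : ∀ r : Root n, l r.1 < m) {w : G} (hw : NU x l w) (hw' : NU (op x) l w)
    (hs : ∀ k, 1 ≤ k → Sur x l w k) (hs' : ∀ k, 1 ≤ k → Sur (op x) l w k) (hr : ∃ c : G, c * w * c⁻¹ = w⁻¹)
    (hz : ∀ z : G, z ∉ Subgroup.center G → ∃ c : G, ∃ v ∈ Uk (op x) l 1, ∃ p ∈ Lv x l, ∃ q ∈ Lv x l, ∃ w' : G, (w' = w ∨ w' = w⁻¹) ∧ ∃ u ∈ Uk x l 1,
      c * z * c⁻¹ = v * (p * w * p⁻¹ * (q * w' * q⁻¹)) * u) :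
    ∃ b : G, (∀ z : G, z ∉ Subgroup.center G → ∃ a c : G, z = a * b * a⁻¹ * (c * b * c⁻¹)) ∧ ∃ c : G, c * b * c⁻¹ = b⁻¹ := by
  refine ⟨w, fun z hzc => ?_, hr⟩
  obtain ⟨c, v, hv, p, hp, q, hq, w', hww, u, hu, e⟩ := hz z hzc
  obtain ⟨a, ha⟩ := (absorb' h hl hm hw hp hs hs').1 v hv
  have hb : ∃ b : G, (q * w' * q⁻¹) * u = b * w * b⁻¹ := by
    rcases hww with rfl | rfl
    · exact (absorb' h hl hm hw hq hs hs').2 u hu
    · obtain ⟨d, hd⟩ := hr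
      obtain ⟨b, hb⟩ := (absorb' h hl hm (NU.inv hw) hq (fun k hk => Sur.inv' h hl hk hw (hs k hk))
        (fun k hk => Sur.inv' h.op hl hk hw' (hs' k hk))).2 u hu
      refine ⟨b * d, ?_⟩
      rw [hb, ← hd]
      group
  obtain ⟨b, hb⟩ := hb
  refine ⟨c⁻¹ * a, c⁻¹ * b, ?_⟩
  have e2 : c * z * c⁻¹ = a * w * a⁻¹ * (b * w * b⁻¹) := by
    rw [e, ← ha, ← hb]
    group
  have e3 : z = c⁻¹ * (c * z * c⁻¹) * c := by group
  rw [e3, e2]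
  group
-- END yc

-- BEGIN yd
private theorem yd_dg (g : Kˣ) : ThK.hA (el K : Fin 2 → Fin 2 → K → Matrix.SpecialLinearGroup (Fin 2) K) 0 1 (g : K) = Pool.Agent.ThS.dg2 g := by
  apply Subtype.ext
  rw [hA_el (by decide) g]
  ext i j
  fin_cases i <;> fin_cases j <;> simp [Pool.Agent.ThS.dg2, Matrix.diagonal]

private theorem yd_nsc {M : Matrix.SpecialLinearGroup (Fin 3) K} (hM : Nsc M) : Pool.Agent.ThS.NSc M⁻¹ := by
  intro c hc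
  have h1 : (M * M⁻¹).1 = 1 := by
    rw [mul_inv_cancel]
    rfl
  have h2 : M.1 * (c • (1 : Matrix (Fin 3) (Fin 3) K)) = 1 := by
    rw [← hc]
    exact h1
  rw [Matrix.mul_smul, mul_one] at h2
  have hc0 : c ≠ 0 := by
    intro h0
    rw [h0, zero_smul] at h2
    have h3 := congrFun (congrFun h2 0) 0
    simp at h3
  apply hM c⁻¹
  rw [← h2, smul_smul, inv_mul_cancel₀ hc0, one_smul]

/-- MODULE yd. `|K| ≥ 4`, from the data of the class.  `w = F1 B * F2 B⁻¹ * hh x gm g` (in `Lv x l6`: `HomF.mem`, and `hh x gm g = F3 (dg2 g)`: `HomF.hA` for `uC`, `i = 0`, `j = 1`, with `hA_el`); `F1`, `F2`, `F3` from `exists_HomF`.  `sur6` (`D.eig`; `g ≠ 1` from `D.sq`), `real6`, `gauss6`, `assemble`.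
`M1 = P1 B P1⁻¹ Q1 B Q1⁻¹` (`D.two`), `M2⁻¹ = P B P⁻¹ Q B Q⁻¹` so `M2 = Q B⁻¹ Q⁻¹ P B⁻¹ P⁻¹`, `M3 = P3 A P3⁻¹ Q3 A Q3⁻¹` (`Pool.Agent.ThS.prod2`), `p = F1 P1 * F2 P2 * F3 P3`, `q = F1 Q1 * F2 Q2 * F3 Q3`; the three images commute.  `NU (op x)` : `Lv (op x) l = Lv x l` (`Lv_op`). -/
theorem main6_dat [Finite K] (h4 : 4 ≤ Nat.card K) {B : Matrix.SpecialLinearGroup (Fin 3) K} {g : Kˣ} (D : Pool.Agent.ThS.Dat B g) {x : Root 6 → K → G} (h : Stb K 6 x) :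
    ∃ b : G, (∀ z : G, z ∉ Subgroup.center G → ∃ a c : G, z = a * b * a⁻¹ * (c * b * c⁻¹)) ∧ ∃ c : G, c * b * c⁻¹ = b⁻¹ := by
  obtain ⟨F1, h1⟩ := exists_HomF h6 h fam_uA
  obtain ⟨F2, h2⟩ := exists_HomF h6 h fam_uB
  obtain ⟨F3, h3⟩ := exists_HomF h6 h fam_uC
  obtain ⟨L, _, ι, E, hE, p0, hB, hw⟩ := D.eig
  have hg1 : g ≠ 1 := by
    intro e
    apply D.sq
    rw [e, mul_one]
  have c12 : ∀ M M', Commute (F1 M) (F2 M') := fun M M' => HomF.comm h orth_AB h1 h2 M M'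
  have c13 : ∀ M M', Commute (F1 M) (F3 M') := fun M M' => HomF.comm h orth_AC h1 h3 M M'
  have c23 : ∀ M M', Commute (F2 M) (F3 M') := fun M M' => HomF.comm h orth_BC h2 h3 M M'
  have hF3 : F3 (Pool.Agent.ThS.dg2 g) = ThK.hh x gm (g : K) := by
    rw [← yd_dg g]
    exact HomF.hA h6 h fam_uC h3 (i := 0) (j := 1) (by decide) (by simp [uC]) g
  obtain ⟨Φ12, hΦ12⟩ : ∃ Φ : Matrix.SpecialLinearGroup (Fin 3) K × Matrix.SpecialLinearGroup (Fin 3) K →* G, ∀ a, Φ a = F1 a.1 * F2 a.2 :=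
    ⟨MonoidHom.noncommCoprod F1 F2 c12, fun a => rfl⟩
  have c3 : ∀ M M', Commute (Φ12 M) (F3 M') := fun M M' => by
    rw [hΦ12]
    exact (c13 _ _).mul_left (c23 _ _)
  obtain ⟨Φ, hΦ⟩ : ∃ Φ : (Matrix.SpecialLinearGroup (Fin 3) K × Matrix.SpecialLinearGroup (Fin 3) K) × Matrix.SpecialLinearGroup (Fin 2) K →* G,
      ∀ a, Φ a = F1 a.1.1 * F2 a.1.2 * F3 a.2 := by
    refine ⟨MonoidHom.noncommCoprod Φ12 F3 c3, fun a => ?_⟩
    rw [← hΦ12]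
    rfl
  have hmem : ∀ a, Φ a ∈ Lv x l6 := by
    intro a
    rw [hΦ]
    exact Subgroup.mul_mem _ (Subgroup.mul_mem _ (HomF.mem fam_uA h1 _) (HomF.mem fam_uB h2 _)) (HomF.mem fam_uC h3 _)
  have hwΦ : F1 B * F2 B⁻¹ * ThK.hh x gm (g : K) = Φ ((B, B⁻¹), Pool.Agent.ThS.dg2 g) := by
    rw [hΦ, ← hF3]
  have hs := fun k (hk : 1 ≤ k) => sur6 h h1 h2 ι hE hB hg1 hw hk
  have hr := real6 h h1 h2 B g
  rw [hwΦ] at hr hs
  refine assemble h addl6 l6_lt (NU.of_Lv h addl6 (hmem _)) (NU.of_Lv (Stb.op h) addl6 (by rw [Lv_op x addl6]; exact hmem _)) (fun k hk => (hs k hk).1) (fun k hk => (hs k hk).2) hr ?_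
  intro z hz
  obtain ⟨c, v, hv, M1, M2, M3, n1, n2, n3, u, hu, e⟩ := gauss6 h4 h h1 h2 h3 hz
  obtain ⟨P1, Q1, e1⟩ := D.two M1 n1
  obtain ⟨P2, Q2, e2⟩ := D.two M2⁻¹ (yd_nsc n2)
  obtain ⟨P3, Q3, e3⟩ := Pool.Agent.ThS.prod2 D.sq M3 n3
  have e2' : M2 = Q2 * B⁻¹ * Q2⁻¹ * (P2 * B⁻¹ * P2⁻¹) := by
    rw [← inv_inv M2, e2]
    group
  refine ⟨c, v, hv, Φ ((P1, Q2), P3), hmem _, Φ ((Q1, P2), Q3), hmem _, _, Or.inl rfl, u, hu, ?_⟩
  rw [e]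
  have e4 : F1 M1 * F2 M2 * F3 M3 = Φ ((M1, M2), M3) := by rw [hΦ]
  rw [e4, ← map_inv, ← map_inv, ← map_mul, ← map_mul, ← map_mul, ← map_mul, ← map_mul]
  have e5 : (((M1, M2), M3) : (Matrix.SpecialLinearGroup (Fin 3) K × Matrix.SpecialLinearGroup (Fin 3) K) × Matrix.SpecialLinearGroup (Fin 2) K) =
      ((P1, Q2), P3) * ((B, B⁻¹), Pool.Agent.ThS.dg2 g) * ((P1, Q2), P3)⁻¹ * (((Q1, P2), Q3) * ((B, B⁻¹), Pool.Agent.ThS.dg2 g) * ((Q1, P2), Q3)⁻¹) := by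
    refine Prod.ext (Prod.ext e1 e2') e3
  rw [e5]
-- END yd

-- BEGIN ye
private theorem ye_ep {K' : Type*} [Field K'] (f : K →+* K') (v w : Vec n) : f ((ep K v w : Kˣ) : K) = ((ep K' v w : K'ˣ) : K') := by
  unfold ep
  rcases Int.even_or_odd (bl v w) with h | h
  · rw [h.neg_one_zpow, h.neg_one_zpow, Units.val_one, Units.val_one, map_one]
  · rw [h.neg_one_zpow, h.neg_one_zpow, Units.val_neg, Units.val_neg, Units.val_one, Units.val_one, map_neg, map_one]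

private theorem ye_hh {K' : Type*} [Field K'] (e : K ≃+* K') (x : Root n → K → G) (r : Root n) (a : K') : ThK.hh (fun r a => x r (e.symm a)) r a = ThK.hh x r (e.symm a) := by
  unfold ThK.hh ThK.nn
  simp only [map_inv₀, map_neg, map_one]

/-- MODULE ye. Transport of the system along an isomorphism of fields (`ep` is `± 1`: `map_ep`; `hh (x ∘ e.symm) r a = hh x r (e.symm a)`, `map_inv₀`). -/
theorem stb_iso {K' : Type*} [Field K'] (e : K ≃+* K') {x : Root n → K → G} (h : Stb K n x) : Stb K' n (fun r a => x r (e.symm a)) := by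
  refine ⟨fun r a b => ?_, fun r s t ht a b => ?_, fun r s h1 h2 a b => h.comm r s h1 h2 _ _, fun r a b ha hb => ?_, ?_⟩
  · show x r (e.symm (a + b)) = x r (e.symm a) * x r (e.symm b)
    rw [map_add, h.add]
  · show x r (e.symm a) * x s (e.symm b) * (x r (e.symm a))⁻¹ * (x s (e.symm b))⁻¹ = x t (e.symm _)
    rw [h.sum r s t ht, map_mul, map_mul]
    have h1 := ye_ep (n := n) e.symm.toRingHom r.1 s.1
    have h2 : e.symm ((ep K' r.1 s.1 : K'ˣ) : K') = ((ep K r.1 s.1 : Kˣ) : K) := h1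
    rw [h2]
  · rw [ye_hh, ye_hh, ye_hh, map_mul]
    exact h.tor r _ _ (by simpa using ha) (by simpa using hb)
  · rw [← h.gen]
    congr 1
    ext g
    constructor
    · rintro ⟨r, a, rfl⟩
      exact ⟨r, e.symm a, rfl⟩
    · rintro ⟨r, a, rfl⟩
      exact ⟨r, e a, by show x r a = x r (e.symm (e a)); rw [e.symm_apply_apply]⟩
-- END ye

end Pool.Agent.ThR
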