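import Pool.Agent.ThR.Sgn

/-! # The root operators on a graded piece (MP_3d54b6_al, part D)

`l : Vec n → ℤ` is an additive level function.  `V_k` is the space of the functions on the set `Rk l k` of the root vectors of level `k`.  A root vector `a` of
level zero acts by `1 + t E_a`, `(E_a f)(v) = ep(a, v - a) f(v - a)`. -/

namespace Pool.Agent.ThR

open ThE ThK

variable {n : ℕ} {K : Type*} [Field K] {l : Vec n → ℤ} {k : ℤ}

/-- `l` is additive -/
def Addl (l : Vec n → ℤ) : Prop := ∀ v w, l (v + w) = l v + l w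

theorem Addl.zero (hl : Addl l) : l 0 = 0 := by
  have := hl 0 0
  rw [add_zero] at this
  linarith

theorem Addl.neg (hl : Addl l) (v : Vec n) : l (-v) = -l v := by
  have := hl v (-v)
  rw [add_neg_cancel, hl.zero] at this
  linarith

theorem Addl.sub (hl : Addl l) (v w : Vec n) : l (v - w) = l v - l w := by
  rw [sub_eq_add_neg, hl, hl.neg]; ring

/-- the root vectors of level `k` -/
abbrev Rk (l : Vec n → ℤ) (k : ℤ) : Type := {v : Vec n // IsR v ∧ l v = k}

/-- extension by zero -/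
def ext (f : Rk l k → K) (v : Vec n) : K := if h : IsR v ∧ l v = k then f ⟨v, h⟩ else 0

/-- the operator `E_a` -/
def Eo (l : Vec n → ℤ) (k : ℤ) (K : Type*) [Field K] (a : Vec n) : Module.End K (Rk l k → K) where
  toFun f v := eps K a (v.1 - a) * ext f (v.1 - a)
  map_add' f g := by
    funext v
    simp only [ext, Pi.add_apply]
    split_ifs <;> ring
  map_smul' c f := by
    funext v
    simp only [ext, Pi.smul_apply, smul_eq_mul, RingHom.id_apply]
    split_ifs <;> ring

theorem Eo_apply (a : Vec n) (f : Rk l k → K) (v : Rk l k) : Eo l k K a f v = eps K a (v.1 - a) * ext f (v.1 - a) := rfl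

theorem ext_val (f : Rk l k → K) (v : Rk l k) : ext f v.1 = f v := by
  simp [ext, v.2.1, v.2.2]

theorem ext_not (f : Rk l k → K) {v : Vec n} (h : ¬ (IsR v ∧ l v = k)) : ext f v = 0 := by
  simp only [ext, dif_neg h]

theorem ext_Eo (a : Vec n) (f : Rk l k → K) (v : Vec n) :
    ext (Eo l k K a f) v = if IsR v ∧ l v = k then eps K a (v - a) * ext f (v - a) else 0 := by
  by_cases h : IsR v ∧ l v = k
  · rw [if_pos h]
    simp only [ext, dif_pos h, Eo_apply]
  · rw [if_neg h, ext_not _ h]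

/-- a vector `a` which acts: a root vector of level zero -/
def L0 (l : Vec n → ℤ) (a : Vec n) : Prop := IsR a ∧ l a = 0

theorem L0.neg (hl : Addl l) {a : Vec n} (h : L0 l a) : L0 l (-a) := ⟨isR_neg h.1, by rw [hl.neg, h.2, neg_zero]⟩

theorem L0.ne (hl : Addl l) (hk : k ≠ 0) {a v : Vec n} (h : L0 l a) (hv : l v = k) : v ≠ a ∧ v ≠ -a := by
  constructor
  · rintro rfl
    exact hk (hv.symm.trans h.2)
  · rintro rfl
    exact hk (hv.symm.trans (L0.neg hl h).2)

theorem L0.cases (hn : n ≤ 8) (hl : Addl l) (hk : k ≠ 0) {a v : Vec n} (h : L0 l a) (hv : IsR v) (hv' : l v = k) :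
    bf a v = -1 ∨ bf a v = 0 ∨ bf a v = 1 :=
  isR_cases hn h.1 hv (h.ne hl hk hv').1 (h.ne hl hk hv').2

-- BEGIN dd
/-- MODULE dd. `(E_a E_a f)(v)` needs the root vectors `v`, `v - a`, `v - 2 a`: `bf a v = 1` by `isR_sub_iff`, then `bf a (v - a) = 1 - 2 = -1`, so
`(v - a) - a` is not a root vector (`isR_sub_iff`).  `LinearMap.ext`, `funext`, `Eo_apply`, `ext_Eo`, `split_ifs`, `ext_not`. -/
theorem Eo_sq {a : Vec n} (ha : L0 l a) : Eo l k K a * Eo l k K a = 0 := by
  apply LinearMap.ext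
  intro f
  funext v
  show eps K a (v.1 - a) * ext (Eo l k K a f) (v.1 - a) = 0
  rw [ext_Eo]
  split_ifs with h
  · have h1 : bf a v.1 = 1 := (isR_sub_iff ha.1 v.2.1).1 h.1
    rw [ext_not, mul_zero, mul_zero]
    rintro ⟨h2, _⟩
    have h3 := (isR_sub_iff ha.1 h.1).1 h2
    rw [bf_sub_right, h1, isR_bf ha.1] at h3
    omega
  · rw [mul_zero]
-- END dd

-- BEGIN de
private theorem de_two (a b : Vec n) (f : Rk l k → K) (v : Rk l k) : (Eo l k K a * Eo l k K b) f v =
    eps K a (v.1 - a) * (if IsR (v.1 - a) ∧ l (v.1 - a) = k then eps K b (v.1 - a - b) * ext f (v.1 - a - b) else 0) := by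
  rw [Module.End.mul_apply, Eo_apply, ext_Eo]

private theorem de_lev (hl : Addl l) {a : Vec n} (ha : L0 l a) (v : Rk l k) : l (v.1 - a) = k := by
  rw [hl.sub, ha.2, v.2.2, sub_zero]

private theorem de_pos (hl : Addl l) {a : Vec n} (ha : L0 l a) (v : Rk l k) (x : K) (h : bf a v.1 = 1) :
    (if IsR (v.1 - a) ∧ l (v.1 - a) = k then x else 0) = x :=
  if_pos ⟨(isR_sub_iff ha.1 v.2.1).2 h, de_lev hl ha v⟩

private theorem de_not {a : Vec n} (ha : L0 l a) (v : Rk l k) (x : K) (h : bf a v.1 ≠ 1) :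
    (if IsR (v.1 - a) ∧ l (v.1 - a) = k then x else 0) = 0 :=
  if_neg fun h1 => h ((isR_sub_iff ha.1 v.2.1).1 h1.1)

/-- MODULE de. Here `a + b` is a root vector (`bf a b = -1`, `isR_add_iff`).  At `v` (a root vector of level `k`), with `w = v - (a + b)`:
`(E_a E_b f)(v) = [v - a ∈ R_k] ep(a, v - a) ep(b, w) f(w)`, `(E_b E_a f)(v) = [v - b ∈ R_k] ep(b, v - b) ep(a, w) f(w)`, `(E_(a+b) f)(v) = ep(a, w) ep(b, w) f(w)`
(`v - a - b = v - b - a = w`; the levels are right because `l` is additive and `l a = l b = 0`).  If `w` is not in `R_k` everything is zero (`ext_not`).  If `w ∈ R_k` then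
`bf (a + b) v = 1`, i.e. `bf a v + bf b v = 1`, both in `{-1, 0, 1}` (`L0.cases`), so exactly one of them is `1`: exactly one of `v - a`, `v - b` is a root vector (`isR_sub_iff`).
If `v - a ∈ R_k`: `ep(a, v - a) = ep(a, w + b) = ep(a, w) ep(a, b)`.  If `v - b ∈ R_k`: `ep(b, v - b) = ep(b, w) ep(b, a)` and `ep(b, a) = - ep(a, b)` (`eps_swap_neg`). -/
theorem Eo_bracket (hn : n ≤ 8) (hl : Addl l) (hk : k ≠ 0) {a b : Vec n} (ha : L0 l a) (hb : L0 l b) (hab : IsR (a + b)) :
    Eo l k K a * Eo l k K b - Eo l k K b * Eo l k K a = eps K a b • Eo l k K (a + b) := by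
  refine LinearMap.ext fun f => ?_
  funext v
  have e1 : v.1 - a - b = v.1 - (a + b) := by abel
  have e2 : v.1 - b - a = v.1 - (a + b) := by abel
  have hbf : bf a b = -1 := (isR_add_iff ha.1 hb.1).1 hab
  rw [LinearMap.sub_apply, Pi.sub_apply, de_two, de_two, LinearMap.smul_apply, Pi.smul_apply, Eo_apply, smul_eq_mul, e1, e2]
  by_cases hw : IsR (v.1 - (a + b)) ∧ l (v.1 - (a + b)) = k
  · have h1 : bf (a + b) v.1 = 1 := (isR_sub_iff hab v.2.1).1 hw.1
    rw [bf_add_left] at h1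
    have e3 : v.1 - a = v.1 - (a + b) + b := by abel
    have e4 : v.1 - b = v.1 - (a + b) + a := by abel
    rcases ha.cases hn hl hk v.2.1 v.2.2 with h2 | h2 | h2
    · rcases hb.cases hn hl hk v.2.1 v.2.2 with h3 | h3 | h3 <;> omega
    · have h3 : bf b v.1 = 1 := by omega
      rw [de_not ha v _ (by omega), de_pos hl hb v _ h3, e4, eps_add_right, eps_add_left, eps_swap_neg ha.1 hb.1 hbf]
      ring
    · have h3 : bf b v.1 = 0 := by omega
      rw [de_pos hl ha v _ h2, de_not hb v _ (by omega), e3, eps_add_right, eps_add_left]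
      ring
  · rw [ext_not f hw]
    simp

/-- If `v`, `v - a`, `v - a - b`, `v - a - b - a` are root vectors then `bf a v = 1`, `bf b (v - a) = 1`, so `bf a (v - a - b) = 1 - 2 + 1 = 0`, which contradicts
`bf a (v - a - b) = 1` (`isR_sub_iff`). -/
theorem Eo_aba {a b : Vec n} (ha : L0 l a) (hb : L0 l b) (hab : IsR (a + b)) :
    Eo l k K a * Eo l k K b * Eo l k K a = 0 := by
  refine LinearMap.ext fun f => ?_
  funext v
  have hbf : bf a b = -1 := (isR_add_iff ha.1 hb.1).1 hab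
  rw [Module.End.mul_apply, de_two, ext_Eo, LinearMap.zero_apply, Pi.zero_apply]
  by_cases h1 : IsR (v.1 - a) ∧ l (v.1 - a) = k
  · by_cases h2 : IsR (v.1 - a - b) ∧ l (v.1 - a - b) = k
    · have h3 : ¬ (IsR (v.1 - a - b - a) ∧ l (v.1 - a - b - a) = k) := by
        intro h3
        have h4 := (isR_sub_iff ha.1 v.2.1).1 h1.1
        have h5 := (isR_sub_iff ha.1 h2.1).1 h3.1
        rw [bf_sub_right, bf_sub_right, h4, isR_bf ha.1, hbf] at h5
        omega
      rw [ext_not f h3]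
      simp
    · rw [if_neg h2]
      simp
  · rw [if_neg h1, mul_zero]
-- END de

-- BEGIN df
private theorem df_zero (hn : n ≤ 8) (hl : Addl l) (hk : k ≠ 0) {a b : Vec n} (ha : L0 l a) (hb : L0 l b) (hbf : bf b a = 1) (f : Rk l k → K) (v : Rk l k) :
    (Eo l k K a * Eo l k K b) f v = 0 := by
  rw [de_two]
  by_cases h1 : IsR (v.1 - a) ∧ l (v.1 - a) = k
  · have h3 : ¬ (IsR (v.1 - a - b) ∧ l (v.1 - a - b) = k) := by
      intro h3
      have h5 := (isR_sub_iff hb.1 h1.1).1 h3.1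
      rw [bf_sub_right, hbf] at h5
      rcases hb.cases hn hl hk v.2.1 v.2.2 with h2 | h2 | h2 <;> omega
    rw [ext_not f h3]
    simp
  · rw [if_neg h1, mul_zero]

/-- MODULE df. `a + b ≠ 0` is not a root vector, so `bf a b ∈ {0, 1, 2}` (`isR_cases`, or `b = a`; `b = -a` is excluded; `bf a b = -1` is excluded by `isR_add_iff`).
`b = a`: trivial.  `bf a b = 1`: both products are zero: `v`, `v - b`, `(v - b) - a` root vectors would give `bf b v = 1`, `bf a (v - b) = 1`, `bf a v = 2`, impossible (`L0.cases`).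
`bf a b = 0`: with `w = v - a - b`, `v - a ∈ R_k ↔ bf a v = 1`, and then `w ∈ R_k ↔ bf b (v - a) = bf b v = 1`; symmetric; the signs: `ep(a, v - a) = ep(a, w + b) = ep(a, w) ep(a, b)`,
`ep(b, v - b) = ep(b, w) ep(b, a)`, `ep(b, a) = ep(a, b)` (`eps_swap_zero`). -/
theorem Eo_commute (hn : n ≤ 8) (hl : Addl l) (hk : k ≠ 0) {a b : Vec n} (ha : L0 l a) (hb : L0 l b) (h0 : a + b ≠ 0) (hab : ¬ IsR (a + b)) :
    Eo l k K a * Eo l k K b = Eo l k K b * Eo l k K a := by
  by_cases hba : b = a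
  · rw [hba]
  refine LinearMap.ext fun f => ?_
  funext v
  have hna : b ≠ -a := fun h => h0 (by rw [h, add_neg_cancel])
  rcases isR_cases hn ha.1 hb.1 hba hna with h | h | h
  · exact absurd ((isR_add_iff ha.1 hb.1).2 h) hab
  · have e1 : v.1 - b - a = v.1 - a - b := by abel
    rw [de_two, de_two, e1]
    by_cases hw : IsR (v.1 - a - b) ∧ l (v.1 - a - b) = k
    · have h1 : bf a v.1 = 1 → bf b v.1 = 1 := by
        intro h2
        have h3 := (isR_sub_iff hb.1 ((isR_sub_iff ha.1 v.2.1).2 h2)).1 hw.1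
        rw [bf_sub_right, bf_comm b a, h] at h3
        omega
      have h2 : bf b v.1 = 1 → bf a v.1 = 1 := by
        intro h2
        have h3 := (isR_sub_iff ha.1 ((isR_sub_iff hb.1 v.2.1).2 h2)).1 (e1 ▸ hw.1)
        rw [bf_sub_right, h] at h3
        omega
      by_cases h3 : bf a v.1 = 1
      · have e3 : v.1 - a = v.1 - a - b + b := by abel
        have e4 : v.1 - b = v.1 - a - b + a := by abel
        rw [de_pos hl ha v _ h3, de_pos hl hb v _ (h1 h3)]
        have h4 : eps K a (v.1 - a) = eps K a (v.1 - a - b) * eps K a b := by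
          rw [← eps_add_right, ← e3]
        have h5 : eps K b (v.1 - b) = eps K b (v.1 - a - b) * eps K b a := by
          rw [← eps_add_right, ← e4]
        rw [h4, h5, eps_swap_zero ha.1 hb.1 h]
        ring
      · rw [de_not ha v _ h3, de_not hb v _ fun h4 => h3 (h2 h4), mul_zero, mul_zero]
    · rw [ext_not f hw]
      simp
  · rw [df_zero hn hl hk ha hb (by rw [bf_comm, h]), df_zero hn hl hk hb ha h]
-- END df

open Classical in
/-- the element `1 + t E_a` of the general linear group (the unit element if `E_a ^ 2 ≠ 0`) -/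
noncomputable def Ao (l : Vec n → ℤ) (k : ℤ) (K : Type*) [Field K] (a : Vec n) (t : K) : (Module.End K (Rk l k → K))ˣ :=
  if h : Eo l k K a * Eo l k K a = 0 then
    ⟨1 + t • Eo l k K a, 1 - t • Eo l k K a, by
      have h2 : (t • Eo l k K a) * (t • Eo l k K a) = 0 := by rw [smul_mul_smul_comm, h, smul_zero]
      generalize t • Eo l k K a = x at h2
      calc (1 + x) * (1 - x) = 1 - x * x := by rw [mul_sub, mul_one, add_mul, one_mul]; abel
        _ = 1 := by rw [h2, sub_zero], by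
      have h2 : (t • Eo l k K a) * (t • Eo l k K a) = 0 := by rw [smul_mul_smul_comm, h, smul_zero]
      generalize t • Eo l k K a = x at h2
      calc (1 - x) * (1 + x) = 1 - x * x := by rw [mul_add, mul_one, sub_mul, one_mul]; abel
        _ = 1 := by rw [h2, sub_zero]⟩
  else 1

theorem Ao_val {a : Vec n} (ha : L0 l a) (t : K) : (Ao l k K a t).1 = 1 + t • Eo l k K a := by
  simp only [Ao, dif_pos (Eo_sq ha)]

theorem Ao_inv {a : Vec n} (ha : L0 l a) (t : K) : ((Ao l k K a t)⁻¹).1 = 1 - t • Eo l k K a := by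
  simp only [Ao, dif_pos (Eo_sq ha)]
  rfl

/-- the value of `1 + t E_a` -/
theorem Ao_apply {a : Vec n} (ha : L0 l a) (t : K) (f : Rk l k → K) (v : Rk l k) :
    (Ao l k K a t).1 f v = f v + t * (eps K a (v.1 - a) * ext f (v.1 - a)) := by
  rw [Ao_val ha]
  rfl

/-- `h_a(t)`: multiplication by `t ^ (a, v)` -/
def Ho (l : Vec n → ℤ) (k : ℤ) (K : Type*) [Field K] (a : Vec n) (t : Kˣ) : (Module.End K (Rk l k → K))ˣ where
  val := { toFun := fun f v => ((t ^ bf a v.1 : Kˣ) : K) * f v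
           map_add' := fun f g => by funext v; simp only [Pi.add_apply]; ring
           map_smul' := fun c f => by funext v; simp only [Pi.smul_apply, smul_eq_mul, RingHom.id_apply]; ring }
  inv := { toFun := fun f v => ((t ^ (-bf a v.1) : Kˣ) : K) * f v
           map_add' := fun f g => by funext v; simp only [Pi.add_apply]; ring
           map_smul' := fun c f => by funext v; simp only [Pi.smul_apply, smul_eq_mul, RingHom.id_apply]; ring }
  val_inv := by
    refine LinearMap.ext fun f => ?_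
    funext v
    change ((t ^ bf a v.1 : Kˣ) : K) * (((t ^ (-bf a v.1) : Kˣ) : K) * f v) = f v
    rw [← mul_assoc, ← Units.val_mul, ← zpow_add, add_neg_cancel, zpow_zero, Units.val_one, one_mul]
  inv_val := by
    refine LinearMap.ext fun f => ?_
    funext v
    change ((t ^ (-bf a v.1) : Kˣ) : K) * (((t ^ bf a v.1 : Kˣ) : K) * f v) = f v
    rw [← mul_assoc, ← Units.val_mul, ← zpow_add, neg_add_cancel, zpow_zero, Units.val_one, one_mul]

theorem Ho_apply (a : Vec n) (t : Kˣ) (f : Rk l k → K) (v : Rk l k) : (Ho l k K a t).1 f v = ((t ^ bf a v.1 : Kˣ) : K) * f v := rfl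

/-- `n_a(t)` as an operator -/
noncomputable def No (l : Vec n → ℤ) (k : ℤ) (K : Type*) [Field K] (a : Vec n) (t : K) : (Module.End K (Rk l k → K))ˣ :=
  Ao l k K a t * Ao l k K (-a) t⁻¹ * Ao l k K a t

-- BEGIN dg
private theorem dg_ring {R : Type*} [Ring R] {x y : R} (hx : x * x = 0) (hy : y * y = 0) (h1 : x * y * x = 0) (h2 : y * x * y = 0) :
    (1 + (x * y - y * x)) * ((1 + y) * (1 + x)) = (1 + x) * (1 + y) := by
  have e : (1 + (x * y - y * x)) * ((1 + y) * (1 + x)) =
      (1 + x) * (1 + y) + (x * (y * y) + x * y * x + x * (y * y) * x - y * x * y - y * (x * x) - y * x * y * x) := by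
    noncomm_ring
  rw [e, hx, hy, h1, h2]
  simp

/-- MODULE dg. `Units.ext`, `Ao_val`, `Eo_sq`; `Ao_zero`, `Ao_neg` from `Ao_val`, `Ao_inv`. -/
theorem Ao_add {a : Vec n} (ha : L0 l a) (s t : K) : Ao l k K a (s + t) = Ao l k K a s * Ao l k K a t := by
  refine Units.ext ?_
  rw [Units.val_mul, Ao_val ha, Ao_val ha, Ao_val ha, mul_add, add_mul, add_mul, smul_mul_smul_comm, Eo_sq ha,
    smul_zero, one_mul, one_mul, mul_one, add_smul, add_zero, add_assoc]

theorem Ao_neg {a : Vec n} (ha : L0 l a) (t : K) : Ao l k K a (-t) = (Ao l k K a t)⁻¹ := by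
  refine Units.ext ?_
  have e : (-t) • Eo l k K a = -(t • Eo l k K a) := neg_smul t (Eo l k K a)
  rw [Ao_inv ha, Ao_val ha, e, sub_eq_add_neg]

/-- With `E = E_a`, `F = E_b`, `D = E_(a+b)`: `E E = F F = 0`, `E F E = F E F = 0` (`Eo_aba`, also for `b + a`), `E F - F E = c D` (`Eo_bracket`), and `D E = E D`, `D F = F D` (`Eo_commute`: `bf a (a + b) = 1`)
with `c D E = E F E - F E E = 0`.  Prove `Ao a s * Ao b t = Ao (a + b) (eps a b * (s * t)) * (Ao b t * Ao a s)` after `Units.ext` (all products of three operators vanish), then move the factors. -/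
theorem Ao_com (hn : n ≤ 8) (hl : Addl l) (hk : k ≠ 0) {a b : Vec n} (ha : L0 l a) (hb : L0 l b) (hab : IsR (a + b)) (s t : K) :
    Ao l k K a s * Ao l k K b t * (Ao l k K a s)⁻¹ * (Ao l k K b t)⁻¹ = Ao l k K (a + b) (eps K a b * (s * t)) := by
  have hab' : IsR (b + a) := by rw [add_comm]; exact hab
  have h0 : L0 l (a + b) := ⟨hab, by rw [hl, ha.2, hb.2, add_zero]⟩
  have hmain : Ao l k K a s * Ao l k K b t = Ao l k K (a + b) (eps K a b * (s * t)) * (Ao l k K b t * Ao l k K a s) := by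
    refine Units.ext ?_
    rw [Units.val_mul, Units.val_mul, Units.val_mul, Ao_val ha, Ao_val hb, Ao_val h0]
    have e1 : (s • Eo l k K a) * (s • Eo l k K a) = 0 := by rw [smul_mul_smul_comm, Eo_sq ha, smul_zero]
    have e2 : (t • Eo l k K b) * (t • Eo l k K b) = 0 := by rw [smul_mul_smul_comm, Eo_sq hb, smul_zero]
    have e3 : (s • Eo l k K a) * (t • Eo l k K b) * (s • Eo l k K a) = 0 := by
      rw [smul_mul_smul_comm, smul_mul_smul_comm, Eo_aba ha hb hab, smul_zero]
    have e4 : (t • Eo l k K b) * (s • Eo l k K a) * (t • Eo l k K b) = 0 := by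
      rw [smul_mul_smul_comm, smul_mul_smul_comm, Eo_aba hb ha hab', smul_zero]
    have e5 : (eps K a b * (s * t)) • Eo l k K (a + b) =
        (s • Eo l k K a) * (t • Eo l k K b) - (t • Eo l k K b) * (s • Eo l k K a) := by
      have e6 : (s * t) • (Eo l k K a * Eo l k K b) - (s * t) • (Eo l k K b * Eo l k K a) =
          (s * t) • (Eo l k K a * Eo l k K b - Eo l k K b * Eo l k K a) :=
        (smul_sub (s * t) (Eo l k K a * Eo l k K b) (Eo l k K b * Eo l k K a)).symm
      rw [smul_mul_smul_comm, smul_mul_smul_comm, mul_comm t s, e6, Eo_bracket hn hl hk ha hb hab, smul_smul,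
        mul_comm (eps K a b)]
    rw [e5]
    exact (dg_ring e1 e2 e3 e4).symm
  rw [hmain]
  group

theorem Ao_cm (hn : n ≤ 8) (hl : Addl l) (hk : k ≠ 0) {a b : Vec n} (ha : L0 l a) (hb : L0 l b) (h0 : a + b ≠ 0) (hab : ¬ IsR (a + b)) (s t : K) :
    Ao l k K a s * Ao l k K b t = Ao l k K b t * Ao l k K a s := by
  refine Units.ext ?_
  rw [Units.val_mul, Units.val_mul, Ao_val ha, Ao_val hb]
  have e : (s • Eo l k K a) * (t • Eo l k K b) = (t • Eo l k K b) * (s • Eo l k K a) := by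
    rw [smul_mul_smul_comm, smul_mul_smul_comm, mul_comm t s, Eo_commute hn hl hk ha hb h0 hab]
  rw [mul_add, add_mul, add_mul, mul_add, add_mul, add_mul, e]
  simp only [one_mul, mul_one]
  abel
-- END dg

-- BEGIN dh
private theorem dh_ext {a : Vec n} (ha : L0 l a) (t : K) (f : Rk l k → K) (w : Vec n) :
    ext ((Ao l k K a t).1 f) w = if IsR w ∧ l w = k then
      ext f w + t * (eps K a (w - a) * ext f (w - a)) else 0 := by
  by_cases h : IsR w ∧ l w = k
  · rw [if_pos h]
    have h1 := ext_val ((Ao l k K a t).1 f) ⟨w, h⟩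
    have h2 := ext_val f ⟨w, h⟩
    have h3 := Ao_apply (K := K) ha t f ⟨w, h⟩
    rw [h3, ← h2] at h1
    exact h1
  · rw [if_neg h, ext_not _ h]

/-- MODULE dh. The formula for `n_a(t)`, `t ≠ 0`: at `v ∈ R_k` it is `ep(a, v - a) t f(v - a)` if `bf a v = 1`, `ep(a, v + a) t⁻¹ f(v + a)` if `bf a v = -1` (`ep(-a, w) = ep(a, w)`), `f v` if `bf a v = 0`.
Expand with `Ao_apply` (three times, `ext` of the result: `ext_val`, the vectors `v - a`, `v + a` are in `R_k` or `ext_not`) in the three cases (`L0.cases`).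
Case `0`: `v - a`, `v + a` are not root vectors.  Case `1`: `v - a ∈ R_k`, `bf a (v - a) = -1`, `v + a`, `v - 2a` are not root vectors; with `g = f(v - a)`, `e = ep(a, v - a)`, `ep(a, v) = ep(a, v - a) ep(a, a) = -e`:
value at `v` after the right factor: `f v + t e g`; at `v - a`: `g`; after the middle factor: at `v`: the same, at `v - a`: `g + t⁻¹ ep(-a, v) (f v + t e g) = g - t⁻¹ e f v - e e g = - t⁻¹ e f v`; after the left one at `v`: `f v + t e g + t e (- t⁻¹ e f v) = t e g`.  Case `-1` the same. -/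
theorem No_apply (hn : n ≤ 8) (hl : Addl l) (hk : k ≠ 0) {a : Vec n} (ha : L0 l a) {t : K} (ht : t ≠ 0) (f : Rk l k → K) (v : Rk l k) :
    (No l k K a t).1 f v = if bf a v.1 = 1 then eps K a (v.1 - a) * (t * ext f (v.1 - a))
      else if bf a v.1 = -1 then eps K a (v.1 + a) * (t⁻¹ * ext f (v.1 + a)) else f v := by
  obtain ⟨v, hv, hlv⟩ := v
  have haa := isR_bf ha.1
  have hna := ha.neg hl
  have h0 : (No l k K a t).1 f ⟨v, hv, hlv⟩ =
      (Ao l k K a t).1 ((Ao l k K (-a) t⁻¹).1 ((Ao l k K a t).1 f)) ⟨v, hv, hlv⟩ := rfl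
  have h1 : (No l k K a t).1 f ⟨v, hv, hlv⟩ =
      ext ((Ao l k K a t).1 ((Ao l k K (-a) t⁻¹).1 ((Ao l k K a t).1 f))) v := by
    rw [h0]
    exact (ext_val _ ⟨v, hv, hlv⟩).symm
  have hf : f ⟨v, hv, hlv⟩ = ext f v := (ext_val f ⟨v, hv, hlv⟩).symm
  have hlm : l (v - a) = k := by rw [hl.sub, hlv, ha.2, sub_zero]
  have hlp : l (v + a) = k := by rw [hl, hlv, ha.2, add_zero]
  have hva : v - a - -a = v := by abel
  have hav : v + a - a = v := by abel
  have hRv : IsR v ∧ l v = k := ⟨hv, hlv⟩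
  rw [h1, hf]
  show _ = if bf a v = 1 then eps K a (v - a) * (t * ext f (v - a))
      else if bf a v = -1 then eps K a (v + a) * (t⁻¹ * ext f (v + a)) else ext f v
  rcases ha.cases hn hl hk hv hlv with hc | hc | hc
  · -- `bf a v = -1`
    have hm : ¬ (IsR (v - a) ∧ l (v - a) = k) := by
      rw [isR_sub_iff ha.1 hv, hc]
      rintro ⟨h, -⟩
      norm_num at h
    have hp : IsR (v + a) ∧ l (v + a) = k := by
      refine ⟨?_, hlp⟩
      rw [add_comm]
      exact (isR_add_iff ha.1 hv).2 hc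
    have hee : eps K a v = -eps K a (v + a) := by
      rw [eps_add_right, eps_self ha.1]
      ring
    have hsq := eps_mul_self (K := K) a (v + a)
    rw [if_neg (by rw [hc]; norm_num), if_pos hc]
    rw [dh_ext ha, if_pos hRv, ext_not _ hm, mul_zero, mul_zero, add_zero, dh_ext hna, if_pos hRv,
      sub_neg_eq_add, dh_ext ha, dh_ext ha, if_pos hRv, if_pos hp, ext_not _ hm, hav, eps_neg_left, hee]
    have e1 : ext f v + t * (eps K a (v - a) * 0) +
        t⁻¹ * (eps K a (v + a) * (ext f (v + a) + t * (-eps K a (v + a) * ext f v))) =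
        ext f v + t⁻¹ * (eps K a (v + a) * ext f (v + a)) -
          (t⁻¹ * t) * ((eps K a (v + a) * eps K a (v + a)) * ext f v) := by ring
    rw [e1, hsq, inv_mul_cancel₀ ht]
    ring
  · -- `bf a v = 0`
    have hm : ¬ (IsR (v - a) ∧ l (v - a) = k) := by
      rw [isR_sub_iff ha.1 hv, hc]
      rintro ⟨h, -⟩
      norm_num at h
    have hp : ¬ (IsR (v + a) ∧ l (v + a) = k) := by
      rw [add_comm v a, isR_add_iff ha.1 hv, hc]
      rintro ⟨h, -⟩
      norm_num at h
    rw [if_neg (by rw [hc]; norm_num), if_neg (by rw [hc]; norm_num)]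
    rw [dh_ext ha, if_pos hRv, ext_not _ hm, dh_ext hna, if_pos hRv, sub_neg_eq_add, ext_not _ hp,
      dh_ext ha, if_pos hRv, ext_not _ hm]
    ring
  · -- `bf a v = 1`
    have hm : IsR (v - a) ∧ l (v - a) = k := ⟨(isR_sub_iff ha.1 hv).2 hc, hlm⟩
    have hp : ¬ (IsR (v + a) ∧ l (v + a) = k) := by
      rw [add_comm v a, isR_add_iff ha.1 hv, hc]
      rintro ⟨h, -⟩
      norm_num at h
    have hmm : ¬ (IsR (v - a - a) ∧ l (v - a - a) = k) := by
      rw [isR_sub_iff ha.1 hm.1]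
      have e : bf a (v - a) = -1 := by
        rw [sub_eq_add_neg, bf_add_right, bf_neg_right, hc, haa]
        norm_num
      rw [e]
      rintro ⟨h, -⟩
      norm_num at h
    have hee : eps K a v = -eps K a (v - a) := by
      rw [eps_sub_right, eps_self ha.1]
      ring
    have hsq := eps_mul_self (K := K) a (v - a)
    rw [if_pos hc]
    rw [dh_ext ha, if_pos hRv, dh_ext hna, if_pos hRv, sub_neg_eq_add, ext_not _ hp,
      dh_ext hna, if_pos hm, hva, eps_neg_left a v, dh_ext ha, if_pos hRv, dh_ext ha, if_pos hm,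
      ext_not _ hmm, hee]
    have e1 : ext f v + t * (eps K a (v - a) * ext f (v - a)) + t⁻¹ * (eps K (-a) (v + a) * 0) +
        t * (eps K a (v - a) * (ext f (v - a) + t * (eps K a (v - a - a) * 0) +
          t⁻¹ * (-eps K a (v - a) * (ext f v + t * (eps K a (v - a) * ext f (v - a)))))) =
        ext f v + t * (eps K a (v - a) * ext f (v - a)) + t * (eps K a (v - a) * ext f (v - a)) -
          (t * t⁻¹) * ((eps K a (v - a) * eps K a (v - a)) * ext f v) -
          (t * t⁻¹) * ((eps K a (v - a) * eps K a (v - a)) * (t * (eps K a (v - a) * ext f (v - a)))) := by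
      ring
    have e2 : ∀ z : K, eps K a (v - a) * eps K a (v - a) * z = z := fun z => by rw [hsq, one_mul]
    rw [e1, mul_inv_cancel₀ ht, e2, e2]
    ring
-- END dh

-- BEGIN di
private theorem di_ext (hn : n ≤ 8) (hl : Addl l) (hk : k ≠ 0) {a : Vec n} (ha : L0 l a) {t : K} (ht : t ≠ 0) (f : Rk l k → K) {w : Vec n} (hw : IsR w ∧ l w = k) :
    ext ((No l k K a t).1 f) w = if bf a w = 1 then eps K a (w - a) * (t * ext f (w - a))
      else if bf a w = -1 then eps K a (w + a) * (t⁻¹ * ext f (w + a)) else ext f w := by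
  have h1 : ext ((No l k K a t).1 f) w = (No l k K a t).1 f ⟨w, hw⟩ := ext_val _ ⟨w, hw⟩
  have h2 : ext f w = f ⟨w, hw⟩ := ext_val f ⟨w, hw⟩
  rw [h1, h2, No_apply hn hl hk ha ht]

private theorem di_ho (a : Vec n) (t : Kˣ) (f : Rk l k → K) (w : Vec n) : ext ((Ho l k K a t).1 f) w = ((t ^ bf a w : Kˣ) : K) * ext f w := by
  by_cases h : IsR w ∧ l w = k
  · have h1 : ext ((Ho l k K a t).1 f) w = (Ho l k K a t).1 f ⟨w, h⟩ := ext_val _ ⟨w, h⟩
    have h2 : ext f w = f ⟨w, h⟩ := ext_val f ⟨w, h⟩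
    rw [h1, h2, Ho_apply]
  · rw [ext_not _ h, ext_not _ h, mul_zero]

private theorem di_eq {U V : (Module.End K (Rk l k → K))ˣ} (h : ∀ f v, U.1 f v = V.1 f v) : U = V :=
  Units.ext (LinearMap.ext fun f => funext fun v => h f v)

/-- MODULE di. `No a t = Ho a t * No a 1` by `No_apply` (the coefficient is `t ^ bf a v` times that of `No a 1`), and `No a (-1) = (No a 1)⁻¹` (`Ao_neg`; `(-1)⁻¹ = -1`). -/
theorem No_hh (hn : n ≤ 8) (hl : Addl l) (hk : k ≠ 0) {a : Vec n} (ha : L0 l a) (t : Kˣ) :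
    No l k K a (t : K) * No l k K a (-1) = Ho l k K a t := by
  refine di_eq fun f v => ?_
  obtain ⟨v, hv, hlv⟩ := v
  have haa := isR_bf ha.1
  have ht : (t : K) ≠ 0 := t.ne_zero
  have hlm : l (v - a) = k := by rw [hl.sub, hlv, ha.2, sub_zero]
  have hlp : l (v + a) = k := by rw [hl, hlv, ha.2, add_zero]
  have hf : f ⟨v, hv, hlv⟩ = ext f v := (ext_val f ⟨v, hv, hlv⟩).symm
  have h0 : (No l k K a (t : K) * No l k K a (-1)).1 f ⟨v, hv, hlv⟩ = (No l k K a (t : K)).1 ((No l k K a (-1)).1 f) ⟨v, hv, hlv⟩ := rfl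
  have hm1 : (-1 : K) ≠ 0 := neg_ne_zero.2 one_ne_zero
  have hsq := eps_mul_self (K := K) a v
  have hsub : eps K a (v - a) = -eps K a v := by rw [eps_sub_right, eps_self ha.1]; ring
  have hadd : eps K a (v + a) = -eps K a v := by rw [eps_add_right, eps_self ha.1]; ring
  rw [h0, No_apply hn hl hk ha ht, Ho_apply]
  show (if bf a v = 1 then eps K a (v - a) * ((t : K) * ext ((No l k K a (-1)).1 f) (v - a))
      else if bf a v = -1 then eps K a (v + a) * ((t : K)⁻¹ * ext ((No l k K a (-1)).1 f) (v + a)) else (No l k K a (-1)).1 f ⟨v, hv, hlv⟩) = ((t ^ bf a v : Kˣ) : K) * f ⟨v, hv, hlv⟩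
  rcases ha.cases hn hl hk hv hlv with hc | hc | hc
  · have hp : IsR (v + a) ∧ l (v + a) = k := ⟨by rw [add_comm]; exact (isR_add_iff ha.1 hv).2 hc, hlp⟩
    have hb : bf a (v + a) = 1 := by rw [bf_add_right, hc, haa]; norm_num
    rw [if_neg (by rw [hc]; norm_num), if_pos hc, di_ext hn hl hk ha hm1 f hp, if_pos hb, add_sub_cancel_right, hadd, hf, hc, zpow_neg_one, Units.val_inv_eq_inv_val]
    linear_combination ((t : K)⁻¹ * ext f v) * hsq
  · rw [if_neg (by rw [hc]; norm_num), if_neg (by rw [hc]; norm_num), hc, zpow_zero, Units.val_one, one_mul, No_apply hn hl hk ha hm1]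
    show (if bf a v = 1 then _ else if bf a v = -1 then _ else f ⟨v, hv, hlv⟩) = _
    rw [if_neg (by rw [hc]; norm_num), if_neg (by rw [hc]; norm_num)]
  · have hm : IsR (v - a) ∧ l (v - a) = k := ⟨(isR_sub_iff ha.1 hv).2 hc, hlm⟩
    have hb : bf a (v - a) = -1 := by rw [bf_sub_right, hc, haa]; norm_num
    rw [if_pos hc, di_ext hn hl hk ha hm1 f hm, if_neg (by rw [hb]; norm_num), if_pos hb, sub_add_cancel, hsub, hf, hc, zpow_one, inv_neg, inv_one]
    linear_combination ((t : K) * ext f v) * hsq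

/-- Prove `No a t * Ao a u = Ao (-a) (t⁻² u) * No a t` at every `v` by `No_apply`, `Ao_apply` and the case distinction `bf a v = 1, 0, -1`. -/
theorem Ao_con (hn : n ≤ 8) (hl : Addl l) (hk : k ≠ 0) {a : Vec n} (ha : L0 l a) {t : K} (ht : t ≠ 0) (u : K) :
    No l k K a t * Ao l k K a u * (No l k K a t)⁻¹ = Ao l k K (-a) (t⁻¹ * t⁻¹ * u) := by
  rw [mul_inv_eq_iff_eq_mul]
  refine di_eq fun f v => ?_
  obtain ⟨v, hv, hlv⟩ := v
  have haa := isR_bf ha.1
  have hna := ha.neg hl
  have hlm : l (v - a) = k := by rw [hl.sub, hlv, ha.2, sub_zero]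
  have hlp : l (v + a) = k := by rw [hl, hlv, ha.2, add_zero]
  have hf : ∀ g : Rk l k → K, g ⟨v, hv, hlv⟩ = ext g v := fun g => (ext_val g ⟨v, hv, hlv⟩).symm
  have h0 : (No l k K a t * Ao l k K a u).1 f ⟨v, hv, hlv⟩ = (No l k K a t).1 ((Ao l k K a u).1 f) ⟨v, hv, hlv⟩ := rfl
  have h1 : (Ao l k K (-a) (t⁻¹ * t⁻¹ * u) * No l k K a t).1 f ⟨v, hv, hlv⟩ = (Ao l k K (-a) (t⁻¹ * t⁻¹ * u)).1 ((No l k K a t).1 f) ⟨v, hv, hlv⟩ := rfl
  have hR : IsR v ∧ l v = k := ⟨hv, hlv⟩
  rw [h0, h1, hf ((No l k K a t).1 ((Ao l k K a u).1 f)), hf ((Ao l k K (-a) (t⁻¹ * t⁻¹ * u)).1 ((No l k K a t).1 f)), di_ext hn hl hk ha ht _ hR, dh_ext hna, if_pos hR, di_ext hn hl hk ha ht f hR, sub_neg_eq_add, eps_neg_left]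
  rcases ha.cases hn hl hk hv hlv with hc | hc | hc
  · have hp : IsR (v + a) ∧ l (v + a) = k := ⟨by rw [add_comm]; exact (isR_add_iff ha.1 hv).2 hc, hlp⟩
    have hb : bf a (v + a) = 1 := by rw [bf_add_right, hc, haa]; norm_num
    rw [if_neg (by rw [hc]; norm_num), if_pos hc, if_neg (by rw [hc]; norm_num), if_pos hc, dh_ext ha, if_pos hp, di_ext hn hl hk ha ht f hp, if_pos hb, add_sub_cancel_right]
    have e : t⁻¹ * t = 1 := inv_mul_cancel₀ ht
    linear_combination (-(t⁻¹ * u * eps K a (v + a) * eps K a v * ext f v)) * e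
  · have hp : ¬ (IsR (v + a) ∧ l (v + a) = k) := by
      rw [add_comm v a, isR_add_iff ha.1 hv, hc]
      rintro ⟨h, -⟩
      norm_num at h
    have hm : ¬ (IsR (v - a) ∧ l (v - a) = k) := by
      rw [isR_sub_iff ha.1 hv, hc]
      rintro ⟨h, -⟩
      norm_num at h
    rw [if_neg (by rw [hc]; norm_num), if_neg (by rw [hc]; norm_num), if_neg (by rw [hc]; norm_num), if_neg (by rw [hc]; norm_num), dh_ext ha, if_pos hR, ext_not f hm, ext_not _ hp]
    ring
  · have hm : IsR (v - a) ∧ l (v - a) = k := ⟨(isR_sub_iff ha.1 hv).2 hc, hlm⟩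
    have hp : ¬ (IsR (v + a) ∧ l (v + a) = k) := by
      rw [add_comm v a, isR_add_iff ha.1 hv, hc]
      rintro ⟨h, -⟩
      norm_num at h
    have hmm : ¬ (IsR (v - a - a) ∧ l (v - a - a) = k) := by
      rw [isR_sub_iff ha.1 hm.1]
      have e : bf a (v - a) = -1 := by
        rw [bf_sub_right, hc, haa]
        norm_num
      rw [e]
      rintro ⟨h, -⟩
      norm_num at h
    rw [if_pos hc, if_pos hc, dh_ext ha, if_pos hm, ext_not f hmm, ext_not _ hp]
    ring

/-- `Ho a` is multiplicative; `Ho (a + b) = Ho a * Ho b`; the conjugation by `Ho c` (any `c`): both sides at `v` -/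
theorem Ho_mul (a : Vec n) (s t : Kˣ) : Ho l k K a (s * t) = Ho l k K a s * Ho l k K a t := by
  refine di_eq fun f v => ?_
  have h0 : (Ho l k K a s * Ho l k K a t).1 f v = (Ho l k K a s).1 ((Ho l k K a t).1 f) v := rfl
  rw [h0, Ho_apply, Ho_apply, Ho_apply, mul_zpow, Units.val_mul, mul_assoc]

theorem Ho_add (a b : Vec n) (t : Kˣ) : Ho l k K (a + b) t = Ho l k K a t * Ho l k K b t := by
  refine di_eq fun f v => ?_
  have h0 : (Ho l k K a t * Ho l k K b t).1 f v = (Ho l k K a t).1 ((Ho l k K b t).1 f) v := rfl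
  rw [h0, Ho_apply, Ho_apply, Ho_apply, bf_add_left, zpow_add, Units.val_mul, mul_assoc]

theorem Ho_conj {a : Vec n} (ha : L0 l a) (c : Vec n) (s : Kˣ) (t : K) :
    Ho l k K c s * Ao l k K a t * (Ho l k K c s)⁻¹ = Ao l k K a (((s ^ bf c a : Kˣ) : K) * t) := by
  rw [mul_inv_eq_iff_eq_mul]
  refine di_eq fun f v => ?_
  have h0 : (Ho l k K c s * Ao l k K a t).1 f v = (Ho l k K c s).1 ((Ao l k K a t).1 f) v := rfl
  have h1 : (Ao l k K a (((s ^ bf c a : Kˣ) : K) * t) * Ho l k K c s).1 f v = (Ao l k K a (((s ^ bf c a : Kˣ) : K) * t)).1 ((Ho l k K c s).1 f) v := rfl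
  rw [h0, h1, Ho_apply, Ao_apply ha, Ao_apply ha, Ho_apply, di_ho]
  have e : ((s ^ bf c v.1 : Kˣ) : K) = ((s ^ bf c a : Kˣ) : K) * ((s ^ bf c (v.1 - a) : Kˣ) : K) := by
    rw [← Units.val_mul, ← zpow_add, bf_sub_right]
    congr 2
    ring
  rw [e]
  ring
-- END di
end Pool.Agent.ThR
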