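import Pool.Agent.ThK.Rel
import Pool.Agent.ThK.SLn

/-! # Signs and root vectors (MP_3d54b6_al, part D) -/

namespace Pool.Agent.ThR

open ThE ThK

variable {n : ℕ}

/-- `v` is a root vector -/
def IsR (v : Vec n) : Prop := ∑ i, v.2 i = 3 * v.1 ∧ ∑ i, v.2 i ^ 2 = v.1 ^ 2 + 2

instance (v : Vec n) : Decidable (IsR v) := by unfold IsR; infer_instance

variable {K : Type*} [Field K]

/-- the sign in the field -/
def eps (K : Type*) [Field K] (v w : Vec n) : K := ((ep K v w : Kˣ) : K)

theorem eps_add_left (u v w : Vec n) : eps K (u + v) w = eps K u w * eps K v w := by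
  simp only [eps, ep_add_left, Units.val_mul]

theorem eps_add_right (u v w : Vec n) : eps K u (v + w) = eps K u v * eps K u w := by
  simp only [eps, ep_add_right, Units.val_mul]

theorem eps_neg_left (u w : Vec n) : eps K (-u) w = eps K u w := by
  simp only [eps, ep_neg_left]

theorem eps_neg_right (u w : Vec n) : eps K u (-w) = eps K u w := by
  simp only [eps, ep_neg_right]

theorem eps_sub_left (u v w : Vec n) : eps K (u - v) w = eps K u w * eps K v w := by
  rw [sub_eq_add_neg, eps_add_left, eps_neg_left]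

theorem eps_sub_right (u v w : Vec n) : eps K u (v - w) = eps K u v * eps K u w := by
  rw [sub_eq_add_neg, eps_add_right, eps_neg_right]

theorem eps_mul_self (u w : Vec n) : eps K u w * eps K u w = 1 := by
  simp only [eps]
  rw [← Units.val_mul, ep_sq, Units.val_one]

theorem eps_ne_zero (u w : Vec n) : eps K u w ≠ 0 := Units.ne_zero _

theorem eps_self {v : Vec n} (h : IsR v) : eps K v v = -1 := by
  have h1 := ep_self (K := K) (⟨v, h⟩ : Root n)
  simp only [eps]
  rw [h1, Units.val_neg, Units.val_one]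

theorem eps_swap {v w : Vec n} (hv : IsR v) (hw : IsR w) : eps K v w * eps K w v = (((-1 : Kˣ) ^ bf v w : Kˣ) : K) := by
  have h1 := ep_comm (K := K) (⟨v, hv⟩ : Root n) (⟨w, hw⟩ : Root n)
  simp only [eps]
  rw [← Units.val_mul, h1]

theorem eps_swap_neg {v w : Vec n} (hv : IsR v) (hw : IsR w) (h : bf v w = -1) : eps K w v = -eps K v w := by
  have h1 := eps_swap (K := K) hv hw
  rw [h] at h1
  have h2 : (((-1 : Kˣ) ^ (-1 : ℤ) : Kˣ) : K) = -1 := by simp
  rw [h2] at h1
  calc eps K w v = (eps K v w * eps K v w) * eps K w v := by rw [eps_mul_self, one_mul]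
    _ = eps K v w * (eps K v w * eps K w v) := by ring
    _ = -eps K v w := by rw [h1]; ring

theorem eps_swap_zero {v w : Vec n} (hv : IsR v) (hw : IsR w) (h : bf v w = 0) : eps K w v = eps K v w := by
  have h1 := eps_swap (K := K) hv hw
  rw [h, zpow_zero, Units.val_one] at h1
  calc eps K w v = (eps K v w * eps K v w) * eps K w v := by rw [eps_mul_self, one_mul]
    _ = eps K v w * (eps K v w * eps K w v) := by ring
    _ = eps K v w := by rw [h1]; ring

theorem eps_map {L : Type*} [Field L] (f : K →+* L) (u w : Vec n) : f (eps K u w) = eps L u w := by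
  simp only [eps, ep, Units.val_zpow_eq_zpow_val, map_zpow₀, Units.val_neg, Units.val_one, map_neg, map_one]

theorem isR_neg {v : Vec n} (h : IsR v) : IsR (-v) := (-(⟨v, h⟩ : Root n)).2

theorem isR_bf {v : Vec n} (h : IsR v) : bf v v = 2 := bf_root (⟨v, h⟩ : Root n)

theorem isR_iff {v : Vec n} (h : ∑ i, v.2 i = 3 * v.1) : IsR v ↔ bf v v = 2 := by
  refine ⟨isR_bf, fun h2 => ⟨h, ?_⟩⟩
  have h3 := bf_self v
  linarith

theorem isR_cases (hn : n ≤ 8) {a v : Vec n} (ha : IsR a) (hv : IsR v) (h1 : v ≠ a) (h2 : v ≠ -a) :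
    bf a v = -1 ∨ bf a v = 0 ∨ bf a v = 1 := by
  have := bf_cases hn (r := (⟨a, ha⟩ : Root n)) (s := (⟨v, hv⟩ : Root n)) (fun h => h1 (congrArg Subtype.val h))
    (fun h => h2 (congrArg Subtype.val h))
  simpa using this

theorem isR_add_iff {a v : Vec n} (ha : IsR a) (hv : IsR v) : IsR (a + v) ↔ bf a v = -1 := by
  have h1 : ∑ i, (a + v).2 i = 3 * (a + v).1 := by
    simp only [Prod.snd_add, Pi.add_apply, Prod.fst_add, Finset.sum_add_distrib, ha.1, hv.1]; ring
  rw [isR_iff h1, bf_add_left, bf_add_right, bf_add_right, isR_bf ha, isR_bf hv, bf_comm v a]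
  constructor <;> intro h <;> linarith

theorem isR_sub_iff {a v : Vec n} (ha : IsR a) (hv : IsR v) : IsR (v - a) ↔ bf a v = 1 := by
  have h1 : v - a = -a + v := by abel
  rw [h1, isR_add_iff (isR_neg ha) hv, bf_neg_left]
  constructor <;> intro h <;> linarith

end Pool.Agent.ThR
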