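import Pool.Agent.ThR.Prod

/-! # Tables: `SL_3` over the fields with three, four and five elements (MP_3d54b6_al) -/

namespace Pool.Agent.ThS

open Matrix

universe u

/-- `3 × 3` matrices by their entries -/
structure M9 (K : Type u) where
  a : K
  b : K
  c : K
  d : K
  e : K
  f : K
  g : K
  h : K
  i : K
deriving DecidableEq

namespace M9

variable {K : Type u} [CommRing K]

def mul (x y : M9 K) : M9 K :=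
  ⟨x.a * y.a + x.b * y.d + x.c * y.g, x.a * y.b + x.b * y.e + x.c * y.h, x.a * y.c + x.b * y.f + x.c * y.i,
   x.d * y.a + x.e * y.d + x.f * y.g, x.d * y.b + x.e * y.e + x.f * y.h, x.d * y.c + x.e * y.f + x.f * y.i,
   x.g * y.a + x.h * y.d + x.i * y.g, x.g * y.b + x.h * y.e + x.i * y.h, x.g * y.c + x.h * y.f + x.i * y.i⟩

def adj (x : M9 K) : M9 K :=
  ⟨x.e * x.i - x.f * x.h, x.c * x.h - x.b * x.i, x.b * x.f - x.c * x.e,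
   x.f * x.g - x.d * x.i, x.a * x.i - x.c * x.g, x.c * x.d - x.a * x.f,
   x.d * x.h - x.e * x.g, x.b * x.g - x.a * x.h, x.a * x.e - x.b * x.d⟩

def det (x : M9 K) : K := x.a * (x.e * x.i - x.f * x.h) - x.b * (x.d * x.i - x.f * x.g) + x.c * (x.d * x.h - x.e * x.g)

def mat (x : M9 K) : Matrix (Fin 3) (Fin 3) K := !![x.a, x.b, x.c; x.d, x.e, x.f; x.g, x.h, x.i]

theorem mat_mul (x y : M9 K) : (mul x y).mat = x.mat * y.mat := by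
  ext i j
  fin_cases i <;> fin_cases j <;> simp [mat, mul, Matrix.mul_apply, Fin.sum_univ_three]

theorem mat_det (x : M9 K) : x.mat.det = x.det := by
  rw [Matrix.det_fin_three]
  simp [mat, det]
  ring

theorem mat_adj (x : M9 K) (h : x.det = 1) : x.mat * x.adj.mat = 1 := by
  rw [det] at h
  ext i j
  fin_cases i <;> fin_cases j <;> simp [mat, adj, Matrix.mul_apply, Fin.sum_univ_three] <;> first | ring1 | linear_combination h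

/-- `T = (P B P⁻¹) (Q B Q⁻¹)`, `det P = det Q = 1` -/
def Chk (B P Q T : M9 K) : Prop := P.det = 1 ∧ Q.det = 1 ∧ ((P.mul B).mul P.adj).mul ((Q.mul B).mul Q.adj) = T

instance [DecidableEq K] (B P Q T : M9 K) : Decidable (Chk B P Q T) := by
  unfold Chk
  infer_instance

end M9

open M9

theorem two_of_chk {K : Type u} [Field K] {B T : SpecialLinearGroup (Fin 3) K} {b t P Q : M9 K} (hB : B.1 = b.mat) (hT : T.1 = t.mat) (h : Chk b P Q t) : Two B T := by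
  obtain ⟨h1, h2, h3⟩ := h
  let P' : SpecialLinearGroup (Fin 3) K := ⟨P.mat, by rw [mat_det, h1]⟩
  let Q' : SpecialLinearGroup (Fin 3) K := ⟨Q.mat, by rw [mat_det, h2]⟩
  have hP : (P'⁻¹).1 = P.adj.mat := by
    have h4 : P'.1 * P.adj.mat = 1 := mat_adj P h1
    have h5 : (P'⁻¹).1 * P'.1 = 1 := by
      change (P'⁻¹ * P').1 = 1
      rw [inv_mul_cancel]
      rfl
    calc (P'⁻¹).1 = (P'⁻¹).1 * (P'.1 * P.adj.mat) := by rw [h4, mul_one]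
      _ = P.adj.mat := by rw [← mul_assoc, h5, one_mul]
  have hQ : (Q'⁻¹).1 = Q.adj.mat := by
    have h4 : Q'.1 * Q.adj.mat = 1 := mat_adj Q h2
    have h5 : (Q'⁻¹).1 * Q'.1 = 1 := by
      change (Q'⁻¹ * Q').1 = 1
      rw [inv_mul_cancel]
      rfl
    calc (Q'⁻¹).1 = (Q'⁻¹).1 * (Q'.1 * Q.adj.mat) := by rw [h4, mul_one]
      _ = Q.adj.mat := by rw [← mul_assoc, h5, one_mul]
  refine ⟨P', Q', Subtype.ext ?_⟩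
  change T.1 = P'.1 * B.1 * (P'⁻¹).1 * (Q'.1 * B.1 * (Q'⁻¹).1)
  rw [hP, hQ, hB, hT, ← h3]
  simp only [mat_mul]
  rfl

/-- `C3 a b` -/
def c9 {K : Type u} [CommRing K] (a b : K) : M9 K := ⟨0, 0, 1, 1, 0, -b, 0, 1, a⟩

/-- `D3 t` (`s = t⁻¹`) -/
def d9 {K : Type u} [CommRing K] (t s : K) : M9 K := ⟨t, 0, 0, 0, t, 0, 0, 1, s * s⟩

/-- from the tables to all non scalar matrices -/
theorem two_of_tables {K : Type u} [Field K] {B : SpecialLinearGroup (Fin 3) K} {b : M9 K} (hB : B.1 = b.mat)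
    (hc : ∀ c : Kˣ, ∃ D : Matrix (Fin 3) (Fin 3) K, D.det = (c : K) ∧ B.1 * D = D * B.1) (h1 : ∀ x y : K, ∃ P Q, Chk b P Q (c9 x y)) (h2 : ∀ t s : K, t * s = 1 → ∃ P Q, Chk b P Q (d9 t s))
    (M : SpecialLinearGroup (Fin 3) K) (hM : NSc M) : Two B M := by
  refine two_of_tab hc (fun x y T hT => ?_) (fun t T ht hT => ?_) M hM
  · obtain ⟨P, Q, h⟩ := h1 x y
    exact two_of_chk (t := c9 x y) hB (hT.trans rfl) h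
  · obtain ⟨P, Q, h⟩ := h2 t t⁻¹ (mul_inv_cancel₀ ht)
    exact two_of_chk (t := d9 t t⁻¹) hB (hT.trans rfl) h

/-! ## Five elements -/

def t5 : List (M9 (ZMod 5) × M9 (ZMod 5)) := [
  (⟨1, 1, 0, 4, 0, 0, 0, 0, 1⟩, ⟨1, 0, 0, 1, 1, 1, 4, 4, 0⟩),
  (⟨1, 3, 0, 0, 1, 2, 0, 0, 1⟩, ⟨1, 4, 3, 3, 3, 0, 0, 0, 1⟩),
  (⟨1, 1, 0, 0, 1, 0, 0, 2, 1⟩, ⟨0, 0, 1, 0, 1, 2, 4, 4, 1⟩),
  (⟨1, 3, 0, 1, 4, 0, 0, 0, 1⟩, ⟨1, 0, 0, 4, 4, 4, 0, 2, 1⟩),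
  (⟨1, 1, 0, 0, 1, 0, 3, 3, 1⟩, ⟨0, 0, 1, 3, 1, 1, 4, 0, 3⟩),
  (⟨1, 1, 1, 0, 1, 0, 0, 0, 1⟩, ⟨1, 0, 3, 0, 1, 0, 1, 4, 4⟩),
  (⟨1, 1, 4, 0, 1, 0, 0, 0, 1⟩, ⟨1, 2, 0, 1, 3, 4, 2, 1, 4⟩),
  (⟨1, 1, 2, 0, 1, 0, 0, 0, 1⟩, ⟨0, 3, 0, 3, 2, 0, 4, 3, 1⟩),
  (⟨1, 1, 0, 0, 1, 0, 0, 0, 1⟩, ⟨1, 4, 0, 1, 0, 0, 4, 0, 1⟩),
  (⟨1, 4, 0, 0, 1, 0, 0, 0, 1⟩, ⟨4, 1, 1, 3, 1, 1, 3, 0, 1⟩),
  (⟨1, 0, 0, 0, 1, 0, 0, 1, 1⟩, ⟨1, 0, 0, 4, 1, 1, 4, 0, 1⟩),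
  (⟨1, 1, 0, 0, 1, 0, 0, 3, 1⟩, ⟨2, 3, 2, 2, 1, 2, 2, 0, 3⟩),
  (⟨1, 0, 0, 0, 1, 0, 0, 2, 1⟩, ⟨1, 3, 3, 0, 1, 0, 3, 0, 0⟩),
  (⟨1, 2, 0, 0, 1, 4, 0, 0, 1⟩, ⟨1, 4, 1, 0, 2, 1, 0, 3, 2⟩),
  (⟨1, 2, 0, 4, 4, 0, 0, 0, 1⟩, ⟨1, 0, 0, 3, 3, 4, 0, 3, 1⟩),
  (⟨1, 0, 0, 0, 1, 0, 0, 4, 1⟩, ⟨4, 0, 0, 4, 1, 1, 1, 0, 4⟩),
  (⟨1, 2, 0, 0, 1, 0, 0, 1, 1⟩, ⟨1, 2, 1, 0, 1, 1, 3, 3, 1⟩),
  (⟨1, 0, 0, 0, 1, 0, 0, 3, 1⟩, ⟨3, 2, 3, 1, 1, 1, 1, 4, 2⟩),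
  (⟨1, 4, 0, 3, 3, 0, 0, 0, 1⟩, ⟨1, 2, 4, 0, 1, 1, 0, 1, 2⟩),
  (⟨1, 3, 0, 3, 0, 0, 0, 0, 1⟩, ⟨4, 3, 0, 1, 1, 2, 2, 2, 0⟩),
  (⟨1, 3, 0, 0, 1, 0, 0, 0, 1⟩, ⟨1, 1, 2, 1, 1, 4, 0, 2, 4⟩),
  (⟨1, 1, 0, 1, 2, 0, 0, 0, 1⟩, ⟨0, 0, 1, 0, 1, 0, 4, 2, 1⟩),
  (⟨1, 2, 0, 0, 1, 0, 0, 0, 1⟩, ⟨1, 2, 4, 4, 4, 1, 0, 3, 1⟩),
  (⟨1, 1, 0, 0, 1, 0, 0, 4, 1⟩, ⟨1, 1, 3, 0, 1, 0, 0, 3, 1⟩),
  (⟨1, 1, 0, 2, 3, 0, 0, 0, 1⟩, ⟨0, 0, 1, 0, 1, 0, 4, 3, 1⟩)]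

def d5 : List (M9 (ZMod 5) × M9 (ZMod 5)) := [
  (⟨1, 1, 0, 3, 4, 0, 0, 0, 1⟩, ⟨1, 2, 0, 3, 2, 3, 3, 1, 1⟩),
  (⟨1, 0, 0, 0, 1, 0, 0, 1, 1⟩, ⟨1, 2, 1, 0, 1, 1, 4, 3, 0⟩),
  (⟨1, 0, 0, 0, 1, 0, 0, 1, 1⟩, ⟨1, 2, 3, 3, 4, 0, 0, 2, 1⟩),
  (⟨1, 0, 0, 2, 1, 0, 0, 0, 1⟩, ⟨0, 4, 0, 1, 4, 4, 0, 0, 1⟩)]


def b5 : M9 (ZMod 5) := ⟨0, 0, 1, 1, 0, 4, 0, 1, 0⟩

theorem tab5 : ∀ x y : ZMod 5, Chk b5 (t5.getD (5 * x.val + y.val) (b5, b5)).1 (t5.getD (5 * x.val + y.val) (b5, b5)).2 (c9 x y) := by decide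

theorem tab5' : ∀ t s : ZMod 5, t * s = 1 → Chk b5 (d5.getD (t.val - 1) (b5, b5)).1 (d5.getD (t.val - 1) (b5, b5)).2 (d9 t s) := by decide

/-! ## Three elements -/

def t3 : List (M9 (ZMod 3) × M9 (ZMod 3)) := [
  (⟨1, 1, 2, 0, 1, 0, 0, 0, 1⟩, ⟨1, 1, 2, 0, 1, 2, 1, 1, 0⟩),
  (⟨1, 0, 0, 1, 1, 0, 0, 0, 1⟩, ⟨1, 2, 1, 1, 0, 2, 0, 0, 1⟩),
  (⟨1, 1, 0, 0, 1, 0, 0, 0, 1⟩, ⟨1, 0, 1, 0, 2, 2, 0, 1, 0⟩),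
  (⟨1, 2, 0, 0, 1, 0, 0, 0, 1⟩, ⟨1, 1, 1, 0, 1, 0, 2, 2, 0⟩),
  (⟨1, 0, 0, 0, 1, 0, 0, 0, 1⟩, ⟨1, 2, 1, 1, 0, 2, 0, 0, 1⟩),
  (⟨1, 0, 1, 0, 1, 0, 0, 0, 1⟩, ⟨1, 0, 2, 1, 1, 2, 0, 2, 1⟩),
  (⟨1, 1, 0, 0, 1, 2, 0, 0, 1⟩, ⟨1, 2, 0, 2, 2, 2, 0, 2, 2⟩),
  (⟨1, 1, 0, 0, 1, 0, 0, 0, 1⟩, ⟨1, 1, 1, 2, 0, 2, 2, 2, 0⟩),
  (⟨1, 2, 1, 0, 1, 0, 0, 0, 1⟩, ⟨1, 1, 2, 1, 2, 0, 2, 0, 0⟩)]

def d3 : List (M9 (ZMod 3) × M9 (ZMod 3)) := [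
  (⟨1, 1, 0, 1, 2, 0, 0, 0, 1⟩, ⟨2, 2, 0, 0, 1, 0, 1, 0, 2⟩),
  (⟨1, 0, 2, 0, 1, 0, 0, 0, 1⟩, ⟨1, 2, 2, 2, 2, 1, 2, 1, 2⟩)]


def b3 : M9 (ZMod 3) := ⟨1, 0, 0, 1, 1, 0, 0, 1, 1⟩

theorem tab3 : ∀ x y : ZMod 3, Chk b3 (t3.getD (3 * x.val + y.val) (b3, b3)).1 (t3.getD (3 * x.val + y.val) (b3, b3)).2 (c9 x y) := by decide

theorem tab3' : ∀ t s : ZMod 3, t * s = 1 → Chk b3 (d3.getD (t.val - 1) (b3, b3)).1 (d3.getD (t.val - 1) (b3, b3)).2 (d9 t s) := by decide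


theorem cent_scalar {K : Type u} [Field K] (B : Matrix (Fin 3) (Fin 3) K) (c : K) : (c • (1 : Matrix (Fin 3) (Fin 3) K)).det = c ^ 3 ∧ B * (c • (1 : Matrix (Fin 3) (Fin 3) K)) = (c • (1 : Matrix (Fin 3) (Fin 3) K)) * B := by
  constructor
  · rw [Matrix.det_smul, Matrix.det_one, mul_one, Fintype.card_fin]
  · rw [Matrix.mul_smul, Matrix.smul_mul, mul_one, one_mul]

theorem b5_det : b5.det = 1 := by decide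

theorem b3_det : b3.det = 1 := by decide

theorem cube5 : ∀ c : ZMod 5, ∃ d : ZMod 5, d ^ 3 = c := by decide

theorem cube3 : ∀ c : ZMod 3, ∃ d : ZMod 3, d ^ 3 = c := by decide

theorem cube3' : ∀ c : ZMod 3, c ^ 3 = 1 → c = 1 := by decide

theorem tab3'' : Chk b3 ⟨1, 0, 0, 0, 1, 0, 0, 0, 1⟩ ⟨2, 0, 0, 2, 1, 0, 1, 0, 2⟩ ⟨1, 0, 0, 0, 1, 0, 0, 0, 1⟩ := by decide

instance fact5 : Fact (Nat.Prime 5) := ⟨by norm_num⟩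

/-- the class for five elements -/
def B5 : SpecialLinearGroup (Fin 3) (ZMod 5) := ⟨b5.mat, by rw [mat_det]; exact b5_det⟩

theorem two5 (M : SpecialLinearGroup (Fin 3) (ZMod 5)) (hM : NSc M) : Two B5 M := by
  refine two_of_tables (b := b5) rfl (fun c => ?_) (fun x y => ⟨_, _, tab5 x y⟩) (fun t s h => ⟨_, _, tab5' t s h⟩) M hM
  obtain ⟨d, hd⟩ := cube5 (c : ZMod 5)
  obtain ⟨h1, h2⟩ := cent_scalar B5.1 d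
  exact ⟨_, h1.trans hd, h2⟩

/-- the class for three elements -/
def B3 : SpecialLinearGroup (Fin 3) (ZMod 3) := ⟨b3.mat, by rw [mat_det]; exact b3_det⟩

theorem two3 (M : SpecialLinearGroup (Fin 3) (ZMod 3)) : Two B3 M := by
  by_cases hM : NSc M
  · refine two_of_tables (b := b3) rfl (fun c => ?_) (fun x y => ⟨_, _, tab3 x y⟩) (fun t s h => ⟨_, _, tab3' t s h⟩) M hM
    obtain ⟨d, hd⟩ := cube3 (c : ZMod 3)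
    obtain ⟨h1, h2⟩ := cent_scalar B3.1 d
    exact ⟨_, h1.trans hd, h2⟩
  · simp only [NSc, not_forall, not_not] at hM
    obtain ⟨c, hc⟩ := hM
    have h1 : c ^ 3 = 1 := by
      rw [← (cent_scalar B3.1 c).1, ← hc]
      exact M.2
    rw [cube3' c h1, one_smul] at hc
    refine two_of_chk (b := b3) rfl ?_ tab3''
    rw [hc]
    ext i j
    fin_cases i <;> fin_cases j <;> rfl


/-! ## Four elements -/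

/-- the field with four elements: `(a, b) = a + b ω`, `ω ^ 2 = ω + 1` -/
structure F4 where
  a : ZMod 2
  b : ZMod 2
deriving DecidableEq, Fintype

namespace F4

instance : Zero F4 := ⟨⟨0, 0⟩⟩
instance : One F4 := ⟨⟨1, 0⟩⟩
instance : Add F4 := ⟨fun x y => ⟨x.a + y.a, x.b + y.b⟩⟩
instance : Neg F4 := ⟨fun x => x⟩
instance : Sub F4 := ⟨fun x y => ⟨x.a + y.a, x.b + y.b⟩⟩
instance : Mul F4 := ⟨fun x y => ⟨x.a * y.a + x.b * y.b, x.a * y.b + x.b * y.a + x.b * y.b⟩⟩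
instance : Inv F4 := ⟨fun x => x * x⟩

instance : Field F4 where
  add_assoc := by decide
  zero_add := by decide
  add_zero := by decide
  add_comm := by decide
  nsmul := nsmulRec
  zsmul := zsmulRec
  neg_add_cancel := by decide
  sub_eq_add_neg := by decide
  mul_assoc := by decide
  mul_comm := by decide
  one_mul := by decide
  mul_one := by decide
  left_distrib := by decide
  right_distrib := by decide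
  zero_mul := by decide
  mul_zero := by decide
  exists_pair_ne := ⟨0, 1, by decide⟩
  mul_inv_cancel := by decide
  inv_zero := by decide
  nnqsmul := _
  nnqsmul_def := fun _ _ => rfl
  qsmul := _
  qsmul_def := fun _ _ => rfl

/-- `ω` -/
def w : F4 := ⟨0, 1⟩

/-- `ω + 1` -/
def v : F4 := ⟨1, 1⟩

theorem card : Fintype.card F4 = 4 := by decide

/-- the number `0, .., 3` of an element -/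
def ix (x : F4) : ℕ := x.a.val + 2 * x.b.val

end F4

open F4

def t4 : List (M9 F4 × M9 F4) := [
  (⟨1, 1, 0, 1, 0, 0, 0, 0, 1⟩, ⟨0, 1, 0, 1, 0, 0, 0, 0, 1⟩),
  (⟨1, 1, 0, 0, 1, 0, w, w, 1⟩, ⟨1, 1, 0, v, w, v, v, v, 1⟩),
  (⟨1, 1, 0, 0, 1, v, 0, 0, 1⟩, ⟨1, 0, 0, w, 1, 1, w, 1, 0⟩),
  (⟨1, 1, 0, 0, 1, w, 0, 0, 1⟩, ⟨1, 0, 0, v, 1, 1, v, 1, 0⟩),
  (⟨1, 1, 0, 0, 1, 0, 0, 0, 1⟩, ⟨1, 0, 0, 0, 0, 1, 0, 1, 1⟩),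
  (⟨1, 0, 1, w, 1, w, 0, 0, 1⟩, ⟨1, 1, v, v, 1, v, 0, v, 1⟩),
  (⟨1, w, 0, 1, v, 0, 0, 0, 1⟩, ⟨0, v, 0, w, 1, 1, 0, 0, 1⟩),
  (⟨1, v, 0, 1, w, 0, 0, 0, 1⟩, ⟨0, w, 0, v, 1, 1, 0, 0, 1⟩),
  (⟨1, 1, 0, w, v, 0, 0, 0, 1⟩, ⟨1, w, w, w, 1, 0, 0, 1, 1⟩),
  (⟨1, v, 0, 0, 1, 0, 0, w, 1⟩, ⟨0, 1, w, 1, 1, v, v, v, v⟩),
  (⟨1, w, 0, 0, 1, 0, 0, 0, 1⟩, ⟨1, 1, v, 0, 1, 0, v, v, v⟩),
  (⟨1, 0, 0, 0, 1, 0, 0, w, 1⟩, ⟨1, 1, 0, 0, w, w, 0, v, 0⟩),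
  (⟨1, 1, 0, v, w, 0, 0, 0, 1⟩, ⟨1, v, v, v, 1, 0, 0, 1, 1⟩),
  (⟨1, w, 0, 0, 1, 0, 0, v, 1⟩, ⟨0, 1, v, 1, 1, w, w, w, w⟩),
  (⟨1, 0, 0, 0, 1, 0, 0, v, 1⟩, ⟨1, 1, 0, 0, v, v, 0, w, 0⟩),
  (⟨1, v, 0, 0, 1, 0, 0, 0, 1⟩, ⟨1, 1, w, 0, 1, 0, w, w, w⟩)]

def d4 : List (M9 F4 × M9 F4) := [
  (⟨1, 0, 0, 0, 1, 0, 0, 0, 1⟩, ⟨1, 1, 0, 0, 1, 0, 1, 1, 1⟩),
  (⟨1, v, 0, 1, w, 0, 0, 0, 1⟩, ⟨1, 1, 1, v, w, v, 0, 0, 1⟩),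
  (⟨1, w, 0, 1, v, 0, 0, 0, 1⟩, ⟨1, 1, 1, w, v, w, 0, 0, 1⟩)]


def b4 : M9 F4 := ⟨0, 0, 1, 1, 0, 1, 0, 1, 0⟩

theorem b4_det : b4.det = 1 := by decide

theorem tab4 : ∀ x y : F4, Chk b4 (t4.getD (4 * x.ix + y.ix) (b4, b4)).1 (t4.getD (4 * x.ix + y.ix) (b4, b4)).2 (c9 x y) := by decide

theorem tab4' : ∀ t s : F4, t * s = 1 → Chk b4 (d4.getD (t.ix - 1) (b4, b4)).1 (d4.getD (t.ix - 1) (b4, b4)).2 (d9 t s) := by decide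

/-- elements of the centralizer with given determinant: `t - B` -/
def e4 (c : F4) : M9 F4 := if c = 1 then ⟨1, 0, 0, 0, 1, 0, 0, 0, 1⟩ else ⟨c, 0, 1, 1, c, 1, 0, 1, c⟩

theorem cen4 : ∀ c : F4, c ≠ 0 → (e4 c).det = c ∧ b4.mul (e4 c) = (e4 c).mul b4 := by decide

/-- the class for four elements -/
def B4 : SpecialLinearGroup (Fin 3) F4 := ⟨b4.mat, by rw [mat_det]; exact b4_det⟩

theorem two4 (M : SpecialLinearGroup (Fin 3) F4) (hM : NSc M) : Two B4 M := by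
  refine two_of_tables (b := b4) rfl (fun c => ?_) (fun x y => ⟨_, _, tab4 x y⟩) (fun t s h => ⟨_, _, tab4' t s h⟩) M hM
  obtain ⟨h1, h2⟩ := cen4 (c : F4) c.ne_zero
  refine ⟨(e4 c).mat, by rw [mat_det, h1], ?_⟩
  change b4.mat * (e4 c).mat = (e4 c).mat * b4.mat
  rw [← mat_mul, ← mat_mul, h2]

end Pool.Agent.ThS
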